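import Pool.Agent.P.MP_ecb6bc_gt.Curve1

/-! The logarithmic derivative of the uniformizer. -/

set_option autoImplicit false
set_option linter.unusedSectionVars false
set_option linter.unusedVariables false

noncomputable section

namespace BiH

theorem curve {L : Type} [Field L] [Algebra ℂ L] (D : Derivation ℂ L L) (κ : L) (hκ : D κ ≠ 0)
    (hfin : FiniteDimensional (IntermediateField.adjoin ℂ ({κ} : Set L)) L) :
    ∃ (P : Ord L) (ε : L) (σ : ℤ), P.Ex (-σ) ε ∧
      (∀ (n : ℤ) (f : L), P.Ex n f → P.G (n - σ + 1) (D f - n * ε * f)) ∧ ¬ P.G 0 κ := by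
  obtain ⟨P, hP, hres, c, hc⟩ := exists_place D κ hκ hfin
  have hτ := P.τ_ne
  have hτ1 : P.G 1 P.τ := Ord.Ex.tau.1
  have hτ0 : P.G 0 P.τ := hτ1.mono (by omega)
  have hexp : ∀ (n : ℕ) (x : L), P.G 0 x → ∃ u y : L, P.G 0 u ∧ P.G 0 y ∧
      D x = u * D P.τ + P.τ ^ n * D y := by
    intro n
    induction n with
    | zero => exact fun x hx => ⟨0, x, Ord.G.zero _, hx, by simp⟩
    | succ n ih =>
      intro x hx
      obtain ⟨u, y, hu, hy, e⟩ := ih x hx
      obtain ⟨a, ha⟩ := hres y hy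
      have hy' : P.G 0 (P.τ⁻¹ * (y - algebraMap ℂ L a)) :=
        Ord.Ex.tau.inv.1.mul' ha (by omega)
      refine ⟨u + P.τ ^ n * (P.τ⁻¹ * (y - algebraMap ℂ L a)), P.τ⁻¹ * (y - algebraMap ℂ L a),
        hu.add (((hτ0.pow n).mono (by simp)).lmul hy'), hy', ?_⟩
      have e2 : y = algebraMap ℂ L a + P.τ * (P.τ⁻¹ * (y - algebraMap ℂ L a)) := by
        field_simp
        ring
      have e3 : D y = P.τ * D (P.τ⁻¹ * (y - algebraMap ℂ L a)) +
          (P.τ⁻¹ * (y - algebraMap ℂ L a)) * D P.τ := by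
        conv_lhs => rw [e2]
        rw [map_add, Derivation.map_algebraMap, zero_add, Derivation.leibniz]
        simp only [smul_eq_mul]
      rw [e, e3]
      ring
  have hbig : ∀ (n : ℕ) (y : L), P.G 0 y → P.G (n + c) (P.τ ^ n * D y) := fun n y hy =>
    (hτ1.pow n).mul' (hc y hy) (by simp)
  have hκ0 : κ ≠ 0 := by
    rintro rfl
    exact hκ (map_zero D)
  have hκi : P.G 0 κ⁻¹ := by
    obtain ⟨k, hk, hex⟩ := Ord.exists_ex_lt hP
    exact hex.inv.1.mono (by omega)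
  have hDτ : D P.τ ≠ 0 := by
    intro h0
    have h1 : D κ⁻¹ ≠ 0 := by
      rw [Derivation.leibniz_inv]
      simp [hκ, hκ0]
    obtain ⟨k, hk⟩ := Ord.exists_ex (P := P) h1
    obtain ⟨u, y, hu, hy, e⟩ := hexp (k + 1 - c).toNat _ hκi
    rw [h0, mul_zero, zero_add] at e
    have := hk.le (e ▸ hbig (k + 1 - c).toNat y hy)
    omega
  obtain ⟨k, hk⟩ := Ord.exists_ex (P := P) hDτ
  have hd : ∀ u, P.G 0 u → P.G k (1 * D u) := by
    intro x hx
    obtain ⟨u, y, hu, hy, e⟩ := hexp (k - c).toNat _ hx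
    rw [one_mul, e]
    exact (hu.lmul hk.1).add ((hbig _ y hy).mono (by omega))
  refine ⟨P, D P.τ / P.τ, 1 - k, ?_, ?_, hP⟩
  · exact (hk.mul' Ord.Ex.tau.inv (by ring)).congr (div_eq_mul_inv _ _)
  · intro n f hf
    have := Ord.Ex.deriv D 1 k hd hf
    rw [one_mul] at this
    exact this.mono (by omega)

end BiH
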