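import Pool.Agent.P.MP_ecb6bc_gt.SDefs

/-! Pole of the curvature: smaller pole order, slow derivation. -/

set_option autoImplicit false
set_option linter.unusedSectionVars false
set_option linter.unusedVariables false

noncomputable section

namespace BiH

theorem val_b {L : Type} [Field L] [Algebra ℂ L] (P : Ord L) (D : Derivation ℂ L L) (ε : L) (σ : ℤ)
    (hε : P.Ex (-σ) ε)
    (hP : ∀ (n : ℤ) (f : L), P.G n f → P.G (n - σ + 1) (D f - n * ε * f))
    {J : Type} [Fintype J] {μ : J → ℕ} {ω lam : J → L} {κ : L} (hS : Sys D μ ω lam κ)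
    (a b : ℤ) (hb : 0 < b) (hba : b < a) (hσ : σ < a) (hω : ∀ j, P.G (-a) (ω j))
    (hl : ∀ j, P.G (-a) (lam j)) (hκ : P.Ex (-b) κ)
    (hex : ∃ j, P.Ex (-a) (ω j) ∨ P.Ex (-a) (lam j)) : False := by
  classical
  have h1 : ∀ j, P.G (-a + 1) (ω j) := by
    intro j
    by_contra hc
    have hE : P.Ex (-a) (ω j) := ⟨hω j, hc⟩
    have h2 := (hP (-a) (ω j) (hω j)).mono (k := -a + -a + 1) (by omega)
    have h3 : P.G (-a + -a + 1) ((a : L) * ε * ω j) :=
      ((Ord.G.int a).lmul hε.1).mul' (hω j) (by omega)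
    have h4 : P.G (-a + -a + 1) (κ * lam j) := hκ.1.mul' (hl j) (by omega)
    have h5 : P.G (-a + -a + 1) (1 : L) := Ord.G.one.mono (by omega)
    refine (hE.mul hE).2 ((((h3.sub h2).sub h4).sub h5).congr ?_)
    rw [hS.dω]
    push_cast
    ring
  obtain ⟨j0, hj0⟩ : ∃ j, P.Ex (-a) (lam j) := by
    obtain ⟨j, hj | hj⟩ := hex
    · exact absurd (h1 j) hj.2
    · exact ⟨j, hj⟩
  have hE : P.Ex (-σ + -σ) (((a * (σ - a) : ℤ) : L) * (ε * ε)) :=
    (Ord.Ex.int (mul_ne_zero (by omega) (by omega))).mul' (hε.mul hε) (by omega)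
  have h2 : ∀ j, P.Ex (-a) (lam j) → -σ + -σ = -b + -a ∧
      P.G (-b + -a + 1) (κ * lam j - ((a * (σ - a) : ℤ) : L) * (ε * ε)) := by
    intro j hj
    have k1 := hP (-a) (lam j) (hl j)
    have k2 : P.Ex (-a) (κ - lam j) :=
      hj.neg.of_sub ((hκ.1.mono (k := -a + 1) (by omega)).congr (by ring))
    have k3 : P.G (-a - σ + 1) ((a : L) * ε * κ) :=
      ((Ord.G.int a).lmul hε.1).mul' hκ.1 (by omega)
    have k4 : P.G (-σ + 1) (ω j - (a : L) * ε) := by
      refine Ord.G.of_mul k2 (((k1.sub k3).mono (by omega)).congr ?_)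
      rw [hS.dl]
      push_cast
      ring
    have k5 : P.G (-σ) (ω j) :=
      ((k4.mono (by omega)).add ((Ord.G.int a).lmul hε.1)).congr (by ring)
    have k6 := (hP (-σ) (ω j) k5).mono (k := -σ + -σ + 1) (by omega)
    have k7 : P.G (-σ + -σ + 1) ((ω j - (a : L) * ε) *
        (((σ - 2 * a : ℤ) : L) * ε - (ω j - (a : L) * ε))) :=
      k4.mul' (((Ord.G.int _).lmul hε.1).sub (k4.mono (by omega))) (by omega)
    have k8 : P.G (-σ + -σ + 1) (κ * lam j + 1 - ((a * (σ - a) : ℤ) : L) * (ε * ε)) := by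
      refine (k7.sub k6).congr ?_
      rw [hS.dω]
      push_cast
      ring
    have k9 : P.G (-b + -a + 1) (1 : L) := Ord.G.one.mono (by omega)
    have k10 : P.Ex (-b + -a) (κ * lam j + 1) := (hκ.mul hj).of_sub (k9.congr (by ring))
    have k11 := (hE.of_sub k8).unique k10
    refine ⟨k11, ?_⟩
    rw [k11] at k8
    exact (k8.sub k9).congr (by ring)
  have h3 : ∀ j, P.G (-b + -a + 1) ((μ j : L) * (κ * lam j) -
      ((if P.Ex (-a) (lam j) then μ j else 0 : ℕ) : L) *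
        (((a * (σ - a) : ℤ) : L) * (ε * ε))) := by
    intro j
    by_cases hj : P.Ex (-a) (lam j)
    · rw [if_pos hj]
      exact ((Ord.G.nat (μ j)).lmul (h2 j hj).2).congr (by ring)
    · rw [if_neg hj]
      have k1 : P.G (-a + 1) (lam j) := by
        by_contra hc
        exact hj ⟨hl j, hc⟩
      have k2 : P.G (-b + -a + 1) (κ * lam j) := hκ.1.mul' k1 (by omega)
      exact ((Ord.G.nat (μ j)).lmul k2).congr (by simp)
  have h4 := Ord.G.sum Finset.univ (fun j _ => h3 j)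
  rw [Finset.sum_sub_distrib, ← Finset.sum_mul, ← Nat.cast_sum] at h4
  have h5 : ∑ j, (μ j : L) * (κ * lam j) = -3 * (κ * κ) := by
    have e : ∑ j, (μ j : L) * (κ * lam j) = κ * ∑ j, (μ j : L) * lam j := by
      rw [Finset.mul_sum]
      exact Finset.sum_congr rfl (fun j _ => by ring)
    rw [e, hS.tr]
    ring
  rw [h5] at h4
  have h6 : (∑ j, if P.Ex (-a) (lam j) then μ j else 0 : ℕ) ≠ 0 := by
    intro h0
    have h7 := Finset.sum_eq_zero_iff.1 h0 j0 (Finset.mem_univ _)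
    rw [if_pos hj0] at h7
    exact (hS.pos j0).ne' h7
  have h7 : P.G (-b + -a + 1) (((-3 : ℤ) : L) * (κ * κ)) :=
    (Ord.G.int _).lmul (hκ.1.mul' hκ.1 (by omega))
  have h8 := (Ord.Ex.nat (P := P) h6).mul' hE (l := -b + -a) (by rw [(h2 j0 hj0).1]; omega)
  refine h8.2 ((h7.sub h4).congr ?_)
  push_cast
  ring

end BiH
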