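import Pool.Agent.P.MP_ecb6bc_gt.SDefs

/-! Pole of the curvature: smaller pole order, fast derivation. -/

set_option autoImplicit false
set_option linter.unusedSectionVars false
set_option linter.unusedVariables false

noncomputable section

namespace BiH

theorem val_c {L : Type} [Field L] [Algebra ℂ L] (P : Ord L) (D : Derivation ℂ L L) (ε : L) (σ : ℤ)
    (hε : P.Ex (-σ) ε)
    (hP : ∀ (n : ℤ) (f : L), P.G n f → P.G (n - σ + 1) (D f - n * ε * f))
    {J : Type} [Fintype J] {μ : J → ℕ} {ω lam : J → L} {κ : L} (hS : Sys D μ ω lam κ)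
    (b : ℤ) (hb : 0 < b) (hba : b < σ) (hω : ∀ j, P.G (-σ) (ω j))
    (hl : ∀ j, P.G (-σ) (lam j)) (hκ : P.Ex (-b) κ)
    (hex : ∃ j, P.Ex (-σ) (ω j) ∨ P.Ex (-σ) (lam j)) : False := by
  classical
  have hκ1 := hκ.1
  have he : P.Ex (-σ) ((σ : L) * ε) := (Ord.Ex.int (by omega)).mul' hε (by ring)
  have h1 : ∀ j, P.G (-σ + (-σ + 1)) (((σ : L) * ε - ω j) * ω j) := by
    intro j
    have h := hP _ _ (hω j)
    rw [hS.dω] at h
    exact (((h.mono (by omega)).add (hκ1.mul' (hl j) (by omega))).add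
      (Ord.G.one.mono (by omega))).congr (by push_cast; ring)
  have h2 : ∀ j, P.G (-σ + (-σ + 1)) (((σ : L) * ε - ω j) * lam j) := by
    intro j
    have h := hP _ _ (hl j)
    rw [hS.dl] at h
    exact ((h.mono (by omega)).sub (hκ1.mul' (hω j) (by omega))).congr (by push_cast; ring)
  have h3 : ∀ j, ¬ P.G (-σ + 1) ((σ : L) * ε - ω j) →
      P.G (-σ + 1) (ω j) ∧ P.G (-σ + 1) (lam j) := by
    intro j hj
    have hx : P.Ex (-σ) ((σ : L) * ε - ω j) := ⟨he.1.sub (hω j), hj⟩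
    exact ⟨Ord.G.of_mul hx (h1 j), Ord.G.of_mul hx (h2 j)⟩
  obtain ⟨j₁, hj₁⟩ : ∃ j, P.G (-σ + 1) ((σ : L) * ε - ω j) := by
    obtain ⟨j, hj⟩ := hex
    refine ⟨j, ?_⟩
    by_contra hc
    rcases hj with hj | hj
    · exact hj.2 (h3 j hc).1
    · exact hj.2 (h3 j hc).2
  have h4 : ∀ j, ¬ P.G (-σ + 1) ((σ : L) * ε - ω j) → P.G 0 (ω j) ∧ P.G 0 (lam j) := by
    intro j hj
    have key : ∀ n : ℤ, -σ + 1 ≤ n → n ≤ 0 → P.G n (ω j) ∧ P.G n (lam j) := by
      intro n hn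
      induction n, hn using Int.leInduction with
      | base => exact fun _ => h3 j hj
      | succ n hn ih =>
        intro hn0
        obtain ⟨i1, i2⟩ := ih (by omega)
        have hx : P.Ex (-σ) ((n : L) * ε) := (Ord.Ex.int (by omega)).mul' hε (by ring)
        have a1 := hP _ _ i1
        have a2 := hP _ _ i2
        rw [hS.dω] at a1
        rw [hS.dl] at a2
        have b1 : P.G (n - σ + 1) (ω j * ω j) := i1.mul' i1 (by omega)
        have b2 : P.G (n - σ + 1) (κ * lam j) := hκ1.mul' i2 (by omega)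
        have b3 : P.G (n - σ + 1) (1 : L) := Ord.G.one.mono (by omega)
        have b4 : P.G (n - σ + 1) (κ * ω j) := hκ1.mul' i1 (by omega)
        have b5 : P.G (n - σ + 1) (lam j * ω j) := i2.mul' i1 (by omega)
        exact ⟨Ord.G.of_mul hx (((((a1.add b1).add b2).add b3).neg.mono (by omega)).congr
          (by ring)), Ord.G.of_mul hx ((((b4.sub b5).sub a2).mono (by omega)).congr (by ring))⟩
    exact key 0 (by omega) le_rfl
  have h5 : ∀ j, P.G (-σ + 1) ((σ : L) * ε - ω j) → ∀ n : ℤ, P.G n (ω j - ω j₁) →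
      P.G (n - σ + 1) (((2 * σ + n : ℤ) : L) * ε * (ω j - ω j₁) + κ * (lam j - lam j₁)) := by
    intro j hj n hn
    have a1 := hP _ _ hn
    rw [map_sub, hS.dω, hS.dω] at a1
    exact (((hj.add hj₁).mul' hn (by omega)).sub a1).congr (by push_cast; ring)
  have h6 : ∀ j, P.G (-σ + 1) ((σ : L) * ε - ω j) → P.G (-b) (ω j - ω j₁) := by
    intro j hj
    have key : ∀ n : ℤ, -σ + 1 ≤ n → n ≤ -b → P.G n (ω j - ω j₁) := by
      intro n hn
      induction n, hn using Int.leInduction with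
      | base => exact fun _ => (hj₁.sub hj).congr (by ring)
      | succ n hn ih =>
        intro hn0
        have i1 := ih (by omega)
        have hx : P.Ex (-σ) (((2 * σ + n : ℤ) : L) * ε) :=
          (Ord.Ex.int (by omega)).mul' hε (by ring)
        have b1 : P.G (n - σ + 1) (κ * (lam j - lam j₁)) :=
          hκ1.mul' ((hl j).sub (hl j₁)) (by omega)
        exact Ord.G.of_mul hx ((((h5 j hj n i1).sub b1).mono (by omega)).congr (by ring))
    exact key _ (by omega) le_rfl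
  have h7 : ∀ j, P.G (-2 * σ - b + 1) ((μ j : L) * (lam j *
      (((2 * σ + -b : ℤ) : L) * ε * (ω j - ω j₁) + κ * (lam j - lam j₁)))) := by
    intro j
    refine (Ord.G.nat _).lmul ?_
    by_cases hj : P.G (-σ + 1) ((σ : L) * ε - ω j)
    · exact (hl j).mul' (h5 j hj _ (h6 j hj)) (by omega)
    · refine (h4 j hj).2.lmul (Ord.G.add ?_ ?_)
      · exact ((Ord.G.int _).lmul hε.1).mul' ((hω j).sub (hω j₁)) (by omega)
      · exact hκ1.mul' ((hl j).sub (hl j₁)) (by omega)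
  have h8 := Ord.G.sum Finset.univ fun j _ => h7 j
  obtain ⟨ν, hν⟩ : ∃ ν : ℕ, P.G (-σ + 1) (∑ j, (μ j : L) * ω j - ν * (σ * ε)) := by
    refine ⟨∑ j, if P.G (-σ + 1) ((σ : L) * ε - ω j) then μ j else 0, ?_⟩
    rw [Nat.cast_sum, Finset.sum_mul, ← Finset.sum_sub_distrib]
    refine Ord.G.sum _ fun j _ => ?_
    split_ifs with hj
    · exact ((Ord.G.nat (μ j)).lmul hj).neg.congr (by ring)
    · exact (((Ord.G.nat (μ j)).lmul (h4 j hj).1).mono (by omega)).congr (by simp)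
  have hD : ∑ j, (μ j : L) * ((κ - lam j) * ω j) = -3 * D κ := by
    have e := congrArg D hS.tr
    rw [map_sum] at e
    have e3 : D (-3 * κ) = -3 * D κ := by
      rw [show -3 * κ = -(κ + κ + κ) by ring, map_neg, map_add, map_add]
      ring
    rw [← e3, ← e]
    refine Finset.sum_congr rfl fun j _ => ?_
    rw [← nsmul_eq_mul, ← nsmul_eq_mul, map_nsmul, hS.dl]
  have hsum : ∑ j, (μ j : L) * (lam j *
      (((2 * σ + -b : ℤ) : L) * ε * (ω j - ω j₁) + κ * (lam j - lam j₁))) =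
      ((2 * σ + -b : ℤ) : L) * ε * (κ * ∑ j, (μ j : L) * ω j -
        ∑ j, (μ j : L) * ((κ - lam j) * ω j) - ω j₁ * ∑ j, (μ j : L) * lam j) +
      κ * (∑ j, (μ j : L) * lam j ^ 2 - lam j₁ * ∑ j, (μ j : L) * lam j) := by
    simp only [Finset.mul_sum, ← Finset.sum_sub_distrib, ← Finset.sum_add_distrib]
    exact Finset.sum_congr rfl fun j _ => by ring
  rw [hsum, hD, hS.tr] at h8
  have hn := hS.nor
  have hW : P.G (-σ) (∑ j, (μ j : L) * ω j) :=
    Ord.G.sum _ fun j _ => (Ord.G.nat _).lmul (hω j)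
  have hm : P.G 0 (∑ j, (μ j : L) + 1) :=
    (Ord.G.sum _ fun j _ => Ord.G.nat _).add Ord.G.one
  set W := ∑ j, (μ j : L) * ω j
  set m := ∑ j, (μ j : L) + 1
  set Q := ∑ j, (μ j : L) * lam j ^ 2
  have hu := hP _ _ hκ1
  have hDκ : P.G (-b - σ) (D κ) :=
    ((hu.mono (by omega)).add (((Ord.G.int (-b)).lmul hε.1).mul' hκ1 (by omega))).congr
      (by ring)
  have hv := hP _ _ hDκ
  have hN : P.Ex (-2 * σ - b)
      (((2 * σ ^ 2 + 4 * (σ - b) ^ 2 + 2 * ν * σ * (σ - b) : ℤ) : L) * (ε * ε * κ)) := by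
    have hpos : 0 < 2 * σ ^ 2 + 4 * (σ - b) ^ 2 + 2 * ν * σ * (σ - b) := by
      have : 0 < σ := by omega
      have : 0 < σ - b := by omega
      positivity
    exact (Ord.Ex.int hpos.ne').mul' ((hε.mul hε).mul hκ) (by ring)
  refine hN.2 ?_
  have c1 : P.G (-2 * σ - b + 1) (((2 * σ + -b : ℤ) : L) * ε * ((3 : ℕ) *
      (D κ - ((-b : ℤ) : L) * ε * κ) + κ * (W - ν * (σ * ε)) -
      (3 : ℕ) * (κ * (σ * ε - ω j₁)))) :=
    ((Ord.G.int _).lmul hε.1).mul' (k := -b - σ + 1)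
      ((((Ord.G.nat 3).lmul hu).add (hκ1.mul' hν (by omega))).sub
        ((Ord.G.nat 3).lmul (hκ1.mul' hj₁ (by omega)))) (by omega)
  have c2 : P.G (-2 * σ - b + 1) ((3 : ℕ) * (κ * κ * lam j₁)) :=
    (Ord.G.nat 3).lmul ((hκ1.mul hκ1).mul' (hl j₁) (by omega))
  have c3 : P.G (-2 * σ - b + 1) (((-b - σ : ℤ) : L) * ε * (D κ - ((-b : ℤ) : L) * ε * κ)) :=
    ((Ord.G.int _).lmul hε.1).mul' hu (by omega)
  have c4 : P.G (-2 * σ - b + 1) (W * (D κ - ((-b : ℤ) : L) * ε * κ)) := hW.mul' hu (by omega)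
  have c5 : P.G (-2 * σ - b + 1) (((-b : ℤ) : L) * ε * κ * (W - ν * (σ * ε))) :=
    (((Ord.G.int _).lmul hε.1).mul hκ1).mul' hν (by omega)
  have c6 : P.G (-2 * σ - b + 1) (κ * κ * κ) := (hκ1.mul hκ1).mul' hκ1 (by omega)
  have c7 : P.G (-2 * σ - b + 1) (κ * m) := hκ1.mul' hm (by omega)
  refine ((((((((h8.sub c1).sub c2).sub (hv.mono (by omega))).sub c3).sub c4).sub c5).add
    c6).sub c7).congr ?_
  push_cast
  linear_combination hn

end BiH
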