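import Pool.Agent.P.MP_ecb6bc_gt.ValA
import Pool.Agent.P.MP_ecb6bc_gt.ValB
import Pool.Agent.P.MP_ecb6bc_gt.ValC

/-! The curvature has no pole at a place. -/

set_option autoImplicit false
set_option linter.unusedSectionVars false
set_option linter.unusedVariables false

noncomputable section

namespace BiH

theorem G1_Val {L : Type} [Field L] [Algebra ℂ L] (P : Ord L) (D : Derivation ℂ L L) (ε : L)
    (σ : ℤ) (hε : P.Ex (-σ) ε)
    (hP : ∀ (n : ℤ) (f : L), P.Ex n f → P.G (n - σ + 1) (D f - n * ε * f))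
    (n : ℤ) (f : L) (hf : P.G n f) : P.G (n - σ + 1) (D f - n * ε * f) := by
  by_cases h0 : f = 0
  · subst h0
    simpa using Ord.G.zero (P := P) _
  obtain ⟨k, hk⟩ := Ord.exists_ex (P := P) h0
  have hle := hk.le hf
  rcases hle.eq_or_lt with rfl | hlt
  · exact hP _ _ hk
  · have h1 := (hP _ _ hk).mono (show n - σ + 1 ≤ k - σ + 1 by omega)
    have h2 : P.G (n - σ + 1) (((k - n : ℤ) : L) * (ε * f)) :=
      (Ord.G.int _).lmul (hε.1.mul' hk.1 (by omega))
    exact (h1.add h2).congr (by push_cast; ring)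

theorem exists_max_Val {L : Type} [Field L] [Algebra ℂ L] (P : Ord L) {I : Type} [Fintype I]
    (x : I → L) (b : ℤ) (h : ¬ ∀ i, P.G b (x i)) :
    ∃ a, a < b ∧ (∀ i, P.G a (x i)) ∧ ∃ i, P.Ex a (x i) := by
  classical
  have h1 : ∀ i, ∃ k : ℤ, P.G k (x i) := by
    intro i
    by_cases h0 : x i = 0
    · exact ⟨0, h0 ▸ Ord.G.zero _⟩
    · obtain ⟨k, hk⟩ := Ord.exists_ex (P := P) h0
      exact ⟨k, hk.1⟩
  choose k hk using h1
  obtain ⟨c, hc⟩ : ∃ c : ℤ, ∀ i, c ≤ k i := by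
    obtain ⟨c, hc⟩ := (Set.finite_range k).bddBelow
    exact ⟨c, fun i => hc ⟨i, rfl⟩⟩
  have hbd : ∀ a : ℤ, (∀ i, P.G a (x i)) → a < b := by
    intro a ha
    by_contra hc
    exact h fun i => (ha i).mono (by omega)
  obtain ⟨a, ha, hmax⟩ := Int.exists_greatest_of_bdd (P := fun a => ∀ i, P.G a (x i))
    ⟨b, fun a ha => (hbd a ha).le⟩ ⟨c, fun i => (hk i).mono (hc i)⟩
  refine ⟨a, hbd a ha, ha, ?_⟩
  by_contra hc
  have : ∀ i, P.G (a + 1) (x i) := by
    intro i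
    by_contra hi
    exact hc ⟨i, ha i, hi⟩
  have := hmax _ this
  omega

theorem val {L : Type} [Field L] [Algebra ℂ L] (P : Ord L) (D : Derivation ℂ L L) (ε : L) (σ : ℤ)
    (hε : P.Ex (-σ) ε)
    (hP : ∀ (n : ℤ) (f : L), P.Ex n f → P.G (n - σ + 1) (D f - n * ε * f))
    {J : Type} [Fintype J] {μ : J → ℕ} {ω lam : J → L} {κ : L} (hS : Sys D μ ω lam κ) :
    P.G 0 κ := by
  have hP' := G1_Val P D ε σ hε hP
  by_contra hκ
  obtain ⟨b', hb', hκb⟩ := Ord.exists_ex_lt hκ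
  obtain ⟨b, rfl⟩ : ∃ b, b' = -b := ⟨-b', by ring⟩
  have hnot : ¬ ∀ i : J ⊕ J, P.G (-b + 1) (Sum.elim ω lam i) := by
    intro h
    have h1 : P.G (-b + 1) (∑ j, (μ j : L) * lam j) :=
      Ord.G.sum _ fun j _ => (Ord.G.nat _).lmul (h (Sum.inr j))
    rw [hS.tr] at h1
    have h3 : P.Ex (-b) (-3 * κ) :=
      ((Ord.Ex.nat (P := P) (k := 3) (by norm_num)).neg.mul' hκb (by ring)).congr (by push_cast; ring)
    exact h3.2 h1
  obtain ⟨a', ha', hall, hex⟩ := exists_max_Val P _ _ hnot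
  obtain ⟨a, rfl⟩ : ∃ a, a' = -a := ⟨-a', by ring⟩
  have hω : ∀ j, P.G (-a) (ω j) := fun j => hall (Sum.inl j)
  have hl : ∀ j, P.G (-a) (lam j) := fun j => hall (Sum.inr j)
  have hex' : ∃ j, P.Ex (-a) (ω j) ∨ P.Ex (-a) (lam j) := by
    obtain ⟨i, hi⟩ := hex
    rcases i with j | j
    · exact ⟨j, Or.inl hi⟩
    · exact ⟨j, Or.inr hi⟩
  have hκa : P.G (-a) κ := hκb.1.mono (by omega)
  have hσ : σ ≤ a := by
    by_contra hσ
    have key : ∀ f : L, P.Ex (-a) f → P.G (-a + -a) (D f) → False := by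
      intro f hf hD
      have h1 := hP _ _ hf
      have h2 : P.Ex (-a - σ) (((-a : ℤ) : L) * ε * f) :=
        ((Ord.Ex.int (by omega)).mul hε).mul' hf (by ring)
      exact h2.2 (((hD.mono (by omega)).sub h1).congr (by ring))
    obtain ⟨j, hj | hj⟩ := hex'
    · refine key _ hj ?_
      rw [hS.dω]
      exact ((((hω j).mul (hω j)).neg.sub (hκa.mul (hl j))).sub
        (Ord.G.one.mono (by omega))).congr (by ring)
    · refine key _ hj ?_
      rw [hS.dl]
      exact (hκa.sub (hl j)).mul (hω j)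
  rcases (show b = a ∨ b < a by omega) with rfl | hba
  · exact val_a P D ε σ hε hP' hS b (by omega) hσ hω hl hκb
  · rcases hσ.eq_or_lt with rfl | hlt
    · exact val_c P D ε σ hε hP' hS b (by omega) hba hω hl hκb hex'
    · exact val_b P D ε σ hε hP' hS a b (by omega) hba hlt hω hl hκb hex'

end BiH
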