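import Pool.Agent.P.MP_ecb6bc_gt.Surf
import Pool.Agent.P.MP_ecb6bc_gt.Val
import Pool.Agent.P.MP_ecb6bc_gt.Curve

/-! The curvature is constant in the differential field. -/

set_option autoImplicit false
set_option linter.unusedSectionVars false
set_option linter.unusedVariables false

noncomputable section

namespace BiH

open Polynomial

section

variable {K : Type} [Field K] [Algebra ℂ K]

theorem tr_Core (D : Derivation ℂ K K) {t : K} (h : D t ≠ 0) : Transcendental ℂ t := fun ht => by
  obtain ⟨c, rfl⟩ := minpoly.mem_range_of_degree_eq_one ℂ t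
    (IsAlgClosed.degree_eq_one_of_irreducible ℂ (minpoly.irreducible ht.isIntegral))
  exact h (D.map_algebraMap c)

theorem mon_Core (w z : K) (n : ℕ) (a : ℂ[X]) :
    aevalAeval w z (monomial n a : RR) = aeval w a * z ^ n := by
  rw [← C_mul_X_pow_eq_monomial, map_mul, map_pow, aevalAeval_C, aevalAeval_Y]

theorem chain_Core (D : Derivation ℂ K K) (w z : K) (r : RR) : ∃ r' : RR,
    D (aevalAeval w z r) = aevalAeval w z (derivative r) * D z + aevalAeval w z r' * D w := by
  induction r using Polynomial.induction_on' with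
  | add p q hp hq =>
    obtain ⟨p', hp⟩ := hp
    obtain ⟨q', hq⟩ := hq
    exact ⟨p' + q', by simp only [map_add, hp, hq]; ring⟩
  | monomial n a =>
    refine ⟨monomial n (derivative a), ?_⟩
    rw [derivative_monomial, mon_Core, mon_Core, mon_Core, D.leibniz, D.leibniz_pow, D.map_aeval]
    simp only [smul_eq_mul, nsmul_eq_mul, map_mul, map_natCast]
    ring

theorem alg_Core {w z : K} (hw : Transcendental ℂ w) {r : RR} (h0 : r ≠ 0)
    (hr : aevalAeval w z r = 0) : IsAlgebraic (IntermediateField.adjoin ℂ ({w} : Set K)) z := by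
  let φ : ℂ[X] →ₐ[ℂ] IntermediateField.adjoin ℂ ({w} : Set K) :=
    aeval ⟨w, IntermediateField.mem_adjoin_simple_self ℂ w⟩
  have e : ∀ a, algebraMap _ K (φ a) = aeval w a := fun a =>
    (aeval_algebraMap_apply K _ a).symm
  have inj : Function.Injective φ.toRingHom := fun a b hab =>
    transcendental_iff_injective.1 hw (by rw [← e, ← e]; exact congrArg _ hab)
  have key : ∀ r : RR, aeval z (r.map φ.toRingHom) = aevalAeval w z r := fun r => by
    induction r using Polynomial.induction_on' with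
    | add p q hp hq => rw [Polynomial.map_add, map_add, map_add, hp, hq]
    | monomial n a =>
      rw [Polynomial.map_monomial, aeval_monomial, mon_Core]
      exact congrArg (· * z ^ n) (e a)
  exact ⟨r.map φ.toRingHom, (Polynomial.map_ne_zero_iff inj).2 h0, (key r).trans hr⟩

theorem aeval_mem_of_mem_Core (E : IntermediateField ℂ K) {w : K} (hw : w ∈ E) (a : ℂ[X]) :
    aeval w a ∈ E := by
  have := (aeval (⟨w, hw⟩ : E) a).2
  rwa [← IntermediateField.algebraMap_apply, ← aeval_algebraMap_apply] at this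

theorem mem_Core (E : IntermediateField ℂ K) {w z : K} (hw : w ∈ E) (hz : z ∈ E) (r : RR) :
    aevalAeval w z r ∈ E := by
  induction r using Polynomial.induction_on' with
  | add p q hp hq => exact map_add (aevalAeval w z) p q ▸ add_mem hp hq
  | monomial n a =>
    rw [mon_Core]
    exact mul_mem (aeval_mem_of_mem_Core E hw a) (pow_mem hz n)

end

theorem core {K : Type} [Field K] [Algebra ℂ K] {J : Type} [Fintype J] {D : Derivation ℂ K K}
    {μ : J → ℕ} {ω lam : J → K} {κ z w ζ : K} {A B C : J → ℂ}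
    (hS : Sys D μ ω lam κ) (hF : Frame D ω lam κ z w ζ A B C)
    (hgen : IntermediateField.adjoin ℂ (Set.range ω ∪ Set.range lam ∪ {z, w, ζ}) = ⊤) :
    D κ = 0 := by
  by_contra hκ
  have : CharZero K := charZero_of_injective_algebraMap (algebraMap ℂ K).injective
  by_cases hind : ∀ r : RR, aevalAeval w z r = 0 → r = 0
  · exact hκ (by rw [surf hS hF hind, map_zero])
  have hex : ∃ n, ∃ r : RR, aevalAeval w z r = 0 ∧ r ≠ 0 ∧ r.natDegree = n := by
    push Not at hind
    obtain ⟨r, h1, h2⟩ := hind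
    exact ⟨_, r, h1, h2, rfl⟩
  classical
  obtain ⟨r, hr, h0, hn⟩ := Nat.find_spec hex
  have hzw : z - w ≠ 0 := sub_ne_zero.2 hF.zw
  have hw : Transcendental ℂ w := tr_Core D fun h => by
    have := hF.dw
    rw [h, mul_zero] at this
    exact div_ne_zero hzw two_ne_zero this.symm
  have hr1 : aevalAeval w z (derivative r) ≠ 0 := fun h => by
    by_cases hd : r.natDegree = 0
    · rw [eq_C_of_natDegree_eq_zero hd] at hr h0
      rw [aevalAeval_C] at hr
      exact hw ⟨_, fun h => h0 (by rw [h, map_zero]), hr⟩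
    · exact Nat.find_min hex (hn ▸ natDegree_derivative_lt hd)
        ⟨_, h, fun h' => hd (derivative_eq_zero.1 h'), rfl⟩
  let F := IntermediateField.adjoin ℂ ({w} : Set K)
  let E : IntermediateField ℂ K := (algebraicClosure F K).restrictScalars ℂ
  have mE : ∀ x, x ∈ E ↔ IsAlgebraic F x := fun x => mem_algebraicClosure_iff
  have wE : w ∈ E := (mE w).2
    (isAlgebraic_algebraMap (⟨w, IntermediateField.mem_adjoin_simple_self ℂ w⟩ : F))
  have zE : z ∈ E := (mE z).2 (alg_Core hw h0 hr)
  obtain ⟨r', e⟩ := chain_Core D w z r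
  have ζE : ζ ∈ E := by
    refine (mE ζ).2 (IsAlgebraic.of_pow two_pos ((mE _).1 ?_))
    have e1 : ζ ^ 2 = -aevalAeval w z r' / aevalAeval w z (derivative r) := by
      rw [hr, map_zero, hF.dz] at e
      rw [eq_div_iff hr1]
      refine mul_left_cancel₀ hzw ?_
      linear_combination (-2 * ζ) * e - 2 * aevalAeval w z r' * hF.dw
    rw [e1]
    exact div_mem (neg_mem (mem_Core E wE zE _)) (mem_Core E wE zE _)
  have qE : ∀ (a b c : ℂ) (x y : K), x ∈ E → y ∈ E → qf a b c x y ∈ E := fun a b c x y hx hy =>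
    add_mem (add_mem (mul_mem (mul_mem (E.algebraMap_mem a) hx) hy)
      (mul_mem (E.algebraMap_mem b) (add_mem hx hy))) (E.algebraMap_mem c)
  have iE : iu K ∈ E := E.algebraMap_mem _
  have pE : ∀ j, ω j + iu K * lam j ∈ E := fun j => by
    rw [eq_div_of_mul_eq (hF.q0 j) (hF.hp j)]
    exact div_mem (mul_mem (neg_mem ζE) (qE _ _ _ _ _ wE wE)) (qE _ _ _ _ _ zE wE)
  have mE' : ∀ j, ω j - iu K * lam j ∈ E := fun j => by
    have e1 : ω j - iu K * lam j = qf (A j) (B j) (C j) z z / (ζ * qf (A j) (B j) (C j) z w) :=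
      eq_div_of_mul_eq (mul_ne_zero hF.ζ0 (hF.q0 j)) (by rw [← hF.hq j]; ring)
    rw [e1]
    exact div_mem (qE _ _ _ _ _ zE zE) (mul_mem ζE (qE _ _ _ _ _ zE wE))
  have two : (2 : K) ∈ E := ofNat_mem E 2
  have top : E = ⊤ := by
    rw [eq_top_iff, ← hgen, IntermediateField.adjoin_le_iff]
    rintro x ((⟨j, rfl⟩ | ⟨j, rfl⟩) | rfl | rfl | rfl)
    · have e1 : ω j = ((ω j + iu K * lam j) + (ω j - iu K * lam j)) / 2 := by ring
      exact e1 ▸ div_mem (add_mem (pE j) (mE' j)) two
    · have e1 : lam j = iu K * ((ω j - iu K * lam j) - (ω j + iu K * lam j)) / 2 := by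
        linear_combination lam j * iu_sq K
      exact e1 ▸ div_mem (mul_mem iE (sub_mem (mE' j) (pE j))) two
    · exact zE
    · exact wE
    · exact ζE
  have a1 : Algebra.IsAlgebraic F K := ⟨fun x => (mE x).1 (top ▸ IntermediateField.mem_top)⟩
  have a2 : Algebra.IsAlgebraic (Algebra.adjoin ℂ ({w} : Set K)) K :=
    IntermediateField.isAlgebraic_adjoin_iff_top.1 a1
  have a3 := Algebra.IsAlgebraic.trdeg_le_cardinalMk ℂ ({w} : Set K)
  have a4 : AlgebraicIndependent ℂ (fun _ : Unit => κ) :=
    algebraicIndependent_unique_type_iff.2 (tr_Core D hκ)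
  have a5 := (a4.isTranscendenceBasis_of_trdeg_le_of_finite (by simpa using a3)).isAlgebraic_field
  rw [Set.range_const] at a5
  have a6 : Algebra.EssFiniteType ℂ K := IntermediateField.fg_top_iff.1
    (hgen ▸ IntermediateField.fg_adjoin_of_finite
      (((Set.finite_range ω).union (Set.finite_range lam)).union (Set.toFinite _)))
  have a7 : Algebra.EssFiniteType (IntermediateField.adjoin ℂ ({κ} : Set K)) K := .of_comp ℂ _ _
  obtain ⟨P, ε, σ, h1, h2, h3⟩ := curve D κ hκ Algebra.finite_of_essFiniteType_of_isAlgebraic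
  exact h3 (val P D ε σ h1 h2 hS)

end BiH
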