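import Pool.Agent.P.MP_ecb6bc_gt.SDefs

/-! The normal equation in the moving frame. -/

set_option autoImplicit false
set_option linter.unusedSectionVars false
set_option linter.unusedVariables false

noncomputable section

namespace BiH

variable {K : Type} [Field K] [Algebra ℂ K] {J : Type} [Fintype J] {D : Derivation ℂ K K}
  {μ : J → ℕ} {ω lam : J → K} {κ z w ζ : K} {A B C : J → ℂ}

theorem two_Cubic : (2 : K) ≠ 0 := by
  have : CharZero K := charZero_of_injective_algebraMap (algebraMap ℂ K).injective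
  exact two_ne_zero

theorem coord_Cubic (hF : Frame D ω lam κ z w ζ A B C) (j : J) :
    2 * ζ * ω j = qf (A j) (B j) (C j) z z / qf (A j) (B j) (C j) z w -
      ζ ^ 2 * (qf (A j) (B j) (C j) w w / qf (A j) (B j) (C j) z w) ∧
    2 * ζ * lam j = iu K * (qf (A j) (B j) (C j) z z / qf (A j) (B j) (C j) z w +
      ζ ^ 2 * (qf (A j) (B j) (C j) w w / qf (A j) (B j) (C j) z w)) := by
  have h0 := hF.q0 j
  have h1 := hF.hp j
  have h2 := hF.hq j
  have hi := iu_sq K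
  constructor
  · field_simp
    linear_combination ζ * h1 + h2
  · field_simp
    linear_combination (-iu K * ζ) * h1 + iu K * h2 +
      (2 * ζ * lam j * qf (A j) (B j) (C j) z w) * hi

theorem dsum_Cubic (f : J → K) :
    D (∑ j, (μ j : K) * f j) = ∑ j, (μ j : K) * D (f j) := by
  rw [map_sum]
  refine Finset.sum_congr rfl fun j _ => ?_
  rw [← nsmul_eq_mul, ← nsmul_eq_mul, map_nsmul]

theorem nor_Cubic (hS : Sys D μ ω lam κ) :
    -(∑ j, (μ j : K) * ω j) * (∑ j, (μ j : K) * (ω j * lam j)) +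
      κ * (∑ j, (μ j : K) * ω j) ^ 2 - 3 * κ * (∑ j, (μ j : K) * ω j ^ 2) + 9 * κ ^ 3 -
      6 * κ * (∑ j, (μ j : K)) + 3 * (∑ j, (μ j : K) * (ω j ^ 2 * lam j)) +
      6 * κ * (∑ j, (μ j : K) * lam j ^ 2) - 9 * κ = 0 := by
  have e3 : ∀ x : K, D (-3 * x) = -3 * D x := by
    intro x
    rw [show -3 * x = -(x + x + x) by ring, map_neg, map_add, map_add]
    ring
  have ht := hS.tr
  have h1 : -3 * D κ = κ * (∑ j, (μ j : K) * ω j) - ∑ j, (μ j : K) * (ω j * lam j) := by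
    rw [← e3, ← ht, dsum_Cubic, Finset.mul_sum, ← Finset.sum_sub_distrib]
    exact Finset.sum_congr rfl fun j _ => by rw [hS.dl]; ring
  have h2 : D (∑ j, (μ j : K) * ω j) =
      -(∑ j, (μ j : K) * ω j ^ 2) - κ * (∑ j, (μ j : K) * lam j) - ∑ j, (μ j : K) := by
    rw [dsum_Cubic, Finset.mul_sum, ← Finset.sum_neg_distrib, ← Finset.sum_sub_distrib,
      ← Finset.sum_sub_distrib]
    exact Finset.sum_congr rfl fun j _ => by rw [hS.dω]; ring
  have h3 : D (∑ j, (μ j : K) * (ω j * lam j)) =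
      κ * (∑ j, (μ j : K) * ω j ^ 2) - 2 * (∑ j, (μ j : K) * (ω j ^ 2 * lam j)) -
        κ * (∑ j, (μ j : K) * lam j ^ 2) - ∑ j, (μ j : K) * lam j := by
    rw [dsum_Cubic]
    simp only [Finset.mul_sum, ← Finset.sum_sub_distrib]
    refine Finset.sum_congr rfl fun j _ => ?_
    rw [Derivation.leibniz, hS.dω, hS.dl, smul_eq_mul, smul_eq_mul]
    ring
  have h4 := congrArg D h1
  rw [e3, map_sub, Derivation.leibniz, h2, h3, ht, smul_eq_mul, smul_eq_mul] at h4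
  have hn := hS.nor
  apply mul_left_cancel₀ (two_Cubic (K := K))
  linear_combination (-9) * hn - 3 * h4 - 2 * (∑ j, (μ j : K) * ω j) * h1

theorem kappa_eq (hS : Sys D μ ω lam κ) (hF : Frame D ω lam κ z w ζ A B C) :
    6 * iu K * ζ * κ = ζ ^ 2 * mom μ A B C z w 1 0 + mom μ A B C z w 0 1 := by
  have h : 2 * ζ * ∑ j, (μ j : K) * lam j =
      iu K * (ζ ^ 2 * mom μ A B C z w 1 0 + mom μ A B C z w 0 1) := by
    simp only [mom, Finset.mul_sum, ← Finset.sum_add_distrib]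
    refine Finset.sum_congr rfl fun j _ => ?_
    linear_combination (μ j : K) * (coord_Cubic hF j).2
  rw [hS.tr] at h
  linear_combination (-iu K) * h -
    (ζ ^ 2 * mom μ A B C z w 1 0 + mom μ A B C z w 0 1) * iu_sq K

/-- The normal equation is a cubic equation for `ζ ^ 2`. -/
theorem cubic (hS : Sys D μ ω lam κ) (hF : Frame D ω lam κ z w ζ A B C) (M : ℕ → ℕ → K)
    (hM : M = mom μ A B C z w) :
    (6 * M 1 0 * M 2 0 + 9 * M 3 0) * (ζ ^ 2) ^ 3 +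
      (4 * M 1 0 ^ 2 * M 0 1 + 12 * M 0 1 * M 2 0 + 6 * M 1 0 * M 1 1 - 9 * M 2 1 +
        12 * M 1 0 * (2 * M 0 0 + 3)) * (ζ ^ 2) ^ 2 +
      (4 * M 1 0 * M 0 1 ^ 2 + 12 * M 1 0 * M 0 2 + 6 * M 0 1 * M 1 1 - 9 * M 1 2 +
        12 * M 0 1 * (2 * M 0 0 + 3)) * ζ ^ 2 +
      (6 * M 0 1 * M 0 2 + 9 * M 0 3) = 0 := by
  have hi := iu_sq K
  have hk := kappa_eq hS hF
  have hn := nor_Cubic hS
  rw [← hM] at hk
  have m00 : ∑ j, (μ j : K) = M 0 0 := by simp [hM, mom]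
  have m10 : 2 * ζ * ∑ j, (μ j : K) * ω j = M 0 1 - ζ ^ 2 * M 1 0 := by
    simp only [hM, mom, Finset.mul_sum, ← Finset.sum_sub_distrib]
    refine Finset.sum_congr rfl fun j _ => ?_
    linear_combination (μ j : K) * (coord_Cubic hF j).1
  have m20 : (2 * ζ) ^ 2 * ∑ j, (μ j : K) * ω j ^ 2 =
      M 0 2 - 2 * ζ ^ 2 * M 1 1 + ζ ^ 4 * M 2 0 := by
    simp only [hM, mom, Finset.mul_sum, ← Finset.sum_sub_distrib, ← Finset.sum_add_distrib]
    refine Finset.sum_congr rfl fun j _ => ?_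
    rw [show (2 * ζ) ^ 2 * ((μ j : K) * ω j ^ 2) = μ j * (2 * ζ * ω j) ^ 2 by ring,
      (coord_Cubic hF j).1]
    ring
  have m11 : (2 * ζ) ^ 2 * ∑ j, (μ j : K) * (ω j * lam j) = iu K * (M 0 2 - ζ ^ 4 * M 2 0) := by
    simp only [hM, mom, Finset.mul_sum, ← Finset.sum_sub_distrib]
    refine Finset.sum_congr rfl fun j _ => ?_
    rw [show (2 * ζ) ^ 2 * ((μ j : K) * (ω j * lam j)) =
      μ j * ((2 * ζ * ω j) * (2 * ζ * lam j)) by ring, (coord_Cubic hF j).1, (coord_Cubic hF j).2]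
    ring
  have m02 : (2 * ζ) ^ 2 * ∑ j, (μ j : K) * lam j ^ 2 =
      iu K ^ 2 * (M 0 2 + 2 * ζ ^ 2 * M 1 1 + ζ ^ 4 * M 2 0) := by
    simp only [hM, mom, Finset.mul_sum, ← Finset.sum_add_distrib]
    refine Finset.sum_congr rfl fun j _ => ?_
    rw [show (2 * ζ) ^ 2 * ((μ j : K) * lam j ^ 2) = μ j * (2 * ζ * lam j) ^ 2 by ring,
      (coord_Cubic hF j).2]
    ring
  have m21 : (2 * ζ) ^ 3 * ∑ j, (μ j : K) * (ω j ^ 2 * lam j) =
      iu K * (M 0 3 - ζ ^ 2 * M 1 2 - ζ ^ 4 * M 2 1 + ζ ^ 6 * M 3 0) := by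
    simp only [hM, mom, Finset.mul_sum, ← Finset.sum_sub_distrib, ← Finset.sum_add_distrib]
    refine Finset.sum_congr rfl fun j _ => ?_
    rw [show (2 * ζ) ^ 3 * ((μ j : K) * (ω j ^ 2 * lam j)) =
      μ j * ((2 * ζ * ω j) ^ 2 * (2 * ζ * lam j)) by ring, (coord_Cubic hF j).1,
      (coord_Cubic hF j).2]
    ring
  rw [hi] at m02
  have hk' : 6 * ζ * κ = -iu K * (ζ ^ 2 * M 1 0 + M 0 1) := by
    linear_combination (-iu K) * hk + 6 * ζ * κ * hi
  rw [m00] at hn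
  generalize ∑ j, (μ j : K) * ω j = N10 at *
  generalize ∑ j, (μ j : K) * ω j ^ 2 = N20 at *
  generalize ∑ j, (μ j : K) * (ω j * lam j) = N11 at *
  generalize ∑ j, (μ j : K) * lam j ^ 2 = N02 at *
  generalize ∑ j, (μ j : K) * (ω j ^ 2 * lam j) = N21 at *
  have e : 24 * ζ ^ 3 * (-N10 * N11 + κ * N10 ^ 2 - 3 * κ * N20 + 9 * κ ^ 3 - 6 * κ * M 0 0 +
      3 * N21 + 6 * κ * N02 - 9 * κ) =
      -3 * (2 * ζ * N10) * ((2 * ζ) ^ 2 * N11) + (6 * ζ * κ) * (2 * ζ * N10) ^ 2 -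
      3 * (6 * ζ * κ) * ((2 * ζ) ^ 2 * N20) + (6 * ζ * κ) ^ 3 - 24 * ζ ^ 2 * (6 * ζ * κ) * M 0 0 +
      9 * ((2 * ζ) ^ 3 * N21) + 6 * (6 * ζ * κ) * ((2 * ζ) ^ 2 * N02) -
      36 * ζ ^ 2 * (6 * ζ * κ) := by ring
  rw [hn, m10, m11, m20, m21, m02, hk', mul_zero] at e
  have hi0 : iu K ≠ 0 := by
    intro h0
    rw [h0] at hi
    simp at hi
  apply mul_left_cancel₀ hi0
  linear_combination -e + iu K * (ζ ^ 2 * M 1 0 + M 0 1) ^ 3 * hi

end BiH
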