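import Pool.Agent.P.MP_ecb6bc_gt.Ord

/-! A place of a function field at which a given function has a pole. -/

set_option autoImplicit false
set_option linter.unusedSectionVars false
set_option linter.unusedVariables false

noncomputable section

namespace BiH

open WithZero IsDedekindDomain

theorem ord_Curve1 {L : Type} [Field L] [Algebra ℂ L] (w : Valuation L (WithZero (Multiplicative ℤ)))
    {τ : L} (hτ : w τ = exp (-1 : ℤ)) (hc : ∀ c : ℂ, w (algebraMap ℂ L c) ≤ 1) :
    ∃ P : Ord L, (∀ f, P.G 0 f ↔ w f ≤ 1) ∧ ∀ f, w f < 1 → P.G 1 f := by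
  have h0 : τ ≠ 0 := fun h => by
    rw [h, map_zero] at hτ
    exact exp_ne_zero hτ.symm
  refine ⟨⟨w.integer, τ, ?_, h0, ?_, hc, fun f hf => ?_⟩, fun f => Ord.G0_iff, fun f hf => ?_⟩
  · rw [Valuation.mem_integer_iff, hτ, ← exp_zero, exp_le_exp]
    norm_num
  · rw [Valuation.mem_integer_iff, map_inv₀, hτ, ← exp_neg, ← exp_zero, exp_le_exp]
    norm_num
  · have h1 : w f ≠ 0 := (map_ne_zero w).2 hf
    have h2 : w (τ ^ log (w f) * f) = 1 := by
      rw [map_mul, map_zpow₀, hτ, ← exp_zsmul, smul_eq_mul, mul_neg_one, exp_neg, exp_log h1,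
        inv_mul_cancel₀ h1]
    refine ⟨-log (w f), τ ^ log (w f) * f, h2.le, ?_, mul_ne_zero (zpow_ne_zero _ h0) hf, ?_⟩
    · rw [Valuation.mem_integer_iff, map_inv₀, h2, inv_one]
    · rw [← mul_assoc, ← zpow_add₀ h0, neg_add_cancel, zpow_zero, one_mul]
  · change w (τ ^ (-1 : ℤ) * f) ≤ 1
    rw [map_mul, map_zpow₀, hτ, ← exp_zsmul, ← lt_mul_exp_iff_le one_ne_zero, one_mul]
    simpa using hf

theorem ded_Curve1 {L : Type} [Field L] [Algebra ℂ L] (D : Derivation ℂ L L) (B : Type)
    [CommRing B] [IsDedekindDomain B] [Algebra B L] [IsFractionRing B L] [Algebra ℂ B]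
    [IsScalarTower ℂ B L] [Algebra.FiniteType ℂ B] (v : HeightOneSpectrum B) {t : B}
    (ht : t ∈ v.asIdeal) (h0 : algebraMap B L t ≠ 0) :
    ∃ P : Ord L, ¬ P.G 0 (algebraMap B L t)⁻¹ ∧
      (∀ x, P.G 0 x → ∃ c : ℂ, P.G 1 (x - algebraMap ℂ L c)) ∧
      ∃ c : ℤ, ∀ x, P.G 0 x → P.G c (D x) := by
  obtain ⟨τ, hτ⟩ := v.valuation_exists_uniformizer L
  have hB : ∀ b : B, v.valuation L (algebraMap B L b) ≤ 1 := v.valuation_le_one
  have hp : ∀ b ∈ v.asIdeal, v.valuation L (algebraMap B L b) < 1 := fun b =>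
    (v.valuation_lt_one_iff_mem b).2
  obtain ⟨P, h1, h2⟩ := ord_Curve1 (v.valuation L) hτ fun c => by
    rw [IsScalarTower.algebraMap_apply ℂ B L]
    exact hB _
  refine ⟨P, fun h => ?_, fun x hx => ?_, ?_⟩
  · rw [h1, map_inv₀, inv_le_one₀ (zero_lt_iff.2 ((map_ne_zero _).2 h0))] at h
    exact (hp t ht).not_ge h
  · obtain ⟨a, ha⟩ := v.exists_valuation_sub_lt_of_integer ((h1 x).1 hx) 1
    let := Ideal.Quotient.field v.asIdeal
    have := finite_of_finite_type_of_isJacobsonRing ℂ (B ⧸ v.asIdeal)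
    obtain ⟨c, hc⟩ := (IsAlgClosed.algebraMap_bijective_of_isIntegral (k := ℂ)
      (K := B ⧸ v.asIdeal)).2 (Ideal.Quotient.mk _ a)
    have h3 := hp _ (Ideal.Quotient.eq.1 (show Ideal.Quotient.mk v.asIdeal a =
      Ideal.Quotient.mk _ (algebraMap ℂ B c) from hc.symm))
    rw [map_sub, ← IsScalarTower.algebraMap_apply] at h3
    exact ⟨c, ((h2 _ h3).sub (h2 _ ha)).congr (by ring)⟩
  · obtain ⟨s, hs⟩ := Algebra.FiniteType.out (R := ℂ) (A := B)
    have h3 : ∀ f : L, ∀ᶠ c in Filter.atBot, P.G c f := fun f => by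
      by_cases hf : f = 0
      · exact Filter.Eventually.of_forall fun c => hf ▸ Ord.G.zero c
      · obtain ⟨n, hn⟩ := Ord.exists_ex (P := P) hf
        exact (Filter.eventually_le_atBot n).mono fun c hc => hn.1.mono hc
    obtain ⟨c, hc⟩ := ((Filter.eventually_all_finset s).2 fun b _ =>
      h3 (D (algebraMap B L b))).exists
    have h4 : ∀ b : B, P.G c (D (algebraMap B L b)) := fun b => by
      have hb : b ∈ Algebra.adjoin ℂ (s : Set B) := hs ▸ Algebra.mem_top
      induction hb using Algebra.adjoin_induction with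
      | mem b hb => exact hc b hb
      | algebraMap r =>
        rw [← IsScalarTower.algebraMap_apply, D.map_algebraMap]
        exact Ord.G.zero c
      | add a b _ _ ha hb =>
        rw [map_add, map_add]
        exact ha.add hb
      | mul a b _ _ ha hb =>
        rw [map_mul, D.leibniz]
        exact (((h1 _).2 (hB a)).lmul hb).add (((h1 _).2 (hB b)).lmul ha)
    refine ⟨c, fun x hx => ?_⟩
    obtain ⟨n, d, e⟩ := v.exists_primeCompl_mul_eq_of_integer x ((h1 x).1 hx)
    have hd : v.valuation L (algebraMap B L d) = 1 := v.valuation_eq_one_iff_notMem.2 d.2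
    have hd0 : algebraMap B L d ≠ 0 := fun h => by
      rw [h, map_zero] at hd
      exact zero_ne_one hd
    have hd1 : P.G 0 (algebraMap B L d)⁻¹ := (h1 _).2 (by rw [map_inv₀, hd, inv_one])
    refine (((h4 n).sub (hx.lmul (h4 d))).rmul hd1).congr ?_
    rw [← e, D.leibniz, smul_eq_mul, smul_eq_mul]
    field_simp
    ring

open scoped IntermediateField.algebraAdjoinAdjoin in
theorem exists_place {L : Type} [Field L] [Algebra ℂ L] (D : Derivation ℂ L L) (κ : L)
    (hκ : D κ ≠ 0) (hfin : FiniteDimensional (IntermediateField.adjoin ℂ ({κ} : Set L)) L) :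
    ∃ P : Ord L, ¬ P.G 0 κ ∧ (∀ x, P.G 0 x → ∃ c : ℂ, P.G 1 (x - algebraMap ℂ L c)) ∧
      ∃ c : ℤ, ∀ x, P.G 0 x → P.G c (D x) := by
  obtain ⟨t, rfl⟩ : ∃ t, κ = t⁻¹ := ⟨κ⁻¹, (inv_inv κ).symm⟩
  have h0 : t ≠ 0 := fun h => hκ (by rw [h, inv_zero, map_zero])
  have ht : Transcendental ℂ t := fun h => by
    obtain ⟨c, rfl⟩ := minpoly.mem_range_of_degree_eq_one ℂ t
      (IsAlgClosed.degree_eq_one_of_irreducible ℂ (minpoly.irreducible h.isIntegral))
    exact hκ (by rw [← map_inv₀, D.map_algebraMap])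
  have hK : IntermediateField.adjoin ℂ ({t⁻¹} : Set L) = IntermediateField.adjoin ℂ {t} :=
    le_antisymm (IntermediateField.adjoin_simple_le_iff.2
      (inv_mem (IntermediateField.mem_adjoin_simple_self ℂ t)))
      (IntermediateField.adjoin_simple_le_iff.2
        (inv_mem_iff.1 (IntermediateField.mem_adjoin_simple_self ℂ t⁻¹)))
  rw [hK] at hfin
  let e := Polynomial.algEquivOfTranscendental ℂ t ht
  let A := Algebra.adjoin ℂ ({t} : Set L)
  let K := IntermediateField.adjoin ℂ ({t} : Set L)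
  have : IsPrincipalIdealRing A := IsPrincipalIdealRing.of_surjective e.toRingHom e.surjective
  have : Algebra.FiniteType ℂ A := Algebra.FiniteType.equiv inferInstance e
  have : CharZero K := algebraRat.charZero K
  let B := integralClosure A L
  have : IsDedekindDomain B := IsIntegralClosure.isDedekindDomain A K L B
  have : IsFractionRing B L := IsIntegralClosure.isFractionRing_of_finite_extension A K L B
  have : Module.Finite A B := IsIntegralClosure.finite A K L B
  have : Algebra.FiniteType ℂ B := Algebra.FiniteType.trans (S := A) inferInstance inferInstance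
  have hu : ¬IsUnit (e Polynomial.X) := fun h => Polynomial.not_isUnit_X (R := ℂ) (by
    simpa using h.map e.symm)
  obtain ⟨m, hm, hX⟩ := exists_max_ideal_of_mem_nonunits hu
  obtain ⟨p, hp, hpm⟩ := Ideal.exists_ideal_over_maximal_of_isIntegral (S := B) m (by
    rw [(RingHom.injective_iff_ker_eq_bot _).1 (FaithfulSMul.algebraMap_injective A B)]
    exact bot_le)
  have h1 : algebraMap A B (e Polynomial.X) ∈ p := by
    rw [← hpm] at hX
    exact hX
  have h2 : algebraMap B L (algebraMap A B (e Polynomial.X)) = t := by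
    rw [← IsScalarTower.algebraMap_apply]
    simp [e]
  have h := ded_Curve1 D B ⟨p, hp.isPrime, fun h => h0 (by
    rw [h, Submodule.mem_bot] at h1
    rw [← h2, h1, map_zero])⟩ h1 (h2.symm ▸ h0)
  rwa [h2] at h

end BiH
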