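import Mathlib

/-! Tension and bitension field of a map into the unit sphere, in local coordinates. -/

set_option autoImplicit false

noncomputable section

namespace BiH

open Matrix

variable {m n : ℕ}

/-- The partial derivative in the `i`-th coordinate. -/
def pd (i : Fin m) (u : (Fin m → ℝ) → ℝ) (x : Fin m → ℝ) : ℝ := fderiv ℝ u x (Pi.single i 1)

/-- The partial derivative of a vector valued function, taken componentwise. -/
def pv (i : Fin m) (V : (Fin m → ℝ) → Fin n → ℝ) (x : Fin m → ℝ) : Fin n → ℝ :=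
  fun a => pd i (fun y => V y a) x

/-- The induced metric. -/
def metric (φ : (Fin m → ℝ) → Fin n → ℝ) (x : Fin m → ℝ) : Matrix (Fin m) (Fin m) ℝ :=
  Matrix.of fun i j => pv i φ x ⬝ᵥ pv j φ x

/-- The Christoffel symbols of the induced metric. -/
def chris (φ : (Fin m → ℝ) → Fin n → ℝ) (k i j : Fin m) (x : Fin m → ℝ) : ℝ :=
  (1 / 2) * ∑ l, (metric φ x)⁻¹ k l * (pd i (fun y => metric φ y j l) x +
    pd j (fun y => metric φ y i l) x - pd l (fun y => metric φ y i j) x)

/-- The pull-back along `φ` of the Levi-Civita connection of the unit sphere. -/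
def cov (φ : (Fin m → ℝ) → Fin n → ℝ) (i : Fin m) (V : (Fin m → ℝ) → Fin n → ℝ)
    (x : Fin m → ℝ) : Fin n → ℝ :=
  pv i V x - (pv i V x ⬝ᵥ φ x) • φ x

/-- The tension field, the trace of the covariant derivative of `dφ`. -/
def tension (φ : (Fin m → ℝ) → Fin n → ℝ) (x : Fin m → ℝ) : Fin n → ℝ :=
  ∑ i, ∑ j, (metric φ x)⁻¹ i j • (cov φ i (pv j φ) x - ∑ k, chris φ k i j x • pv k φ x)

/-- The curvature tensor of the unit sphere. -/
def curv (X Y Z : Fin n → ℝ) : Fin n → ℝ := (Y ⬝ᵥ Z) • X - (X ⬝ᵥ Z) • Y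

/-- The bitension field. -/
def bitension (φ : (Fin m → ℝ) → Fin n → ℝ) (x : Fin m → ℝ) : Fin n → ℝ :=
  ∑ i, ∑ j, (metric φ x)⁻¹ i j • (cov φ i (cov φ j (tension φ)) x -
      ∑ k, chris φ k i j x • cov φ k (tension φ) x) -
    ∑ i, ∑ j, (metric φ x)⁻¹ i j • curv (pv i φ x) (tension φ x) (pv j φ x)

end BiH
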