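import Mathlib

/-! Joint eigenvalues of commuting self-adjoint matrices. -/

set_option autoImplicit false
set_option linter.unusedSectionVars false
set_option linter.unusedVariables false

noncomputable section

namespace BiH

open Matrix

theorem op_Eig {E : Type} [NormedAddCommGroup E] [InnerProductSpace ℝ E] [FiniteDimensional ℝ E]
    (q s b : E →ₗ[ℝ] E) (hq : q.IsSymmetric) (hs : s.IsSymmetric) (hb : b.IsSymmetric)
    (hqq : q * q = q) (hqs : Commute q s) (hqb : Commute q b) (hsb : Commute s b) :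
    ∃ (J : Type) (_ : Fintype J) (μ : J → ℕ) (ω lam : J → ℝ), (∀ j, 0 < μ j) ∧
      ∀ a c : ℕ, LinearMap.trace ℝ E (q * s ^ a * b ^ c)
        = ∑ j, (μ j : ℝ) * ω j ^ a * lam j ^ c := by
  classical
  let T : Fin 3 → E →ₗ[ℝ] E := ![q, s, b]
  have hT : ∀ i, (T i).IsSymmetric := by
    intro i
    fin_cases i
    · exact hq
    · exact hs
    · exact hb
  have hC : Pairwise (Function.onFun Commute T) := by
    intro i j hij
    fin_cases i <;> fin_cases j
    · exact absurd rfl hij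
    · exact hqs
    · exact hqb
    · exact hqs.symm
    · exact absurd rfl hij
    · exact hsb
    · exact hqb.symm
    · exact hsb.symm
    · exact absurd rfl hij
  let N : (Fin 3 → ℝ) → Submodule ℝ E := fun α => ⨅ j, Module.End.eigenspace (T j) (α j)
  have hint : DirectSum.IsInternal N :=
    LinearMap.IsSymmetric.directSum_isInternal_of_pairwise_commute hT hC
  have hfin : {i | N i ≠ ⊥}.Finite :=
    WellFoundedGT.finite_ne_bot_of_iSupIndep hint.submodule_iSupIndep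
  have hact : ∀ α : Fin 3 → ℝ, ∀ x ∈ N α, ∀ j, T j x = α j • x := by
    intro α x hx j
    exact Module.End.mem_eigenspace_iff.mp ((Submodule.mem_iInf _).mp hx j)
  have hpw : ∀ α : Fin 3 → ℝ, ∀ x ∈ N α, ∀ j, ∀ k : ℕ, (T j ^ k) x = α j ^ k • x := by
    intro α x hx j k
    induction k with
    | zero => simp
    | succ k ih =>
      rw [pow_succ', Module.End.mul_apply, ih, map_smul, hact α x hx j, smul_smul, pow_succ]
  have hall : ∀ α : Fin 3 → ℝ, ∀ a c : ℕ, ∀ x ∈ N α,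
      (q * s ^ a * b ^ c) x = (α 0 * α 1 ^ a * α 2 ^ c) • x := by
    intro α a c x hx
    have h0 : q x = α 0 • x := hact α x hx 0
    have h1 : (s ^ a) x = α 1 ^ a • x := hpw α x hx 1 a
    have h2 : (b ^ c) x = α 2 ^ c • x := hpw α x hx 2 c
    rw [Module.End.mul_apply, Module.End.mul_apply, h2, map_smul, h1, map_smul, map_smul, h0,
      smul_smul, smul_smul]
    congr 1
    ring
  have h01 : ∀ α : Fin 3 → ℝ, N α ≠ ⊥ → α 0 = 0 ∨ α 0 = 1 := by
    intro α hα
    obtain ⟨x, hx, hx0⟩ := (Submodule.ne_bot_iff _).mp hα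
    have h0 : q x = α 0 • x := hact α x hx 0
    have h1 : (q * q) x = (α 0 * α 0) • x := by
      rw [Module.End.mul_apply, h0, map_smul, h0, smul_smul]
    rw [hqq, h0] at h1
    have h2 : α 0 = α 0 * α 0 := smul_left_injective ℝ hx0 h1
    by_cases h3 : α 0 = 0
    · exact Or.inl h3
    · right
      have h4 : α 0 * α 0 = α 0 * 1 := by rw [mul_one]; exact h2.symm
      exact mul_left_cancel₀ h3 h4
  let F : Finset (Fin 3 → ℝ) := hfin.toFinset.filter (fun α => α 0 = 1)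
  refine ⟨F, inferInstance, fun j => Module.finrank ℝ (N j.1), fun j => j.1 1, fun j => j.1 2,
    ?_, ?_⟩
  · intro j
    have hj : N j.1 ≠ ⊥ := by
      have h1 := (Finset.mem_filter.mp j.2).1
      exact hfin.mem_toFinset.mp h1
    exact Nat.pos_of_ne_zero (fun h => hj (Submodule.finrank_eq_zero.mp h))
  · intro a c
    have hmaps : ∀ α, Set.MapsTo (q * s ^ a * b ^ c) (N α) (N α) := by
      intro α x hx
      have h1 := hall α a c x hx
      show (q * s ^ a * b ^ c) x ∈ N α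
      rw [h1]
      exact Submodule.smul_mem _ _ hx
    rw [LinearMap.trace_eq_sum_trace_restrict' hint hfin hmaps]
    have hres : ∀ α, LinearMap.trace ℝ (N α) ((q * s ^ a * b ^ c).restrict (hmaps α))
        = (Module.finrank ℝ (N α) : ℝ) * (α 0 * α 1 ^ a * α 2 ^ c) := by
      intro α
      have h1 : (q * s ^ a * b ^ c).restrict (hmaps α)
          = (α 0 * α 1 ^ a * α 2 ^ c) • (LinearMap.id : N α →ₗ[ℝ] N α) := by
        apply LinearMap.ext
        intro x
        apply Subtype.ext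
        exact hall α a c x.1 x.2
      rw [h1, map_smul, LinearMap.trace_id, smul_eq_mul, mul_comm]
    simp only [hres]
    rw [Finset.sum_coe_sort F (fun α => (Module.finrank ℝ (N α) : ℝ) * α 1 ^ a * α 2 ^ c),
      Finset.sum_filter]
    apply Finset.sum_congr rfl
    intro α hα
    rcases h01 α (hfin.mem_toFinset.mp hα) with h | h
    · rw [if_neg (by rw [h]; exact zero_ne_one), h]
      ring
    · rw [if_pos h, h]
      ring

theorem sym_Eig {m : ℕ} (Q S B : Matrix (Fin m) (Fin m) ℝ)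
    (hQ : Qᵀ = Q) (hS : Sᵀ = S) (hB : Bᵀ = B)
    (hQQ : Q * Q = Q) (hQS : Q * S = S * Q) (hQB : Q * B = B * Q) (hSB : S * B = B * S) :
    ∃ (J : Type) (_ : Fintype J) (μ : J → ℕ) (ω lam : J → ℝ), (∀ j, 0 < μ j) ∧
      ∀ a b : ℕ, (Q * S ^ a * B ^ b).trace = ∑ j, (μ j : ℝ) * ω j ^ a * lam j ^ b := by
  let φ : Matrix (Fin m) (Fin m) ℝ ≃ₐ[ℝ] Module.End ℝ (EuclideanSpace ℝ (Fin m)) :=
    Matrix.toLpLinAlgEquiv 2
  have hsym : ∀ A : Matrix (Fin m) (Fin m) ℝ, Aᵀ = A → (φ A).IsSymmetric := by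
    intro A hA
    have h1 : A.IsHermitian := by
      show Aᴴ = A
      rw [conjTranspose_eq_transpose_of_trivial, hA]
    exact Matrix.isSymmetric_toEuclideanLin_iff.mpr h1
  have hcomm : ∀ A C : Matrix (Fin m) (Fin m) ℝ, A * C = C * A → Commute (φ A) (φ C) := by
    intro A C h
    show φ A * φ C = φ C * φ A
    rw [← map_mul, ← map_mul, h]
  obtain ⟨J, hJ, μ, ω, lam, hμ, htr⟩ := op_Eig (φ Q) (φ S) (φ B) (hsym Q hQ) (hsym S hS)
    (hsym B hB) (by rw [← map_mul, hQQ]) (hcomm Q S hQS) (hcomm Q B hQB) (hcomm S B hSB)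
  refine ⟨J, hJ, μ, ω, lam, hμ, fun a b => ?_⟩
  rw [← htr a b, ← map_pow, ← map_pow, ← map_mul, ← map_mul]
  exact (Matrix.trace_toLin_eq _ (PiLp.basisFun 2 ℝ (Fin m))).symm

open scoped MatrixOrder in
theorem fac_Eig {m : ℕ} (g : Matrix (Fin m) (Fin m) ℝ) (hg : g.PosDef) :
    ∃ L M : Matrix (Fin m) (Fin m) ℝ, L * M = 1 ∧ M * L = 1 ∧ g = Lᵀ * L := by
  obtain ⟨y, hy, hyg⟩ := CStarAlgebra.isStrictlyPositive_iff_eq_star_mul_self.mp
    hg.isStrictlyPositive
  obtain ⟨u, rfl⟩ := hy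
  refine ⟨(u : Matrix (Fin m) (Fin m) ℝ), ((u⁻¹ : (Matrix (Fin m) (Fin m) ℝ)ˣ) : Matrix (Fin m) (Fin m) ℝ),
    u.mul_inv, u.inv_mul, ?_⟩
  rw [hyg, star_eq_conjTranspose, conjTranspose_eq_transpose_of_trivial]

theorem eig {m : ℕ} (g Q S B : Matrix (Fin m) (Fin m) ℝ) (hg : g.PosDef)
    (hQ : (g * Q)ᵀ = g * Q) (hS : (g * S)ᵀ = g * S) (hB : (g * B)ᵀ = g * B)
    (hQQ : Q * Q = Q) (hQS : Q * S = S * Q) (hQB : Q * B = B * Q) (hSB : S * B = B * S) :
    ∃ (J : Type) (_ : Fintype J) (μ : J → ℕ) (ω lam : J → ℝ), (∀ j, 0 < μ j) ∧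
      ∀ a b : ℕ, (Q * S ^ a * B ^ b).trace = ∑ j, (μ j : ℝ) * ω j ^ a * lam j ^ b := by
  obtain ⟨L, M, hLM, hML, hgL⟩ := fac_Eig g hg
  have hMLt : Mᵀ * Lᵀ = 1 := by rw [← transpose_mul, hLM, transpose_one]
  have hconj : ∀ A : Matrix (Fin m) (Fin m) ℝ, L * A * M = Mᵀ * (g * A) * M := by
    intro A
    rw [hgL]
    simp only [← Matrix.mul_assoc]
    rw [hMLt, Matrix.one_mul]
  have hsym : ∀ A : Matrix (Fin m) (Fin m) ℝ, (g * A)ᵀ = g * A → (L * A * M)ᵀ = L * A * M := by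
    intro A hA
    rw [hconj A, transpose_mul, transpose_mul, hA, transpose_transpose, Matrix.mul_assoc,
      Matrix.mul_assoc, Matrix.mul_assoc]
  have hmul : ∀ A C : Matrix (Fin m) (Fin m) ℝ, L * A * M * (L * C * M) = L * (A * C) * M := by
    intro A C
    calc L * A * M * (L * C * M) = L * A * (M * L) * C * M := by simp only [Matrix.mul_assoc]
      _ = L * (A * C) * M := by rw [hML, Matrix.mul_one, Matrix.mul_assoc L A C]
  have hpow : ∀ (A : Matrix (Fin m) (Fin m) ℝ) (k : ℕ), (L * A * M) ^ k = L * A ^ k * M := by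
    intro A k
    induction k with
    | zero => rw [pow_zero, pow_zero, Matrix.mul_one, hLM]
    | succ k ih => rw [pow_succ, ih, hmul, pow_succ]
  obtain ⟨J, hJ, μ, ω, lam, hμ, htr⟩ := sym_Eig (L * Q * M) (L * S * M) (L * B * M)
    (hsym Q hQ) (hsym S hS) (hsym B hB) (by rw [hmul, hQQ]) (by rw [hmul, hmul, hQS])
    (by rw [hmul, hmul, hQB]) (by rw [hmul, hmul, hSB])
  refine ⟨J, hJ, μ, ω, lam, hμ, fun a b => ?_⟩
  rw [← htr a b, hpow, hpow, hmul, hmul, Matrix.trace_mul_cycle L _ M, hML, Matrix.one_mul]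

end BiH
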