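import Mathlib

/-! Derivations extend to fraction fields. -/

set_option autoImplicit false
set_option linter.unusedSectionVars false
set_option linter.unusedVariables false

noncomputable section

namespace BiH

open TrivSqZeroExt

/-- The first order Taylor expansion along a derivation. -/
def tay_Frac {R K : Type} [CommRing R] [Algebra ℂ R] [Field K] [Algebra R K]
    (d : Derivation ℂ R R) : R →+* DualNumber K where
  toFun r := inl (algebraMap R K r) + inr (algebraMap R K (d r))
  map_one' := by
    ext <;> simp
  map_mul' a b := by
    ext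
    · simp
    · simp only [snd_add, snd_inl, snd_inr, snd_mul, fst_add, fst_inl, fst_inr, zero_add,
        add_zero, Derivation.leibniz, smul_eq_mul, map_add, map_mul, op_smul_eq_mul]
      ring
  map_zero' := by
    ext <;> simp
  map_add' a b := by
    ext
    · simp
    · simp only [snd_add, snd_inl, snd_inr, zero_add, map_add]

theorem exists_deriv_frac {R K : Type} [CommRing R] [IsDomain R] [Algebra ℂ R] [Field K]
    [Algebra ℂ K] [Algebra R K] [IsScalarTower ℂ R K] [IsFractionRing R K]
    (d : Derivation ℂ R R) :
    ∃ D : Derivation ℂ K K, ∀ r, D (algebraMap R K r) = algebraMap R K (d r) := by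
  have hf : ∀ r, (tay_Frac (K := K) d r).fst = algebraMap R K r := fun r => by
    simp [tay_Frac]
  have hs : ∀ r, (tay_Frac (K := K) d r).snd = algebraMap R K (d r) := fun r => by
    change (inl (algebraMap R K r) + inr (algebraMap R K (d r)) : DualNumber K).snd = _
    simp only [snd_add, snd_inl, snd_inr, zero_add]
  have hu : ∀ y : nonZeroDivisors R, IsUnit (tay_Frac (K := K) d y) := fun y => by
    rw [TrivSqZeroExt.isUnit_iff_isUnit_fst, hf]
    exact IsLocalization.map_units K y
  let ψ : K →+* DualNumber K := IsLocalization.lift hu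
  have hψ : ∀ r, ψ (algebraMap R K r) = tay_Frac (K := K) d r := fun r =>
    IsLocalization.lift_eq hu r
  have h1 : ∀ x, (ψ x).fst = x := by
    have e : ((fstHom K K K).toRingHom.comp ψ) = RingHom.id K := by
      apply IsLocalization.ringHom_ext (nonZeroDivisors R)
      ext r
      simp [hψ, hf]
    intro x
    exact congrArg (fun g : K →+* K => g x) e
  have h2 : ∀ a b, (ψ (a * b)).snd = a * (ψ b).snd + b * (ψ a).snd := fun a b => by
    rw [map_mul, snd_mul, h1, h1]
    simp [mul_comm]
  have h3 : ∀ c : ℂ, (ψ (algebraMap ℂ K c)).snd = 0 := fun c => by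
    rw [IsScalarTower.algebraMap_apply ℂ R K, hψ, hs, Derivation.map_algebraMap, map_zero]
  let L : K →ₗ[ℂ] K :=
    { toFun := fun x => (ψ x).snd
      map_add' := fun a b => by rw [map_add, snd_add]
      map_smul' := fun c a => by
        rw [Algebra.smul_def, h2, h3, RingHom.id_apply, Algebra.smul_def]
        ring }
  refine ⟨Derivation.mk' L fun a b => h2 a b, fun r => ?_⟩
  change (ψ _).snd = _
  rw [hψ, hs]

end BiH
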