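import Pool.Agent.P.MP_ecb6bc_gt.Defs

/-! Tension and bitension over a ring with commuting derivations. -/

set_option autoImplicit false
set_option linter.unusedSectionVars false
set_option linter.unusedVariables false

noncomputable section

namespace BiH

open Matrix

/-- A ring of germs: commuting derivations and a value at the base point. -/
structure DR (R : Type) [CommRing R] [Algebra ℝ R] (m : ℕ) where
  d : Fin m → Derivation ℝ R R
  ev : R →ₐ[ℝ] ℝ
  comm : ∀ i j u, d i (d j u) = d j (d i u)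
  unit : ∀ u, ev u ≠ 0 → IsUnit u
  sqrt : ∀ u, 0 < ev u → ∃ v, v * v = u
  sq : ∀ (n : ℕ) (v : Fin n → R), v ⬝ᵥ v = 0 → v = 0

namespace DR

variable {R : Type} [CommRing R] [Algebra ℝ R] {m n : ℕ} (Δ : DR R m)

/-- Componentwise derivative. -/
def pv (i : Fin m) (V : Fin n → R) : Fin n → R := fun a => Δ.d i (V a)

/-- The induced metric. -/
def metric (f : Fin n → R) : Matrix (Fin m) (Fin m) R :=
  Matrix.of fun i j => Δ.pv i f ⬝ᵥ Δ.pv j f

/-- The Christoffel symbols. -/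
def chris (f : Fin n → R) (k i j : Fin m) : R :=
  algebraMap ℝ R (1 / 2) * ∑ l, (Δ.metric f)⁻¹ k l * (Δ.d i (Δ.metric f j l) +
    Δ.d j (Δ.metric f i l) - Δ.d l (Δ.metric f i j))

/-- The pull-back connection. -/
def cov (f : Fin n → R) (i : Fin m) (V : Fin n → R) : Fin n → R :=
  Δ.pv i V - (Δ.pv i V ⬝ᵥ f) • f

/-- The tension field. -/
def tension (f : Fin n → R) : Fin n → R :=
  ∑ i, ∑ j, (Δ.metric f)⁻¹ i j • (Δ.cov f i (Δ.pv j f) - ∑ k, Δ.chris f k i j • Δ.pv k f)

/-- The curvature tensor of the sphere. -/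
def curv (X Y Z : Fin n → R) : Fin n → R := (Y ⬝ᵥ Z) • X - (X ⬝ᵥ Z) • Y

/-- The bitension field. -/
def bitension (f : Fin n → R) : Fin n → R :=
  ∑ i, ∑ j, (Δ.metric f)⁻¹ i j • (Δ.cov f i (Δ.cov f j (Δ.tension f)) -
      ∑ k, Δ.chris f k i j • Δ.cov f k (Δ.tension f)) -
    ∑ i, ∑ j, (Δ.metric f)⁻¹ i j • curv (Δ.pv i f) (Δ.tension f) (Δ.pv j f)

end DR

end BiH
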