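import Pool.Agent.P.MP_ecb6bc_gt.HDefs

/-! The moving frame of a hypersurface: formulas of Gauss and Weingarten. -/

set_option autoImplicit false
set_option linter.unusedSectionVars false
set_option linter.unusedVariables false

noncomputable section

namespace BiH

open Matrix

variable {R : Type} [CommRing R] [Algebra ℝ R] {m : ℕ} {Δ : DR R m}
  {f N : Fin (m + 2) → R}

theorem d_dot_GeoA1 {n : ℕ} (i : Fin m) (U V : Fin n → R) :
    Δ.d i (U ⬝ᵥ V) = Δ.pv i U ⬝ᵥ V + U ⬝ᵥ Δ.pv i V := by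
  simp only [dotProduct, map_sum, Derivation.leibniz, DR.pv, smul_eq_mul, ← Finset.sum_add_distrib]
  exact Finset.sum_congr rfl fun a _ => by ring

theorem pv_comm_GeoA1 {n : ℕ} (i j : Fin m) (V : Fin n → R) :
    Δ.pv i (Δ.pv j V) = Δ.pv j (Δ.pv i V) := funext fun a => Δ.comm i j (V a)

theorem half_GeoA1 : algebraMap ℝ R (1 / 2) * 2 = 1 := by
  rw [← map_ofNat (algebraMap ℝ R) 2, ← map_mul]
  norm_num

theorem self_GeoA1 {n : ℕ} {V : Fin n → R} (h1 : V ⬝ᵥ V = 1) (i : Fin m) :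
    Δ.pv i V ⬝ᵥ V = 0 := by
  have h := d_dot_GeoA1 (Δ := Δ) i V V
  rw [h1, Derivation.map_one_eq_zero, dotProduct_comm V] at h
  linear_combination (-algebraMap ℝ R (1 / 2)) * h - (Δ.pv i V ⬝ᵥ V) * (half_GeoA1 (R := R))

theorem fij_GeoA1 (h1 : f ⬝ᵥ f = 1) (i j : Fin m) :
    Δ.pv i (Δ.pv j f) ⬝ᵥ f = -Δ.metric f i j := by
  have h := d_dot_GeoA1 (Δ := Δ) i (Δ.pv j f) f
  rw [self_GeoA1 h1, map_zero, dotProduct_comm (Δ.pv j f)] at h
  change _ = -(Δ.pv i f ⬝ᵥ Δ.pv j f)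
  linear_combination -h

theorem metric_mul_inv (hdet : Δ.ev (Δ.metric f).det ≠ 0) :
    Δ.metric f * (Δ.metric f)⁻¹ = 1 ∧ (Δ.metric f)⁻¹ * Δ.metric f = 1 ∧
      (Δ.metric f)ᵀ = Δ.metric f ∧ ((Δ.metric f)⁻¹)ᵀ = (Δ.metric f)⁻¹ := by
  have hu : IsUnit (Δ.metric f).det := Δ.unit _ hdet
  have hs : (Δ.metric f)ᵀ = Δ.metric f := by
    ext i j
    exact dotProduct_comm (Δ.pv j f) (Δ.pv i f)
  refine ⟨mul_nonsing_inv _ hu, nonsing_inv_mul _ hu, hs, ?_⟩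
  rw [transpose_nonsing_inv, hs]

theorem chris_eq (k i j : Fin m) : Δ.chris f k i j =
    ∑ l, (Δ.metric f)⁻¹ k l * (Δ.pv i (Δ.pv j f) ⬝ᵥ Δ.pv l f) := by
  rw [DR.chris, Finset.mul_sum]
  refine Finset.sum_congr rfl fun l _ => ?_
  simp only [DR.metric, of_apply, d_dot_GeoA1]
  rw [pv_comm_GeoA1 j i, pv_comm_GeoA1 l i, pv_comm_GeoA1 l j, dotProduct_comm (Δ.pv j f),
    dotProduct_comm (Δ.pv i f)]
  linear_combination ((Matrix.of fun i j => Δ.pv i f ⬝ᵥ Δ.pv j f)⁻¹ k l *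
    (Δ.pv i (Δ.pv j f) ⬝ᵥ Δ.pv l f)) * (half_GeoA1 (R := R))

theorem contr_GeoA1 (hdet : Δ.ev (Δ.metric f).det ≠ 0) (c : Fin m → R) (l : Fin m) :
    ∑ k, (∑ p, (Δ.metric f)⁻¹ k p * c p) * (Δ.pv k f ⬝ᵥ Δ.pv l f) = c l := by
  obtain ⟨h1, -, h3, -⟩ := metric_mul_inv hdet
  have h : ((Δ.metric f)⁻¹ *ᵥ c) ᵥ* Δ.metric f = c := by
    rw [← mulVec_transpose, h3, mulVec_mulVec, h1, one_mulVec]
  exact congrFun h l

theorem cov_GeoA1 (h1 : f ⬝ᵥ f = 1) (i j : Fin m) :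
    Δ.cov f i (Δ.pv j f) = Δ.pv i (Δ.pv j f) + Δ.metric f i j • f := by
  rw [DR.cov, fij_GeoA1 h1, neg_smul, sub_neg_eq_add]

theorem tension_dot (h1 : f ⬝ᵥ f = 1) (hdet : Δ.ev (Δ.metric f).det ≠ 0) :
    Δ.tension f ⬝ᵥ f = 0 ∧ ∀ i, Δ.tension f ⬝ᵥ Δ.pv i f = 0 := by
  refine ⟨?_, fun l => ?_⟩
  · simp only [DR.tension, sum_dotProduct, smul_dotProduct, sub_dotProduct, cov_GeoA1 h1,
      add_dotProduct, fij_GeoA1 h1, self_GeoA1 h1, h1, smul_eq_mul]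
    simp
  · simp only [DR.tension, sum_dotProduct, smul_dotProduct, sub_dotProduct, cov_GeoA1 h1,
      add_dotProduct, dotProduct_comm f, self_GeoA1 h1, smul_eq_mul, chris_eq,
      contr_GeoA1 hdet]
    simp

/-- The frame is linearly independent. -/
theorem Fr.indep (h : Fr Δ f N) (a b : R) (c : Fin m → R)
    (e : a • f + b • N + ∑ k, c k • Δ.pv k f = 0) : a = 0 ∧ b = 0 ∧ c = 0 := by
  have h1 := congrArg (· ⬝ᵥ f) e
  have h2 := congrArg (N ⬝ᵥ ·) e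
  simp only [add_dotProduct, smul_dotProduct, sum_dotProduct, h.ff, h.Nf, self_GeoA1 h.ff,
    smul_eq_mul, mul_zero, mul_one, add_zero, Finset.sum_const_zero, zero_dotProduct] at h1
  simp only [dotProduct_add, dotProduct_smul, dotProduct_sum, h.NN, h.Nf, h.Nd,
    smul_eq_mul, mul_zero, mul_one, add_zero, zero_add, Finset.sum_const_zero,
    dotProduct_zero] at h2
  refine ⟨h1, h2, ?_⟩
  rw [h1, h2, zero_smul, zero_smul, zero_add, zero_add] at e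
  have h3 : c ᵥ* Δ.metric f = 0 := by
    funext l
    have h4 := congrArg (· ⬝ᵥ Δ.pv l f) e
    simp only [sum_dotProduct, smul_dotProduct, smul_eq_mul, zero_dotProduct] at h4
    exact h4
  have h5 := congrArg (· ᵥ* (Δ.metric f)⁻¹) h3
  simpa only [vecMul_vecMul, (metric_mul_inv h.det).1, vecMul_one, zero_vecMul] using h5

/-- The frame spans. -/
theorem Fr.span (h : Fr Δ f N) (V : Fin (m + 2) → R) :
    V = (V ⬝ᵥ f) • f + (V ⬝ᵥ N) • N +
      ∑ k, (∑ l, (Δ.metric f)⁻¹ k l * (V ⬝ᵥ Δ.pv l f)) • Δ.pv k f := by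
  obtain ⟨g1, g2, g3, g4⟩ := metric_mul_inv h.det
  let P : Matrix (Unit ⊕ Unit ⊕ Fin m) (Fin (m + 2)) R := Matrix.of
    (Sum.elim (fun _ => f) (Sum.elim (fun _ => N) fun k => ∑ l, (Δ.metric f)⁻¹ k l • Δ.pv l f))
  let Q : Matrix (Unit ⊕ Unit ⊕ Fin m) (Fin (m + 2)) R := Matrix.of
    (Sum.elim (fun _ => f) (Sum.elim (fun _ => N) fun k => Δ.pv k f))
  have hPQ : P * Qᵀ = 1 := by
    ext r s
    change P r ⬝ᵥ Q s = _
    have e1 : ∀ i, f ⬝ᵥ Δ.pv i f = 0 := fun i => by rw [dotProduct_comm, self_GeoA1 h.ff]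
    have e2 : ∀ i, Δ.pv i f ⬝ᵥ N = 0 := fun i => by rw [dotProduct_comm, h.Nd]
    have e3 : f ⬝ᵥ N = 0 := by rw [dotProduct_comm, h.Nf]
    rcases r with r | r | r <;> rcases s with s | s | s
    · exact Eq.trans (h.ff) (by simp)
    · exact Eq.trans (e3) (by simp)
    · exact Eq.trans (e1 s) (by simp)
    · exact Eq.trans (h.Nf) (by simp)
    · exact Eq.trans (h.NN) (by simp)
    · exact Eq.trans (h.Nd s) (by simp)
    · change (∑ l, (Δ.metric f)⁻¹ r l • Δ.pv l f) ⬝ᵥ f = _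
      simp [sum_dotProduct, self_GeoA1 h.ff]
    · change (∑ l, (Δ.metric f)⁻¹ r l • Δ.pv l f) ⬝ᵥ N = _
      simp [sum_dotProduct, e2]
    · change (∑ l, (Δ.metric f)⁻¹ r l • Δ.pv l f) ⬝ᵥ Δ.pv s f = _
      have h1 := congrFun (congrFun g2 r) s
      simp only [sum_dotProduct, smul_dotProduct, smul_eq_mul]
      refine Eq.trans h1 ?_
      simp [Matrix.one_apply]
  have hQP : Qᵀ * P = 1 :=
    (Matrix.mul_eq_one_comm_of_card_eq _ _ _ (by simp; omega)).1 hPQ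
  have h1 : V = (P *ᵥ V) ᵥ* Q := by rw [← mulVec_transpose, mulVec_mulVec, hQP, one_mulVec]
  refine h1.trans ?_
  rw [vecMul_eq_sum, Fintype.sum_sum_type, Fintype.sum_sum_type, Fintype.sum_unique,
    Fintype.sum_unique, ← add_assoc]
  refine congrArg₂ (· + ·) (congrArg₂ (· + ·) ?_ ?_) (Finset.sum_congr rfl fun k _ => ?_)
  · rw [dotProduct_comm]
    rfl
  · rw [dotProduct_comm]
    rfl
  · change ((∑ l, (Δ.metric f)⁻¹ k l • Δ.pv l f) ⬝ᵥ V) • Δ.pv k f = _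
    simp only [sum_dotProduct, smul_dotProduct, smul_eq_mul, dotProduct_comm V]

theorem Fr.gauss (h : Fr Δ f N) (i j : Fin m) :
    Δ.pv i (Δ.pv j f) = -(Δ.metric f i j) • f + (Δ.metric f * shape Δ f N) i j • N +
      ∑ k, gam Δ f i k j • Δ.pv k f := by
  have h1 : Δ.metric f * shape Δ f N = Matrix.of fun i j => N ⬝ᵥ Δ.pv i (Δ.pv j f) := by
    rw [shape, ← Matrix.mul_assoc, (metric_mul_inv h.det).1, Matrix.one_mul]
  refine (h.span _).trans ?_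
  rw [fij_GeoA1 h.ff, h1, of_apply, dotProduct_comm N]
  simp only [gam, of_apply, chris_eq]

theorem Fr.wein (h : Fr Δ f N) (i : Fin m) :
    Δ.pv i N = -∑ k, shape Δ f N k i • Δ.pv k f := by
  have e1 : Δ.pv i N ⬝ᵥ f = 0 := by
    have h1 := d_dot_GeoA1 (Δ := Δ) i N f
    rw [h.Nf, map_zero, h.Nd, add_zero] at h1
    exact h1.symm
  have e2 : ∀ l, Δ.pv i N ⬝ᵥ Δ.pv l f = -(N ⬝ᵥ Δ.pv l (Δ.pv i f)) := fun l => by
    have h1 := d_dot_GeoA1 (Δ := Δ) i N (Δ.pv l f)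
    rw [h.Nd, map_zero, pv_comm_GeoA1 i l] at h1
    linear_combination -h1
  refine (h.span _).trans ?_
  rw [e1, self_GeoA1 h.NN, zero_smul, zero_smul, zero_add, zero_add, ← Finset.sum_neg_distrib]
  refine Finset.sum_congr rfl fun k _ => ?_
  simp only [e2, shape, Matrix.mul_apply, of_apply, mul_neg, Finset.sum_neg_distrib, neg_smul]

theorem Fr.tension_eq (h : Fr Δ f N) : Δ.tension f = (shape Δ f N).trace • N := by
  obtain ⟨-, g2, -, g4⟩ := metric_mul_inv h.det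
  have h1 : ∀ i j, Δ.cov f i (Δ.pv j f) - ∑ k, Δ.chris f k i j • Δ.pv k f =
      (Δ.metric f * shape Δ f N) i j • N := fun i j => by
    rw [cov_GeoA1 h.ff, h.gauss, neg_smul]
    simp only [gam, of_apply]
    abel
  have h2 : (shape Δ f N).trace =
      ∑ i, ∑ j, (Δ.metric f)⁻¹ i j * (Δ.metric f * shape Δ f N) i j := by
    have h3 : shape Δ f N = ((Δ.metric f)⁻¹)ᵀ * (Δ.metric f * shape Δ f N) := by
      rw [g4, ← Matrix.mul_assoc, g2, Matrix.one_mul]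
    rw [Finset.sum_comm]
    exact congrArg Matrix.trace h3
  simp only [DR.tension, h1, smul_smul, h2, Finset.sum_smul]

end BiH
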