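import Pool.Agent.P.MP_ecb6bc_gt.GeoA1

/-! The equations of Gauss and Codazzi. -/

set_option autoImplicit false
set_option linter.unusedSectionVars false
set_option linter.unusedVariables false

noncomputable section

namespace BiH

open Matrix

variable {R : Type} [CommRing R] [Algebra ℝ R] {m : ℕ} {Δ : DR R m}
  {f N : Fin (m + 2) → R}

theorem pv_comm_GeoA2 {n : ℕ} (i j : Fin m) (V : Fin n → R) :
    Δ.pv i (Δ.pv j V) = Δ.pv j (Δ.pv i V) := funext fun a => Δ.comm i j (V a)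

theorem d_sum_GeoA2 {ι : Type} (i : Fin m) (s : Finset ι) (u : ι → R) :
    Δ.d i (∑ a ∈ s, u a) = ∑ a ∈ s, Δ.d i (u a) := map_sum (Δ.d i).toLinearMap u s

theorem d_dot_GeoA2 {n : ℕ} (i : Fin m) (U V : Fin n → R) :
    Δ.d i (U ⬝ᵥ V) = Δ.pv i U ⬝ᵥ V + U ⬝ᵥ Δ.pv i V := by
  unfold dotProduct
  rw [d_sum_GeoA2, ← Finset.sum_add_distrib]
  refine Finset.sum_congr rfl (fun a _ => ?_)
  rw [Derivation.leibniz, smul_eq_mul, smul_eq_mul, DR.pv, DR.pv]
  ring

theorem pv_comb_GeoA2 (h : Fr Δ f N) (i : Fin m) (a b : R) (c : Fin m → R) :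
    Δ.pv i (a • f + b • N + ∑ k, c k • Δ.pv k f) =
      (Δ.d i a - ∑ k, c k * Δ.metric f i k) • f +
        (Δ.d i b + ∑ k, c k * (Δ.metric f * shape Δ f N) i k) • N +
        ∑ l, (a * (1 : Matrix (Fin m) (Fin m) R) l i - b * shape Δ f N l i + Δ.d i (c l) +
          ∑ k, gam Δ f i l k * c k) • Δ.pv l f := by
  have e1 : Δ.pv i (a • f + b • N + ∑ k, c k • Δ.pv k f) =
      a • Δ.pv i f + Δ.d i a • f + (b • Δ.pv i N + Δ.d i b • N) +
        ∑ k, (c k • Δ.pv i (Δ.pv k f) + Δ.d i (c k) • Δ.pv k f) := by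
    funext t
    simp only [DR.pv, Pi.add_apply, Pi.smul_apply, Finset.sum_apply, smul_eq_mul, map_add,
      d_sum_GeoA2, Derivation.leibniz]
    congr 1
    · ring
    · exact Finset.sum_congr rfl (fun k _ => by ring)
  have e2 : ∑ l, (a * (1 : Matrix (Fin m) (Fin m) R) l i) • Δ.pv l f = a • Δ.pv i f := by
    rw [Finset.sum_eq_single i]
    · simp
    · intro l _ hl
      simp [Matrix.one_apply_ne hl]
    · simp
  have e3 : ∑ l, (∑ k, gam Δ f i l k * c k) • Δ.pv l f =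
      ∑ k, c k • ∑ l, gam Δ f i l k • Δ.pv l f := by
    simp only [Finset.sum_smul, Finset.smul_sum]
    rw [Finset.sum_comm]
    refine Finset.sum_congr rfl (fun k _ => Finset.sum_congr rfl (fun l _ => ?_))
    rw [mul_comm, mul_smul]
  rw [e1, h.wein i]
  simp only [add_smul, sub_smul, Finset.sum_add_distrib, Finset.sum_sub_distrib]
  rw [e2, e3]
  simp only [h.gauss i, Finset.sum_add_distrib, smul_add, Finset.sum_smul, smul_neg, neg_smul,
    Finset.sum_neg_distrib, mul_smul]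
  rw [Finset.smul_sum]
  abel

theorem uniq_GeoA2 (h : Fr Δ f N) {a b a' b' : R} {c c' : Fin m → R}
    (e : a • f + b • N + ∑ k, c k • Δ.pv k f = a' • f + b' • N + ∑ k, c' k • Δ.pv k f)
    (l : Fin m) : c l = c' l := by
  have h1 := h.indep (a - a') (b - b') (fun k => c k - c' k) (by
    simp only [sub_smul, Finset.sum_sub_distrib]
    rw [← sub_eq_zero.2 e]
    abel)
  exact sub_eq_zero.1 (congrFun h1.2.2 l)

theorem Fr.str (h : Fr Δ f N) :
    Str Δ (Δ.metric f) (Δ.metric f)⁻¹ (gam Δ f) (shape Δ f N) := by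
  obtain ⟨g1, g2, g3, g4⟩ := metric_mul_inv h.det
  have hΓ : ∀ i, Δ.metric f * gam Δ f i =
      Matrix.of fun p j => Δ.pv i (Δ.pv j f) ⬝ᵥ Δ.pv p f := by
    intro i
    have : gam Δ f i = (Δ.metric f)⁻¹ * Matrix.of fun p j => Δ.pv i (Δ.pv j f) ⬝ᵥ Δ.pv p f := by
      ext k j
      rw [gam, Matrix.of_apply, chris_eq, Matrix.mul_apply]
      rfl
    rw [this, ← Matrix.mul_assoc, g1, Matrix.one_mul]
  have hA : Δ.metric f * shape Δ f N = Matrix.of fun i j => N ⬝ᵥ Δ.pv i (Δ.pv j f) := by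
    rw [shape, ← Matrix.mul_assoc, g1, Matrix.one_mul]
  refine ⟨g3, g1, ?_, ?_, ?_, ?_, ?_, ?_, ?_⟩
  · have e : (Δ.metric f).map Δ.ev =
        (Matrix.of fun a i => Δ.ev (Δ.pv i f a))ᴴ * Matrix.of fun a i => Δ.ev (Δ.pv i f a) := by
      ext i j
      simp [DR.metric, Matrix.mul_apply, dotProduct]
    have h1 : ((Δ.metric f).map Δ.ev).PosSemidef := by
      rw [e]
      exact Matrix.posSemidef_conjTranspose_mul_self _
    refine h1.posDef_iff_det_ne_zero.2 ?_
    have h2 := h.det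
    rw [AlgHom.map_det] at h2
    exact h2
  · intro Z hZ
    have e : Z ⬝ᵥ Δ.metric f *ᵥ Z = (∑ k, Z k • Δ.pv k f) ⬝ᵥ ∑ k, Z k • Δ.pv k f := by
      rw [sum_dotProduct, dotProduct]
      refine Finset.sum_congr rfl (fun i _ => ?_)
      rw [dotProduct_sum, Matrix.mulVec, dotProduct, Finset.mul_sum]
      refine Finset.sum_congr rfl (fun j _ => ?_)
      rw [smul_dotProduct, dotProduct_smul, DR.metric, Matrix.of_apply, smul_eq_mul, smul_eq_mul]
      ring
    rw [e] at hZ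
    have h1 := Δ.sq _ _ hZ
    exact (h.indep 0 0 Z (by rw [h1]; simp)).2.2
  · intro i
    have e : (gam Δ f i)ᵀ * Δ.metric f = (Δ.metric f * gam Δ f i)ᵀ := by
      rw [Matrix.transpose_mul, g3]
    rw [e, hΓ]
    ext j k
    rw [Matrix.map_apply, DR.metric, Matrix.of_apply, d_dot_GeoA2, Matrix.add_apply,
      Matrix.transpose_apply, Matrix.of_apply, Matrix.of_apply, dotProduct_comm (Δ.pv j f)]
  · intro i j k
    rw [gam, gam, Matrix.of_apply, Matrix.of_apply, chris_eq, chris_eq, pv_comm_GeoA2 i j]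
  · rw [hA]
    ext i j
    rw [Matrix.transpose_apply, Matrix.of_apply, Matrix.of_apply, pv_comm_GeoA2 i j]
  · intro i j k
    have w : ∀ j, Δ.pv j N = (0 : R) • f + (0 : R) • N + ∑ k, (-shape Δ f N k j) • Δ.pv k f := by
      intro j
      rw [h.wein j]
      simp
    have e := pv_comm_GeoA2 (Δ := Δ) i j N
    rw [w j, w i, pv_comb_GeoA2 h, pv_comb_GeoA2 h] at e
    have e' := uniq_GeoA2 h e k
    simp only [zero_mul, sub_zero, zero_add, map_neg, mul_neg, Finset.sum_neg_distrib] at e'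
    rw [Matrix.add_apply, Matrix.add_apply, Matrix.map_apply, Matrix.map_apply, Matrix.mul_apply,
      Matrix.mul_apply]
    linear_combination -e'
  · intro i k j l
    have e := pv_comm_GeoA2 (Δ := Δ) k i (Δ.pv j f)
    rw [h.gauss i j, h.gauss k j, pv_comb_GeoA2 h, pv_comb_GeoA2 h] at e
    have e' := uniq_GeoA2 h e l
    rw [Matrix.sub_apply, Matrix.add_apply, Matrix.sub_apply, Matrix.map_apply, Matrix.map_apply,
      Matrix.mul_apply (M := gam Δ f k), Matrix.mul_apply (M := gam Δ f i)]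
    linear_combination e'

end BiH
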