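import Pool.Agent.P.MP_ecb6bc_gt.HDefs

/-! The traced Codazzi equation. -/

set_option autoImplicit false
set_option linter.unusedSectionVars false
set_option linter.unusedVariables false

noncomputable section

namespace BiH

open Matrix

variable {R : Type} [CommRing R] [Algebra ℝ R] {m : ℕ} {Δ : DR R m}
  {g gi : Matrix (Fin m) (Fin m) R} {Γ : Fin m → Matrix (Fin m) (Fin m) R}
  {A : Matrix (Fin m) (Fin m) R} {κ ρ : R} {X : Fin m → R}

theorem map_mul_GeoB0 (D : Derivation ℝ R R) (P Q : Matrix (Fin m) (Fin m) R) :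
    (P * Q).map D = P.map D * Q + P * Q.map D := by
  ext a b
  simp only [Matrix.map_apply, Matrix.mul_apply, Matrix.add_apply, map_sum, Derivation.leibniz,
    smul_eq_mul, ← Finset.sum_add_distrib]
  exact Finset.sum_congr rfl fun p _ => by ring

theorem trace_nab_GeoB0 (D : Derivation ℝ R R) (G W : Matrix (Fin m) (Fin m) R) :
    (nab D G W).trace = D W.trace := by
  rw [nab, Matrix.trace_sub, Matrix.trace_add, Matrix.trace_mul_comm G W, add_sub_cancel_right]
  simp [Matrix.trace, map_sum]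

theorem Str.gig (h : Str Δ g gi Γ A) : gi * g = 1 ∧ giᵀ = gi := by
  refine ⟨mul_eq_one_comm.1 h.gg, ?_⟩
  have h1 : giᵀ * g = 1 := by
    have := congrArg Matrix.transpose h.gg
    rwa [Matrix.transpose_mul, h.gs, Matrix.transpose_one] at this
  calc giᵀ = giᵀ * (g * gi) := by rw [h.gg, Matrix.mul_one]
    _ = gi := by rw [← Matrix.mul_assoc, h1, Matrix.one_mul]

/-- The covariant derivative of a self-adjoint field is self-adjoint. -/
theorem Str.nab_symm (h : Str Δ g gi Γ A) (i : Fin m) {W : Matrix (Fin m) (Fin m) R}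
    (hW : (g * W)ᵀ = g * W) : (g * nab (Δ.d i) (Γ i) W)ᵀ = g * nab (Δ.d i) (Γ i) W := by
  have e : g * nab (Δ.d i) (Γ i) W =
      (g * W).map (Δ.d i) - (Γ i)ᵀ * (g * W) - (g * W) * Γ i := by
    rw [map_mul_GeoB0, h.dg, nab]
    noncomm_ring
  rw [e, Matrix.transpose_sub, Matrix.transpose_sub, Matrix.transpose_mul _ (g * W),
    Matrix.transpose_mul (g * W), hW, Matrix.transpose_transpose, ← Matrix.transpose_map, hW]
  abel

theorem Str.cod' (h : Str Δ g gi Γ A) (i j k : Fin m) :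
    nab (Δ.d i) (Γ i) A k j = nab (Δ.d j) (Γ j) A k i := by
  have e : (A * Γ i) k j = (A * Γ j) k i := by
    simp only [Matrix.mul_apply]
    exact Finset.sum_congr rfl fun p _ => by rw [h.sy i j p]
  simp only [nab, Matrix.sub_apply]
  rw [h.cod i j k, e]

theorem Str.div_eq (h : Str Δ g gi Γ A) (l : Fin m) :
    ∑ i, ∑ j, gi i j * nab (Δ.d i) (Γ i) A l j = grad Δ gi A.trace l := by
  have hc : ∀ i, nab (Δ.d i) (Γ i) A * gi = gi * (nab (Δ.d i) (Γ i) A)ᵀ := fun i => by
    have h1 := h.nab_symm i h.hs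
    rw [Matrix.transpose_mul, h.gs] at h1
    calc nab (Δ.d i) (Γ i) A * gi = gi * (g * nab (Δ.d i) (Γ i) A) * gi := by
          rw [← Matrix.mul_assoc, h.gig.1, Matrix.one_mul]
      _ = gi * (nab (Δ.d i) (Γ i) A)ᵀ * (g * gi) := by rw [← h1]; simp only [Matrix.mul_assoc]
      _ = _ := by rw [h.gg, Matrix.mul_one]
  have h2 : ∀ i, ∑ j, gi i j * nab (Δ.d i) (Γ i) A l j =
      ∑ p, gi l p * nab (Δ.d p) (Γ p) A i i := fun i => by
    have h3 := congrFun (congrFun (hc i) l) i
    simp only [Matrix.mul_apply, Matrix.transpose_apply] at h3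
    calc ∑ j, gi i j * nab (Δ.d i) (Γ i) A l j = ∑ j, nab (Δ.d i) (Γ i) A l j * gi j i :=
          Finset.sum_congr rfl fun j _ => by
            rw [mul_comm, ← congrFun (congrFun h.gig.2 i) j, Matrix.transpose_apply]
      _ = _ := by
          rw [h3]
          exact Finset.sum_congr rfl fun p _ => by rw [h.cod' i p i]
  rw [Finset.sum_congr rfl fun i _ => h2 i, Finset.sum_comm]
  simp only [grad, Matrix.mulVec, dotProduct]
  refine Finset.sum_congr rfl fun p _ => ?_
  rw [← Finset.mul_sum, ← trace_nab_GeoB0 (Δ.d p) (Γ p) A]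
  rfl

theorem nab_dX (X : Fin m → R) (W : Matrix (Fin m) (Fin m) R) :
    nab (dX Δ X) (gX Γ X) W = ∑ i, X i • nab (Δ.d i) (Γ i) W := by
  have e : W.map (dX Δ X) = ∑ i, X i • W.map (Δ.d i) := by
    ext a b
    simp [Matrix.map_apply, dX_apply, Matrix.sum_apply]
  simp only [nab, e, gX, Finset.sum_mul, Finset.mul_sum, smul_sub, smul_add,
    Finset.sum_sub_distrib, Finset.sum_add_distrib, Matrix.smul_mul, Matrix.mul_smul]

/-- The unit vector field along the gradient. -/
theorem Str.exists_dir (h : Str Δ g gi Γ A) (htan : A *ᵥ grad Δ gi κ = κ • grad Δ gi κ)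
    (i : Fin m) (hi : Δ.ev (Δ.d i κ) ≠ 0) : ∃ ρ X, Dir Δ g A κ ρ X := by
  set w : Fin m → R := fun j => Δ.d j κ with hw
  have hgr : grad Δ gi κ = gi *ᵥ w := rfl
  have hinv : (g.map Δ.ev)⁻¹ = gi.map Δ.ev := by
    refine Matrix.inv_eq_right_inv ?_
    have := congrArg (fun M : Matrix (Fin m) (Fin m) R => M.map Δ.ev) h.gg
    rw [show (g * gi).map Δ.ev = g.map Δ.ev * gi.map Δ.ev from
      Matrix.map_mul (f := (Δ.ev : R →+* ℝ))] at this
    rw [this]
    exact Matrix.map_one _ (map_zero _) (map_one _)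
  have hpos : (gi.map Δ.ev).PosDef := hinv ▸ h.pos.inv
  have hne : (fun j => Δ.ev (w j)) ≠ 0 := fun e => hi (congrFun e i)
  have hu : 0 < Δ.ev (w ⬝ᵥ gi *ᵥ w) := by
    have := hpos.dotProduct_mulVec_pos hne
    simpa [dotProduct, Matrix.mulVec, map_sum, map_mul] using this
  obtain ⟨v, hv⟩ := Δ.sqrt _ hu
  have hv0 : Δ.ev v ≠ 0 := fun e => by
    rw [← hv, map_mul, e, mul_zero] at hu
    exact lt_irrefl _ hu
  obtain ⟨t, ht⟩ := (Δ.unit v hv0).exists_right_inv
  have hgw : g *ᵥ (gi *ᵥ w) = w := by rw [Matrix.mulVec_mulVec, h.gg, Matrix.one_mulVec]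
  refine ⟨v, t • (gi *ᵥ w), hv0, ?_, fun j => ?_, ?_⟩
  · rw [Matrix.mulVec_smul, hgw, smul_dotProduct, dotProduct_smul, dotProduct_comm, ← hv]
    simp only [smul_eq_mul]
    linear_combination (v * t + 1) * ht
  · rw [Matrix.mulVec_smul, hgw, Pi.smul_apply, smul_eq_mul, ← mul_assoc, ht, one_mul]
  · rw [Matrix.mulVec_smul, ← hgr, htan, smul_comm]

end BiH
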