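import Pool.Agent.P.MP_ecb6bc_gt.GeoA2
import Pool.Agent.P.MP_ecb6bc_gt.GeoB0

/-! The normal and tangential parts of the bitension field. -/

set_option autoImplicit false
set_option linter.unusedSectionVars false
set_option linter.unusedVariables false

noncomputable section

namespace BiH

open Matrix

variable {R : Type} [CommRing R] [Algebra ℝ R] {m : ℕ} {Δ : DR R m}
  {f N : Fin (m + 2) → R}

/-- The field with given normal and tangential components. -/
def nf_GeoA3 (Δ : DR R m) (f N : Fin (m + 2) → R) :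
    R × (Fin m → R) →ₗ[R] (Fin (m + 2) → R) where
  toFun p := p.1 • N + ∑ k, p.2 k • Δ.pv k f
  map_add' p q := by
    simp only [Prod.fst_add, Prod.snd_add, Pi.add_apply, add_smul, Finset.sum_add_distrib]
    abel
  map_smul' c p := by
    simp only [Prod.smul_fst, Prod.smul_snd, Pi.smul_apply, smul_eq_mul, RingHom.id_apply,
      smul_add, Finset.smul_sum, smul_smul]

theorem nf_apply_GeoA3 (b : R) (c : Fin m → R) :
    nf_GeoA3 Δ f N (b, c) = b • N + ∑ k, c k • Δ.pv k f := rfl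

theorem dot_GeoA3 (h : Fr Δ f N) (k : Fin m) : Δ.pv k f ⬝ᵥ f = 0 := by
  have h1 := congrArg (Δ.d k) h.ff
  rw [dotProduct, map_sum, Derivation.map_one_eq_zero] at h1
  have h2 : (2 : R) * (Δ.pv k f ⬝ᵥ f) = 0 := by
    rw [← h1, dotProduct, Finset.mul_sum]
    refine Finset.sum_congr rfl fun a _ => ?_
    rw [Derivation.leibniz, smul_eq_mul, DR.pv]
    ring
  have h3 : algebraMap ℝ R (1 / 2) * 2 = 1 := by
    rw [← map_ofNat (algebraMap ℝ R) 2, ← map_mul]
    norm_num
  linear_combination algebraMap ℝ R (1 / 2) * h2 - (Δ.pv k f ⬝ᵥ f) * h3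

theorem nf_dot_GeoA3 (h : Fr Δ f N) (p : R × (Fin m → R)) : nf_GeoA3 Δ f N p ⬝ᵥ f = 0 := by
  obtain ⟨b, c⟩ := p
  rw [nf_apply_GeoA3, add_dotProduct, smul_dotProduct, h.Nf, sum_dotProduct]
  simp only [smul_dotProduct, dot_GeoA3 h, smul_zero, Finset.sum_const_zero, add_zero]

theorem pv_smul_GeoA3 (i : Fin m) (b : R) (V : Fin (m + 2) → R) :
    Δ.pv i (b • V) = Δ.d i b • V + b • Δ.pv i V := by
  funext a
  simp only [DR.pv, Pi.smul_apply, smul_eq_mul, Pi.add_apply, Derivation.leibniz]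
  ring

theorem pv_nf_GeoA3 (i : Fin m) (b : R) (c : Fin m → R) :
    Δ.pv i (nf_GeoA3 Δ f N (b, c)) =
      Δ.pv i (b • N) + ∑ k, Δ.pv i (c k • Δ.pv k f) := by
  funext a
  simp only [nf_apply_GeoA3, DR.pv, Pi.add_apply, Finset.sum_apply, map_add, map_sum]

theorem cov_nf_GeoA3 (h : Fr Δ f N) (i : Fin m) (b : R) (c : Fin m → R) :
    Δ.cov f i (nf_GeoA3 Δ f N (b, c)) = nf_GeoA3 Δ f N
      (Δ.d i b + ∑ k, c k * (Δ.metric f * shape Δ f N) i k,
        fun l => -(b * shape Δ f N l i) + Δ.d i (c l) + ∑ k, c k * gam Δ f i l k) := by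
  have e : Δ.pv i (nf_GeoA3 Δ f N (b, c)) = (-∑ k, c k * Δ.metric f i k) • f + nf_GeoA3 Δ f N
      (Δ.d i b + ∑ k, c k * (Δ.metric f * shape Δ f N) i k,
        fun l => -(b * shape Δ f N l i) + Δ.d i (c l) + ∑ k, c k * gam Δ f i l k) := by
    rw [pv_nf_GeoA3, nf_apply_GeoA3]
    simp only [pv_smul_GeoA3, h.gauss, h.wein, smul_add, add_smul, neg_smul, smul_neg,
      Finset.sum_add_distrib, Finset.sum_smul, Finset.smul_sum, smul_smul, Finset.sum_neg_distrib]
    rw [Finset.sum_comm (f := fun x y => (c x * gam Δ f i y x) • Δ.pv y f)]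
    abel
  rw [DR.cov, e, add_dotProduct, nf_dot_GeoA3 h, smul_dotProduct, h.ff, smul_eq_mul, mul_one,
    add_zero, add_sub_cancel_left]

theorem Fr.bih (h : Fr Δ f N) (hb : Δ.bitension f = 0) (T : R) (hT : T = (shape Δ f N).trace) :
    lap Δ (Δ.metric f)⁻¹ (gam Δ f) T = ((shape Δ f N * shape Δ f N).trace - m) * T ∧
    (2 : R) • shape Δ f N *ᵥ grad Δ (Δ.metric f)⁻¹ T + T • grad Δ (Δ.metric f)⁻¹ T = 0 := by
  obtain ⟨hg1, hg2, hg3, hg4⟩ := metric_mul_inv (f := f) h.det
  have hdiv := h.str.div_eq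
  rw [← hT] at hdiv
  have e0 : Δ.tension f = nf_GeoA3 Δ f N (T, 0) := by
    rw [h.tension_eq, nf_apply_GeoA3, hT]
    simp
  have e1 : ∀ j, Δ.cov f j (Δ.tension f) =
      nf_GeoA3 Δ f N (Δ.d j T, fun l => -(T * shape Δ f N l j)) := fun j => by
    rw [e0, cov_nf_GeoA3 h]
    simp
  have e2 : ∀ i j, DR.curv (Δ.pv i f) (Δ.tension f) (Δ.pv j f) =
      nf_GeoA3 Δ f N (-(Δ.metric f i j * T), 0) := fun i j => by
    rw [DR.curv, (tension_dot h.ff h.det).2, zero_smul, zero_sub, e0, ← map_smul, ← map_neg]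
    simp [DR.metric]
  have e3 : ∀ i k j, Δ.chris f k i j = gam Δ f i k j := fun _ _ _ => rfl
  rw [DR.bitension] at hb
  simp only [e1, e2, e3, cov_nf_GeoA3 h, ← map_smul, ← map_sum, ← map_sub] at hb
  have hz : ∀ p, nf_GeoA3 Δ f N p = 0 → p.1 = 0 ∧ ∀ l, p.2 l = 0 := fun p hp => by
    have h1 := h.indep 0 p.1 p.2 (by rw [zero_smul, zero_add]; exact hp)
    exact ⟨h1.2.1, congrFun h1.2.2⟩
  obtain ⟨h1, h2⟩ := hz _ hb
  simp only [Prod.fst_sub, Prod.snd_sub, Prod.fst_sum, Prod.snd_sum, Prod.smul_fst, Prod.smul_snd,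
    Pi.sub_apply, Finset.sum_apply, Pi.smul_apply, smul_eq_mul, Pi.zero_apply, mul_zero,
    Finset.sum_const_zero, sub_zero] at h1 h2
  simp only [lap]
  generalize shape Δ f N = A at h1 h2 hdiv ⊢
  generalize gam Δ f = Γ at h1 h2 hdiv ⊢
  generalize (Δ.metric f)⁻¹ = gi at h1 h2 hdiv hg1 hg2 hg4 ⊢
  generalize Δ.metric f = g at h1 hg1 hg2 hg3 ⊢
  have s4 : ∀ i j, gi i j = gi j i := fun i j => congrFun (congrFun hg4 j) i
  have s3 : ∀ i j, g i j = g j i := fun i j => congrFun (congrFun hg3 j) i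
  have t1 : ∑ i, ∑ j, gi i j * g i j = (m : R) := by
    have h3 := congrArg Matrix.trace hg2
    rw [trace_one, Fintype.card_fin] at h3
    rw [← h3]
    simp only [Matrix.trace, diag_apply, mul_apply]
    exact Finset.sum_congr rfl fun i _ => Finset.sum_congr rfl fun j _ => by rw [s3]
  have t2 : ∑ i, ∑ j, gi i j * ∑ k, A k j * (g * A) i k = (A * A).trace := by
    have h3 : A * A = gi * (g * A * A) := by
      rw [Matrix.mul_assoc g, ← Matrix.mul_assoc gi, hg2, Matrix.one_mul]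
    rw [h3, Finset.sum_comm]
    generalize g * A = H
    simp only [Matrix.trace, diag_apply, mul_apply]
    refine Finset.sum_congr rfl fun j _ => Finset.sum_congr rfl fun i _ => ?_
    rw [s4]
    exact congrArg _ (Finset.sum_congr rfl fun k _ => mul_comm _ _)
  refine ⟨?_, funext fun l => ?_⟩
  · rw [← t1, ← t2, ← sub_eq_zero, ← h1]
    simp only [sub_mul, Finset.sum_mul, ← Finset.sum_sub_distrib]
    refine Finset.sum_congr rfl fun i _ => Finset.sum_congr rfl fun j _ => ?_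
    have h3 : ∑ k, -(T * A k j) * (g * A) i k = -(T * ∑ k, A k j * (g * A) i k) := by
      rw [Finset.mul_sum, ← Finset.sum_neg_distrib]
      exact Finset.sum_congr rfl fun k _ => by ring
    rw [h3]
    ring
  · have t3 : (A *ᵥ grad Δ gi T) l = ∑ i, ∑ j, gi i j * (Δ.d j T * A l i) := by
      simp only [grad, mulVec, dotProduct, Finset.mul_sum]
      exact Finset.sum_congr rfl fun i _ => Finset.sum_congr rfl fun j _ => by ring
    have t4 : (A *ᵥ grad Δ gi T) l = ∑ i, ∑ j, gi i j * (Δ.d i T * A l j) := by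
      rw [t3, Finset.sum_comm]
      exact Finset.sum_congr rfl fun i _ => Finset.sum_congr rfl fun j _ => by rw [s4]
    rw [Pi.add_apply, Pi.smul_apply, Pi.smul_apply, smul_eq_mul, smul_eq_mul, two_mul, ← hdiv l,
      Pi.zero_apply, ← neg_eq_zero, ← h2 l]
    nth_rewrite 1 [t3]
    rw [t4]
    simp only [Finset.mul_sum, ← Finset.sum_add_distrib, ← Finset.sum_neg_distrib]
    refine Finset.sum_congr rfl fun i _ => Finset.sum_congr rfl fun j _ => ?_
    have h3 : ∑ k, -(T * A k j) * Γ i l k = -(T * (Γ i * A) l j) := by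
      rw [mul_apply, Finset.mul_sum, ← Finset.sum_neg_distrib]
      exact Finset.sum_congr rfl fun k _ => by ring
    have h4 : ∑ k, Γ i k j * -(T * A l k) = -(T * (A * Γ i) l j) := by
      rw [mul_apply, Finset.mul_sum, ← Finset.sum_neg_distrib]
      exact Finset.sum_congr rfl fun k _ => by ring
    rw [h3, h4, map_neg, Derivation.leibniz]
    simp only [nab, Matrix.sub_apply, Matrix.add_apply, map_apply, smul_eq_mul]
    ring

end BiH
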