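import Pool.Agent.P.MP_ecb6bc_gt.GeoB1

/-! The Riccati equation. -/

set_option autoImplicit false
set_option linter.unusedSectionVars false
set_option linter.unusedVariables false

noncomputable section

namespace BiH

open Matrix

variable {R : Type} [CommRing R] [Algebra ℝ R] {m : ℕ} {Δ : DR R m}
  {g gi : Matrix (Fin m) (Fin m) R} {Γ : Fin m → Matrix (Fin m) (Fin m) R}
  {A : Matrix (Fin m) (Fin m) R} {κ ρ : R} {X : Fin m → R}

/-- The covariant derivative of a vector field. -/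
def cv_GeoB3 (Δ : DR R m) (Γ : Fin m → Matrix (Fin m) (Fin m) R) (i : Fin m) (V : Fin m → R) :
    Fin m → R := Δ.pv i V + Γ i *ᵥ V

theorem pv_mulVec_GeoB3 (i : Fin m) (W : Matrix (Fin m) (Fin m) R) (V : Fin m → R) :
    Δ.pv i (W *ᵥ V) = W.map (Δ.d i) *ᵥ V + W *ᵥ Δ.pv i V := by
  funext l
  simp only [DR.pv, mulVec, dotProduct, map_sum, Derivation.leibniz, Pi.add_apply, Matrix.map_apply,
    smul_eq_mul, ← Finset.sum_add_distrib]
  exact Finset.sum_congr rfl fun _ _ => by ring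

theorem cv_comm_GeoB3 (k i : Fin m) (V : Fin m → R) :
    cv_GeoB3 Δ Γ k (cv_GeoB3 Δ Γ i V) = cv_GeoB3 Δ Γ i (cv_GeoB3 Δ Γ k V) +
      ((Γ i).map (Δ.d k) - (Γ k).map (Δ.d i) + Γ k * Γ i - Γ i * Γ k) *ᵥ V := by
  have ha : ∀ (j : Fin m) (U W : Fin m → R), Δ.pv j (U + W) = Δ.pv j U + Δ.pv j W :=
    fun j U W => funext fun l => map_add (Δ.d j) (U l) (W l)
  have hc : Δ.pv k (Δ.pv i V) = Δ.pv i (Δ.pv k V) := funext fun l => Δ.comm k i (V l)
  simp only [cv_GeoB3, ha, hc, pv_mulVec_GeoB3, mulVec_add, add_mulVec, sub_mulVec, mulVec_mulVec]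
  abel

theorem col_GeoB3 (h : Str Δ g gi Γ A) (j : Fin m) :
    (fun l => sX Δ Γ X l j) = cv_GeoB3 Δ Γ j X := by
  funext l
  simp only [sX, gX, cv_GeoB3, DR.pv, mulVec, dotProduct, Matrix.add_apply, of_apply, Pi.add_apply,
    Matrix.sum_apply, Matrix.smul_apply, smul_eq_mul]
  congr 1
  exact Finset.sum_congr rfl fun i _ => by rw [h.sy i j l, mul_comm]

theorem curv_GeoB3 (h : Str Δ g gi Γ A) (hd : Dir Δ g A κ ρ X) (l j : Fin m) :
    ∑ i, X i * (((Γ i).map (Δ.d j) - (Γ j).map (Δ.d i) + Γ j * Γ i - Γ i * Γ j) *ᵥ X) l =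
      (κ • (A - κ • pX g X) + (1 - pX g X)) l j := by
  have h1 : (g * A) *ᵥ X = κ • g *ᵥ X := by rw [← mulVec_mulVec, hd.eig, mulVec_smul]
  have h2 : ∀ i, (((Γ i).map (Δ.d j) - (Γ j).map (Δ.d i) + Γ j * Γ i - Γ i * Γ j) *ᵥ X) l =
      (g *ᵥ X) i * (1 : Matrix (Fin m) (Fin m) R) l j -
        (g *ᵥ X) j * (1 : Matrix (Fin m) (Fin m) R) l i +
          ((g * A) *ᵥ X) i * A l j - ((g * A) *ᵥ X) j * A l i := fun i => by
    simp only [mulVec, dotProduct, h.gau, Finset.sum_mul, ← Finset.sum_add_distrib,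
      ← Finset.sum_sub_distrib]
    exact Finset.sum_congr rfl fun _ _ => by ring
  have h3 : ∑ i, X i * (g *ᵥ X) i = 1 := hd.one
  have h4 : ∑ i, (1 : Matrix (Fin m) (Fin m) R) l i * X i = X l := congrFun (one_mulVec X) l
  have h5 : ∑ i, A l i * X i = κ * X l := congrFun hd.eig l
  have h6 : ∀ i, X i * ((g *ᵥ X) i * (1 : Matrix (Fin m) (Fin m) R) l j -
        (g *ᵥ X) j * (1 : Matrix (Fin m) (Fin m) R) l i +
          κ * (g *ᵥ X) i * A l j - κ * (g *ᵥ X) j * A l i) =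
      ((1 : Matrix (Fin m) (Fin m) R) l j + κ * A l j) * (X i * (g *ᵥ X) i) -
        (g *ᵥ X) j * ((1 : Matrix (Fin m) (Fin m) R) l i * X i) -
          κ * (g *ᵥ X) j * (A l i * X i) := fun i => by ring
  simp only [h2, h1, Pi.smul_apply, smul_eq_mul, h6, Finset.sum_sub_distrib, ← Finset.mul_sum,
    h3, h4, h5, Matrix.add_apply, Matrix.sub_apply, Matrix.smul_apply, pX, vecMulVec_apply]
  ring

theorem Dir.ric (h : Str Δ g gi Γ A) (hd : Dir Δ g A κ ρ X) :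
    nab (dX Δ X) (gX Γ X) (sX Δ Γ X) =
      -(sX Δ Γ X * sX Δ Γ X) - κ • (A - κ • pX g X) - (1 - pX g X) := by
  obtain ⟨S, hS⟩ : ∃ S, S = sX Δ Γ X := ⟨_, rfl⟩
  have hc : ∀ j, (fun l => S l j) = cv_GeoB3 Δ Γ j X := fun j => hS ▸ col_GeoB3 h j
  have hT : ∀ j i l, (S.map (Δ.d j) + Γ j * S) l i = cv_GeoB3 Δ Γ j (cv_GeoB3 Δ Γ i X) l :=
    fun j i l => by
      rw [← hc]
      rfl
  have key : S.map (dX Δ X) + gX Γ X * S + (κ • (A - κ • pX g X) + (1 - pX g X)) +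
      S * (S - gX Γ X) = 0 := by
    ext l j
    have h0 : S *ᵥ X = 0 := hS ▸ hd.geod h
    have h1 := pv_mulVec_GeoB3 (Δ := Δ) j S X
    have h2 : Δ.pv j (0 : Fin m → R) = 0 := funext fun l => map_zero (Δ.d j)
    rw [h0, h2] at h1
    have h3 : (S.map (Δ.d j) + Γ j * S) *ᵥ X + S *ᵥ Δ.pv j X = 0 := by
      rw [add_mulVec, ← mulVec_mulVec, h0, mulVec_zero, add_zero, ← h1]
    have h4 : (S *ᵥ Δ.pv j X) l = (S * (S - gX Γ X)) l j := by
      rw [hS, sX, add_sub_cancel_right]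
      rfl
    have h5 : (S.map (dX Δ X) + gX Γ X * S) l j = ∑ i, X i * (S.map (Δ.d i) + Γ i * S) l j := by
      simp only [Matrix.add_apply, Matrix.map_apply, dX_apply, gX, Finset.sum_mul, smul_mul_assoc,
        Matrix.sum_apply, Matrix.smul_apply, smul_eq_mul, mul_add, Finset.sum_add_distrib]
    have h6 : ((S.map (Δ.d j) + Γ j * S) *ᵥ X) l = (S.map (dX Δ X) + gX Γ X * S) l j +
        (κ • (A - κ • pX g X) + (1 - pX g X)) l j := by
      rw [h5, ← curv_GeoB3 h hd, ← Finset.sum_add_distrib, mulVec, dotProduct]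
      refine Finset.sum_congr rfl fun i _ => ?_
      rw [hT, hT, cv_comm_GeoB3 j i, Pi.add_apply]
      ring
    have h7 := congrFun h3 l
    rw [Pi.add_apply, h6, h4] at h7
    exact h7
  rw [← hS, nab]
  rw [Matrix.mul_sub] at key
  rw [← sub_eq_zero, ← key]
  abel

end BiH
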