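import Pool.Agent.P.MP_ecb6bc_gt.Mid1

/-! From the moments of the two shape operators to the differential field. -/

set_option autoImplicit false
set_option linter.unusedSectionVars false
set_option linter.unusedVariables false

noncomputable section

namespace BiH

theorem model_mid {J : Type} [Fintype J] (μ : J → ℕ) (ω₀ lam₀ : J → ℝ) :
    ∃ (A' : Type) (_ : CommRing A') (_ : Algebra ℂ A') (δ : Derivation ℂ A' A')
      (ev : A' →ₐ[ℂ] ℂ) (ω lam : J → A') (κ z w ζ ζ' : A'),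
      Algebra.adjoin ℂ (Set.range ω ∪ Set.range lam ∪ {z, w, ζ, ζ'}) = ⊤ ∧
      ∑ j, (μ j : A') * lam j = -3 * κ ∧
      (∀ j, δ (ω j) = -ω j ^ 2 - κ * lam j - 1) ∧
      (∀ j, δ (lam j) = (κ - lam j) * ω j) ∧
      2 * δ z = ζ * (z - w) ∧ 2 * δ w = ζ' * (z - w) ∧
      2 * δ ζ = 2 * iu A' * κ * ζ + (ζ ^ 2 + 1) ∧
      2 * δ ζ' = -(2 * iu A' * κ * ζ') - (1 + ζ' ^ 2) ∧
      (∀ j, ev (ω j) = ω₀ j) ∧ (∀ j, ev (lam j) = lam₀ j) ∧
      ev z = 0 ∧ ev w = 1 ∧ ev ζ = 1 ∧ ev ζ' = 1 := by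
  let A' := MvPolynomial (J ⊕ J ⊕ Fin 4) ℂ
  let ω : J → A' := fun j => MvPolynomial.X (.inl j)
  let lam : J → A' := fun j => MvPolynomial.X (.inr (.inl j))
  let v : Fin 4 → A' := fun i => MvPolynomial.X (.inr (.inr i))
  let κ : A' := algebraMap ℂ A' (-1 / 3) * ∑ j, (μ j : A') * lam j
  let h : A' := algebraMap ℂ A' (1 / 2)
  have h2 : 2 * h = 1 := by
    rw [← map_ofNat (algebraMap ℂ A') 2, ← map_mul]
    norm_num
  have h3 : -3 * algebraMap ℂ A' (-1 / 3) = 1 := by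
    rw [← map_ofNat (algebraMap ℂ A') 3, ← map_neg, ← map_mul]
    norm_num
  let f : J ⊕ J ⊕ Fin 4 → A' := Sum.elim (fun j => -ω j ^ 2 - κ * lam j - 1)
    (Sum.elim (fun j => (κ - lam j) * ω j)
      ![h * (v 2 * (v 0 - v 1)), h * (v 3 * (v 0 - v 1)),
        h * (2 * iu A' * κ * v 2 + (v 2 ^ 2 + 1)),
        h * (-(2 * iu A' * κ * v 3) - (1 + v 3 ^ 2))])
  let p : J ⊕ J ⊕ Fin 4 → ℂ := Sum.elim (fun j => (ω₀ j : ℂ))
    (Sum.elim (fun j => (lam₀ j : ℂ)) ![0, 1, 1, 1])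
  have hd : ∀ i, MvPolynomial.mkDerivation ℂ f (MvPolynomial.X i) = f i :=
    MvPolynomial.mkDerivation_X ℂ f
  have hv : ∀ (i : Fin 4) (x : A'), f (.inr (.inr i)) = h * x →
      2 * MvPolynomial.mkDerivation ℂ f (v i) = x := by
    intro i x hx
    rw [hd, hx, ← mul_assoc, h2, one_mul]
  have hp : ∀ i, MvPolynomial.aeval (R := ℂ) p (MvPolynomial.X i) = p i :=
    MvPolynomial.aeval_X p
  refine ⟨A', inferInstance, inferInstance, MvPolynomial.mkDerivation ℂ f, MvPolynomial.aeval p,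
    ω, lam, κ, v 0, v 1, v 2, v 3, ?_, ?_, fun j => hd _, fun j => hd _, hv 0 _ rfl, hv 1 _ rfl,
    hv 2 _ rfl, hv 3 _ rfl, fun j => hp _, fun j => hp _, hp _, hp _, hp _, hp _⟩
  · refine top_le_iff.1 ((MvPolynomial.adjoin_range_X (R := ℂ)).ge.trans (Algebra.adjoin_mono ?_))
    rintro _ ⟨j | j | i, rfl⟩
    · exact Or.inl (Or.inl ⟨j, rfl⟩)
    · exact Or.inl (Or.inr ⟨j, rfl⟩)
    · refine Or.inr ?_
      fin_cases i
      · exact Or.inl rfl
      · exact Or.inr (Or.inl rfl)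
      · exact Or.inr (Or.inr (Or.inl rfl))
      · exact Or.inr (Or.inr (Or.inr rfl))
  · rw [← mul_assoc, h3, one_mul]

theorem moment_mid {A' : Type} [CommRing A'] [Algebra ℂ A'] (δ : Derivation ℂ A' A')
    {ω lam κ : A'} (dω : δ ω = -ω ^ 2 - κ * lam - 1) (dl : δ lam = (κ - lam) * ω) (c a b : ℕ) :
    δ ((c : A') * ω ^ a * lam ^ b) =
      -(a : A') * (c * ω ^ (a + 1) * lam ^ b + κ * (c * ω ^ (a - 1) * lam ^ (b + 1)) +
        c * ω ^ (a - 1) * lam ^ b) +
      (b : A') * (κ * (c * ω ^ (a + 1) * lam ^ (b - 1)) - c * ω ^ (a + 1) * lam ^ b) := by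
  rw [δ.leibniz, δ.leibniz, δ.leibniz_pow, δ.leibniz_pow, δ.map_natCast, dω, dl]
  rcases a with _ | a <;> rcases b with _ | b <;>
    simp only [smul_eq_mul, nsmul_eq_mul, Nat.add_sub_cancel, Nat.cast_zero, Nat.cast_succ] <;>
    ring

theorem stable_mid {R A' : Type} [CommRing R] [Algebra ℝ R] [CommRing A'] [Algebra ℂ A']
    (D : Derivation ℝ R R) (δ : Derivation ℂ A' A') (S : Set (R × A'))
    (hS : ∀ p ∈ S, (D p.1, δ p.2) ∈ Subring.closure S) :
    ∀ p ∈ Subring.closure S, (D p.1, δ p.2) ∈ Subring.closure S := by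
  intro p hp
  induction hp using Subring.closure_induction with
  | mem p hp => exact hS p hp
  | zero =>
    rw [Prod.fst_zero, Prod.snd_zero, map_zero, map_zero]
    exact zero_mem _
  | one =>
    rw [Prod.fst_one, Prod.snd_one, D.map_one_eq_zero, δ.map_one_eq_zero]
    exact zero_mem _
  | add p q _ _ hp hq =>
    rw [Prod.fst_add, Prod.snd_add, map_add, map_add]
    exact add_mem hp hq
  | neg p _ hp =>
    rw [Prod.fst_neg, Prod.snd_neg, map_neg, map_neg]
    exact neg_mem hp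
  | mul p q hp' hq' hp hq =>
    rw [Prod.fst_mul, Prod.snd_mul, D.leibniz, δ.leibniz]
    exact add_mem (mul_mem hp' hq) (mul_mem hq' hp)

theorem mid {R : Type} [CommRing R] [Algebra ℝ R] (D : Derivation ℝ R R) (ev : R →ₐ[ℝ] ℝ)
    (M : ℕ → ℕ → R) (κ : R) (hκ : M 0 1 = -3 * κ)
    (hD : ∀ a b : ℕ, D (M a b) =
      -(a : R) * (M (a + 1) b + κ * M (a - 1) (b + 1) + M (a - 1) b) +
        (b : R) * (κ * M (a + 1) (b - 1) - M (a + 1) b))
    {J : Type} [Fintype J] (μ : J → ℕ) (hμ : ∀ j, 0 < μ j) (ω lam : J → ℝ)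
    (hev : ∀ a b : ℕ, ev (M a b) = ∑ j, (μ j : ℝ) * ω j ^ a * lam j ^ b)
    (hF : D (D κ) + M 1 0 * D κ = κ * (κ ^ 2 + M 0 2 - (M 0 0 + 1))) : ev (D κ) = 0 := by
  obtain ⟨A', _, _, δ, ev', ω', l', κ', z, w, ζ, ζ', hgen, hκ', dω, dl, dz, dw, dζ, dζ', eω, el,
    ez, ew, eζ, eζ'⟩ := model_mid μ ω lam
  let N : ℕ → ℕ → A' := fun a b => ∑ j, (μ j : A') * ω' j ^ a * l' j ^ b
  have hN : ∀ a b : ℕ, δ (N a b) =
      -(a : A') * (N (a + 1) b + κ' * N (a - 1) (b + 1) + N (a - 1) b) +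
        (b : A') * (κ' * N (a + 1) (b - 1) - N (a + 1) b) := by
    intro a b
    simp only [N, map_sum, moment_mid δ (dω _) (dl _), Finset.mul_sum, ← Finset.sum_add_distrib,
      ← Finset.sum_sub_distrib]
  let t : R × A' := (algebraMap ℝ R (1 / 3), algebraMap ℂ A' (1 / 3))
  let S : Set (R × A') := insert t (Set.range fun ab : ℕ × ℕ => (M ab.1 ab.2, N ab.1 ab.2))
  have mM : ∀ a b, (M a b, N a b) ∈ Subring.closure S := fun a b =>
    Subring.subset_closure (Or.inr ⟨(a, b), rfl⟩)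
  have mκ : (κ, κ') ∈ Subring.closure S := by
    have h1 : 3 * algebraMap ℝ R (1 / 3) = 1 := by
      rw [← map_ofNat (algebraMap ℝ R) 3, ← map_mul]
      norm_num
    have h2 : 3 * algebraMap ℂ A' (1 / 3) = 1 := by
      rw [← map_ofNat (algebraMap ℂ A') 3, ← map_mul]
      norm_num
    have h3 : N 0 1 = -3 * κ' := by simpa [N] using hκ'
    have h4 : (κ, κ') = -(t * (M 0 1, N 0 1)) := by
      refine Prod.ext ?_ ?_
      · change κ = -(algebraMap ℝ R (1 / 3) * M 0 1)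
        rw [hκ]
        linear_combination -κ * h1
      · change κ' = -(algebraMap ℂ A' (1 / 3) * N 0 1)
        rw [h3]
        linear_combination -κ' * h2
    rw [h4]
    exact neg_mem (mul_mem (Subring.subset_closure (Or.inl rfl)) (mM 0 1))
  have hst := stable_mid D δ S (by
    rintro _ (rfl | ⟨⟨a, b⟩, rfl⟩)
    · change (D (algebraMap ℝ R _), δ (algebraMap ℂ A' _)) ∈ _
      rw [D.map_algebraMap, δ.map_algebraMap]
      exact zero_mem _
    · change (D (M a b), δ (N a b)) ∈ _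
      rw [hD, hN]
      exact add_mem (mul_mem (neg_mem (natCast_mem _ a))
        (add_mem (add_mem (mM _ _) (mul_mem mκ (mM _ _))) (mM _ _)))
        (mul_mem (natCast_mem _ b) (sub_mem (mul_mem mκ (mM _ _)) (mM _ _))))
  have heq : ∀ p ∈ Subring.closure S, ((ev p.1 : ℝ) : ℂ) = ev' p.2 := by
    intro p hp
    induction hp using Subring.closure_induction with
    | mem p hp =>
      rcases hp with rfl | ⟨⟨a, b⟩, rfl⟩
      · change ((ev (algebraMap ℝ R _) : ℝ) : ℂ) = ev' (algebraMap ℂ A' _)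
        rw [ev.commutes, ev'.commutes]
        simp
      · change ((ev (M a b) : ℝ) : ℂ) = ev' (N a b)
        simp [N, hev, eω, el]
    | zero => simp
    | one => simp
    | add p q _ _ hp hq => simp [hp, hq]
    | neg p _ hp => simp [hp]
    | mul p q _ _ hp hq => simp [hp, hq]
  have m1 : (D κ, δ κ') ∈ Subring.closure S := hst _ mκ
  have m2 : (D (D κ), δ (δ κ')) ∈ Subring.closure S := hst _ m1
  have mF : ((0 : R), δ (δ κ') + N 1 0 * δ κ' - κ' * (κ' ^ 2 + N 0 2 - (N 0 0 + 1))) ∈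
      Subring.closure S := by
    rw [← sub_eq_zero.2 hF]
    exact sub_mem (add_mem m2 (mul_mem (mM 1 0) m1))
      (mul_mem mκ (sub_mem (add_mem (pow_mem mκ 2) (mM 0 2)) (add_mem (mM 0 0) (one_mem _))))
  have mn : ∀ (n : ℕ) (x : A'), ((0 : R), x) ∈ Subring.closure S →
      ((0 : R), (⇑δ)^[n] x) ∈ Subring.closure S := by
    intro n
    induction n with
    | zero => exact fun x hx => hx
    | succ n ih =>
      intro x hx
      have := hst _ hx
      rw [map_zero] at this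
      exact ih _ this
  have key := mid1 δ ev' μ hμ ω' l' κ' z w ζ ζ' ω lam hgen hκ' dω dl dz dw dζ dζ' eω el ez ew eζ
    eζ' fun n => by
      have := heq _ (mn n _ mF)
      simp only [N, pow_zero, pow_one, mul_one, map_zero, Complex.ofReal_zero] at this
      exact this.symm
  have := heq _ m1
  rw [key] at this
  exact_mod_cast this

end BiH
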