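import Pool.Agent.P.MP_ecb6bc_gt.HDefs
import Pool.Agent.P.MP_ecb6bc_gt.Mid
import Pool.Agent.P.MP_ecb6bc_gt.Eig

/-! Moments of the two shape operators. -/

set_option autoImplicit false
set_option linter.unusedSectionVars false
set_option linter.unusedVariables false

noncomputable section

namespace BiH

open Matrix

section Aux

variable {R : Type} [CommRing R] [Algebra ℝ R] {m : ℕ} (D : Derivation ℝ R R)
  (G : Matrix (Fin m) (Fin m) R)

theorem nab_mul_GeoC (X Y : Matrix (Fin m) (Fin m) R) :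
    nab D G (X * Y) = nab D G X * Y + X * nab D G Y := by
  have h : (X * Y).map D = X.map D * Y + X * Y.map D := by
    ext i j
    simp only [map_apply, mul_apply, Matrix.add_apply, map_sum, Derivation.leibniz, smul_eq_mul,
      ← Finset.sum_add_distrib]
    exact Finset.sum_congr rfl fun k _ => by ring
  unfold nab
  rw [h]
  noncomm_ring

theorem nab_one_GeoC : nab D G 1 = 0 := by
  have h := nab_mul_GeoC D G 1 1
  simpa using h

theorem nab_pow_GeoC {W : Matrix (Fin m) (Fin m) R} (h : Commute W (nab D G W)) (n : ℕ) :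
    nab D G (W ^ (n + 1)) = ((n + 1 : ℕ) : R) • (W ^ n * nab D G W) := by
  induction n with
  | zero => simp
  | succ n ih =>
    rw [pow_succ W (n + 1), nab_mul_GeoC, ih, smul_mul_assoc, mul_assoc, ← h.eq, ← mul_assoc,
      ← pow_succ, Nat.cast_succ (n + 1), add_smul _ (1 : R), one_smul]

theorem trace_nab_GeoC (W : Matrix (Fin m) (Fin m) R) : (nab D G W).trace = D W.trace := by
  unfold nab
  rw [trace_sub, trace_add, trace_mul_comm G W, add_sub_cancel_right]
  simp [trace]

end Aux

theorem geo_c {R : Type} [CommRing R] [Algebra ℝ R] {m : ℕ} (D : Derivation ℝ R R)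
    (ev : R →ₐ[ℝ] ℝ) (g G Q S B : Matrix (Fin m) (Fin m) R) (κ : R)
    (hg : (g.map ev).PosDef) (hQ : (g * Q)ᵀ = g * Q) (hS : (g * S)ᵀ = g * S)
    (hB : (g * B)ᵀ = g * B) (hQQ : Q * Q = Q) (hQS : Q * S = S) (hSQ : S * Q = S)
    (hQB : Q * B = B) (hBQ : B * Q = B) (hSB : S * B = B * S)
    (dQ : nab D G Q = 0) (dS : nab D G S = -(S * S) - κ • B - Q)
    (dB : nab D G B = κ • S - B * S) (htr : B.trace = -3 * κ)
    (hF : D (D κ) + S.trace * D κ = κ * (κ ^ 2 + (B * B).trace - (Q.trace + 1))) :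
    ev (D κ) = 0 := by
  have cQS : Commute Q S := hQS.trans hSQ.symm
  have cQB : Commute Q B := hQB.trans hBQ.symm
  have cSB : Commute S B := hSB
  have c1 : Commute S (nab D G S) := by
    rw [dS]
    exact ((((Commute.refl S).mul_right (Commute.refl S)).neg_right).sub_right
      (cSB.smul_right κ)).sub_right cQS.symm
  have c2 : Commute B (nab D G B) := by
    rw [dB]
    exact (cSB.symm.smul_right κ).sub_right ((Commute.refl B).mul_right cSB.symm)
  have t1 : ∀ a b : ℕ, (Q * nab D G (S ^ a) * B ^ b).trace =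
      -(a : R) * ((Q * S ^ (a + 1) * B ^ b).trace + κ * (Q * S ^ (a - 1) * B ^ (b + 1)).trace +
        (Q * S ^ (a - 1) * B ^ b).trace) := by
    intro a b
    rcases a with _ | n
    · simp [nab_one_GeoC]
    · have e : Q * S ^ n * Q = Q * S ^ n := by
        rw [mul_assoc, ← (cQS.pow_right n).eq, ← mul_assoc, hQQ]
      have e2 : Q * (S ^ n * (-(S * S) - κ • B - Q)) * B ^ b =
          -(Q * S ^ (n + 1 + 1) * B ^ b + κ • (Q * S ^ n * B ^ (b + 1)) + Q * S ^ n * B ^ b) := by
        conv_rhs => rw [pow_succ S, pow_succ S, pow_succ' B]; enter [1, 2]; rw [← e]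
        simp only [mul_sub, sub_mul, mul_neg, neg_mul, mul_smul_comm, smul_mul_assoc, mul_assoc]
        abel
      rw [nab_pow_GeoC D G c1, dS, mul_smul_comm, smul_mul_assoc, e2, trace_smul, trace_neg,
        trace_add, trace_add, trace_smul, Nat.add_sub_cancel, smul_eq_mul, smul_eq_mul]
      ring
  have t2 : ∀ a b : ℕ, (Q * S ^ a * nab D G (B ^ b)).trace =
      (b : R) * (κ * (Q * S ^ (a + 1) * B ^ (b - 1)).trace - (Q * S ^ (a + 1) * B ^ b).trace) := by
    intro a b
    rcases b with _ | n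
    · simp [nab_one_GeoC]
    · have e2 : Q * S ^ a * (B ^ n * (κ • S - B * S)) =
          κ • (Q * S ^ (a + 1) * B ^ n) - Q * S ^ (a + 1) * B ^ (n + 1) := by
        rw [mul_sub, mul_smul_comm, ← mul_assoc (B ^ n), ← pow_succ, ← (cSB.pow_right n).eq,
          ← (cSB.pow_right (n + 1)).eq, pow_succ S]
        simp only [mul_sub, mul_smul_comm, mul_assoc]
      rw [nab_pow_GeoC D G c2, dB, mul_smul_comm, e2, trace_smul, trace_sub, trace_smul,
        Nat.add_sub_cancel, smul_eq_mul, smul_eq_mul]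
  have sym : ∀ X : Matrix (Fin m) (Fin m) R, (g * X)ᵀ = g * X →
      (g.map ev * X.map ev)ᵀ = g.map ev * X.map ev := fun X h => by
    rw [← Matrix.map_mul, ← transpose_map, h]
  obtain ⟨J, _, μ, ω, lam, hμ, hev⟩ := eig (g.map ev) (Q.map ev) (S.map ev) (B.map ev) hg
    (sym Q hQ) (sym S hS) (sym B hB) (by rw [← Matrix.map_mul, hQQ])
    (by rw [← Matrix.map_mul, ← Matrix.map_mul, cQS.eq])
    (by rw [← Matrix.map_mul, ← Matrix.map_mul, cQB.eq])
    (by rw [← Matrix.map_mul, ← Matrix.map_mul, hSB])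
  refine mid D ev (fun a b => (Q * S ^ a * B ^ b).trace) κ ?_ (fun a b => ?_) μ hμ ω lam
    (fun a b => ?_) ?_
  · simpa [hQB] using htr
  · rw [← trace_nab_GeoC D G, nab_mul_GeoC, nab_mul_GeoC, dQ, zero_mul, zero_add, trace_add,
      t1, t2]
  · rw [← hev]
    have e : (Q * S ^ a * B ^ b).map ev = Q.map ev * S.map ev ^ a * B.map ev ^ b := by
      change ev.mapMatrix (Q * S ^ a * B ^ b) =
        ev.mapMatrix Q * ev.mapMatrix S ^ a * ev.mapMatrix B ^ b
      rw [map_mul, map_mul, map_pow, map_pow]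
    rw [← e]
    exact map_sum ev _ _
  · simpa [hQS, sq, ← mul_assoc, hQB] using hF

end BiH
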