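import Pool.Agent.P.MP_ecb6bc_gt.GeoB2
import Pool.Agent.P.MP_ecb6bc_gt.GeoB3
import Pool.Agent.P.MP_ecb6bc_gt.GeoC

/-! The mean curvature has vanishing derivative. -/

set_option autoImplicit false
set_option linter.unusedSectionVars false
set_option linter.unusedVariables false

noncomputable section

namespace BiH

open Matrix

variable {R : Type} [CommRing R] [Algebra ℝ R] {m : ℕ} {Δ : DR R m}
  {g gi : Matrix (Fin m) (Fin m) R} {Γ : Fin m → Matrix (Fin m) (Fin m) R}
  {A : Matrix (Fin m) (Fin m) R} {κ ρ : R} {X : Fin m → R}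

theorem Str.ev_d (h : Str Δ g gi Γ A) (T : R) (hT : T = A.trace)
    (hnor : lap Δ gi Γ T = ((A * A).trace - m) * T)
    (htan : (2 : R) • A *ᵥ grad Δ gi T + T • grad Δ gi T = 0) (i : Fin m) :
    Δ.ev (Δ.d i T) = 0 := by
  by_contra hne
  obtain ⟨c, hc⟩ : ∃ c : R, 2 * c = 1 :=
    ⟨algebraMap ℝ R (1 / 2), by rw [← map_ofNat (algebraMap ℝ R) 2, ← map_mul]; norm_num⟩
  obtain ⟨κ, hκ⟩ : ∃ κ : R, T = -2 * κ := ⟨-c * T, by linear_combination (-T) * hc⟩
  have hdT : ∀ j, Δ.d j T = -2 * Δ.d j κ := by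
    intro j
    have e : T = -(κ + κ) := by rw [hκ]; ring
    rw [e, map_neg, map_add]
    ring
  have hgr : grad Δ gi T = (-2 : R) • grad Δ gi κ := by
    unfold grad
    rw [← mulVec_smul]
    congr 1
    funext j
    simp [hdT]
  have htan' : A *ᵥ grad Δ gi κ = κ • grad Δ gi κ := by
    rw [hgr, mulVec_smul, hκ] at htan
    funext l
    have e := congrFun htan l
    simp only [Pi.add_apply, Pi.smul_apply, smul_eq_mul, Pi.zero_apply] at e ⊢
    linear_combination (-c * c) * e -
      ((A *ᵥ grad Δ gi κ) l - κ * grad Δ gi κ l) * (2 * c + 1) * hc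
  have hi : Δ.ev (Δ.d i κ) ≠ 0 := by
    intro h0
    apply hne
    rw [hdT, map_mul, h0, mul_zero]
  obtain ⟨ρ, X, hd⟩ := h.exists_dir htan' i hi
  have hlap : lap Δ gi Γ T = -2 * lap Δ gi Γ κ := by
    unfold lap
    rw [Finset.mul_sum]
    refine Finset.sum_congr rfl fun a _ => ?_
    rw [Finset.mul_sum]
    refine Finset.sum_congr rfl fun b _ => ?_
    have e : Δ.d a (Δ.d b T) = -2 * Δ.d a (Δ.d b κ) := by
      have e : Δ.d b T = -(Δ.d b κ + Δ.d b κ) := by rw [hdT]; ring
      rw [e, map_neg, map_add]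
      ring
    have e2 : ∑ k, Γ a k b * Δ.d k T = -2 * ∑ k, Γ a k b * Δ.d k κ := by
      rw [Finset.mul_sum]
      exact Finset.sum_congr rfl fun k _ => by rw [hdT]; ring
    rw [e, e2]
    ring
  set S := sX Δ Γ X with hS
  set p := pX g X with hp
  have h1 : (g *ᵥ X) ⬝ᵥ X = 1 := by rw [dotProduct_comm]; exact hd.one
  have hpp : p * p = p := by
    rw [hp, pX, vecMulVec_mul_vecMulVec, h1, one_smul]
  have hpS : p * S = 0 := by
    rw [hp, pX, vecMulVec_mul, hS, hd.vecMul_sX h, vecMulVec_zero]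
  have hSp : S * p = 0 := by
    rw [hp, pX, mul_vecMulVec, hS, hd.geod h, zero_vecMulVec]
  have hAp : A * p = κ • p := by
    rw [hp, pX, mul_vecMulVec, hd.eig, smul_vecMulVec]
  have hgp : (g * p)ᵀ = g * p := by
    rw [hp, pX, mul_vecMulVec, transpose_vecMulVec]
  have hcan : ∀ U V : Matrix (Fin m) (Fin m) R, g * U = g * V → U = V := by
    intro U V e
    have e2 := congrArg (fun W => gi * W) e
    simpa only [← Matrix.mul_assoc, h.gig.1, Matrix.one_mul] using e2
  have hpA : p * A = κ • p := by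
    apply hcan
    have e : (g * (A * p))ᵀ = g * (p * A) := by
      rw [← Matrix.mul_assoc, transpose_mul, h.hs, ← Matrix.mul_assoc, ← Matrix.mul_assoc,
        ← hgp, transpose_mul, h.gs]
    rw [← e, hAp, Matrix.mul_smul, transpose_smul, hgp]
  have htp : p.trace = 1 := by
    rw [hp, pX, trace_vecMulVec]
    exact hd.one
  have hn1 : nab (dX Δ X) (gX Γ X) (1 - p) = 0 := by
    have e := hd.nab_pX h
    rw [← hp] at e
    have e1 : (1 : Matrix (Fin m) (Fin m) R).map (dX Δ X) = 0 := by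
      ext a b
      by_cases hab : a = b <;> simp [one_apply, hab]
    unfold nab at e ⊢
    rw [Matrix.map_sub _ (map_sub _), e1, Matrix.mul_sub, Matrix.sub_mul, Matrix.mul_one,
      Matrix.one_mul]
    rw [← neg_eq_zero]
    refine Eq.trans ?_ e
    abel
  have hnB : nab (dX Δ X) (gX Γ X) (A - κ • p) = κ • S - (A - κ • p) * S := by
    have e := hd.nab_pX h
    have eA := hd.nab_A h
    rw [← hp] at e eA
    rw [← hS] at eA
    have e1 : (κ • p).map (dX Δ X) = κ • p.map (dX Δ X) + ρ • p := by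
      ext a b
      simp [Derivation.leibniz, hd.dX_κ, mul_comm]
    have e2 : nab (dX Δ X) (gX Γ X) (A - κ • p) =
        nab (dX Δ X) (gX Γ X) A - κ • nab (dX Δ X) (gX Γ X) p - ρ • p := by
      unfold nab
      rw [Matrix.map_sub _ (map_sub _), e1, Matrix.mul_sub, Matrix.sub_mul, Matrix.mul_smul,
        Matrix.smul_mul, smul_sub, smul_add]
      abel
    rw [e2, e, eA, Matrix.sub_mul, Matrix.smul_mul, hpS, smul_zero]
    abel
  have hz := geo_c (dX Δ X) Δ.ev g (gX Γ X) (1 - p) S (A - κ • p) κ h.pos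
    (by rw [Matrix.mul_sub, transpose_sub, hgp, Matrix.mul_one, h.gs])
    (hd.sX_symm h)
    (by rw [Matrix.mul_sub, transpose_sub, h.hs, Matrix.mul_smul, transpose_smul, hgp])
    (by simp [Matrix.mul_sub, Matrix.sub_mul, hpp])
    (by rw [Matrix.sub_mul, hpS]; simp)
    (by rw [Matrix.mul_sub, hSp]; simp)
    (by rw [Matrix.sub_mul, Matrix.mul_sub p, Matrix.mul_smul, hpA, hpp]; simp)
    (by simp [Matrix.mul_sub, Matrix.sub_mul, hAp, hpp])
    (by rw [Matrix.mul_sub, Matrix.sub_mul, Matrix.mul_smul, Matrix.smul_mul, hSp, hpS,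
      hd.comm h])
    hn1 (hd.ric h) hnB
    (by rw [trace_sub, trace_smul, htp, ← hT, hκ, smul_eq_mul]; ring)
    (by
      have e1 : ((A - κ • p) * (A - κ • p)).trace = (A * A).trace - κ ^ 2 := by
        rw [Matrix.mul_sub, Matrix.sub_mul, Matrix.sub_mul, Matrix.mul_smul, Matrix.smul_mul,
          Matrix.smul_mul, Matrix.mul_smul, hpA, hAp, hpp]
        simp only [trace_sub, trace_smul, htp, smul_eq_mul]
        ring
      have e2 := hd.lap_eq h
      rw [← hS] at e2
      rw [e1, hd.dX_κ, trace_sub, htp, trace_one, Fintype.card_fin]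
      rw [hlap, e2, hκ] at hnor
      linear_combination (-c) * hnor - (dX Δ X ρ + ρ * S.trace -
        κ * ((A * A).trace - m)) * hc)
  rw [hd.dX_κ] at hz
  exact hd.unit hz

end BiH
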