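import Pool.Agent.P.MP_ecb6bc_gt.GeoB0

/-! The gradient lines are geodesics. -/

set_option autoImplicit false
set_option linter.unusedSectionVars false
set_option linter.unusedVariables false

noncomputable section

namespace BiH

open Matrix

variable {R : Type} [CommRing R] [Algebra ℝ R] {m : ℕ} {Δ : DR R m}
  {g gi : Matrix (Fin m) (Fin m) R} {Γ : Fin m → Matrix (Fin m) (Fin m) R}
  {A : Matrix (Fin m) (Fin m) R} {κ ρ : R} {X : Fin m → R}

/-- Covariant derivative of a vector field. -/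
private def cv (D : Derivation ℝ R R) (G : Matrix (Fin m) (Fin m) R) (V : Fin m → R) :
    Fin m → R := (fun k => D (V k)) + G *ᵥ V

private theorem d_dot (D : Derivation ℝ R R) (U V : Fin m → R) :
    D (U ⬝ᵥ V) = (fun k => D (U k)) ⬝ᵥ V + U ⬝ᵥ fun k => D (V k) := by
  simp only [dotProduct, map_sum, Derivation.leibniz, smul_eq_mul, ← Finset.sum_add_distrib]
  exact Finset.sum_congr rfl fun k _ => by ring

private theorem d_mulVec (D : Derivation ℝ R R) (W : Matrix (Fin m) (Fin m) R) (V : Fin m → R) :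
    (fun k => D ((W *ᵥ V) k)) = W.map D *ᵥ V + W *ᵥ fun k => D (V k) := by
  funext k
  exact d_dot D (W k) V

private theorem cv_mulVec (D : Derivation ℝ R R) (G W : Matrix (Fin m) (Fin m) R)
    (V : Fin m → R) : cv D G (W *ᵥ V) = nab D G W *ᵥ V + W *ᵥ cv D G V := by
  unfold cv nab
  rw [d_mulVec, mulVec_mulVec, sub_mulVec, add_mulVec, mulVec_add, mulVec_mulVec]
  abel

private theorem cv_smul (D : Derivation ℝ R R) (G : Matrix (Fin m) (Fin m) R) (u : R)
    (V : Fin m → R) : cv D G (u • V) = D u • V + u • cv D G V := by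
  unfold cv
  rw [mulVec_smul]
  funext k
  simp only [Pi.add_apply, Pi.smul_apply, smul_eq_mul, Derivation.leibniz]
  ring

private theorem d_inner (D : Derivation ℝ R R) (G : Matrix (Fin m) (Fin m) R)
    (hg : g.map D = Gᵀ * g + g * G) (U V : Fin m → R) :
    D (U ⬝ᵥ g *ᵥ V) = cv D G U ⬝ᵥ g *ᵥ V + U ⬝ᵥ g *ᵥ cv D G V := by
  unfold cv
  rw [d_dot, d_mulVec, hg, add_mulVec, ← mulVec_mulVec, ← mulVec_mulVec, dotProduct_add,
    dotProduct_add, add_dotProduct, mulVec_add, dotProduct_add,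
    dotProduct_mulVec U Gᵀ, vecMul_transpose]
  abel

private theorem sym_dot {M : Matrix (Fin m) (Fin m) R} (hM : Mᵀ = M) (U V : Fin m → R) :
    U ⬝ᵥ M *ᵥ V = (M *ᵥ U) ⬝ᵥ V := by
  rw [dotProduct_mulVec, ← vecMul_transpose, hM]

private theorem sX_col (h : Str Δ g gi Γ A) (X : Fin m → R) (k j : Fin m) :
    sX Δ Γ X k j = cv (Δ.d j) (Γ j) X k := by
  simp only [sX, gX, cv, Matrix.add_apply, of_apply, Matrix.sum_apply, Matrix.smul_apply,
    smul_eq_mul, Pi.add_apply, mulVec, dotProduct]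
  congr 1
  exact Finset.sum_congr rfl fun i _ => by rw [h.sy i j k, mul_comm]

private theorem half_cancel {a : R} (ha : a + a = 0) : a = 0 := by
  have h2 : algebraMap ℝ R (1 / 2) * 2 = 1 := by
    rw [← map_ofNat (algebraMap ℝ R) 2, ← map_mul]
    norm_num
  calc a = algebraMap ℝ R (1 / 2) * 2 * a := by rw [h2, one_mul]
    _ = algebraMap ℝ R (1 / 2) * (a + a) := by ring
    _ = 0 := by rw [ha, mul_zero]

theorem Dir.dX_κ (hd : Dir Δ g A κ ρ X) : dX Δ X κ = ρ := by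
  rw [dX_apply]
  have h1 := hd.one
  calc ∑ i, X i * Δ.d i κ = ρ * (X ⬝ᵥ g *ᵥ X) := by
        simp only [hd.dκ, dotProduct, Finset.mul_sum]
        exact Finset.sum_congr rfl fun i _ => by ring
    _ = ρ := by rw [h1, mul_one]

theorem Dir.vecMul_sX (h : Str Δ g gi Γ A) (hd : Dir Δ g A κ ρ X) :
    (g *ᵥ X) ᵥ* sX Δ Γ X = 0 := by
  funext j
  have h1 := d_inner (Δ.d j) (Γ j) (h.dg j) X X
  rw [hd.one, Derivation.map_one_eq_zero, sym_dot h.gs X, dotProduct_comm (cv _ _ X)] at h1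
  have h2 := half_cancel h1.symm
  rw [Pi.zero_apply, ← h2]
  simp only [vecMul, dotProduct, sX_col h]

/-- The Codazzi equation along `X`. -/
theorem Dir.nab_A (h : Str Δ g gi Γ A) (hd : Dir Δ g A κ ρ X) :
    nab (dX Δ X) (gX Γ X) A = ρ • pX g X + κ • sX Δ Γ X - A * sX Δ Γ X := by
  rw [nab_dX]
  ext k j
  have h1 := cv_mulVec (Δ.d j) (Γ j) A X
  rw [hd.eig, cv_smul, hd.dκ] at h1
  have h2 := congrFun h1 k
  have h3 : (∑ i, X i • nab (Δ.d i) (Γ i) A) k j = (nab (Δ.d j) (Γ j) A *ᵥ X) k := by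
    simp only [Matrix.sum_apply, Matrix.smul_apply, smul_eq_mul, mulVec, dotProduct]
    exact Finset.sum_congr rfl fun i _ => by rw [h.cod' i j k, mul_comm]
  have h4 : (A * sX Δ Γ X) k j = (A *ᵥ cv (Δ.d j) (Γ j) X) k := by
    simp only [Matrix.mul_apply, mulVec, dotProduct, sX_col h]
  rw [h3, Matrix.sub_apply, Matrix.add_apply, h4, Matrix.smul_apply, Matrix.smul_apply, sX_col h]
  simp only [Pi.add_apply, Pi.smul_apply, smul_eq_mul] at h2
  simp only [pX, vecMulVec_apply, smul_eq_mul]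
  linear_combination (-1 : R) * h2

theorem Dir.geod (h : Str Δ g gi Γ A) (hd : Dir Δ g A κ ρ X) : sX Δ Γ X *ᵥ X = 0 := by
  have hS := hd.vecMul_sX h
  have hC := hd.nab_A h
  have hκ := hd.dX_κ
  have hsym : (g * nab (dX Δ X) (gX Γ X) A)ᵀ = g * nab (dX Δ X) (gX Γ X) A := by
    rw [nab_dX, Finset.mul_sum, transpose_sum]
    refine Finset.sum_congr rfl fun i _ => ?_
    rw [Matrix.mul_smul, transpose_smul, h.nab_symm i h.hs]
  generalize sX Δ Γ X = S at hS hC ⊢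
  have hP : ∀ V, pX g X *ᵥ V = ((g *ᵥ X) ⬝ᵥ V) • X := fun V => by
    funext k
    simp only [pX, mulVec, dotProduct, vecMulVec_apply, Pi.smul_apply, smul_eq_mul,
      Finset.sum_mul, Finset.mul_sum]
    exact Finset.sum_congr rfl fun i _ => Finset.sum_congr rfl fun j _ => by ring
  have hCV : ∀ V, nab (dX Δ X) (gX Γ X) A *ᵥ V =
      (ρ * ((g *ᵥ X) ⬝ᵥ V)) • X + κ • (S *ᵥ V) - A *ᵥ (S *ᵥ V) := fun V => by
    rw [hC, sub_mulVec, add_mulVec, smul_mulVec, smul_mulVec, hP, mulVec_mulVec, smul_smul]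
  have hSV : ∀ V, (g *ᵥ X) ⬝ᵥ S *ᵥ V = 0 := fun V => by
    rw [dotProduct_mulVec, hS, zero_dotProduct]
  have hA : ∀ U V, A *ᵥ U = κ • U → U ⬝ᵥ g *ᵥ A *ᵥ V = κ * (U ⬝ᵥ g *ᵥ V) := fun U V hU => by
    rw [mulVec_mulVec, sym_dot h.hs, ← mulVec_mulVec, hU, mulVec_smul, smul_dotProduct,
      sym_dot h.gs, smul_eq_mul]
  have hone : (g *ᵥ X) ⬝ᵥ X = 1 := by rw [dotProduct_comm, hd.one]
  have hZ : A *ᵥ (S *ᵥ X) = κ • (S *ᵥ X) := by
    have e1 : ∀ V, V ⬝ᵥ g *ᵥ (κ • (S *ᵥ X) - A *ᵥ (S *ᵥ X)) = 0 := fun V => by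
      have e2 := sym_dot hsym X V
      rw [← mulVec_mulVec, ← mulVec_mulVec, hCV, hCV, hone, dotProduct_comm _ V,
        dotProduct_comm _ V] at e2
      simp only [mulVec_sub, mulVec_add, mulVec_smul, dotProduct_sub, dotProduct_add,
        dotProduct_smul, smul_eq_mul] at e2 ⊢
      rw [hA X _ hd.eig, hd.one] at e2
      linear_combination (-1 : R) * e2
    have e3 := h.sq _ (e1 _)
    exact (sub_eq_zero.mp e3).symm
  have e4 := cv_mulVec (dX Δ X) (gX Γ X) A (S *ᵥ X)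
  rw [hZ, cv_smul, hκ, hCV, hSV] at e4
  have e5 := congrArg (fun V => (S *ᵥ X) ⬝ᵥ g *ᵥ V) e4
  simp only [mulVec_sub, mulVec_add, mulVec_smul, dotProduct_sub, dotProduct_add,
    dotProduct_smul, smul_eq_mul, hA _ _ hZ] at e5
  have e6 : ρ * ((S *ᵥ X) ⬝ᵥ g *ᵥ S *ᵥ X) = 0 := by linear_combination e5
  exact h.sq _ ((Δ.unit ρ hd.unit).mul_right_eq_zero.mp e6)

end BiH
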