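import Pool.Agent.P.MP_ecb6bc_gt.GeoB1

/-! The Hessian of the principal curvature. -/

set_option autoImplicit false
set_option linter.unusedSectionVars false
set_option linter.unusedVariables false

noncomputable section

namespace BiH

open Matrix

variable {R : Type} [CommRing R] [Algebra ℝ R] {m : ℕ} {Δ : DR R m}
  {g gi : Matrix (Fin m) (Fin m) R} {Γ : Fin m → Matrix (Fin m) (Fin m) R}
  {A : Matrix (Fin m) (Fin m) R} {κ ρ : R} {X : Fin m → R}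

theorem sX_apply_GeoB2 (h : Str Δ g gi Γ A) (k j : Fin m) :
    sX Δ Γ X k j = Δ.d j (X k) + ∑ i, Γ j k i * X i := by
  simp only [sX, gX, Matrix.add_apply, of_apply, Matrix.sum_apply, Matrix.smul_apply, smul_eq_mul]
  congr 1
  exact Finset.sum_congr rfl fun i _ => by rw [h.sy i j k, mul_comm]

theorem dth_GeoB2 (h : Str Δ g gi Γ A) (i j : Fin m) :
    Δ.d i ((g *ᵥ X) j) = ∑ k, Γ i k j * (g *ᵥ X) k + (g * sX Δ Γ X) j i := by
  have h1 : Δ.d i ((g *ᵥ X) j) =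
      (g.map (Δ.d i) *ᵥ X) j + (g *ᵥ fun k => Δ.d i (X k)) j := by
    simp only [mulVec, dotProduct, map_sum, Derivation.leibniz, smul_eq_mul, Matrix.map_apply,
      ← Finset.sum_add_distrib]
    exact Finset.sum_congr rfl fun k _ => by ring
  have h2 : (g * sX Δ Γ X) j i = (g *ᵥ fun k => Δ.d i (X k)) j + (g *ᵥ (Γ i *ᵥ X)) j := by
    simp only [Matrix.mul_apply, sX_apply_GeoB2 h, mul_add, Finset.sum_add_distrib]
    rfl
  have h3 : ∑ k, Γ i k j * (g *ᵥ X) k = ((Γ i)ᵀ *ᵥ (g *ᵥ X)) j := rfl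
  rw [h1, h2, h3, h.dg, add_mulVec, mulVec_mulVec, mulVec_mulVec, Pi.add_apply]
  ring

theorem Dir.hess (h : Str Δ g gi Γ A) (hd : Dir Δ g A κ ρ X) (i j : Fin m) :
    Δ.d i (Δ.d j κ) - ∑ k, Γ i k j * Δ.d k κ =
      Δ.d i ρ * (g *ᵥ X) j + ρ * (g * sX Δ Γ X) j i := by
  have h1 : ∑ k, Γ i k j * Δ.d k κ = ρ * ∑ k, Γ i k j * (g *ᵥ X) k := by
    rw [Finset.mul_sum]
    exact Finset.sum_congr rfl fun k _ => by rw [hd.dκ]; ring
  rw [h1, hd.dκ, Derivation.leibniz, dth_GeoB2 h, smul_eq_mul, smul_eq_mul]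
  ring

theorem Dir.lap_eq (h : Str Δ g gi Γ A) (hd : Dir Δ g A κ ρ X) :
    lap Δ gi Γ κ = dX Δ X ρ + ρ * (sX Δ Γ X).trace := by
  have h1 : gi *ᵥ (g *ᵥ X) = X := by rw [mulVec_mulVec, h.gig.1, one_mulVec]
  have h2 : (sX Δ Γ X).trace = (gi * (g * sX Δ Γ X)).trace := by
    rw [← Matrix.mul_assoc, h.gig.1, Matrix.one_mul]
  have h3 : (gi * (g * sX Δ Γ X)).trace = ∑ i, ∑ j, gi i j * (g * sX Δ Γ X) j i := rfl
  rw [lap, dX_apply, h2, h3, Finset.mul_sum, ← Finset.sum_add_distrib]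
  refine Finset.sum_congr rfl fun i _ => ?_
  have h4 : X i = ∑ j, gi i j * (g *ᵥ X) j := (congrFun h1 i).symm
  rw [h4, Finset.sum_mul, Finset.mul_sum, ← Finset.sum_add_distrib]
  refine Finset.sum_congr rfl fun j _ => ?_
  rw [hd.hess h]
  ring

theorem Dir.sX_symm (h : Str Δ g gi Γ A) (hd : Dir Δ g A κ ρ X) :
    (g * sX Δ Γ X)ᵀ = g * sX Δ Γ X := by
  have hs : ∀ i j, Δ.d i ρ * (g *ᵥ X) j + ρ * (g * sX Δ Γ X) j i =
      Δ.d j ρ * (g *ᵥ X) i + ρ * (g * sX Δ Γ X) i j := fun i j => by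
    rw [← hd.hess h, ← hd.hess h, Δ.comm i j]
    congr 1
    exact Finset.sum_congr rfl fun k _ => by rw [h.sy i j k]
  have h1 : X ᵥ* (g * sX Δ Γ X) = 0 := by
    rw [← vecMul_vecMul, ← mulVec_transpose g, h.gs, hd.vecMul_sX h]
  have h2 : (g * sX Δ Γ X) *ᵥ X = 0 := by rw [← mulVec_mulVec, hd.geod h, mulVec_zero]
  have hρ : ∀ i, Δ.d i ρ = dX Δ X ρ * (g *ᵥ X) i := fun i => by
    have e1 : ∑ j, X j * (g * sX Δ Γ X) j i = 0 := congrFun h1 i
    have e2 : ∑ j, (g * sX Δ Γ X) i j * X j = 0 := congrFun h2 i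
    have e3 : ∑ j, X j * (g *ᵥ X) j = 1 := hd.one
    have e4 : ∑ j, X j * (Δ.d i ρ * (g *ᵥ X) j + ρ * (g * sX Δ Γ X) j i) =
        ∑ j, X j * (Δ.d j ρ * (g *ᵥ X) i + ρ * (g * sX Δ Γ X) i j) :=
      Finset.sum_congr rfl fun j _ => by rw [hs]
    have e5 : ∑ j, X j * (Δ.d i ρ * (g *ᵥ X) j + ρ * (g * sX Δ Γ X) j i) =
        Δ.d i ρ * ∑ j, X j * (g *ᵥ X) j + ρ * ∑ j, X j * (g * sX Δ Γ X) j i := by
      rw [Finset.mul_sum, Finset.mul_sum, ← Finset.sum_add_distrib]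
      exact Finset.sum_congr rfl fun j _ => by ring
    have e6 : ∑ j, X j * (Δ.d j ρ * (g *ᵥ X) i + ρ * (g * sX Δ Γ X) i j) =
        (∑ j, X j * Δ.d j ρ) * (g *ᵥ X) i + ρ * ∑ j, (g * sX Δ Γ X) i j * X j := by
      rw [Finset.sum_mul, Finset.mul_sum, ← Finset.sum_add_distrib]
      exact Finset.sum_congr rfl fun j _ => by ring
    rw [e5, e6, e1, e2, e3] at e4
    rw [dX_apply]
    linear_combination e4
  ext i j
  refine (Δ.unit ρ hd.unit).mul_left_cancel ?_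
  have e := hs i j
  rw [hρ i, hρ j] at e
  rw [transpose_apply]
  linear_combination e

theorem Dir.comm (h : Str Δ g gi Γ A) (hd : Dir Δ g A κ ρ X) :
    A * sX Δ Γ X = sX Δ Γ X * A := by
  have h1 : (g * nab (dX Δ X) (gX Γ X) A)ᵀ = g * nab (dX Δ X) (gX Γ X) A := by
    rw [nab_dX, Matrix.mul_sum, transpose_sum]
    refine Finset.sum_congr rfl fun i _ => ?_
    rw [Matrix.mul_smul, transpose_smul, h.nab_symm i h.hs]
  have h2 : (g * pX g X)ᵀ = g * pX g X := by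
    rw [pX, mul_vecMulVec, transpose_vecMulVec]
  have h3 := hd.sX_symm h
  have h4 : (g * (A * sX Δ Γ X))ᵀ = g * (sX Δ Γ X * A) := by
    rw [← Matrix.mul_assoc, transpose_mul, h.hs, ← Matrix.mul_assoc, ← Matrix.mul_assoc, ← h3,
      transpose_mul, h.gs]
  rw [hd.nab_A h, Matrix.mul_sub, Matrix.mul_add, Matrix.mul_smul, Matrix.mul_smul,
    transpose_sub, transpose_add, transpose_smul, transpose_smul, h2, h3, h4, sub_right_inj] at h1
  have h5 := congrArg (gi * ·) h1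
  simpa only [← Matrix.mul_assoc, h.gig.1, Matrix.one_mul] using h5.symm

theorem Dir.nab_pX (h : Str Δ g gi Γ A) (hd : Dir Δ g A κ ρ X) :
    nab (dX Δ X) (gX Γ X) (pX g X) = 0 := by
  have h1 : ∀ k, dX Δ X (X k) + (gX Γ X *ᵥ X) k = 0 := fun k => by
    have e := congrFun (hd.geod h) k
    rw [sX, add_mulVec, Pi.add_apply, Pi.zero_apply] at e
    rw [← e, dX_apply]
    congr 1
    exact Finset.sum_congr rfl fun i _ => mul_comm _ _
  have h2 : ∀ l, dX Δ X ((g *ᵥ X) l) = ((g *ᵥ X) ᵥ* gX Γ X) l := fun l => by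
    have e0 : (g * sX Δ Γ X) *ᵥ X = 0 := by rw [← mulVec_mulVec, hd.geod h, mulVec_zero]
    have e1 : ∑ i, (g * sX Δ Γ X) l i * X i = 0 := congrFun e0 l
    have e2 : ((g *ᵥ X) ᵥ* gX Γ X) l = ∑ i, X i * ∑ k, Γ i k l * (g *ᵥ X) k := by
      simp only [vecMul, dotProduct, gX, Matrix.sum_apply, Matrix.smul_apply, smul_eq_mul,
        Finset.mul_sum]
      rw [Finset.sum_comm]
      exact Finset.sum_congr rfl fun i _ => Finset.sum_congr rfl fun k _ => by ring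
    rw [dX_apply, e2, ← add_zero (∑ i, X i * ∑ k, Γ i k l * (g *ᵥ X) k), ← e1,
      ← Finset.sum_add_distrib]
    refine Finset.sum_congr rfl fun i _ => ?_
    rw [dth_GeoB2 h]
    ring
  ext k l
  rw [nab, pX, mul_vecMulVec, vecMulVec_mul]
  simp only [Matrix.sub_apply, Matrix.add_apply, Matrix.map_apply, vecMulVec_apply,
    Derivation.leibniz, smul_eq_mul, h2, Matrix.zero_apply]
  linear_combination (g *ᵥ X) l * h1 k

end BiH
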