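import Pool.Agent.P.MP_ecb6bc_gt.GeoA3
import Pool.Agent.P.MP_ecb6bc_gt.GeoB

/-! The length of the tension field has vanishing derivative. -/

set_option autoImplicit false
set_option linter.unusedSectionVars false
set_option linter.unusedVariables false

noncomputable section

namespace BiH

open Matrix

theorem geo_main {R : Type} [CommRing R] [Algebra ℝ R] {m : ℕ} (Δ : DR R m)
    (f : Fin (m + 2) → R) (h1 : f ⬝ᵥ f = 1) (hdet : Δ.ev (Δ.metric f).det ≠ 0)
    (hb : Δ.bitension f = 0) (i : Fin m) :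
    Δ.ev (Δ.d i (Δ.tension f ⬝ᵥ Δ.tension f)) = 0 := by
  set τ := Δ.tension f with hτ
  by_cases h0 : Δ.ev (τ ⬝ᵥ τ) = 0
  · have h2 : ∀ a, Δ.ev (τ a) = 0 := by
      have h3 : ∑ a, Δ.ev (τ a) * Δ.ev (τ a) = 0 := by
        simpa [dotProduct, map_sum, map_mul] using h0
      rw [Finset.sum_eq_zero_iff_of_nonneg fun a _ => mul_self_nonneg _] at h3
      exact fun a => mul_self_eq_zero.1 (h3 a (Finset.mem_univ _))
    simp [dotProduct, map_sum, Derivation.leibniz, h2]
  · have hpos : 0 < Δ.ev (τ ⬝ᵥ τ) := by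
      refine lt_of_le_of_ne ?_ (Ne.symm h0)
      simp only [dotProduct, map_sum, map_mul]
      exact Finset.sum_nonneg fun a _ => mul_self_nonneg _
    obtain ⟨T, hT⟩ := Δ.sqrt _ hpos
    have hT0 : Δ.ev T ≠ 0 := by
      intro h
      rw [← hT, map_mul, h, mul_zero] at h0
      exact h0 rfl
    obtain ⟨U, hU⟩ := (Δ.unit T hT0).exists_left_inv
    obtain ⟨hd1, hd2⟩ := tension_dot h1 hdet
    have hF : Fr Δ f (U • τ) := by
      refine ⟨h1, hdet, ?_, ?_, fun j => ?_⟩
      · rw [smul_dotProduct, dotProduct_smul, ← hT, smul_eq_mul, smul_eq_mul]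
        linear_combination (U * T + 1) * hU
      · rw [smul_dotProduct, hd1, smul_zero]
      · rw [smul_dotProduct, hd2, smul_zero]
    have hTA : T = (shape Δ f (U • τ)).trace := by
      have e := congrArg (fun V => V ⬝ᵥ (U • τ)) hF.tension_eq
      simp only [smul_dotProduct, hF.NN, smul_eq_mul, mul_one] at e
      rw [← e, ← hτ, dotProduct_smul, ← hT, smul_eq_mul]
      linear_combination (-T) * hU
    obtain ⟨hn, ht⟩ := hF.bih hb T hTA
    have hz := hF.str.ev_d T hTA hn ht i
    rw [← hT, Derivation.leibniz]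
    simp [hz]

end BiH
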