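import Pool.Agent.P.MP_ecb6bc_gt.HDefs

/-! The ring of smooth germs at a point. -/

set_option autoImplicit false
set_option linter.unusedSectionVars false
set_option linter.unusedVariables false

noncomputable section

namespace BiH

open Filter Topology
open scoped ContDiff

variable {m : ℕ}

/-- Functions that are smooth at the point. -/
def S_Germ1 (x₀ : Fin m → ℝ) : Subalgebra ℝ ((Fin m → ℝ) → ℝ) where
  carrier := {u | ContDiffAt ℝ ∞ u x₀}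
  mul_mem' := fun {u v} (hu : ContDiffAt ℝ ∞ u x₀) (hv : ContDiffAt ℝ ∞ v x₀) => hu.mul hv
  add_mem' := fun {u v} (hu : ContDiffAt ℝ ∞ u x₀) (hv : ContDiffAt ℝ ∞ v x₀) => hu.add hv
  algebraMap_mem' := fun c => (contDiffAt_const : ContDiffAt ℝ ∞ (fun _ => c) x₀)

/-- Functions that vanish near the point. -/
def I_Germ1 (x₀ : Fin m → ℝ) : Ideal (S_Germ1 x₀) where
  carrier := {u | ∀ᶠ x in 𝓝 x₀, u.1 x = 0}
  add_mem' := fun {u v} hu hv => by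
    filter_upwards [hu, hv] with x hx hy
    simp [hx, hy]
  zero_mem' := by simp
  smul_mem' := fun c u hu => by
    filter_upwards [hu] with x hx
    simp [hx]

theorem mk_eq_Germ1 {x₀ : Fin m → ℝ} (u v : S_Germ1 x₀) :
    Ideal.Quotient.mk (I_Germ1 x₀) u = Ideal.Quotient.mk (I_Germ1 x₀) v ↔ u.1 =ᶠ[𝓝 x₀] v.1 := by
  rw [Ideal.Quotient.eq]
  change (∀ᶠ x in 𝓝 x₀, (u - v).1 x = 0) ↔ ∀ᶠ x in 𝓝 x₀, u.1 x = v.1 x
  simp [sub_eq_zero]

theorem pd_smooth_Germ1 {x₀ : Fin m → ℝ} {u : (Fin m → ℝ) → ℝ} (hu : ContDiffAt ℝ ∞ u x₀)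
    (i : Fin m) : ContDiffAt ℝ ∞ (pd i u) x₀ :=
  (hu.fderiv_right (m := ∞) le_rfl).clm_apply contDiffAt_const

theorem pd_congr_Germ1 {x₀ : Fin m → ℝ} {u v : (Fin m → ℝ) → ℝ} (h : u =ᶠ[𝓝 x₀] v)
    (i : Fin m) : pd i u =ᶠ[𝓝 x₀] pd i v := by
  filter_upwards [h.fderiv (𝕜 := ℝ)] with x hx
  simp [pd, hx]

theorem two_Germ1 {x₀ : Fin m → ℝ} {u : (Fin m → ℝ) → ℝ} (hu : ContDiffAt ℝ ∞ u x₀) :
    ∀ᶠ x in 𝓝 x₀, ContDiffAt ℝ 2 u x :=
  (hu.of_le (WithTop.coe_le_coe.2 (le_top : (2 : ℕ∞) ≤ ⊤))).eventually (by simp)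

theorem diff_Germ1 {x₀ : Fin m → ℝ} {u : (Fin m → ℝ) → ℝ} (hu : ContDiffAt ℝ ∞ u x₀) :
    ∀ᶠ x in 𝓝 x₀, DifferentiableAt ℝ u x :=
  (two_Germ1 hu).mono fun _ hx => hx.differentiableAt (by simp)

theorem pd_comm_Germ1 {x : Fin m → ℝ} {u : (Fin m → ℝ) → ℝ} (hu : ContDiffAt ℝ 2 u x)
    (i j : Fin m) : pd i (pd j u) x = pd j (pd i u) x := by
  have hd : DifferentiableAt ℝ (fderiv ℝ u) x :=
    (hu.fderiv_right (m := 1) le_rfl).differentiableAt (by simp)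
  have h : ∀ a b : Fin m, pd a (pd b u) x =
      fderiv ℝ (fderiv ℝ u) x (Pi.single a 1) (Pi.single b 1) := by
    intro a b
    change fderiv ℝ (fun y => fderiv ℝ u y (Pi.single b 1)) x (Pi.single a 1) = _
    rw [fderiv_clm_apply hd (differentiableAt_const _)]
    simp
  rw [h, h]
  exact hu.isSymmSndFDerivAt (by simp) _ _

/-- The derivative of a smooth function. -/
def pdS_Germ1 {x₀ : Fin m → ℝ} (i : Fin m) (u : S_Germ1 x₀) : S_Germ1 x₀ :=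
  ⟨pd i u.1, pd_smooth_Germ1 u.2 i⟩

/-- The derivative of a germ. -/
def dF_Germ1 (x₀ : Fin m → ℝ) (i : Fin m) (r : S_Germ1 x₀ ⧸ I_Germ1 x₀) :
    S_Germ1 x₀ ⧸ I_Germ1 x₀ :=
  Ideal.Quotient.mk _ (pdS_Germ1 i (Ideal.Quotient.mk_surjective r).choose)

theorem dF_mk_Germ1 {x₀ : Fin m → ℝ} (i : Fin m) (u : S_Germ1 x₀) :
    dF_Germ1 x₀ i (Ideal.Quotient.mk _ u) = Ideal.Quotient.mk _ (pdS_Germ1 i u) := by
  unfold dF_Germ1
  rw [mk_eq_Germ1]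
  exact pd_congr_Germ1 ((mk_eq_Germ1 _ _).1
    (Ideal.Quotient.mk_surjective (Ideal.Quotient.mk (I_Germ1 x₀) u)).choose_spec) i

/-- The derivative of germs as a derivation. -/
def d_Germ1 (x₀ : Fin m → ℝ) (i : Fin m) :
    Derivation ℝ (S_Germ1 x₀ ⧸ I_Germ1 x₀) (S_Germ1 x₀ ⧸ I_Germ1 x₀) :=
  Derivation.mk'
    { toFun := dF_Germ1 x₀ i
      map_add' := fun r s => by
        obtain ⟨u, rfl⟩ := Ideal.Quotient.mk_surjective r
        obtain ⟨v, rfl⟩ := Ideal.Quotient.mk_surjective s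
        rw [← map_add, dF_mk_Germ1, dF_mk_Germ1, dF_mk_Germ1, ← map_add, mk_eq_Germ1]
        filter_upwards [diff_Germ1 u.2, diff_Germ1 v.2] with x hx hy
        change fderiv ℝ (u.1 + v.1) x _ = fderiv ℝ u.1 x _ + fderiv ℝ v.1 x _
        rw [fderiv_add hx hy]
        rfl
      map_smul' := fun c r => by
        obtain ⟨u, rfl⟩ := Ideal.Quotient.mk_surjective r
        have h : ∀ w : S_Germ1 x₀, c • Ideal.Quotient.mk (I_Germ1 x₀) w =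
            Ideal.Quotient.mk (I_Germ1 x₀) (c • w) := fun _ => rfl
        rw [RingHom.id_apply, h, dF_mk_Germ1, dF_mk_Germ1, h, mk_eq_Germ1]
        filter_upwards [diff_Germ1 u.2] with x hx
        change fderiv ℝ (c • u.1) x _ = c • fderiv ℝ u.1 x _
        rw [fderiv_const_smul hx]
        rfl }
    (fun r s => by
      obtain ⟨u, rfl⟩ := Ideal.Quotient.mk_surjective r
      obtain ⟨v, rfl⟩ := Ideal.Quotient.mk_surjective s
      change dF_Germ1 x₀ i _ = _ * dF_Germ1 x₀ i _ + _ * dF_Germ1 x₀ i _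
      rw [← map_mul, dF_mk_Germ1, dF_mk_Germ1, dF_mk_Germ1, ← map_mul, ← map_mul, ← map_add,
        mk_eq_Germ1]
      filter_upwards [diff_Germ1 u.2, diff_Germ1 v.2] with x hx hy
      change fderiv ℝ (u.1 * v.1) x _ = u.1 x * fderiv ℝ v.1 x _ + v.1 x * fderiv ℝ u.1 x _
      rw [fderiv_mul hx hy]
      rfl)

theorem d_mk_Germ1 {x₀ : Fin m → ℝ} (i : Fin m) (u : S_Germ1 x₀) :
    d_Germ1 x₀ i (Ideal.Quotient.mk _ u) = Ideal.Quotient.mk _ (pdS_Germ1 i u) :=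
  dF_mk_Germ1 i u

/-- The value of a germ. -/
def ev_Germ1 (x₀ : Fin m → ℝ) : (S_Germ1 x₀ ⧸ I_Germ1 x₀) →ₐ[ℝ] ℝ :=
  Ideal.Quotient.liftₐ (I_Germ1 x₀)
    ((Pi.evalAlgHom ℝ (fun _ : Fin m → ℝ => ℝ) x₀).comp (S_Germ1 x₀).val)
    fun u hu => Filter.Eventually.self_of_nhds (p := fun x => u.1 x = 0) hu

theorem ev_mk_Germ1 {x₀ : Fin m → ℝ} (u : S_Germ1 x₀) :
    ev_Germ1 x₀ (Ideal.Quotient.mk _ u) = u.1 x₀ := rfl

theorem unit_Germ1 {R : Type} [CommRing R] (a b : R) (h : a * b = 1) : IsUnit a :=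
  IsUnit.of_mul_eq_one b h

/-- The ring of germs. -/
def DR_Germ1 (x₀ : Fin m → ℝ) : DR (S_Germ1 x₀ ⧸ I_Germ1 x₀) m where
  d := d_Germ1 x₀
  ev := ev_Germ1 x₀
  comm := fun i j r => by
    obtain ⟨u, rfl⟩ := Ideal.Quotient.mk_surjective r
    simp only [d_mk_Germ1]
    rw [mk_eq_Germ1]
    filter_upwards [two_Germ1 u.2] with x hx
    exact pd_comm_Germ1 hx i j
  unit := fun r hr => by
    obtain ⟨u, rfl⟩ := Ideal.Quotient.mk_surjective r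
    rw [ev_mk_Germ1] at hr
    have hu : ContDiffAt ℝ ∞ u.1 x₀ := u.2
    refine unit_Germ1 _ (Ideal.Quotient.mk _ ⟨fun x => (u.1 x)⁻¹, hu.inv hr⟩) ?_
    rw [← map_mul, ← map_one (Ideal.Quotient.mk (I_Germ1 x₀)), mk_eq_Germ1]
    filter_upwards [hu.continuousAt.eventually_ne hr] with x hx
    exact mul_inv_cancel₀ hx
  sqrt := fun r hr => by
    obtain ⟨u, rfl⟩ := Ideal.Quotient.mk_surjective r
    rw [ev_mk_Germ1] at hr
    have hu : ContDiffAt ℝ ∞ u.1 x₀ := u.2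
    refine ⟨Ideal.Quotient.mk _ ⟨fun x => Real.sqrt (u.1 x), hu.sqrt hr.ne'⟩, ?_⟩
    rw [← map_mul, mk_eq_Germ1]
    filter_upwards [hu.continuousAt.eventually (lt_mem_nhds hr)] with x hx
    exact Real.mul_self_sqrt (le_of_lt hx)
  sq := fun n v hv => by
    choose u hu using fun a => Ideal.Quotient.mk_surjective (v a)
    have h : Ideal.Quotient.mk (I_Germ1 x₀) (∑ a, u a * u a) = Ideal.Quotient.mk _ 0 := by
      rw [map_zero, ← hv, map_sum]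
      simp [dotProduct, hu]
    rw [mk_eq_Germ1] at h
    funext a
    rw [← hu a, Pi.zero_apply, ← map_zero (Ideal.Quotient.mk (I_Germ1 x₀)), mk_eq_Germ1]
    filter_upwards [h] with x hx
    have h2 : ∑ a, (u a).1 x * (u a).1 x = 0 := by simpa using hx
    rw [Finset.sum_eq_zero_iff_of_nonneg fun a _ => mul_self_nonneg _] at h2
    exact mul_self_eq_zero.1 (h2 a (Finset.mem_univ a))

theorem exists_germ {m : ℕ} (x₀ : Fin m → ℝ) :
    ∃ (R : Type) (_ : CommRing R) (_ : Algebra ℝ R) (Δ : DR R m)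
      (Rep : R → ((Fin m → ℝ) → ℝ) → Prop), IsGerm Δ x₀ Rep := by
  refine ⟨S_Germ1 x₀ ⧸ I_Germ1 x₀, inferInstance, inferInstance, DR_Germ1 x₀,
    fun r u => ∃ hu : ContDiffAt ℝ ∞ u x₀, r = Ideal.Quotient.mk _ ⟨u, hu⟩,
    ?_, ?_, ?_, ?_, ?_, ?_, ?_, ?_, ?_, ?_⟩
  · exact fun u hu => ⟨_, hu, rfl⟩
  · rintro r u v ⟨hu, rfl⟩ h
    exact ⟨hu.congr_of_eventuallyEq h.symm, (mk_eq_Germ1 _ _).2 h⟩
  · rintro r s u ⟨hu, rfl⟩ ⟨_, rfl⟩
    rfl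
  · rintro r u v ⟨hu, rfl⟩ ⟨hv, h⟩
    exact (mk_eq_Germ1 _ _).1 h
  · rintro r u ⟨hu, _⟩
    exact hu
  · rintro r s u v ⟨hu, rfl⟩ ⟨hv, rfl⟩
    exact ⟨hu.add hv, rfl⟩
  · rintro r s u v ⟨hu, rfl⟩ ⟨hv, rfl⟩
    exact ⟨hu.mul hv, rfl⟩
  · exact fun c => ⟨contDiffAt_const, rfl⟩
  · rintro i r u ⟨hu, rfl⟩
    exact ⟨pd_smooth_Germ1 hu i, d_mk_Germ1 i _⟩
  · rintro r u ⟨hu, rfl⟩
    rfl

end BiH
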