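import Pool.Agent.P.MP_ecb6bc_gt.HDefs

/-! Germs of the tension and bitension fields. -/

set_option autoImplicit false
set_option linter.unusedSectionVars false
set_option linter.unusedVariables false

noncomputable section

namespace BiH

open Matrix

variable {R : Type} [CommRing R] [Algebra ℝ R] {m n : ℕ} {Δ : DR R m} {x₀ : Fin m → ℝ}
  {Rep : R → ((Fin m → ℝ) → ℝ) → Prop}

namespace Germ2Aux

variable (h : IsGerm Δ x₀ Rep)

include h

theorem zero : Rep 0 fun _ => 0 := by simpa using h.const 0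

theorem one : Rep 1 fun _ => 1 := by simpa using h.const 1

theorem sub {r s : R} {u v : (Fin m → ℝ) → ℝ} (hr : Rep r u) (hs : Rep s v) :
    Rep (r - s) fun x => u x - v x := by
  simpa [sub_eq_add_neg] using h.add _ _ _ _ hr (h.mul _ _ _ _ (h.const (-1)) hs)

theorem sum {ι : Type} (s : Finset ι) {r : ι → R} {u : ι → (Fin m → ℝ) → ℝ}
    (hr : ∀ i, Rep (r i) (u i)) : Rep (∑ i ∈ s, r i) fun x => ∑ i ∈ s, u i x := by
  classical
  induction s using Finset.induction_on with
  | empty => simpa using zero h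
  | insert a s ha ih => simpa only [Finset.sum_insert ha] using h.add _ _ _ _ (hr a) ih

theorem prod {ι : Type} (s : Finset ι) {r : ι → R} {u : ι → (Fin m → ℝ) → ℝ}
    (hr : ∀ i, Rep (r i) (u i)) : Rep (∏ i ∈ s, r i) fun x => ∏ i ∈ s, u i x := by
  classical
  induction s using Finset.induction_on with
  | empty => simpa using one h
  | insert a s ha ih => simpa only [Finset.prod_insert ha] using h.mul _ _ _ _ (hr a) ih

theorem det {M : Matrix (Fin m) (Fin m) R} {N : (Fin m → ℝ) → Matrix (Fin m) (Fin m) ℝ}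
    (hM : ∀ i j, Rep (M i j) fun x => N x i j) : Rep M.det fun x => (N x).det := by
  simp only [det_apply']
  refine sum h _ fun σ => h.mul _ _ _ _ ?_ (prod h _ fun i => hM _ _)
  simpa using h.const ((Equiv.Perm.sign σ : ℤ) : ℝ)

theorem inv {M : Matrix (Fin m) (Fin m) R} {N : (Fin m → ℝ) → Matrix (Fin m) (Fin m) ℝ}
    (hM : ∀ i j, Rep (M i j) fun x => N x i j) (hN : (N x₀).det ≠ 0) (i j : Fin m) :
    Rep (M⁻¹ i j) fun x => (N x)⁻¹ i j := by
  have h1 := det h hM
  have h2 := h.smooth _ _ h1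
  obtain ⟨s, hs⟩ := h.ex _ (h2.inv hN)
  have h3 : M.det * s = 1 := h.inj _ _ _ (h.congr _ _ _ (h.mul _ _ _ _ h1 hs)
    ((h2.continuousAt.eventually_ne hN).mono fun x hx => mul_inv_cancel₀ hx)) (one h)
  have h4 : Ring.inverse M.det = s :=
    Ring.inverse_unit ⟨M.det, s, h3, (mul_comm _ _).trans h3⟩
  simp only [Matrix.inv_def, Matrix.smul_apply, smul_eq_mul, h4, Ring.inverse_eq_inv',
    adjugate_apply]
  refine h.mul _ _ _ _ hs (det h fun a b => ?_)
  simp only [updateRow_apply, Pi.single_apply]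
  split_ifs
  exacts [one h, zero h, hM a b]

variable {V W Z : Fin n → R} {v w z : (Fin m → ℝ) → Fin n → ℝ}

theorem dot (hV : ∀ a, Rep (V a) fun x => v x a) (hW : ∀ a, Rep (W a) fun x => w x a) :
    Rep (V ⬝ᵥ W) fun x => v x ⬝ᵥ w x := sum h _ fun a => h.mul _ _ _ _ (hV a) (hW a)

theorem pv' (hV : ∀ a, Rep (V a) fun x => v x a) (i : Fin m) (a : Fin n) :
    Rep (Δ.pv i V a) fun x => pv i v x a := h.d i _ _ (hV a)

theorem cov' (hV : ∀ a, Rep (V a) fun x => v x a) (hW : ∀ a, Rep (W a) fun x => w x a) (i : Fin m)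
    (a : Fin n) : Rep (Δ.cov V i W a) fun x => cov v i w x a :=
  sub h (pv' h hW i a) (h.mul _ _ _ _ (dot h (pv' h hW i) hV) (hV a))

theorem curv' (hV : ∀ a, Rep (V a) fun x => v x a) (hW : ∀ a, Rep (W a) fun x => w x a)
    (hZ : ∀ a, Rep (Z a) fun x => z x a) (a : Fin n) :
    Rep (DR.curv V W Z a) fun x => curv (v x) (w x) (z x) a :=
  sub h (h.mul _ _ _ _ (dot h hW hZ) (hV a)) (h.mul _ _ _ _ (dot h hV hZ) (hW a))

theorem metric' (hV : ∀ a, Rep (V a) fun x => v x a) (i j : Fin m) :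
    Rep (Δ.metric V i j) fun x => metric v x i j := dot h (pv' h hV i) (pv' h hV j)

theorem chris' (hV : ∀ a, Rep (V a) fun x => v x a) (hd : (metric v x₀).det ≠ 0) (k i j : Fin m) :
    Rep (Δ.chris V k i j) (chris v k i j) :=
  h.mul _ _ _ _ (h.const _) (sum h _ fun l => h.mul _ _ _ _ (inv h (metric' h hV) hd k l)
    (sub h (h.add _ _ _ _ (h.d i _ _ (metric' h hV j l)) (h.d j _ _ (metric' h hV i l)))
      (h.d l _ _ (metric' h hV i j))))

end Germ2Aux

open Germ2Aux

theorem IsGerm.rep_metric (h : IsGerm Δ x₀ Rep) {f : Fin n → R} {φ : (Fin m → ℝ) → Fin n → ℝ}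
    (hf : ∀ a, Rep (f a) fun x => φ x a) (i j : Fin m) :
    Rep (Δ.metric f i j) fun x => metric φ x i j := metric' h hf i j

theorem IsGerm.ev_det (h : IsGerm Δ x₀ Rep) {f : Fin n → R} {φ : (Fin m → ℝ) → Fin n → ℝ}
    (hf : ∀ a, Rep (f a) fun x => φ x a) :
    Δ.ev (Δ.metric f).det = (metric φ x₀).det := h.ev _ _ (det h (metric' h hf))

theorem IsGerm.rep_tension (h : IsGerm Δ x₀ Rep) {f : Fin n → R} {φ : (Fin m → ℝ) → Fin n → ℝ}
    (hf : ∀ a, Rep (f a) fun x => φ x a) (hdet : (metric φ x₀).det ≠ 0) (a : Fin n) :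
    Rep (Δ.tension f a) fun x => tension φ x a := by
  simp only [DR.tension, tension, Finset.sum_apply, Pi.smul_apply, Pi.sub_apply, smul_eq_mul]
  exact sum h _ fun i => sum h _ fun j => h.mul _ _ _ _ (inv h (metric' h hf) hdet i j)
    (sub h (cov' h hf (pv' h hf j) i a) (sum h _ fun k =>
      h.mul _ _ _ _ (chris' h hf hdet k i j) (pv' h hf k a)))

theorem IsGerm.rep_bitension (h : IsGerm Δ x₀ Rep) {f : Fin n → R} {φ : (Fin m → ℝ) → Fin n → ℝ}
    (hf : ∀ a, Rep (f a) fun x => φ x a) (hdet : (metric φ x₀).det ≠ 0) (a : Fin n) :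
    Rep (Δ.bitension f a) fun x => bitension φ x a := by
  have ht := h.rep_tension hf hdet
  simp only [DR.bitension, bitension, Finset.sum_apply, Pi.smul_apply, Pi.sub_apply, smul_eq_mul]
  exact sub h (sum h _ fun i => sum h _ fun j => h.mul _ _ _ _ (inv h (metric' h hf) hdet i j)
    (sub h (cov' h hf (cov' h hf ht j) i a) (sum h _ fun k =>
      h.mul _ _ _ _ (chris' h hf hdet k i j) (cov' h hf ht k a))))
    (sum h _ fun i => sum h _ fun j => h.mul _ _ _ _ (inv h (metric' h hf) hdet i j)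
      (curv' h (pv' h hf i) ht (pv' h hf j) a))

end BiH
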