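import Pool.Agent.P.MP_ecb6bc_gt.GeoMain
import Pool.Agent.P.MP_ecb6bc_gt.Germ1
import Pool.Agent.P.MP_ecb6bc_gt.Germ2

/-! Transfer from germs to functions. -/

set_option autoImplicit false
set_option linter.unusedSectionVars false
set_option linter.unusedVariables false

noncomputable section

namespace BiH

open Matrix
open scoped ContDiff

theorem IsGerm.dot_Germ {R : Type} [CommRing R] [Algebra ℝ R] {m n : ℕ} {Δ : DR R m}
    {x₀ : Fin m → ℝ} {Rep : R → ((Fin m → ℝ) → ℝ) → Prop} (h : IsGerm Δ x₀ Rep)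
    {f g : Fin n → R} {φ ψ : (Fin m → ℝ) → Fin n → ℝ}
    (hf : ∀ a, Rep (f a) fun x => φ x a) (hg : ∀ a, Rep (g a) fun x => ψ x a) :
    Rep (f ⬝ᵥ g) fun x => φ x ⬝ᵥ ψ x := by
  have key : ∀ s : Finset (Fin n),
      Rep (∑ a ∈ s, f a * g a) fun x => ∑ a ∈ s, φ x a * ψ x a := by
    intro s
    induction s using Finset.induction_on with
    | empty => simpa using h.const 0
    | insert a s ha ih =>
      simp only [Finset.sum_insert ha]
      exact h.add _ _ _ _ (h.mul _ _ _ _ (hf a) (hg a)) ih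
  exact key Finset.univ

theorem gram_Germ {m n : ℕ} (v : Fin m → Fin n → ℝ) (hv : LinearIndependent ℝ v) :
    (Matrix.of fun i j => v i ⬝ᵥ v j).det ≠ 0 := by
  intro h
  obtain ⟨c, hc0, hc⟩ := Matrix.exists_mulVec_eq_zero_iff.2 h
  have h1 : ∀ i, v i ⬝ᵥ (∑ j, c j • v j) = 0 := by
    intro i
    have e := congrFun hc i
    rw [dotProduct_sum]
    simp only [mulVec, dotProduct, Matrix.of_apply, Pi.zero_apply] at e
    rw [← e]
    refine Finset.sum_congr rfl fun j _ => ?_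
    rw [dotProduct_smul, smul_eq_mul, mul_comm]
    rfl
  have h2 : (∑ j, c j • v j) ⬝ᵥ (∑ j, c j • v j) = 0 := by
    rw [sum_dotProduct]
    refine Finset.sum_eq_zero fun i _ => ?_
    rw [smul_dotProduct, h1, smul_zero]
  have h3 := dotProduct_self_eq_zero.1 h2
  exact hc0 (funext (Fintype.linearIndependent_iff.1 hv c h3))

theorem cmc {m : ℕ} (U : Set (Fin m → ℝ)) (hU : IsOpen U) (hc : IsPreconnected U)
    (φ : (Fin m → ℝ) → Fin (m + 2) → ℝ) (hφ : ContDiffOn ℝ ∞ φ U)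
    (h1 : ∀ x ∈ U, φ x ⬝ᵥ φ x = 1)
    (himm : ∀ x ∈ U, LinearIndependent ℝ fun i : Fin m => pv i φ x)
    (hb : ∀ x ∈ U, bitension φ x = 0) :
    ∃ c : ℝ, ∀ x ∈ U, tension φ x ⬝ᵥ tension φ x = c := by
  have key : ∀ x₀ ∈ U, DifferentiableAt ℝ (fun x => tension φ x ⬝ᵥ tension φ x) x₀ ∧
      fderiv ℝ (fun x => tension φ x ⬝ᵥ tension φ x) x₀ = 0 := by
    intro x₀ hx
    obtain ⟨R, _, _, Δ, Rep, h⟩ := exists_germ x₀
    have hn : U ∈ nhds x₀ := hU.mem_nhds hx
    have hs : ContDiffAt ℝ ∞ φ x₀ := hφ.contDiffAt hn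
    have hex : ∀ a, ∃ r, Rep r fun x => φ x a := fun a =>
      h.ex _ (contDiffAt_pi.1 hs a)
    choose f hf using hex
    have hdet : (metric φ x₀).det ≠ 0 := gram_Germ _ (himm x₀ hx)
    have e1 : f ⬝ᵥ f = 1 := by
      have r1 := h.congr _ _ (fun _ => (1 : ℝ)) (h.dot_Germ hf hf)
        (Filter.eventually_of_mem hn fun x hx' => h1 x hx')
      have r2 := h.const 1
      rw [map_one] at r2
      exact h.inj _ _ _ r1 r2
    have e2 : Δ.bitension f = 0 := by
      funext a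
      have r1 := h.congr _ _ (fun _ => (0 : ℝ)) (h.rep_bitension hf hdet a)
        (Filter.eventually_of_mem hn fun x hx' => by simp [hb x hx'])
      have r2 := h.const 0
      rw [map_zero] at r2
      exact h.inj _ _ _ r1 r2
    have e3 : Δ.ev (Δ.metric f).det ≠ 0 := by
      rw [h.ev_det hf]
      exact hdet
    have rt := h.dot_Germ (h.rep_tension hf hdet) (h.rep_tension hf hdet)
    refine ⟨(h.smooth _ _ rt).differentiableAt (by simp), ?_⟩
    have e4 : ∀ i, pd i (fun x => tension φ x ⬝ᵥ tension φ x) x₀ = 0 := fun i => by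
      rw [← h.ev _ _ (h.d i _ _ rt)]
      exact geo_main Δ f e1 e3 e2 i
    ext1 v
    have ev : v = ∑ i, v i • (Pi.single i 1 : Fin m → ℝ) := by
      ext j
      simp [Finset.sum_apply, Pi.single_apply]
    rw [ev, map_sum]
    refine Finset.sum_eq_zero fun i _ => ?_
    rw [map_smul]
    exact smul_eq_zero_of_right _ (e4 i)
  obtain ⟨c, hc'⟩ := hU.exists_is_const_of_fderiv_eq_zero (𝕜 := ℝ) hc
    (fun x hx => (key x hx).1.differentiableWithinAt) (fun x hx => (key x hx).2)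
  exact ⟨c, hc'⟩

end BiH
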