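import Pool.Agent.P.MP_ecb6bc_gt.GDefs

/-! Structure equations of a hypersurface in matrix form; germs. -/

set_option autoImplicit false
set_option linter.unusedSectionVars false
set_option linter.unusedVariables false

noncomputable section

namespace BiH

open Matrix
open scoped ContDiff

variable {R : Type} [CommRing R] [Algebra ℝ R] {m : ℕ}

/-- Metric `g` with inverse `gi`, Christoffel matrices `Γ i`, shape operator `A`:
compatibility, symmetry, Codazzi and Gauss equations. -/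
structure Str (Δ : DR R m) (g gi : Matrix (Fin m) (Fin m) R)
    (Γ : Fin m → Matrix (Fin m) (Fin m) R) (A : Matrix (Fin m) (Fin m) R) : Prop where
  gs : gᵀ = g
  gg : g * gi = 1
  pos : (g.map Δ.ev).PosDef
  sq : ∀ Z : Fin m → R, Z ⬝ᵥ g *ᵥ Z = 0 → Z = 0
  dg : ∀ i, g.map (Δ.d i) = (Γ i)ᵀ * g + g * Γ i
  sy : ∀ i j k, Γ i k j = Γ j k i
  hs : (g * A)ᵀ = g * A
  cod : ∀ i j k, (A.map (Δ.d i) + Γ i * A) k j = (A.map (Δ.d j) + Γ j * A) k i
  gau : ∀ i k j l, ((Γ i).map (Δ.d k) - (Γ k).map (Δ.d i) + Γ k * Γ i - Γ i * Γ k) l j =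
    g i j * (1 : Matrix (Fin m) (Fin m) R) l k - g k j * (1 : Matrix (Fin m) (Fin m) R) l i +
      (g * A) i j * A l k - (g * A) k j * A l i

/-- The Laplacian. -/
def lap (Δ : DR R m) (gi : Matrix (Fin m) (Fin m) R) (Γ : Fin m → Matrix (Fin m) (Fin m) R)
    (u : R) : R :=
  ∑ i, ∑ j, gi i j * (Δ.d i (Δ.d j u) - ∑ k, Γ i k j * Δ.d k u)

/-- The gradient. -/
def grad (Δ : DR R m) (gi : Matrix (Fin m) (Fin m) R) (u : R) : Fin m → R :=
  gi *ᵥ fun j => Δ.d j u

/-- A map into the sphere with invertible metric and a unit normal `N`. -/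
structure Fr (Δ : DR R m) (f N : Fin (m + 2) → R) : Prop where
  ff : f ⬝ᵥ f = 1
  det : Δ.ev (Δ.metric f).det ≠ 0
  NN : N ⬝ᵥ N = 1
  Nf : N ⬝ᵥ f = 0
  Nd : ∀ i, N ⬝ᵥ Δ.pv i f = 0

/-- The shape operator. -/
def shape (Δ : DR R m) (f N : Fin (m + 2) → R) : Matrix (Fin m) (Fin m) R :=
  (Δ.metric f)⁻¹ * Matrix.of fun i j => N ⬝ᵥ Δ.pv i (Δ.pv j f)

/-- The Christoffel matrices. -/
def gam (Δ : DR R m) (f : Fin (m + 2) → R) (i : Fin m) : Matrix (Fin m) (Fin m) R :=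
  Matrix.of fun k j => Δ.chris f k i j

/-- The unit vector field `X` along the gradient of `κ` is a principal direction. -/
structure Dir (Δ : DR R m) (g A : Matrix (Fin m) (Fin m) R) (κ ρ : R) (X : Fin m → R) :
    Prop where
  unit : Δ.ev ρ ≠ 0
  one : X ⬝ᵥ g *ᵥ X = 1
  dκ : ∀ j, Δ.d j κ = ρ * (g *ᵥ X) j
  eig : A *ᵥ X = κ • X

/-- The derivative along `X`. -/
def dX (Δ : DR R m) (X : Fin m → R) : Derivation ℝ R R := ∑ i, X i • Δ.d i

theorem dX_apply (Δ : DR R m) (X : Fin m → R) (u : R) : dX Δ X u = ∑ i, X i * Δ.d i u := by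
  unfold dX
  induction (Finset.univ : Finset (Fin m)) using Finset.induction_on with
  | empty => simp
  | insert a s ha ih => rw [Finset.sum_insert ha, Finset.sum_insert ha, ← ih]; simp

/-- The Christoffel matrix along `X`. -/
def gX (Γ : Fin m → Matrix (Fin m) (Fin m) R) (X : Fin m → R) : Matrix (Fin m) (Fin m) R :=
  ∑ i, X i • Γ i

/-- The covariant differential of `X`. -/
def sX (Δ : DR R m) (Γ : Fin m → Matrix (Fin m) (Fin m) R) (X : Fin m → R) :
    Matrix (Fin m) (Fin m) R :=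
  (Matrix.of fun k j => Δ.d j (X k)) + gX Γ X

/-- The projection onto the line of `X`. -/
def pX (g : Matrix (Fin m) (Fin m) R) (X : Fin m → R) : Matrix (Fin m) (Fin m) R :=
  vecMulVec X (g *ᵥ X)

/-- The covariant derivative of a field of endomorphisms. -/
def nab (D : Derivation ℝ R R) (G W : Matrix (Fin m) (Fin m) R) : Matrix (Fin m) (Fin m) R :=
  W.map D + G * W - W * G

/-- `Rep r u` says that `r` is the germ of the function `u` at `x₀`. -/
structure IsGerm (Δ : DR R m) (x₀ : Fin m → ℝ) (Rep : R → ((Fin m → ℝ) → ℝ) → Prop) : Prop where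
  ex : ∀ u, ContDiffAt ℝ ∞ u x₀ → ∃ r, Rep r u
  congr : ∀ r u v, Rep r u → u =ᶠ[nhds x₀] v → Rep r v
  inj : ∀ r s u, Rep r u → Rep s u → r = s
  uniq : ∀ r u v, Rep r u → Rep r v → u =ᶠ[nhds x₀] v
  smooth : ∀ r u, Rep r u → ContDiffAt ℝ ∞ u x₀
  add : ∀ r s u v, Rep r u → Rep s v → Rep (r + s) fun x => u x + v x
  mul : ∀ r s u v, Rep r u → Rep s v → Rep (r * s) fun x => u x * v x
  const : ∀ c : ℝ, Rep (algebraMap ℝ R c) fun _ => c
  d : ∀ i r u, Rep r u → Rep (Δ.d i r) (pd i u)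
  ev : ∀ r u, Rep r u → Δ.ev r = u x₀

end BiH
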