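import Pool.Agent.P.MP_ecb6bc_gt.KDefs
import Pool.Agent.P.MP_ecb6bc_gt.GeoB0

/-! Symmetries of the covariant derivatives of the shape operator. -/

set_option autoImplicit false
set_option linter.unusedSectionVars false
set_option linter.unusedVariables false

noncomputable section

namespace BiH

open Matrix
open scoped ContDiff

variable {R : Type} [CommRing R] [Algebra ℝ R] {m : ℕ} {Δ : DR R m}
  {g gi : Matrix (Fin m) (Fin m) R} {Γ : Fin m → Matrix (Fin m) (Fin m) R}
  {A : Matrix (Fin m) (Fin m) R}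


theorem nab_mul (D : Derivation ℝ R R) (G W Z : Matrix (Fin m) (Fin m) R) :
    nab D G (W * Z) = nab D G W * Z + W * nab D G Z := by
  rw [nab, nab, nab, map_mul_GeoB0]
  noncomm_ring

theorem nab_add (D : Derivation ℝ R R) (G W Z : Matrix (Fin m) (Fin m) R) :
    nab D G (W + Z) = nab D G W + nab D G Z := by
  rw [nab, nab, nab, Matrix.map_add _ (map_add D)]
  noncomm_ring

theorem nab_sub (D : Derivation ℝ R R) (G W Z : Matrix (Fin m) (Fin m) R) :
    nab D G (W - Z) = nab D G W - nab D G Z := by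
  rw [nab, nab, nab, Matrix.map_sub _ (map_sub D)]
  noncomm_ring

theorem nab_smul (D : Derivation ℝ R R) (G W : Matrix (Fin m) (Fin m) R) (u : R) :
    nab D G (u • W) = D u • W + u • nab D G W := by
  have e : (u • W).map D = D u • W + u • W.map D := by
    ext a b
    simp only [Matrix.map_apply, Matrix.smul_apply, Matrix.add_apply, smul_eq_mul,
      Derivation.leibniz]
    ring
  rw [nab, nab, e, Matrix.mul_smul, Matrix.smul_mul, smul_sub, smul_add]
  abel

theorem nab_sum (D : Derivation ℝ R R) (G : Matrix (Fin m) (Fin m) R)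
    (W : Fin m → Matrix (Fin m) (Fin m) R) : nab D G (∑ p, W p) = ∑ p, nab D G (W p) := by
  have e : (∑ p, W p).map D = ∑ p, (W p).map D := by
    ext a b
    simp only [Matrix.map_apply, Matrix.sum_apply, map_sum]
  simp only [nab, e, Finset.sum_mul, Finset.mul_sum, Finset.sum_sub_distrib,
    Finset.sum_add_distrib]

theorem d_trace_mul (D : Derivation ℝ R R) (G W Z : Matrix (Fin m) (Fin m) R) :
    D (W * Z).trace = (nab D G W * Z).trace + (W * nab D G Z).trace := by
  rw [← trace_nab_GeoB0 D G, nab_mul, Matrix.trace_add]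

theorem cod_KA1 {W : Fin m → Matrix (Fin m) (Fin m) R} (h : ∀ k a j, W k a j = W j a k)
    (D : Derivation ℝ R R) (G : Matrix (Fin m) (Fin m) R) (k a j : Fin m) :
    (nab D G (W k) - ∑ p, G p k • W p) a j = (nab D G (W j) - ∑ p, G p j • W p) a k := by
  simp only [nab, Matrix.sub_apply, Matrix.add_apply, Matrix.map_apply, Matrix.mul_apply,
    Matrix.sum_apply, Matrix.smul_apply, smul_eq_mul, h k, fun p => h p a j, mul_comm (G _ _)]
  simp only [fun p => h j a p, fun p => h p a k]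
  ring

theorem sum_KA1 {W : Fin m → Matrix (Fin m) (Fin m) R} (h : ∀ q, (g * W q)ᵀ = g * W q)
    {u : Fin m → R} : (g * ∑ q, u q • W q)ᵀ = g * ∑ q, u q • W q := by
  simp only [Matrix.mul_sum, Matrix.mul_smul, Matrix.transpose_sum, Matrix.transpose_smul, h]

theorem Str.T3_cod (h : Str Δ g gi Γ A) (k a j : Fin m) : T3 Δ Γ A k a j = T3 Δ Γ A j a k := by
  exact h.cod' k j a

theorem Str.T4_cod (h : Str Δ g gi Γ A) (k l a j : Fin m) :
    T4 Δ Γ A k l a j = T4 Δ Γ A j l a k := by
  simp only [T4, cod_KA1 h.T3_cod]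

theorem Str.T5_cod (h : Str Δ g gi Γ A) (k l p a j : Fin m) :
    T5 Δ Γ A k l p a j = T5 Δ Γ A j l p a k := by
  have e : (∑ q, Γ p q l • T4 Δ Γ A k q) a j = (∑ q, Γ p q l • T4 Δ Γ A j q) a k := by
    simp only [Matrix.sum_apply, Matrix.smul_apply, h.T4_cod k _ a j]
  exact congrArg₂ (· - ·) (cod_KA1 (W := fun k => T4 Δ Γ A k l) (h.T4_cod · l) _ _ k a j) e

theorem Str.T3_symm (h : Str Δ g gi Γ A) (k : Fin m) : (g * T3 Δ Γ A k)ᵀ = g * T3 Δ Γ A k := by
  exact h.nab_symm k h.hs

theorem Str.T4_symm (h : Str Δ g gi Γ A) (k l : Fin m) :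
    (g * T4 Δ Γ A k l)ᵀ = g * T4 Δ Γ A k l := by
  rw [T4, Matrix.mul_sub, Matrix.transpose_sub, h.nab_symm l (h.T3_symm k), sum_KA1 h.T3_symm]

theorem Str.T5_symm (h : Str Δ g gi Γ A) (k l p : Fin m) :
    (g * T5 Δ Γ A k l p)ᵀ = g * T5 Δ Γ A k l p := by
  rw [T5, Matrix.mul_sub, Matrix.mul_sub, Matrix.transpose_sub, Matrix.transpose_sub,
    h.nab_symm p (h.T4_symm k l), sum_KA1 (h.T4_symm · l), sum_KA1 (h.T4_symm k)]

end BiH
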