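import Pool.Agent.P.MP_ecb6bc_gt.KA1

/-! Ricci identities. -/

set_option autoImplicit false
set_option linter.unusedSectionVars false
set_option linter.unusedVariables false

noncomputable section

namespace BiH

open Matrix
open scoped ContDiff

variable {R : Type} [CommRing R] [Algebra ℝ R] {m : ℕ} {Δ : DR R m}
  {g gi : Matrix (Fin m) (Fin m) R} {Γ : Fin m → Matrix (Fin m) (Fin m) R}
  {A : Matrix (Fin m) (Fin m) R}


theorem nab_comm (Δ : DR R m) (Γ : Fin m → Matrix (Fin m) (Fin m) R) (k l : Fin m)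
    (W : Matrix (Fin m) (Fin m) R) :
    nab (Δ.d l) (Γ l) (nab (Δ.d k) (Γ k) W) - nab (Δ.d k) (Γ k) (nab (Δ.d l) (Γ l) W) =
      Rm Δ Γ k l * W - W * Rm Δ Γ k l := by
  have ea : ∀ (D : Derivation ℝ R R) (P Q : Matrix (Fin m) (Fin m) R),
      (P + Q).map D = P.map D + Q.map D := fun D P Q => by
    ext a b
    simp only [Matrix.map_apply, Matrix.add_apply, map_add]
  have es : ∀ (D : Derivation ℝ R R) (P Q : Matrix (Fin m) (Fin m) R),
      (P - Q).map D = P.map D - Q.map D := fun D P Q => by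
    ext a b
    simp only [Matrix.map_apply, Matrix.sub_apply, map_sub]
  have ec : (W.map (Δ.d k)).map (Δ.d l) = (W.map (Δ.d l)).map (Δ.d k) := by
    ext a b
    simp only [Matrix.map_apply]
    exact Δ.comm l k _
  simp only [nab, Rm, ea, es, map_mul_GeoB0]
  rw [ec]
  noncomm_ring

theorem Str.T4_ric (h : Str Δ g gi Γ A) (k l : Fin m) :
    T4 Δ Γ A k l - T4 Δ Γ A l k = Rm Δ Γ k l * A - A * Rm Δ Γ k l := by
  have e : ∑ p, Γ l p k • T3 Δ Γ A p = ∑ p, Γ k p l • T3 Δ Γ A p :=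
    Finset.sum_congr rfl fun p _ => by rw [h.sy]
  rw [← nab_comm, T4, T4, e]
  simp only [T3]
  abel

private theorem T5_expand_KA2 (k l p : Fin m) :
    T5 Δ Γ A k l p = nab (Δ.d p) (Γ p) (nab (Δ.d l) (Γ l) (T3 Δ Γ A k)) -
      ∑ r, (Γ l).map (Δ.d p) r k • T3 Δ Γ A r -
      ∑ r, Γ l r k • nab (Δ.d p) (Γ p) (T3 Δ Γ A r) -
      ∑ r, Γ p r k • nab (Δ.d l) (Γ l) (T3 Δ Γ A r) +
      ∑ r, (Γ l * Γ p) r k • T3 Δ Γ A r - ∑ q, Γ p q l • T4 Δ Γ A k q := by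
  have e1 : nab (Δ.d p) (Γ p) (T4 Δ Γ A k l) =
      nab (Δ.d p) (Γ p) (nab (Δ.d l) (Γ l) (T3 Δ Γ A k)) -
        (∑ r, (Γ l).map (Δ.d p) r k • T3 Δ Γ A r +
          ∑ r, Γ l r k • nab (Δ.d p) (Γ p) (T3 Δ Γ A r)) := by
    rw [T4, nab_sub, nab_sum, ← Finset.sum_add_distrib]
    simp only [nab_smul, Matrix.map_apply]
  have e2 : ∑ q, Γ p q k • T4 Δ Γ A q l =
      ∑ r, Γ p r k • nab (Δ.d l) (Γ l) (T3 Δ Γ A r) - ∑ r, (Γ l * Γ p) r k • T3 Δ Γ A r := by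
    simp only [T4, smul_sub, Finset.sum_sub_distrib, Finset.smul_sum, smul_smul,
      Matrix.mul_apply, Finset.sum_smul]
    rw [Finset.sum_comm]
    congr 1
    exact Finset.sum_congr rfl fun r _ => Finset.sum_congr rfl fun q _ => by rw [mul_comm]
  rw [T5, e1, e2]
  abel

theorem Str.T5_ricb (h : Str Δ g gi Γ A) (k l p : Fin m) :
    T5 Δ Γ A k l p - T5 Δ Γ A k p l = Rm Δ Γ l p * T3 Δ Γ A k - T3 Δ Γ A k * Rm Δ Γ l p -
      ∑ q, Rm Δ Γ l p q k • T3 Δ Γ A q := by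
  have e : ∑ q, Γ p q l • T4 Δ Γ A k q = ∑ q, Γ l q p • T4 Δ Γ A k q :=
    Finset.sum_congr rfl fun q _ => by rw [h.sy]
  have e2 : ∑ q, Rm Δ Γ l p q k • T3 Δ Γ A q =
      ∑ r, (Γ l).map (Δ.d p) r k • T3 Δ Γ A r - ∑ r, (Γ p).map (Δ.d l) r k • T3 Δ Γ A r +
        ∑ r, (Γ p * Γ l) r k • T3 Δ Γ A r - ∑ r, (Γ l * Γ p) r k • T3 Δ Γ A r := by
    simp only [Rm, Matrix.sub_apply, Matrix.add_apply, sub_smul, add_smul,
      Finset.sum_sub_distrib, Finset.sum_add_distrib]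
  rw [← nab_comm, e2, T5_expand_KA2, T5_expand_KA2, e]
  abel

end BiH
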