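import Pool.Agent.P.MP_ecb6bc_gt.KA2

/-! The derivative of the Ricci identity. -/

set_option autoImplicit false
set_option linter.unusedSectionVars false
set_option linter.unusedVariables false

noncomputable section

namespace BiH

open Matrix
open scoped ContDiff

variable {R : Type} [CommRing R] [Algebra ℝ R] {m : ℕ} {Δ : DR R m}
  {g gi : Matrix (Fin m) (Fin m) R} {Γ : Fin m → Matrix (Fin m) (Fin m) R}
  {A : Matrix (Fin m) (Fin m) R}


/-- The outer product of a row and a column. -/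
def out_KA3 (S B : Matrix (Fin m) (Fin m) R) (k l : Fin m) : Matrix (Fin m) (Fin m) R :=
  Matrix.of fun a b => S k b * B a l

theorem nab_out_KA3 (D : Derivation ℝ R R) (G S B : Matrix (Fin m) (Fin m) R) (k l : Fin m) :
    nab D G (out_KA3 S B k l) = ∑ q, G q k • out_KA3 S B q l + ∑ q, G q l • out_KA3 S B k q +
      out_KA3 (S.map D - Gᵀ * S - S * G) B k l + out_KA3 S (nab D G B) k l := by
  ext a b
  have e1 : ∑ c, G a c * (S k b * B c l) = S k b * ∑ c, G a c * B c l := by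
    rw [Finset.mul_sum]
    exact Finset.sum_congr rfl fun _ _ => by ring
  have e2 : ∑ c, S k c * B a l * G c b = (∑ c, S k c * G c b) * B a l := by
    rw [Finset.sum_mul]
    exact Finset.sum_congr rfl fun _ _ => by ring
  have e3 : ∑ c, G c k * (S c b * B a l) = (∑ c, G c k * S c b) * B a l := by
    rw [Finset.sum_mul]
    exact Finset.sum_congr rfl fun _ _ => by ring
  have e4 : ∑ c, G c l * (S k b * B a c) = S k b * ∑ c, B a c * G c l := by
    rw [Finset.mul_sum]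
    exact Finset.sum_congr rfl fun _ _ => by ring
  simp only [nab, out_KA3, Matrix.sub_apply, Matrix.add_apply, Matrix.map_apply, Matrix.mul_apply,
    Matrix.of_apply, Matrix.sum_apply, Matrix.smul_apply, smul_eq_mul, Matrix.transpose_apply,
    Derivation.leibniz, e1, e2, e3, e4]
  ring

theorem nab_one_KA3 (D : Derivation ℝ R R) (G : Matrix (Fin m) (Fin m) R) : nab D G 1 = 0 := by
  have e := nab_mul D G 1 1
  rwa [Matrix.mul_one, Matrix.mul_one, Matrix.one_mul, left_eq_add] at e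

theorem Str.nab_Rm (h : Str Δ g gi Γ A) (k l p : Fin m) :
    nab (Δ.d p) (Γ p) (Rm Δ Γ k l) - ∑ q, Γ p q k • Rm Δ Γ q l - ∑ q, Γ p q l • Rm Δ Γ k q =
      dRm Δ g Γ A k l p := by
  have e : ∀ k l, Rm Δ Γ k l = out_KA3 g 1 k l - out_KA3 g 1 l k +
      (out_KA3 (g * A) A k l - out_KA3 (g * A) A l k) := fun k l => by
    ext a b
    exact (h.gau k l b a).trans (add_sub_assoc _ _ _)
  have e1 : g.map (Δ.d p) - (Γ p)ᵀ * g - g * Γ p = 0 := by
    rw [h.dg]
    abel
  have e2 : (g * A).map (Δ.d p) - (Γ p)ᵀ * (g * A) - g * A * Γ p = g * T3 Δ Γ A p := by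
    rw [map_mul_GeoB0, h.dg, T3, nab]
    noncomm_ring
  have e3 : ∀ k l, out_KA3 0 (1 : Matrix (Fin m) (Fin m) R) k l = 0 := fun k l => by
    ext a b
    exact zero_mul _
  have e4 : ∀ k l, out_KA3 g 0 k l = 0 := fun k l => by
    ext a b
    exact mul_zero _
  have e5 : dRm Δ g Γ A k l p = out_KA3 (g * T3 Δ Γ A p) A k l +
      out_KA3 (g * A) (nab (Δ.d p) (Γ p) A) k l - out_KA3 (g * T3 Δ Γ A p) A l k -
      out_KA3 (g * A) (nab (Δ.d p) (Γ p) A) l k := rfl
  simp only [e, e5, nab_add, nab_sub, nab_out_KA3, e1, e2, nab_one_KA3, e3, e4, smul_add, smul_sub,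
    Finset.sum_add_distrib, Finset.sum_sub_distrib]
  abel

theorem Str.T5_rica (h : Str Δ g gi Γ A) (k l p : Fin m) :
    T5 Δ Γ A k l p - T5 Δ Γ A l k p = dRm Δ g Γ A k l p * A - A * dRm Δ g Γ A k l p +
      (Rm Δ Γ k l * T3 Δ Γ A p - T3 Δ Γ A p * Rm Δ Γ k l) := by
  have e : T5 Δ Γ A k l p - T5 Δ Γ A l k p =
      nab (Δ.d p) (Γ p) (T4 Δ Γ A k l - T4 Δ Γ A l k) -
        ∑ q, Γ p q k • (T4 Δ Γ A q l - T4 Δ Γ A l q) -
        ∑ q, Γ p q l • (T4 Δ Γ A k q - T4 Δ Γ A q k) := by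
    simp only [T5, nab_sub, smul_sub, Finset.sum_sub_distrib]
    abel
  rw [e, ← h.nab_Rm]
  simp only [h.T4_ric, nab_sub, nab_mul, smul_sub, Finset.sum_sub_distrib, Matrix.sub_mul,
    Matrix.mul_sub, Matrix.sum_mul, Matrix.mul_sum, Matrix.smul_mul, Matrix.mul_smul, T3]
  abel

end BiH
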