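import Pool.Agent.P.MP_ecb6bc_gt.KA1

/-! Derivatives of the two constant traces. -/

set_option autoImplicit false
set_option linter.unusedSectionVars false
set_option linter.unusedVariables false

noncomputable section

namespace BiH

open Matrix
open scoped ContDiff

variable {R : Type} [CommRing R] [Algebra ℝ R] {m : ℕ} {Δ : DR R m}
  {g gi : Matrix (Fin m) (Fin m) R} {Γ : Fin m → Matrix (Fin m) (Fin m) R}
  {A : Matrix (Fin m) (Fin m) R}


theorem nab3_KA4 (k l : Fin m) :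
    nab (Δ.d l) (Γ l) (T3 Δ Γ A k) = T4 Δ Γ A k l + ∑ p, Γ l p k • T3 Δ Γ A p :=
  (sub_add_cancel _ _).symm

theorem nab4_KA4 (k l p : Fin m) : nab (Δ.d p) (Γ p) (T4 Δ Γ A k l) =
    T5 Δ Γ A k l p + ∑ q, Γ p q l • T4 Δ Γ A k q + ∑ q, Γ p q k • T4 Δ Γ A q l := by
  rw [T5, sub_add_cancel, sub_add_cancel]

theorem tr_T3 (T : ℝ) (h1 : A.trace = algebraMap ℝ R T) (k : Fin m) :
    (T3 Δ Γ A k).trace = 0 := by
  rw [T3, trace_nab_GeoB0, h1, Derivation.map_algebraMap]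

theorem tr_T4 (T : ℝ) (h1 : A.trace = algebraMap ℝ R T) (k l : Fin m) :
    (T4 Δ Γ A k l).trace = 0 := by
  simp only [T4, trace_sub, trace_sum, trace_smul, trace_nab_GeoB0, tr_T3 T h1, map_zero,
    smul_zero, Finset.sum_const_zero, sub_zero]

theorem tr_T5 (T : ℝ) (h1 : A.trace = algebraMap ℝ R T) (k l p : Fin m) :
    (T5 Δ Γ A k l p).trace = 0 := by
  simp only [T5, trace_sub, trace_sum, trace_smul, trace_nab_GeoB0, tr_T4 T h1, map_zero,
    smul_zero, Finset.sum_const_zero, sub_zero]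

theorem tr_AT3 (h2 : (A * A).trace = (m : R)) (k : Fin m) : (A * T3 Δ Γ A k).trace = 0 := by
  have h := d_trace_mul (Δ.d k) (Γ k) A A
  rw [h2, Derivation.map_natCast, trace_mul_comm, ← two_mul] at h
  have h3 : algebraMap ℝ R (1 / 2) * 2 = 1 := by
    rw [← map_ofNat (algebraMap ℝ R) 2, ← map_mul]
    norm_num
  rw [T3, ← one_mul (trace _), ← h3, mul_assoc, ← h, mul_zero]

theorem tr_AT4 (h2 : (A * A).trace = (m : R)) (k l : Fin m) :
    (T3 Δ Γ A l * T3 Δ Γ A k).trace + (A * T4 Δ Γ A k l).trace = 0 := by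
  have h := d_trace_mul (Δ.d l) (Γ l) A (T3 Δ Γ A k)
  simp only [nab3_KA4, Matrix.mul_add, Matrix.mul_sum, Matrix.mul_smul, trace_add, trace_sum,
    trace_smul, tr_AT3 h2, map_zero, smul_zero, Finset.sum_const_zero, add_zero] at h
  exact h.symm

theorem tr_AT5 (h2 : (A * A).trace = (m : R)) (k l p : Fin m) :
    (T4 Δ Γ A l p * T3 Δ Γ A k).trace + (T3 Δ Γ A l * T4 Δ Γ A k p).trace +
      (T3 Δ Γ A p * T4 Δ Γ A k l).trace + (A * T5 Δ Γ A k l p).trace = 0 := by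
  have h := congrArg (Δ.d p) (tr_AT4 (Δ := Δ) (Γ := Γ) h2 k l)
  rw [map_add, map_zero, d_trace_mul _ (Γ p), d_trace_mul _ (Γ p)] at h
  have e1 : ∑ q, Γ p q k * ((T3 Δ Γ A l * T3 Δ Γ A q).trace + (A * T4 Δ Γ A q l).trace) = 0 :=
    Finset.sum_eq_zero fun q _ => by rw [tr_AT4 h2, mul_zero]
  have e2 : ∑ q, Γ p q l * ((T3 Δ Γ A q * T3 Δ Γ A k).trace + (A * T4 Δ Γ A k q).trace) = 0 :=
    Finset.sum_eq_zero fun q _ => by rw [tr_AT4 h2, mul_zero]
  simp only [nab3_KA4, nab4_KA4, Matrix.mul_add, Matrix.add_mul, Matrix.mul_sum, Matrix.sum_mul,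
    Matrix.mul_smul, Matrix.smul_mul, trace_add, trace_sum, trace_smul, smul_eq_mul] at h
  simp only [mul_add, Finset.sum_add_distrib] at e1 e2
  change _ + ((T3 Δ Γ A p * _).trace + _) = _ at h
  linear_combination h - e1 - e2

end BiH
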