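import Pool.Agent.P.MP_ecb6bc_gt.KA2
import Pool.Agent.P.MP_ecb6bc_gt.KA4

/-! The identity of Simons. -/

set_option autoImplicit false
set_option linter.unusedSectionVars false
set_option linter.unusedVariables false

noncomputable section

namespace BiH

open Matrix
open scoped ContDiff

variable {R : Type} [CommRing R] [Algebra ℝ R] {m : ℕ} {Δ : DR R m}
  {g gi : Matrix (Fin m) (Fin m) R} {Γ : Fin m → Matrix (Fin m) (Fin m) R}
  {A : Matrix (Fin m) (Fin m) R}


/-- The matrices of which the curvature is composed. -/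
def X_KA5 (S B : Matrix (Fin m) (Fin m) R) (j l : Fin m) : Matrix (Fin m) (Fin m) R :=
  Matrix.of fun a b => S j b * B a l - S l b * B a j

theorem left_KA5 (S B W : Matrix (Fin m) (Fin m) R) (j l : Fin m) :
    W * X_KA5 S B j l = X_KA5 S (W * B) j l := by
  ext a b
  simp only [X_KA5, Matrix.mul_apply, Matrix.of_apply, Finset.mul_sum, ← Finset.sum_sub_distrib]
  exact Finset.sum_congr rfl fun p _ => by ring

theorem right_KA5 (S B W : Matrix (Fin m) (Fin m) R) (j l : Fin m) :
    X_KA5 S B j l * W = X_KA5 (S * W) B j l := by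
  ext a b
  simp only [X_KA5, Matrix.mul_apply, Matrix.of_apply, Finset.sum_mul, ← Finset.sum_sub_distrib]
  exact Finset.sum_congr rfl fun p _ => by ring

theorem contr_KA5 (gi S B : Matrix (Fin m) (Fin m) R) (a j : Fin m) :
    ∑ k, ∑ l, gi k l * X_KA5 S B j l a k = (B * (S * gi)ᵀ - (S * gi).trace • B) a j := by
  rw [Finset.sum_comm]
  simp only [X_KA5, Matrix.mul_apply, Matrix.of_apply, Matrix.sub_apply, Matrix.smul_apply,
    Matrix.transpose_apply, Matrix.trace, Matrix.diag_apply, smul_eq_mul, Finset.sum_mul,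
    Finset.mul_sum, ← Finset.sum_sub_distrib]
  exact Finset.sum_congr rfl fun l _ => Finset.sum_congr rfl fun k _ => by ring

theorem Rm_KA5 (h : Str Δ g gi Γ A) (j l : Fin m) :
    Rm Δ Γ j l = X_KA5 g 1 j l + X_KA5 (g * A) A j l := by
  ext a b
  rw [Rm, h.gau]
  simp only [X_KA5, Matrix.add_apply, Matrix.of_apply]
  ring

theorem adj_KA5 (h : Str Δ g gi Γ A) {W : Matrix (Fin m) (Fin m) R} (hW : (g * W)ᵀ = g * W) :
    g * W * gi = Wᵀ := by
  rw [← hW, Matrix.transpose_mul, h.gs, Matrix.mul_assoc, h.gg, Matrix.mul_one]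

theorem first_KA5 (h : Str Δ g gi Γ A) (T : ℝ) (h1 : A.trace = algebraMap ℝ R T) (a j : Fin m) :
    ∑ k, ∑ l, gi k l * T4 Δ Γ A l j a k = 0 := by
  have h2 : ∀ l, ∑ k, gi k l * T4 Δ Γ A l j a k = ∑ b, gi a b * T4 Δ Γ A b j l l := fun l => by
    have e : T4 Δ Γ A l j * gi = gi * (T4 Δ Γ A l j)ᵀ := by
      rw [← adj_KA5 h (h.T4_symm l j), ← Matrix.mul_assoc, ← Matrix.mul_assoc, h.gig.1,
        Matrix.one_mul]
    have h3 := congrFun (congrFun e a) l
    simp only [Matrix.mul_apply, Matrix.transpose_apply] at h3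
    exact (Finset.sum_congr rfl fun k _ => mul_comm _ _).trans
      (h3.trans (Finset.sum_congr rfl fun b _ => by rw [h.T4_cod l j l b]))
  rw [Finset.sum_comm, Finset.sum_congr rfl fun l _ => h2 l, Finset.sum_comm]
  refine Finset.sum_eq_zero fun b _ => ?_
  rw [← Finset.mul_sum]
  exact mul_eq_zero_of_right _ (tr_T4 T h1 b j)

theorem Str.simons (h : Str Δ g gi Γ A) (T : ℝ) (h1 : A.trace = algebraMap ℝ R T)
    (h2 : (A * A).trace = (m : R)) :
    ∑ k, ∑ l, gi k l • T4 Δ Γ A k l = algebraMap ℝ R T • (A * A - 1) := by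
  have e1 : g * A * gi = Aᵀ := adj_KA5 h h.hs
  have e2 : g * A * A * gi = (A * A)ᵀ := by
    rw [Matrix.transpose_mul, ← e1]
    calc g * A * A * gi = g * A * (gi * g) * A * gi := by rw [h.gig.1, Matrix.mul_one]
      _ = _ := by simp only [Matrix.mul_assoc]
  ext a j
  have h3 : ∀ k l, (gi k l • T4 Δ Γ A k l) a j = gi k l * T4 Δ Γ A l j a k +
      (gi k l * X_KA5 (g * A) 1 j l a k + gi k l * X_KA5 (g * A * A) A j l a k -
        (gi k l * X_KA5 g A j l a k + gi k l * X_KA5 (g * A) (A * A) j l a k)) := fun k l => by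
    have h4 := congrFun (congrFun (h.T4_ric j l) a) k
    rw [Rm_KA5 h, Matrix.add_mul, Matrix.mul_add, left_KA5, left_KA5, right_KA5, right_KA5,
      Matrix.mul_one] at h4
    simp only [Matrix.sub_apply, Matrix.add_apply] at h4
    rw [Matrix.smul_apply, smul_eq_mul, h.T4_cod k l a j]
    linear_combination gi k l * h4
  simp only [Matrix.sum_apply, h3, Finset.sum_add_distrib, Finset.sum_sub_distrib, contr_KA5,
    first_KA5 h T h1, e1, e2, h.gg, Matrix.transpose_transpose, Matrix.trace_transpose, h1, h2,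
    Matrix.trace_one, Fintype.card_fin, Matrix.transpose_one, Matrix.mul_one, Matrix.one_mul,
    ← Matrix.mul_assoc, Matrix.sub_apply, Matrix.smul_apply, smul_eq_mul]
  ring

theorem Str.phi0 (h : Str Δ g gi Γ A) (T : ℝ) (h1 : A.trace = algebraMap ℝ R T)
    (h2 : (A * A).trace = (m : R)) :
    ∑ k, ∑ l, gi k l * (T3 Δ Γ A k * T3 Δ Γ A l).trace =
      algebraMap ℝ R T * (algebraMap ℝ R T - (A * A * A).trace) := by
  have h3 := congrArg (fun W => (A * W).trace) (h.simons T h1 h2)
  simp only [Finset.mul_sum, Matrix.mul_smul, Matrix.trace_sum, Matrix.trace_smul, smul_eq_mul,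
    Matrix.mul_sub, Matrix.mul_one, Matrix.trace_sub, h1, ← Matrix.mul_assoc] at h3
  have h4 : ∀ k l, gi k l * (T3 Δ Γ A k * T3 Δ Γ A l).trace =
      -(gi k l * (A * T4 Δ Γ A k l).trace) := fun k l => by
    rw [Matrix.trace_mul_comm, eq_neg_of_add_eq_zero_left (tr_AT4 h2 k l), mul_neg]
  simp only [h4, Finset.sum_neg_distrib, h3]
  ring

end BiH
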