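import Pool.Agent.P.MP_ecb6bc_gt.KA5

/-! Two derivatives of the identity of Simons. -/

set_option autoImplicit false
set_option linter.unusedSectionVars false
set_option linter.unusedVariables false

noncomputable section

namespace BiH

open Matrix
open scoped ContDiff

variable {R : Type} [CommRing R] [Algebra ℝ R] {m : ℕ} {Δ : DR R m}
  {g gi : Matrix (Fin m) (Fin m) R} {Γ : Fin m → Matrix (Fin m) (Fin m) R}
  {A : Matrix (Fin m) (Fin m) R}

/-- The derivative of the inverse metric. -/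
theorem Str.dgi_KA6 (h : Str Δ g gi Γ A) (p : Fin m) :
    gi.map (Δ.d p) = -(Γ p * gi) - gi * (Γ p)ᵀ := by
  have h0 : (g * gi).map (Δ.d p) = 0 := by
    rw [h.gg]
    ext a b
    by_cases e : a = b
    · subst e
      simp
    · simp [Matrix.one_apply_ne e]
  rw [map_mul_GeoB0, h.dg] at h0
  have h1 : gi * (((Γ p)ᵀ * g + g * Γ p) * gi + g * gi.map (Δ.d p)) =
      gi * (Γ p)ᵀ * (g * gi) + (gi * g) * (Γ p * gi) + (gi * g) * gi.map (Δ.d p) := by
    noncomm_ring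
  rw [h0, h.gg, h.gig.1, Matrix.mul_zero, Matrix.mul_one, Matrix.one_mul, Matrix.one_mul] at h1
  rw [← sub_eq_zero, h1]
  abel

theorem nab_T3_KA6 (k p : Fin m) :
    nab (Δ.d p) (Γ p) (T3 Δ Γ A k) = T4 Δ Γ A k p + ∑ q, Γ p q k • T3 Δ Γ A q := by
  rw [T4, sub_add_cancel]

theorem nab_T4_KA6 (k l p : Fin m) :
    nab (Δ.d p) (Γ p) (T4 Δ Γ A k l) =
      T5 Δ Γ A k l p + ∑ q, Γ p q k • T4 Δ Γ A q l + ∑ q, Γ p q l • T4 Δ Γ A k q := by
  rw [T5]
  abel

theorem tr_left_KA6 (c : Fin m → R) (Y : Fin m → Matrix (Fin m) (Fin m) R)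
    (Z : Matrix (Fin m) (Fin m) R) :
    ((∑ q, c q • Y q) * Z).trace = ∑ q, c q * (Y q * Z).trace := by
  rw [Finset.sum_mul, Matrix.trace_sum]
  exact Finset.sum_congr rfl fun q _ => by rw [Matrix.smul_mul, Matrix.trace_smul, smul_eq_mul]

theorem tr_right_KA6 (c : Fin m → R) (Y : Fin m → Matrix (Fin m) (Fin m) R)
    (Z : Matrix (Fin m) (Fin m) R) :
    (Z * ∑ q, c q • Y q).trace = ∑ q, c q * (Z * Y q).trace := by
  rw [Finset.mul_sum, Matrix.trace_sum]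
  exact Finset.sum_congr rfl fun q _ => by rw [Matrix.mul_smul, Matrix.trace_smul, smul_eq_mul]

theorem d_cube_KA6 (p : Fin m) :
    Δ.d p (A * A * A).trace = 3 * (A * A * T3 Δ Γ A p).trace := by
  rw [d_trace_mul (Δ.d p) (Γ p), nab_mul, Matrix.add_mul, Matrix.trace_add]
  have e1 : (nab (Δ.d p) (Γ p) A * A * A).trace = (A * A * nab (Δ.d p) (Γ p) A).trace := by
    rw [Matrix.mul_assoc, Matrix.trace_mul_comm]
  have e2 : (A * nab (Δ.d p) (Γ p) A * A).trace = (A * A * nab (Δ.d p) (Γ p) A).trace := by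
    rw [Matrix.trace_mul_comm, ← Matrix.mul_assoc]
  rw [e1, e2, T3]
  ring

/-- Contraction with the inverse metric commutes with differentiation. -/
theorem Str.d_contr (h : Str Δ g gi Γ A) (s : Fin m → Fin m → R) (p : Fin m) :
    Δ.d p (∑ k, ∑ l, gi k l * s k l) = ∑ k, ∑ l, gi k l *
      (Δ.d p (s k l) - ∑ q, Γ p q k * s q l - ∑ q, Γ p q l * s k q) := by
  have hg : ∀ k l, Δ.d p (gi k l) = -(∑ q, Γ p k q * gi q l) - ∑ q, gi k q * Γ p l q := by
    intro k l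
    have := congrFun (congrFun (h.dgi_KA6 p) k) l
    simpa only [Matrix.map_apply, Matrix.sub_apply, Matrix.neg_apply, Matrix.mul_apply,
      Matrix.transpose_apply] using this
  have e1 : ∑ k, ∑ l, (∑ q, Γ p k q * gi q l) * s k l =
      ∑ k, ∑ l, gi k l * ∑ q, Γ p q k * s q l := by
    simp only [Finset.sum_mul, Finset.mul_sum]
    calc ∑ k, ∑ l, ∑ q, Γ p k q * gi q l * s k l = ∑ l, ∑ k, ∑ q, Γ p k q * gi q l * s k l :=
          Finset.sum_comm
      _ = ∑ l, ∑ q, ∑ k, Γ p k q * gi q l * s k l :=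
          Finset.sum_congr rfl fun l _ => Finset.sum_comm
      _ = ∑ q, ∑ l, ∑ k, Γ p k q * gi q l * s k l := Finset.sum_comm
      _ = _ := Finset.sum_congr rfl fun q _ => Finset.sum_congr rfl fun l _ =>
          Finset.sum_congr rfl fun k _ => by ring
  have e2 : ∑ k, ∑ l, (∑ q, gi k q * Γ p l q) * s k l =
      ∑ k, ∑ l, gi k l * ∑ q, Γ p q l * s k q := by
    simp only [Finset.sum_mul, Finset.mul_sum]
    refine Finset.sum_congr rfl fun k _ => ?_
    rw [Finset.sum_comm]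
    exact Finset.sum_congr rfl fun q _ => Finset.sum_congr rfl fun l _ => by ring
  simp only [map_sum, Derivation.leibniz, smul_eq_mul, hg, mul_sub, Finset.sum_sub_distrib]
  rw [← e1, ← e2]
  simp only [← Finset.sum_sub_distrib]
  exact Finset.sum_congr rfl fun k _ => Finset.sum_congr rfl fun l _ => by ring

theorem Str.phi1 (h : Str Δ g gi Γ A) (T : ℝ) (h1 : A.trace = algebraMap ℝ R T)
    (h2 : (A * A).trace = (m : R)) (p : Fin m) :
    ∑ k, ∑ l, gi k l * ((T4 Δ Γ A k p * T3 Δ Γ A l).trace + (T3 Δ Γ A k * T4 Δ Γ A l p).trace) +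
      3 * algebraMap ℝ R T * (A * A * T3 Δ Γ A p).trace = 0 := by
  have e := congrArg (Δ.d p) (h.phi0 T h1 h2)
  rw [h.d_contr (fun k l => (T3 Δ Γ A k * T3 Δ Γ A l).trace) p, Derivation.leibniz, map_sub,
    Derivation.map_algebraMap, d_cube_KA6 (Γ := Γ), smul_zero, add_zero, smul_eq_mul] at e
  have e2 : ∀ k l, Δ.d p (T3 Δ Γ A k * T3 Δ Γ A l).trace -
      ∑ q, Γ p q k * (T3 Δ Γ A q * T3 Δ Γ A l).trace -
      ∑ q, Γ p q l * (T3 Δ Γ A k * T3 Δ Γ A q).trace =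
      (T4 Δ Γ A k p * T3 Δ Γ A l).trace + (T3 Δ Γ A k * T4 Δ Γ A l p).trace := by
    intro k l
    rw [d_trace_mul (Δ.d p) (Γ p), nab_T3_KA6, nab_T3_KA6, Matrix.add_mul, Matrix.mul_add,
      Matrix.trace_add, Matrix.trace_add, tr_left_KA6, tr_right_KA6]
    ring
  simp only [e2] at e
  rw [e]
  ring

theorem Str.phi2 (h : Str Δ g gi Γ A) (T : ℝ) (h1 : A.trace = algebraMap ℝ R T)
    (h2 : (A * A).trace = (m : R)) (p q : Fin m) :
    ∑ k, ∑ l, gi k l * ((T5 Δ Γ A k p q * T3 Δ Γ A l).trace +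
        (T4 Δ Γ A k p * T4 Δ Γ A l q).trace + (T4 Δ Γ A k q * T4 Δ Γ A l p).trace +
        (T3 Δ Γ A k * T5 Δ Γ A l p q).trace) +
      3 * algebraMap ℝ R T * (((T3 Δ Γ A q * A + A * T3 Δ Γ A q) * T3 Δ Γ A p).trace +
        (A * A * T4 Δ Γ A p q).trace) = 0 := by
  have e := congrArg (Δ.d q) (h.phi1 T h1 h2 p)
  have h3 : Δ.d q (3 * algebraMap ℝ R T) = 0 := by
    rw [show (3 : R) * algebraMap ℝ R T = algebraMap ℝ R (3 * T) by
      rw [map_mul, map_ofNat], Derivation.map_algebraMap]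
  rw [map_add, map_zero, h.d_contr (fun k l => (T4 Δ Γ A k p * T3 Δ Γ A l).trace +
    (T3 Δ Γ A k * T4 Δ Γ A l p).trace) q, Derivation.leibniz, h3, smul_zero, add_zero,
    smul_eq_mul] at e
  have e2 : ∀ k l, Δ.d q ((T4 Δ Γ A k p * T3 Δ Γ A l).trace +
        (T3 Δ Γ A k * T4 Δ Γ A l p).trace) -
      ∑ r, Γ q r k * ((T4 Δ Γ A r p * T3 Δ Γ A l).trace + (T3 Δ Γ A r * T4 Δ Γ A l p).trace) -
      ∑ r, Γ q r l * ((T4 Δ Γ A k p * T3 Δ Γ A r).trace + (T3 Δ Γ A k * T4 Δ Γ A r p).trace) =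
      ((T5 Δ Γ A k p q * T3 Δ Γ A l).trace +
        (T4 Δ Γ A k p * T4 Δ Γ A l q).trace + (T4 Δ Γ A k q * T4 Δ Γ A l p).trace +
        (T3 Δ Γ A k * T5 Δ Γ A l p q).trace) +
      ∑ r, Γ q r p * ((T4 Δ Γ A k r * T3 Δ Γ A l).trace + (T3 Δ Γ A k * T4 Δ Γ A l r).trace) := by
    intro k l
    rw [map_add, d_trace_mul (Δ.d q) (Γ q), d_trace_mul (Δ.d q) (Γ q), nab_T3_KA6, nab_T3_KA6,
      nab_T4_KA6, nab_T4_KA6]
    simp only [Matrix.add_mul, Matrix.mul_add, Matrix.trace_add, tr_left_KA6, tr_right_KA6,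
      mul_add, Finset.sum_add_distrib]
    ring
  have e3 : Δ.d q (A * A * T3 Δ Γ A p).trace =
      (((T3 Δ Γ A q * A + A * T3 Δ Γ A q) * T3 Δ Γ A p).trace +
        (A * A * T4 Δ Γ A p q).trace) + ∑ r, Γ q r p * (A * A * T3 Δ Γ A r).trace := by
    rw [d_trace_mul (Δ.d q) (Γ q), nab_mul, nab_T3_KA6, Matrix.mul_add, Matrix.trace_add,
      tr_right_KA6, add_assoc]
    rfl
  have e4 : ∑ r, Γ q r p * (∑ k, ∑ l, gi k l * ((T4 Δ Γ A k r * T3 Δ Γ A l).trace +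
      (T3 Δ Γ A k * T4 Δ Γ A l r).trace) +
      3 * algebraMap ℝ R T * (A * A * T3 Δ Γ A r).trace) = 0 :=
    Finset.sum_eq_zero fun r _ => by rw [h.phi1 T h1 h2 r, mul_zero]
  have e5 : ∑ k, ∑ l, gi k l * ∑ r, Γ q r p * ((T4 Δ Γ A k r * T3 Δ Γ A l).trace +
      (T3 Δ Γ A k * T4 Δ Γ A l r).trace) =
      ∑ r, Γ q r p * ∑ k, ∑ l, gi k l * ((T4 Δ Γ A k r * T3 Δ Γ A l).trace +
      (T3 Δ Γ A k * T4 Δ Γ A l r).trace) := by
    simp only [Finset.mul_sum]
    rw [Finset.sum_congr rfl fun k _ => Finset.sum_comm, Finset.sum_comm]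
    exact Finset.sum_congr rfl fun r _ => Finset.sum_congr rfl fun k _ =>
      Finset.sum_congr rfl fun l _ => by ring
  have e6 : ∑ r, Γ q r p * (3 * algebraMap ℝ R T * (A * A * T3 Δ Γ A r).trace) =
      3 * algebraMap ℝ R T * ∑ r, Γ q r p * (A * A * T3 Δ Γ A r).trace := by
    rw [Finset.mul_sum]
    exact Finset.sum_congr rfl fun r _ => by ring
  simp only [e2] at e
  rw [e3, Finset.sum_congr rfl fun k _ => Finset.sum_congr rfl fun l _ => mul_add (gi k l) _ _]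
    at e
  simp only [Finset.sum_add_distrib] at e
  rw [e5] at e
  rw [Finset.sum_congr rfl fun r _ => mul_add (Γ q r p) _ _, Finset.sum_add_distrib, e6] at e4
  linear_combination e - e4

end BiH
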