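import Pool.Agent.P.MP_ecb6bc_gt.KA3

/-! Values at the base point of the Ricci identities. -/

set_option autoImplicit false
set_option linter.unusedSectionVars false
set_option linter.unusedVariables false

noncomputable section

namespace BiH

open Matrix
open scoped ContDiff

variable {R : Type} [CommRing R] [Algebra ℝ R] {m : ℕ} {Δ : DR R m}
  {g gi : Matrix (Fin m) (Fin m) R} {Γ : Fin m → Matrix (Fin m) (Fin m) R}
  {A : Matrix (Fin m) (Fin m) R}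
  {lam : Fin m → ℝ}


theorem sum1_KA7 (a : Fin m) (f : Fin m → ℝ) : ∑ q, dl a q * f q = f a := by
  simp [dl]

theorem sum2_KA7 (a : Fin m) (f : Fin m → ℝ) : ∑ q, dl q a * f q = f a := by
  simp [dl]

theorem swap_KA7 (lam : Fin m → ℝ) (a b : Fin m) : lam a * dl a b = lam b * dl a b := by
  unfold dl
  split_ifs with e
  · rw [e]
  · rw [mul_zero, mul_zero]

theorem mul_KA7 (W Z : Matrix (Fin m) (Fin m) R) (a b : Fin m) :
    Δ.ev ((W * Z) a b) = ∑ q, Δ.ev (W a q) * Δ.ev (Z q b) := by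
  simp only [Matrix.mul_apply, map_sum, map_mul]

theorem one_KA7 (a b : Fin m) : Δ.ev ((1 : Matrix (Fin m) (Fin m) R) a b) = dl a b := by
  rw [Matrix.one_apply, dl]
  split_ifs
  · exact map_one _
  · exact map_zero _

theorem g_KA7 (hg : g.map Δ.ev = 1) (W : Matrix (Fin m) (Fin m) R) (a b : Fin m) :
    Δ.ev (g a b) = dl a b ∧ Δ.ev ((g * W) a b) = Δ.ev (W a b) := by
  have e : ∀ a b, Δ.ev (g a b) = dl a b := fun a b => by
    have := congrFun (congrFun hg a) b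
    rwa [Matrix.map_apply, Matrix.one_apply] at this
  refine ⟨e a b, ?_⟩
  simp only [mul_KA7, e, sum1_KA7]

theorem A_KA7 (hA : A.map Δ.ev = diagonal lam) (a b : Fin m) :
    Δ.ev (A a b) = lam a * dl a b := by
  have := congrFun (congrFun hA a) b
  rw [Matrix.map_apply, Matrix.diagonal_apply] at this
  rw [this, dl, mul_ite, mul_one, mul_zero]

theorem comm_KA7 (hA : A.map Δ.ev = diagonal lam) (W : Matrix (Fin m) (Fin m) R) (a b : Fin m) :
    Δ.ev ((W * A - A * W) a b) = (lam b - lam a) * Δ.ev (W a b) := by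
  rw [Matrix.sub_apply, map_sub, mul_KA7, mul_KA7, sub_mul,
    ← sum2_KA7 b fun q => lam q * Δ.ev (W a q), ← sum1_KA7 a fun q => lam a * Δ.ev (W q b)]
  simp only [A_KA7 hA]
  congr 1 <;> exact Finset.sum_congr rfl fun q _ => by ring

theorem Str.ev_Rm (h : Str Δ g gi Γ A) (hg : g.map Δ.ev = 1) (hA : A.map Δ.ev = diagonal lam)
    (k l a b : Fin m) :
    Δ.ev (Rm Δ Γ k l a b) = (1 + lam k * lam l) * (dl k b * dl a l - dl l b * dl a k) := by
  rw [Rm, h.gau]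
  simp only [map_sub, map_add, map_mul, (g_KA7 hg A _ _).1, (g_KA7 hg A _ _).2, one_KA7,
    A_KA7 hA]
  linear_combination lam k * dl k b * swap_KA7 lam a l - lam l * dl l b * swap_KA7 lam a k

theorem RmW_KA7 (h : Str Δ g gi Γ A) (hg : g.map Δ.ev = 1) (hA : A.map Δ.ev = diagonal lam)
    (W : Matrix (Fin m) (Fin m) R) (k l i j : Fin m) :
    Δ.ev ((Rm Δ Γ k l * W - W * Rm Δ Γ k l) i j) =
      (1 + lam k * lam l) * (dl i l * Δ.ev (W k j) - dl i k * Δ.ev (W l j) -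
        dl k j * Δ.ev (W i l) + dl l j * Δ.ev (W i k)) := by
  rw [Matrix.sub_apply, map_sub, mul_KA7, mul_KA7, ← sum1_KA7 k fun q => Δ.ev (W q j),
    ← sum1_KA7 l fun q => Δ.ev (W q j), ← sum2_KA7 l fun q => Δ.ev (W i q),
    ← sum2_KA7 k fun q => Δ.ev (W i q)]
  simp only [h.ev_Rm hg hA, Finset.mul_sum, ← Finset.sum_sub_distrib, ← Finset.sum_add_distrib]
  exact Finset.sum_congr rfl fun q _ => by ring

theorem Str.ev_ric4 (h : Str Δ g gi Γ A) (hg : g.map Δ.ev = 1) (hA : A.map Δ.ev = diagonal lam)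
    (i j k l : Fin m) : Δ.ev (T4 Δ Γ A k l i j) - Δ.ev (T4 Δ Γ A l k i j) =
      (1 + lam k * lam l) * (lam j - lam i) * (dl k j * dl i l - dl l j * dl i k) := by
  rw [← map_sub, ← Matrix.sub_apply, h.T4_ric, comm_KA7 hA, h.ev_Rm hg hA]
  ring

theorem Str.ev_ric5a (h : Str Δ g gi Γ A) (hg : g.map Δ.ev = 1) (hA : A.map Δ.ev = diagonal lam)
    (i j k l p : Fin m) : Δ.ev (T5 Δ Γ A k l p i j) - Δ.ev (T5 Δ Γ A l k p i j) =
    (lam j - lam i) * (Δ.ev (T3 Δ Γ A p k j) * lam i * dl i l +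
      lam k * dl k j * Δ.ev (T3 Δ Γ A p i l) - Δ.ev (T3 Δ Γ A p l j) * lam i * dl i k -
      lam l * dl l j * Δ.ev (T3 Δ Γ A p i k)) +
    (1 + lam k * lam l) * (dl i l * Δ.ev (T3 Δ Γ A p k j) - dl i k * Δ.ev (T3 Δ Γ A p l j) -
      dl k j * Δ.ev (T3 Δ Γ A p i l) + dl l j * Δ.ev (T3 Δ Γ A p i k)) := by
  rw [← map_sub, ← Matrix.sub_apply, h.T5_rica, Matrix.add_apply, map_add, comm_KA7 hA,
    RmW_KA7 h hg hA]
  simp only [dRm, Matrix.of_apply, map_sub, map_add, map_mul, (g_KA7 hg _ _ _).2, A_KA7 hA]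
  ring

theorem Str.ev_ric5b (h : Str Δ g gi Γ A) (hg : g.map Δ.ev = 1) (hA : A.map Δ.ev = diagonal lam)
    (i j k l p : Fin m) : Δ.ev (T5 Δ Γ A k l p i j) - Δ.ev (T5 Δ Γ A k p l i j) =
    (1 + lam l * lam p) * (dl i p * Δ.ev (T3 Δ Γ A k l j) - dl i l * Δ.ev (T3 Δ Γ A k p j) -
      dl l j * Δ.ev (T3 Δ Γ A k i p) + dl p j * Δ.ev (T3 Δ Γ A k i l) -
      dl l k * Δ.ev (T3 Δ Γ A p i j) + dl p k * Δ.ev (T3 Δ Γ A l i j)) := by
  have e : Δ.ev ((∑ q, Rm Δ Γ l p q k • T3 Δ Γ A q) i j) = (1 + lam l * lam p) *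
      (dl l k * Δ.ev (T3 Δ Γ A p i j) - dl p k * Δ.ev (T3 Δ Γ A l i j)) := by
    rw [← sum2_KA7 p fun q => Δ.ev (T3 Δ Γ A q i j), ← sum2_KA7 l fun q => Δ.ev (T3 Δ Γ A q i j)]
    simp only [Matrix.sum_apply, Matrix.smul_apply, smul_eq_mul, map_sum, map_mul, h.ev_Rm hg hA,
      Finset.mul_sum, ← Finset.sum_sub_distrib]
    exact Finset.sum_congr rfl fun q _ => by ring
  rw [← map_sub, ← Matrix.sub_apply, h.T5_ricb, Matrix.sub_apply, map_sub, RmW_KA7 h hg hA, e]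
  ring

end BiH
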