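import Pool.Agent.P.MP_ecb6bc_gt.KA6
import Pool.Agent.P.MP_ecb6bc_gt.KA7

/-! The jet at the base point. -/

set_option autoImplicit false
set_option linter.unusedSectionVars false
set_option linter.unusedVariables false

noncomputable section

namespace BiH

open Matrix
open scoped ContDiff

variable {R : Type} [CommRing R] [Algebra ℝ R] {m : ℕ} {Δ : DR R m}
  {g gi : Matrix (Fin m) (Fin m) R} {Γ : Fin m → Matrix (Fin m) (Fin m) R}
  {A : Matrix (Fin m) (Fin m) R}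
  {lam : Fin m → ℝ}


theorem ev_symm_KA8 (hg : g.map Δ.ev = 1) {W : Matrix (Fin m) (Fin m) R} (hW : (g * W)ᵀ = g * W)
    (i j : Fin m) : Δ.ev (W i j) = Δ.ev (W j i) := by
  have e : (g * W).map Δ.ev = W.map Δ.ev := by rw [Matrix.map_mul, hg, Matrix.one_mul]
  exact (congrFun₂ e i j).symm.trans ((congrArg Δ.ev (congrFun₂ hW j i)).trans (congrFun₂ e j i))

theorem ev_tr_KA8 (X : Matrix (Fin m) (Fin m) R) : Δ.ev X.trace = ∑ i, Δ.ev (X i i) :=
  map_sum _ _ _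

theorem ev_tr2_KA8 (X : Matrix (Fin m) (Fin m) R) {Y : Matrix (Fin m) (Fin m) R}
    (hY : ∀ i j, Δ.ev (Y i j) = Δ.ev (Y j i)) :
    Δ.ev (X * Y).trace = ∑ i, ∑ j, Δ.ev (X i j) * Δ.ev (Y i j) := by
  simp only [ev_tr_KA8, Matrix.mul_apply, map_sum, map_mul]
  exact Finset.sum_congr rfl fun i _ => Finset.sum_congr rfl fun j _ => by rw [hY]

theorem ev_l_KA8 (hA : A.map Δ.ev = diagonal lam) (X : Matrix (Fin m) (Fin m) R) (i j : Fin m) :
    Δ.ev ((A * X) i j) = lam i * Δ.ev (X i j) := by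
  have e : (A * X).map Δ.ev = diagonal lam * X.map Δ.ev := by rw [Matrix.map_mul, hA]
  exact (congrFun₂ e i j).trans (diagonal_mul _ _ _ _)

theorem ev_r_KA8 (hA : A.map Δ.ev = diagonal lam) (X : Matrix (Fin m) (Fin m) R) (i j : Fin m) :
    Δ.ev ((X * A) i j) = Δ.ev (X i j) * lam j := by
  have e : (X * A).map Δ.ev = X.map Δ.ev * diagonal lam := by rw [Matrix.map_mul, hA]
  exact (congrFun₂ e i j).trans (mul_diagonal _ _ _ _)

theorem ev_contr_KA8 (h : Str Δ g gi Γ A) (hg : g.map Δ.ev = 1) (s : Fin m → Fin m → R) :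
    Δ.ev (∑ k, ∑ l, gi k l * s k l) = ∑ k, Δ.ev (s k k) := by
  have e : gi.map Δ.ev = 1 := by
    have := congrArg (fun M : Matrix (Fin m) (Fin m) R => M.map Δ.ev) h.gg
    simpa [Matrix.map_mul, hg] using this
  have e' : ∀ k l, Δ.ev (gi k l) = if k = l then 1 else 0 := fun k l =>
    (congrFun₂ e k l).trans Matrix.one_apply
  simp [map_sum, map_mul, e']

theorem rot_KA8 (F : Fin m → Fin m → Fin m → ℝ) :
    ∑ i, ∑ j, ∑ k, F i j k = ∑ k, ∑ i, ∑ j, F i j k :=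
  (Finset.sum_congr rfl fun _ _ => Finset.sum_comm).trans Finset.sum_comm

theorem Str.jet (h : Str Δ g gi Γ A) (T : ℝ) (h1 : A.trace = algebraMap ℝ R T)
    (h2 : (A * A).trace = (m : R)) (hg : g.map Δ.ev = 1) (hA : A.map Δ.ev = diagonal lam) :
    Jet lam T (fun i j k => Δ.ev (T3 Δ Γ A k i j)) (fun i j k l => Δ.ev (T4 Δ Γ A k l i j))
      (fun i j k l p => Δ.ev (T5 Δ Γ A k l p i j)) := by
  have s3 := fun k => ev_symm_KA8 hg (h.T3_symm k)
  have s4 := fun k l => ev_symm_KA8 hg (h.T4_symm k l)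
  have s5 := fun k l p => ev_symm_KA8 hg (h.T5_symm k l p)
  have ha : ∀ i, Δ.ev (A i i) = lam i := fun i => (congrFun₂ hA i i).trans (diagonal_apply_eq _ _)
  refine ⟨?_, ?_, fun i j k => s3 k i j, fun i j k => congrArg _ (h.T3_cod k i j),
    fun i j k l => s4 k l i j, fun i j k l => congrArg _ (h.T4_cod k l i j),
    fun i j k l p => s5 k l p i j, fun i j k l p => congrArg _ (h.T5_cod k l p i j),
    h.ev_ric4 hg hA, h.ev_ric5a hg hA, fun i j k l p => ?_, fun k => ?_, fun k => ?_,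
    fun k l => ?_, fun k l => ?_, fun k l p => ?_, fun k l p => ?_, ?_, fun p => ?_⟩
  · simpa [ev_tr_KA8, ha] using congrArg Δ.ev h1
  · simpa [ev_tr_KA8, ev_l_KA8 hA, ha, pow_two] using congrArg Δ.ev h2
  · exact h.ev_ric5b hg hA i j k l p
  · simpa [ev_tr_KA8] using congrArg Δ.ev (tr_T3 (Δ := Δ) (Γ := Γ) T h1 k)
  · simpa [ev_tr_KA8, ev_l_KA8 hA] using congrArg Δ.ev (tr_AT3 (Δ := Δ) (Γ := Γ) h2 k)
  · simpa [ev_tr_KA8] using congrArg Δ.ev (tr_T4 (Δ := Δ) (Γ := Γ) T h1 k l)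
  · have e := congrArg Δ.ev (tr_AT4 (Δ := Δ) (Γ := Γ) h2 k l)
    rw [map_add, trace_mul_comm, ev_tr2_KA8 _ (s3 l), ev_tr_KA8, map_zero] at e
    simpa only [ev_l_KA8 hA] using e
  · simpa [ev_tr_KA8] using congrArg Δ.ev (tr_T5 (Δ := Δ) (Γ := Γ) T h1 k l p)
  · have e := congrArg Δ.ev (tr_AT5 (Δ := Δ) (Γ := Γ) h2 k l p)
    rw [map_add, map_add, map_add, ev_tr2_KA8 _ (s3 k), ev_tr2_KA8 _ (s4 k p),
      ev_tr2_KA8 _ (s4 k l), ev_tr_KA8, map_zero] at e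
    simpa only [ev_l_KA8 hA, Finset.sum_add_distrib] using e
  · have e := congrArg Δ.ev (h.phi0 T h1 h2)
    rw [ev_contr_KA8 h hg, map_mul, map_sub, ev_tr_KA8, AlgHom.commutes] at e
    rw [rot_KA8]
    simpa only [ev_tr2_KA8 _ (s3 _), ev_r_KA8 hA, ha, pow_succ, pow_zero, one_mul,
      Algebra.algebraMap_self, RingHom.id_apply] using e
  · have e := congrArg Δ.ev (h.phi2 T h1 h2 p p)
    rw [map_add, ev_contr_KA8 h hg, map_mul, map_mul, map_add, ev_tr2_KA8 _ (s3 p), ev_tr_KA8,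
      AlgHom.commutes, map_zero, map_ofNat] at e
    have e1 : ∑ i, ∑ j, Δ.ev (T3 Δ Γ A p i j) * lam j * Δ.ev (T3 Δ Γ A p i j) =
        ∑ i, ∑ j, lam i * Δ.ev (T3 Δ Γ A p i j) * Δ.ev (T3 Δ Γ A p i j) :=
      Finset.sum_comm.trans (Finset.sum_congr rfl fun i _ => Finset.sum_congr rfl fun j _ => by
        rw [s3 p j i, mul_comm (lam i)])
    simp only [map_add, trace_mul_comm (T3 Δ Γ A _) (T5 Δ Γ A _ _ _), ev_tr2_KA8 _ (s3 _),
      ev_tr2_KA8 _ (s4 _ _), Matrix.add_apply, ev_r_KA8 hA, Matrix.mul_assoc A A, ev_l_KA8 hA,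
      add_mul, Finset.sum_add_distrib, e1, Algebra.algebraMap_self, RingHom.id_apply] at e
    rw [rot_KA8]
    simp only [Finset.sum_add_distrib, pow_two, ← mul_assoc] at e ⊢
    linarith

end BiH
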