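import Pool.Agent.P.MP_ecb6bc_gt.KDefs

/-! First commutation term. -/

set_option autoImplicit false
set_option linter.unusedSectionVars false
set_option linter.unusedVariables false

noncomputable section

namespace BiH

open Matrix
open scoped ContDiff

variable {m : ℕ} {lam : Fin m → ℝ} {T : ℝ} {h : Fin m → Fin m → Fin m → ℝ}
  {H : Fin m → Fin m → Fin m → Fin m → ℝ} {V : Fin m → Fin m → Fin m → Fin m → Fin m → ℝ}

lemma s12_KB1 (J : Jet lam T h H V) (F : Fin m → Fin m → Fin m → ℝ) :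
    ∑ i, ∑ j, ∑ k, h i j k ^ 2 * F i j k = ∑ i, ∑ j, ∑ k, h i j k ^ 2 * F j i k := by
  rw [Finset.sum_comm]
  exact Finset.sum_congr rfl fun i _ => Finset.sum_congr rfl fun j _ =>
    Finset.sum_congr rfl fun k _ => by rw [J.h12]

lemma s23_KB1 (J : Jet lam T h H V) (F : Fin m → Fin m → Fin m → ℝ) :
    ∑ i, ∑ j, ∑ k, h i j k ^ 2 * F i j k = ∑ i, ∑ j, ∑ k, h i j k ^ 2 * F i k j := by
  refine Finset.sum_congr rfl fun i _ => ?_
  rw [Finset.sum_comm]
  exact Finset.sum_congr rfl fun j _ => Finset.sum_congr rfl fun k _ => by rw [J.h23]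

lemma zero_KB1 {u v : Fin m → ℝ} (hu : ∑ k, u k = 0) (hv : ∑ j, v j = 0) (a b : Fin m → ℝ) :
    ∑ j, ∑ k, (u k * a j + v j * b k) = 0 := by
  simp only [Finset.sum_add_distrib, ← Finset.sum_mul, ← Finset.mul_sum, hu, hv, zero_mul,
    Finset.sum_const_zero, add_zero]

lemma split_KB1 (X Y Z W : Fin m → Fin m → Fin m → Fin m → ℝ) :
    ∑ i, ∑ j, ∑ p, ∑ k, (dl i k * X i j p k + dl k j * Y i j p k + dl p j * Z i j p k +
      dl i p * W i j p k) =
    ∑ i, ∑ j, ∑ p, X i j p i + ∑ i, ∑ j, ∑ p, Y i j p j + ∑ i, ∑ j, ∑ k, Z i j j k +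
      ∑ j, ∑ i, ∑ k, W i j i k := by
  rw [Finset.sum_comm (f := fun j i => ∑ k, W i j i k)]
  simp only [Finset.sum_add_distrib, ← Finset.mul_sum]
  simp [dl]

theorem Jet.comm1 (J : Jet lam T h H V) (c : Fin m → ℝ) (hc : ∀ j, ∑ k, c k * h k k j = 0) :
    ∑ i, ∑ j, ∑ p, ∑ k, c k * h i j p * (V i j p k k - V i j k p k) =
      ∑ i, ∑ j, ∑ k, h i j k ^ 2 *
        (2 * c i + 4 * c i * lam i * lam j - 2 * c i * lam i ^ 2) := by
  have h13 : ∀ i j k, h i j k = h k j i := fun i j k => by rw [J.h12, J.h23, J.h12]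
  have e0 := split_KB1
    (fun i j p k => c k * h i j p * ((lam j - lam i) * lam i + (1 + lam p * lam k)) * h p j k)
    (fun i j p k => c k * h i j p * (-(lam j - lam i) * lam k + (1 + lam p * lam k)) * h i p k)
    (fun i j p k => c k * h i j p * ((lam j - lam i) * lam p - (1 + lam p * lam k)) * h i k k)
    (fun i j p k => c k * h i j p * (-(lam j - lam i) * lam i - (1 + lam p * lam k)) * h k j k)
  have e1 : ∑ i, ∑ j, ∑ p, c i * h i j p * ((lam j - lam i) * lam i + (1 + lam p * lam i)) *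
      h p j i = ∑ i, ∑ j, ∑ p, h i j p ^ 2 * (c i * (lam j - lam i) * lam i + c i) +
        ∑ i, ∑ j, ∑ p, h i j p ^ 2 * (c i * lam i * lam p) := by
    simp only [← Finset.sum_add_distrib]
    exact Finset.sum_congr rfl fun i _ => Finset.sum_congr rfl fun j _ =>
      Finset.sum_congr rfl fun p _ => by rw [h13 p j i]; ring
  have e2 : ∑ i, ∑ j, ∑ p, c j * h i j p * (-(lam j - lam i) * lam j + (1 + lam p * lam j)) *
      h i p j = ∑ i, ∑ j, ∑ p, h i j p ^ 2 * (c j * (lam i - lam j) * lam j + c j) +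
        ∑ i, ∑ j, ∑ p, h i j p ^ 2 * (c j * lam j * lam p) := by
    simp only [← Finset.sum_add_distrib]
    exact Finset.sum_congr rfl fun i _ => Finset.sum_congr rfl fun j _ =>
      Finset.sum_congr rfl fun p _ => by rw [J.h23 i p j]; ring
  have e3 : ∑ i, ∑ j, ∑ k, c k * h i j j * ((lam j - lam i) * lam j - (1 + lam j * lam k)) *
      h i k k = 0 := by
    refine Finset.sum_eq_zero fun i _ => ?_
    rw [← zero_KB1 (hc i) (J.h1 i) (fun j => h j j i * ((lam j - lam i) * lam j - 1))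
      (fun k => -(c k * lam k * h k k i))]
    exact Finset.sum_congr rfl fun j _ => Finset.sum_congr rfl fun k _ => by
      rw [h13 i j j, h13 i k k]; ring
  have e4 : ∑ j, ∑ i, ∑ k, c k * h i j i * (-(lam j - lam i) * lam i - (1 + lam i * lam k)) *
      h k j k = 0 := by
    refine Finset.sum_eq_zero fun j _ => ?_
    rw [← zero_KB1 (hc j) (J.h1 j) (fun i => h i i j * (-(lam j - lam i) * lam i - 1))
      (fun k => -(c k * lam k * h k k j))]
    exact Finset.sum_congr rfl fun i _ => Finset.sum_congr rfl fun k _ => by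
      rw [J.h23 i j i, J.h23 k j k]; ring
  have e5 := s12_KB1 J fun i j _ => c i * (lam j - lam i) * lam i + c i
  have e6 := s12_KB1 J fun i _ p => c i * lam i * lam p
  have e7 := s23_KB1 J fun i _ p => c i * lam i * lam p
  have e8 : ∑ i, ∑ j, ∑ k, h i j k ^ 2 *
      (2 * c i + 4 * c i * lam i * lam j - 2 * c i * lam i ^ 2) =
      2 * ∑ i, ∑ j, ∑ p, h i j p ^ 2 * (c i * (lam j - lam i) * lam i + c i) +
        2 * ∑ i, ∑ j, ∑ p, h i j p ^ 2 * (c i * lam i * lam j) := by
    simp only [Finset.mul_sum, ← Finset.sum_add_distrib]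
    exact Finset.sum_congr rfl fun i _ => Finset.sum_congr rfl fun j _ =>
      Finset.sum_congr rfl fun p _ => by ring
  rw [e1, e2, e3, e4, ← e5, ← e6, e7] at e0
  rw [e8]
  refine Eq.trans ?_ (e0.trans (by ring))
  exact Finset.sum_congr rfl fun i _ => Finset.sum_congr rfl fun j _ =>
    Finset.sum_congr rfl fun p _ => Finset.sum_congr rfl fun k _ => by
      rw [J.ric5a i j p k k]; ring

end BiH
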