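import Pool.Agent.P.MP_ecb6bc_gt.KDefs

/-! Second commutation term. -/

set_option autoImplicit false
set_option linter.unusedSectionVars false
set_option linter.unusedVariables false

noncomputable section

namespace BiH

open Matrix
open scoped ContDiff

variable {m : ℕ} {lam : Fin m → ℝ} {T : ℝ} {h : Fin m → Fin m → Fin m → ℝ}
  {H : Fin m → Fin m → Fin m → Fin m → ℝ} {V : Fin m → Fin m → Fin m → Fin m → Fin m → ℝ}


private theorem sum_dl (F : Fin m → ℝ) (i : Fin m) : ∑ k, dl i k * F k = F i := by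
  simp [dl]

private theorem dl_comm (i k : Fin m) : dl i k = dl k i := by
  simp only [dl, eq_comm]

private theorem dl_self (i : Fin m) : dl i i = 1 := if_pos rfl

private theorem swap12 (J : Jet lam T h H V) (F : Fin m → Fin m → Fin m → ℝ) :
    ∑ i, ∑ j, ∑ k, h i j k ^ 2 * F i j k = ∑ i, ∑ j, ∑ k, h i j k ^ 2 * F j i k := by
  rw [Finset.sum_comm]
  exact Finset.sum_congr rfl fun i _ => Finset.sum_congr rfl fun j _ =>
    Finset.sum_congr rfl fun k _ => by rw [J.h12 j i k]

private theorem swap23 (J : Jet lam T h H V) (F : Fin m → Fin m → Fin m → ℝ) :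
    ∑ i, ∑ j, ∑ k, h i j k ^ 2 * F i j k = ∑ i, ∑ j, ∑ k, h i j k ^ 2 * F i k j := by
  refine Finset.sum_congr rfl fun i _ => ?_
  rw [Finset.sum_comm]
  exact Finset.sum_congr rfl fun j _ => Finset.sum_congr rfl fun k _ => by rw [J.h23 i k j]

private theorem vanish (J : Jet lam T h H V) (a b : Fin m → ℝ) (j : Fin m) :
    ∑ i, h i i j * (a j + lam i * b j) = 0 := by
  have e : ∀ i, h i i j * (a j + lam i * b j) = h i i j * a j + lam i * h i i j * b j :=
    fun i => by ring
  simp only [e, Finset.sum_add_distrib, ← Finset.sum_mul, J.h0, J.h1, zero_mul, add_zero]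

theorem Jet.comm2 (J : Jet lam T h H V) (c : Fin m → ℝ) :
    ∑ i, ∑ j, ∑ p, ∑ k, c k * h i j p * (V i j k p k - V i j k k p) =
      ∑ i, ∑ j, ∑ k, h i j k ^ 2 * (∑ q, c q + lam i * ∑ q, c q * lam q + c i -
        c i * lam i ^ 2 + 2 * c i * lam i * lam j) := by
  obtain ⟨a, ha⟩ : ∃ a : Fin m → ℝ, ∀ j, a j = ∑ k, c k * h k k j := ⟨_, fun _ => rfl⟩
  obtain ⟨b, hb⟩ : ∃ b : Fin m → ℝ, ∀ j, b j = ∑ k, c k * lam k * h k k j := ⟨_, fun _ => rfl⟩
  have hA : ∀ i j p, ∑ k, c k * h i j p * (V i j k p k - V i j k k p) =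
      h i j p ^ 2 * (c i * (1 + lam i * lam p)) + h i j p ^ 2 * (c j * (1 + lam j * lam p)) +
        h i j p ^ 2 * (∑ q, c q + lam p * ∑ q, c q * lam q - c p * (1 + lam p ^ 2)) -
        dl i p * (h i p j * (a j + lam p * b j)) - dl j p * (h j p i * (a i + lam p * b i)) := by
    intro i j p
    have e : ∀ k, c k * h i j p * (V i j k p k - V i j k k p) =
        dl i k * (c k * h i j p * (1 + lam p * lam k) * h k j p) +
        dl j k * (c k * h i j p * (1 + lam p * lam k) * h i k p) -
        dl p k * (c k * h i j p * (1 + lam p * lam k) * h i j k) +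
        h i j p ^ 2 * c k + h i j p ^ 2 * lam p * (c k * lam k) -
        dl i p * h i j p * (c k * h k k j) - dl i p * h i j p * lam p * (c k * lam k * h k k j) -
        dl j p * h i j p * (c k * h k k i) -
        dl j p * h i j p * lam p * (c k * lam k * h k k i) := fun k => by
      rw [J.ric5b, dl_self, dl_comm p j, dl_comm k j, J.h23 k j k, J.h12 i k k, J.h23 k i k,
        J.h23 i p k, J.h12 p j k, J.h23 j p k, J.h12 j k p]
      ring
    simp only [e, Finset.sum_add_distrib, Finset.sum_sub_distrib, sum_dl, ← Finset.mul_sum, ← ha,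
      ← hb]
    rw [J.h23 i p j, J.h23 j p i, J.h12 j i p]
    ring
  have hB : ∑ i, ∑ j, h i i j * (a j + lam i * b j) = 0 := by
    rw [Finset.sum_comm]
    simp only [vanish J, Finset.sum_const_zero]
  simp only [hA, Finset.sum_add_distrib, Finset.sum_sub_distrib, sum_dl, hB, vanish J,
    sub_zero]
  rw [swap23 J fun i j p => c i * (1 + lam i * lam p),
    swap12 J fun i j p => c j * (1 + lam j * lam p),
    swap23 J fun i j p => c i * (1 + lam i * lam p),
    swap23 J fun i j p => ∑ q, c q + lam p * ∑ q, c q * lam q - c p * (1 + lam p ^ 2),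
    swap12 J fun i j p => ∑ q, c q + lam j * ∑ q, c q * lam q - c j * (1 + lam j ^ 2)]
  simp only [← Finset.sum_add_distrib]
  exact Finset.sum_congr rfl fun i _ => Finset.sum_congr rfl fun j _ =>
    Finset.sum_congr rfl fun k _ => by ring

end BiH
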