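import Pool.Agent.P.MP_ecb6bc_gt.KDefs

/-! Third commutation term. -/

set_option autoImplicit false
set_option linter.unusedSectionVars false
set_option linter.unusedVariables false

noncomputable section

namespace BiH

open Matrix
open scoped ContDiff

variable {m : ℕ} {lam : Fin m → ℝ} {T : ℝ} {h : Fin m → Fin m → Fin m → ℝ}
  {H : Fin m → Fin m → Fin m → Fin m → ℝ} {V : Fin m → Fin m → Fin m → Fin m → Fin m → ℝ}


theorem anti_KB3 (J : Jet lam T h H V) (K : Fin m → Fin m → ℝ) (hK : ∀ i j, K j i = -K i j) :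
    ∑ i, ∑ j, ∑ k, h i j k ^ 2 * K i j = 0 := by
  have e : ∑ i, ∑ j, ∑ k, h i j k ^ 2 * K i j = -∑ i, ∑ j, ∑ k, h i j k ^ 2 * K i j := by
    conv_lhs => rw [Finset.sum_comm]
    simp only [← Finset.sum_neg_distrib]
    refine Finset.sum_congr rfl fun i _ => Finset.sum_congr rfl fun j _ =>
      Finset.sum_congr rfl fun k _ => ?_
    rw [J.h12 j i k, hK, mul_neg]
  linarith

theorem inner_KB3 (J : Jet lam T h H V) (c : Fin m → ℝ) (hc : ∀ j, ∑ k, c k * h k k j = 0)
    (i j p : Fin m) : ∑ k, c k * h i j p * (V k i j k p - V k i k j p) =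
      h i j p ^ 2 * (∑ q, c q + 2 * lam i * ∑ q, c q * lam q - ∑ q, c q * lam q ^ 2) +
        h i j p ^ 2 * ((lam j - lam i) * ∑ q, c q * lam q + (c i - c j) * (1 + lam i * lam j)) +
        if j = i then lam i * h i i p * (-2 * ∑ q, c q * lam q * h q q p) else 0 := by
  have e : ∀ k, c k * h i j p * (V k i j k p - V k i k j p) =
      h i j p ^ 2 * c k + h i j p ^ 2 * (lam i + lam j) * (c k * lam k) +
        -h i j p ^ 2 * (c k * lam k ^ 2) +
        (if k = j then -h i j p ^ 2 * c j * (1 + lam i * lam j) else 0) +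
        (if k = i then h i j p ^ 2 * c i * (1 + lam i * lam j) else 0) +
        dl j i * (lam i ^ 2 - 1) * h i i p * (c k * h k k p) +
        dl j i * (-2 * lam i * h i i p) * (c k * lam k * h k k p) := fun k => by
    rw [J.ric5a k i j k p, J.h12 j i p]
    unfold dl
    rw [if_pos rfl]
    by_cases h1 : k = j
    · subst h1
      rw [J.h12 k i p]
      by_cases h2 : k = i
      · subst h2
        simp only [if_true]
        ring
      · simp only [if_true, if_neg h2]
        ring
    · by_cases h2 : k = i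
      · subst h2
        simp only [if_true, if_neg h1, if_neg (Ne.symm h1)]
        ring
      · by_cases h3 : j = i
        · subst h3
          simp only [if_true, if_neg h1]
          ring
        · simp only [if_neg h1, if_neg h2, if_neg h3]
          ring
  simp only [e, Finset.sum_add_distrib, ← Finset.mul_sum, hc, Finset.sum_ite_eq', Finset.mem_univ,
    if_true, dl]
  split_ifs <;> ring

theorem Jet.comm3 (J : Jet lam T h H V) (c : Fin m → ℝ) (hc : ∀ j, ∑ k, c k * h k k j = 0) :
    ∑ i, ∑ j, ∑ p, ∑ k, c k * h i j p * (V k i j k p - V k i k j p) =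
      ∑ i, ∑ j, ∑ k, h i j k ^ 2 *
        (∑ q, c q + 2 * lam i * ∑ q, c q * lam q - ∑ q, c q * lam q ^ 2) := by
  have e : ∑ i, ∑ j, ∑ p, (if j = i then lam i * h i i p * (-2 * ∑ q, c q * lam q * h q q p)
      else 0) = 0 := by
    simp only [Finset.sum_comm (s := Finset.univ) (t := Finset.univ) (f := fun j p =>
      if j = _ then _ else (0 : ℝ)), Finset.sum_ite_eq', Finset.mem_univ, if_true]
    rw [Finset.sum_comm]
    simp only [← Finset.sum_mul, J.h1, zero_mul, Finset.sum_const_zero]
  simp only [inner_KB3 J c hc, Finset.sum_add_distrib]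
  rw [e, anti_KB3 J (fun i j => (lam j - lam i) * ∑ q, c q * lam q +
    (c i - c j) * (1 + lam i * lam j)) fun i j => by ring, add_zero, add_zero]

end BiH
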