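import Pool.Agent.P.MP_ecb6bc_gt.KB1
import Pool.Agent.P.MP_ecb6bc_gt.KB2
import Pool.Agent.P.MP_ecb6bc_gt.KB3

/-! The third derivative terms. -/

set_option autoImplicit false
set_option linter.unusedSectionVars false
set_option linter.unusedVariables false

noncomputable section

namespace BiH

open Matrix
open scoped ContDiff

variable {m : ℕ} {lam : Fin m → ℝ} {T : ℝ} {h : Fin m → Fin m → Fin m → ℝ}
  {H : Fin m → Fin m → Fin m → Fin m → ℝ} {V : Fin m → Fin m → Fin m → Fin m → Fin m → ℝ}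


private theorem cyc3_KB4 (f : Fin m → Fin m → Fin m → ℝ) :
    ∑ i, ∑ j, ∑ k, f i j k = ∑ k, ∑ i, ∑ j, f i j k :=
  (Finset.sum_congr rfl fun _ _ => Finset.sum_comm).trans Finset.sum_comm

private theorem cyc4_KB4 (f : Fin m → Fin m → Fin m → Fin m → ℝ) :
    ∑ i, ∑ j, ∑ k, ∑ l, f i j k l = ∑ l, ∑ i, ∑ j, ∑ k, f i j k l :=
  (Finset.sum_congr rfl fun _ _ => cyc3_KB4 _).trans Finset.sum_comm

private theorem s12_KB4 (J : Jet lam T h H V) (F : Fin m → Fin m → Fin m → ℝ) :
    ∑ i, ∑ j, ∑ k, h i j k * F j i k = ∑ i, ∑ j, ∑ k, h i j k * F i j k := by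
  rw [Finset.sum_comm]
  exact Finset.sum_congr rfl fun i _ => Finset.sum_congr rfl fun j _ =>
    Finset.sum_congr rfl fun k _ => by rw [J.h12]

private theorem s23_KB4 (J : Jet lam T h H V) (F : Fin m → Fin m → Fin m → ℝ) :
    ∑ i, ∑ j, ∑ k, h i j k * F i k j = ∑ i, ∑ j, ∑ k, h i j k * F i j k := by
  refine Finset.sum_congr rfl fun i _ => ?_
  rw [Finset.sum_comm]
  exact Finset.sum_congr rfl fun j _ => Finset.sum_congr rfl fun k _ => by rw [J.h23]

private theorem cub_KB4 (h : Fin m → Fin m → Fin m → ℝ) (H : Fin m → Fin m → Fin m → Fin m → ℝ) :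
    ∑ i, ∑ j, ∑ k, ∑ l, (∑ a, h i j a * h a k l) * H i j k l =
      ∑ a, ∑ k, ∑ l, h a k l * ∑ i, ∑ j, h i j a * H i j k l := by
  have e1 : ∑ a, ∑ k, ∑ l, h a k l * ∑ i, ∑ j, h i j a * H i j k l =
      ∑ i, ∑ a, ∑ k, ∑ l, ∑ j, h i j a * h a k l * H i j k l := by
    rw [← cyc4_KB4 fun a k l i => ∑ j, h i j a * h a k l * H i j k l]
    simp only [Finset.mul_sum]
    exact Finset.sum_congr rfl fun a _ => Finset.sum_congr rfl fun k _ =>
      Finset.sum_congr rfl fun l _ => Finset.sum_congr rfl fun i _ =>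
        Finset.sum_congr rfl fun j _ => by ring
  rw [e1]
  refine Finset.sum_congr rfl fun i _ => ?_
  rw [cyc4_KB4 fun a k l j => h i j a * h a k l * H i j k l]
  refine Finset.sum_congr rfl fun j _ => ?_
  simp only [Finset.sum_mul]
  exact cyc3_KB4 _

private theorem four_KB4 (J : Jet lam T h H V) (t : ℝ) :
    ∑ i, ∑ j, ∑ p, ∑ k, (1 + t * lam k) * h i j p * V k k i j p =
      -(3 * t * ∑ i, ∑ j, ∑ k, ∑ l, (∑ a, h i j a * h a k l) * H i j k l) := by
  obtain ⟨F, hF⟩ : ∃ F : Fin m → Fin m → Fin m → ℝ,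
      ∀ x y z, F x y z = ∑ a, ∑ b, h a b x * H a b y z := ⟨_, fun _ _ _ => rfl⟩
  have e1 : ∀ i j p, ∑ k, (1 + t * lam k) * h i j p * V k k i j p =
      -t * (h i j p * F i j p) + -t * (h i j p * F j i p) + -t * (h i j p * F p i j) := by
    intro i j p
    have e2 : ∑ k, (1 + t * lam k) * h i j p * V k k i j p =
        h i j p * ∑ k, V k k i j p + t * h i j p * ∑ k, lam k * V k k i j p := by
      simp only [Finset.mul_sum, ← Finset.sum_add_distrib]
      exact Finset.sum_congr rfl fun k _ => by ring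
    have e3 := J.V1 i j p
    have e4 : ∑ a, ∑ b, (H a b j p * h a b i + h a b j * H a b i p + h a b p * H a b i j) =
        F i j p + F j i p + F p i j := by
      simp only [hF, ← Finset.sum_add_distrib]
      exact Finset.sum_congr rfl fun a _ => Finset.sum_congr rfl fun b _ => by ring
    rw [e2, J.V0]
    linear_combination t * h i j p * e3 - t * h i j p * e4
  have e5 : ∑ i, ∑ j, ∑ p, h i j p * F p i j = ∑ i, ∑ j, ∑ p, h i j p * F i j p :=
    (s23_KB4 J fun i j p => F j i p).trans (s12_KB4 J F)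
  simp only [e1, Finset.sum_add_distrib, ← Finset.mul_sum]
  rw [e5, s12_KB4 J F, cub_KB4]
  simp only [← hF]
  ring

theorem Jet.third (J : Jet lam T h H V) (t D : ℝ) (hD : D = T - ∑ i, lam i ^ 3) :
    ∑ p, (1 + t * lam p) * ∑ i, ∑ j, ∑ k, V i j k p p * h i j k =
      -(3 * t * ∑ i, ∑ j, ∑ k, ∑ l, (∑ a, h i j a * h a k l) * H i j k l) +
      ∑ i, ∑ j, ∑ k, h i j k ^ 2 * (m + t * (T + D) + 3 * lam i * (T + t * m) +
        3 * (1 + t * lam i) * (1 - lam i ^ 2 + 2 * lam i * lam j)) := by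
  have hc : ∀ j, ∑ k, (1 + t * lam k) * h k k j = 0 := fun j => by
    have e : ∑ k, (1 + t * lam k) * h k k j = ∑ k, h k k j + t * ∑ k, lam k * h k k j := by
      simp only [Finset.mul_sum, ← Finset.sum_add_distrib]
      exact Finset.sum_congr rfl fun k _ => by ring
    rw [e, J.h0, J.h1, mul_zero, add_zero]
  have c0 : ∑ q, (1 + t * lam q) = m + t * T := by
    rw [Finset.sum_add_distrib, ← Finset.mul_sum, J.tr1]
    simp
  have c1 : ∑ q, (1 + t * lam q) * lam q = T + t * m := by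
    rw [← J.tr1, ← J.tr2, Finset.mul_sum, ← Finset.sum_add_distrib]
    exact Finset.sum_congr rfl fun k _ => by ring
  have c2 : ∑ q, (1 + t * lam q) * lam q ^ 2 = m + t * (T - D) := by
    rw [hD, sub_sub_cancel, ← J.tr2, Finset.mul_sum, ← Finset.sum_add_distrib]
    exact Finset.sum_congr rfl fun k _ => by ring
  have e1 := J.comm1 (fun k => 1 + t * lam k) hc
  have e2 := J.comm2 fun k => 1 + t * lam k
  have e3 := J.comm3 (fun k => 1 + t * lam k) hc
  simp only [c0, c1, c2] at e1 e2 e3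
  have e0 : ∑ p, (1 + t * lam p) * ∑ i, ∑ j, ∑ k, V i j k p p * h i j k =
      ∑ i, ∑ j, ∑ p, ∑ k, (1 + t * lam k) * h i j p * (V i j p k k - V i j k p k) +
      ∑ i, ∑ j, ∑ p, ∑ k, (1 + t * lam k) * h i j p * (V i j k p k - V i j k k p) +
      ∑ i, ∑ j, ∑ p, ∑ k, (1 + t * lam k) * h i j p * (V k i j k p - V k i k j p) +
      ∑ i, ∑ j, ∑ p, ∑ k, (1 + t * lam k) * h i j p * V k k i j p := by
    simp only [← Finset.sum_add_distrib]
    rw [cyc4_KB4]
    simp only [Finset.mul_sum]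
    refine Finset.sum_congr rfl fun k _ => Finset.sum_congr rfl fun i _ =>
      Finset.sum_congr rfl fun j _ => Finset.sum_congr rfl fun p _ => ?_
    rw [J.V12 k i j, J.V23 i k j, J.V23 k k i]
    ring
  rw [e0, e1, e2, e3, four_KB4 J t, add_comm]
  congr 1
  simp only [← Finset.sum_add_distrib]
  exact Finset.sum_congr rfl fun i _ => Finset.sum_congr rfl fun j _ =>
    Finset.sum_congr rfl fun k _ => by ring

theorem Jet.second (J : Jet lam T h H V) (t D E : ℝ) (hD : D = T - ∑ i, lam i ^ 3)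
    (hE : E = ∑ i, (lam i ^ 2 - 1) ^ 2) :
    ∑ p, (1 + t * lam p) * ∑ i, lam i ^ 2 * H i i p p =
      T * E + t * (m * E + D * (T - D)) - t * ∑ i, ∑ j, ∑ k, h i j k ^ 2 * lam i ^ 2 := by
  have e1 : ∀ i p, H i i p p = H p p i i + (lam i - lam p) * (1 + lam i * lam p) := by
    intro i p
    have e := J.ric4 i p i p
    rw [J.H23 i p i p, J.H12 i p p i, J.H23 p i p i] at e
    by_cases hip : i = p
    · subst hip
      ring
    · simp only [dl, if_neg hip, if_true] at e
      linear_combination e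
  have e2 : ∀ i, ∑ p, (1 + t * lam p) * H p p i i = -t * ∑ j, ∑ k, h i j k ^ 2 := by
    intro i
    have e : ∑ p, (1 + t * lam p) * H p p i i = ∑ p, H p p i i + t * ∑ p, lam p * H p p i i := by
      simp only [Finset.mul_sum, ← Finset.sum_add_distrib]
      exact Finset.sum_congr rfl fun k _ => by ring
    have e' : ∑ j, ∑ k, h j k i * h j k i = ∑ j, ∑ k, h i j k ^ 2 :=
      Finset.sum_congr rfl fun j _ => Finset.sum_congr rfl fun k _ => by
        rw [J.h23 j k i, J.h12 j i k, sq]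
    rw [e, J.H0]
    linear_combination t * J.H1 i i - t * e'
  have p3 : ∑ i, lam i ^ 3 = T - D := by rw [hD, sub_sub_cancel]
  have p4 : ∑ i, lam i ^ 4 = E + m := by
    have e : E = ∑ i, lam i ^ 4 - 2 * ∑ i, lam i ^ 2 + ∑ i : Fin m, (1 : ℝ) := by
      rw [hE, Finset.mul_sum, ← Finset.sum_sub_distrib, ← Finset.sum_add_distrib]
      exact Finset.sum_congr rfl fun k _ => by ring
    rw [e, J.tr2]
    simp only [Finset.sum_const, Finset.card_univ, Fintype.card_fin, nsmul_eq_mul]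
    ring
  have e3 : ∀ p, ∑ i, lam i ^ 2 * H i i p p = ∑ i, lam i ^ 2 * H p p i i +
      ((T - D) + E * lam p - (T - D) * lam p ^ 2) := by
    intro p
    have e : ∑ i, lam i ^ 2 * H i i p p = ∑ i, lam i ^ 2 * H p p i i + (∑ i, lam i ^ 3 +
        (∑ i, lam i ^ 4) * lam p - (∑ i, lam i ^ 2) * lam p - (∑ i, lam i ^ 3) * lam p ^ 2) := by
      simp only [Finset.sum_mul, ← Finset.sum_add_distrib, ← Finset.sum_sub_distrib]
      exact Finset.sum_congr rfl fun i _ => by rw [e1 i p]; ring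
    rw [e, p3, p4, J.tr2]
    ring
  have e4 : ∑ p, (1 + t * lam p) * ∑ i, lam i ^ 2 * H p p i i =
      -t * ∑ i, ∑ j, ∑ k, h i j k ^ 2 * lam i ^ 2 := by
    simp only [← Finset.sum_mul]
    rw [Finset.mul_sum]
    simp only [← mul_assoc, ← e2]
    simp only [Finset.mul_sum, Finset.sum_mul]
    rw [Finset.sum_comm]
    exact Finset.sum_congr rfl fun i _ => Finset.sum_congr rfl fun p _ => by ring
  have e5 : ∑ p, (1 + t * lam p) * ((T - D) + E * lam p - (T - D) * lam p ^ 2) =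
      (T - D) * ∑ p : Fin m, (1 : ℝ) + (E + t * (T - D)) * ∑ p, lam p +
        (t * E - (T - D)) * ∑ p, lam p ^ 2 - t * (T - D) * ∑ p, lam p ^ 3 := by
    simp only [Finset.mul_sum, ← Finset.sum_add_distrib, ← Finset.sum_sub_distrib]
    exact Finset.sum_congr rfl fun i _ => by ring
  simp only [e3, mul_add (1 + t * lam _), Finset.sum_add_distrib]
  rw [e4, e5, J.tr1, J.tr2, p3]
  simp only [Finset.sum_const, Finset.card_univ, Fintype.card_fin, nsmul_eq_mul]
  ring

end BiH
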