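import Pool.Agent.P.MP_ecb6bc_gt.KB4

/-! The basic identity. -/

set_option autoImplicit false
set_option linter.unusedSectionVars false
set_option linter.unusedVariables false

noncomputable section

namespace BiH

open Matrix
open scoped ContDiff

variable {m : ℕ} {lam : Fin m → ℝ} {T : ℝ} {h : Fin m → Fin m → Fin m → ℝ}
  {H : Fin m → Fin m → Fin m → Fin m → ℝ} {V : Fin m → Fin m → Fin m → Fin m → Fin m → ℝ}


private theorem sw12 (J : Jet lam T h H V) (F : ℝ → ℝ → ℝ → ℝ) :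
    ∑ i, ∑ j, ∑ k, h i j k ^ 2 * F (lam i) (lam j) (lam k) =
      ∑ i, ∑ j, ∑ k, h i j k ^ 2 * F (lam j) (lam i) (lam k) := by
  rw [Finset.sum_comm]
  exact Finset.sum_congr rfl fun i _ => Finset.sum_congr rfl fun j _ =>
    Finset.sum_congr rfl fun k _ => by rw [J.h12]

private theorem sw23 (J : Jet lam T h H V) (F : ℝ → ℝ → ℝ → ℝ) :
    ∑ i, ∑ j, ∑ k, h i j k ^ 2 * F (lam i) (lam j) (lam k) =
      ∑ i, ∑ j, ∑ k, h i j k ^ 2 * F (lam i) (lam k) (lam j) := by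
  refine Finset.sum_congr rfl fun i _ => ?_
  rw [Finset.sum_comm]
  exact Finset.sum_congr rfl fun j _ => Finset.sum_congr rfl fun k _ => by rw [J.h23]

private theorem sym6 (J : Jet lam T h H V) (F G : ℝ → ℝ → ℝ → ℝ)
    (hG : ∀ x y z, F x y z + F y x z + F x z y + F z x y + F y z x + F z y x = 6 * G x y z) :
    ∑ i, ∑ j, ∑ k, h i j k ^ 2 * F (lam i) (lam j) (lam k) =
      ∑ i, ∑ j, ∑ k, h i j k ^ 2 * G (lam i) (lam j) (lam k) := by
  have e1 := sw12 J F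
  have e2 := sw23 J F
  have e3 := sw23 J fun x y z => F y x z
  have e4 := sw12 J fun x y z => F x z y
  have e5 := sw12 J fun x y z => F z x y
  have e6 : ∑ i, ∑ j, ∑ k, h i j k ^ 2 * F (lam i) (lam j) (lam k) +
      ∑ i, ∑ j, ∑ k, h i j k ^ 2 * F (lam j) (lam i) (lam k) +
      ∑ i, ∑ j, ∑ k, h i j k ^ 2 * F (lam i) (lam k) (lam j) +
      ∑ i, ∑ j, ∑ k, h i j k ^ 2 * F (lam k) (lam i) (lam j) +
      ∑ i, ∑ j, ∑ k, h i j k ^ 2 * F (lam j) (lam k) (lam i) +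
      ∑ i, ∑ j, ∑ k, h i j k ^ 2 * F (lam k) (lam j) (lam i) =
      6 * ∑ i, ∑ j, ∑ k, h i j k ^ 2 * G (lam i) (lam j) (lam k) := by
    simp only [← Finset.sum_add_distrib, Finset.mul_sum]
    refine Finset.sum_congr rfl fun i _ => Finset.sum_congr rfl fun j _ =>
      Finset.sum_congr rfl fun k _ => ?_
    rw [mul_left_comm, ← hG]
    ring
  linarith

private theorem rot (f : Fin m → Fin m → Fin m → ℝ) :
    ∑ p, ∑ i, ∑ j, f i j p = ∑ i, ∑ j, ∑ p, f i j p := by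
  rw [Finset.sum_comm]
  exact Finset.sum_congr rfl fun i _ => Finset.sum_comm

theorem Jet.ident (J : Jet lam T h H V) (t D E : ℝ) (hD : D = T - ∑ i, lam i ^ 3)
    (hE : E = ∑ i, (lam i ^ 2 - 1) ^ 2) :
    ∑ i, ∑ j, ∑ k, ∑ l, (1 + t * lam l) * H i j k l ^ 2 -
      3 * t * ∑ i, ∑ j, ∑ k, ∑ l, (∑ a, h i j a * h a k l) * H i j k l +
      ∑ i, ∑ j, ∑ k, h i j k ^ 2 * kap m t T D (lam i) (lam j) (lam k) +
      3 / 2 * T ^ 2 * E + 3 / 2 * t * T * (m * E - D ^ 2) = 0 := by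
  have e1 := J.third t D hD
  have e2 := J.second t D E hD hE
  have e3 := J.P0
  rw [← hD] at e3
  have e4 : 2 * (∑ p, (1 + t * lam p) * ∑ i, ∑ j, ∑ k, V i j k p p * h i j k +
        ∑ p, (1 + t * lam p) * ∑ i, ∑ j, ∑ k, H i j k p ^ 2) +
      3 * T * (2 * ∑ p, (1 + t * lam p) * ∑ i, ∑ j, lam i * h i j p ^ 2 +
        ∑ p, (1 + t * lam p) * ∑ i, lam i ^ 2 * H i i p p) = 0 := by
    rw [← Finset.sum_add_distrib, Finset.mul_sum, Finset.mul_sum, ← Finset.sum_add_distrib,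
      Finset.mul_sum, ← Finset.sum_add_distrib]
    refine Finset.sum_eq_zero fun p _ => ?_
    have := J.P2 p
    simp only [Finset.sum_add_distrib] at this
    linear_combination (1 + t * lam p) * this
  have e5 : ∑ p, (1 + t * lam p) * ∑ i, ∑ j, ∑ k, H i j k p ^ 2 =
      ∑ i, ∑ j, ∑ k, ∑ l, (1 + t * lam l) * H i j k l ^ 2 := by
    simp only [Finset.mul_sum]
    rw [Finset.sum_comm]
    exact Finset.sum_congr rfl fun i _ => rot fun j k l => (1 + t * lam l) * H i j k l ^ 2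
  have e6 : ∑ p, (1 + t * lam p) * ∑ i, ∑ j, lam i * h i j p ^ 2 =
      ∑ i, ∑ j, ∑ k, h i j k ^ 2 * (lam i * (1 + t * lam k)) := by
    simp only [Finset.mul_sum]
    rw [rot fun i j p => (1 + t * lam p) * (lam i * h i j p ^ 2)]
    refine Finset.sum_congr rfl fun i _ => Finset.sum_congr rfl fun j _ =>
      Finset.sum_congr rfl fun k _ => by ring
  have e7 := sym6 J (fun x y z => (m + t * (T + D) + 3 * x * (T + t * m) +
      3 * (1 + t * x) * (1 - x ^ 2 + 2 * x * y)) + 3 * T * (x * (1 + t * z)) -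
      3 / 2 * T * t * x ^ 2 + 3 / 2 * t * T) (kap m t T D) (fun x y z => by unfold kap; ring)
  have e8 : ∑ i, ∑ j, ∑ k, h i j k ^ 2 * ((m + t * (T + D) + 3 * lam i * (T + t * m) +
      3 * (1 + t * lam i) * (1 - lam i ^ 2 + 2 * lam i * lam j)) +
      3 * T * (lam i * (1 + t * lam k)) - 3 / 2 * T * t * lam i ^ 2 + 3 / 2 * t * T) =
      ∑ i, ∑ j, ∑ k, h i j k ^ 2 * (m + t * (T + D) + 3 * lam i * (T + t * m) +
        3 * (1 + t * lam i) * (1 - lam i ^ 2 + 2 * lam i * lam j)) +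
      3 * T * ∑ i, ∑ j, ∑ k, h i j k ^ 2 * (lam i * (1 + t * lam k)) -
      3 / 2 * T * t * ∑ i, ∑ j, ∑ k, h i j k ^ 2 * lam i ^ 2 +
      3 / 2 * t * T * ∑ i, ∑ j, ∑ k, h i j k ^ 2 := by
    simp only [Finset.mul_sum, ← Finset.sum_add_distrib, ← Finset.sum_sub_distrib]
    refine Finset.sum_congr rfl fun i _ => Finset.sum_congr rfl fun j _ =>
      Finset.sum_congr rfl fun k _ => by ring
  rw [e1, e2, e5, e6] at e4
  rw [e8, e3] at e7
  rw [← e7]
  linear_combination (1 / 2) * e4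

end BiH
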