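import Pool.Agent.P.MP_ecb6bc_gt.KDefs

/-! Lower bound for the second derivative terms. -/

set_option autoImplicit false
set_option linter.unusedSectionVars false
set_option linter.unusedVariables false

noncomputable section

namespace BiH

open Matrix
open scoped ContDiff

variable {m : ℕ} {lam : Fin m → ℝ} {T : ℝ} {h : Fin m → Fin m → Fin m → ℝ}
  {H : Fin m → Fin m → Fin m → Fin m → ℝ} {V : Fin m → Fin m → Fin m → Fin m → Fin m → ℝ}


private theorem pair_KC1 (X : Fin m → Fin m → Fin m → Fin m → ℝ) (τ : Fin m → Fin m → ℝ) :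
    ∑ i, ∑ j, ∑ k, ∑ l, X i j k l *
      (dl i j * dl k l * τ i l + dl i k * dl j l * τ i l + dl j k * dl i l * τ j l) =
      ∑ i, ∑ l, (X i i l l + X i l i l + X l i i l) * τ i l := by
  have e1 : ∑ i, ∑ j, ∑ k, ∑ l, X i j k l * (dl i j * dl k l * τ i l) =
      ∑ i, ∑ l, X i i l l * τ i l := by simp [dl]
  have e2 : ∑ i, ∑ j, ∑ k, ∑ l, X i j k l * (dl i k * dl j l * τ i l) =
      ∑ i, ∑ l, X i l i l * τ i l := by simp [dl]
  have e3 : ∑ i, ∑ j, ∑ k, ∑ l, X i j k l * (dl j k * dl i l * τ j l) =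
      ∑ l, ∑ i, X l i i l * τ i l := by simp [dl]
  rw [Finset.sum_comm (f := fun l i => X l i i l * τ i l)] at e3
  simp only [mul_add, add_mul, Finset.sum_add_distrib]
  rw [e1, e2, e3]

private theorem anti_KC1 {S τ : Fin m → Fin m → ℝ} (hS : ∀ i l, S l i = S i l)
    (hτ : ∀ i l, τ l i = -τ i l) : ∑ i, ∑ l, S i l * τ i l = 0 := by
  have e : ∑ i, ∑ l, S i l * τ i l = -∑ i, ∑ l, S i l * τ i l := by
    conv_lhs => rw [Finset.sum_comm]
    simp only [← Finset.sum_neg_distrib]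
    exact Finset.sum_congr rfl fun i _ => Finset.sum_congr rfl fun l _ => by
      rw [hS, hτ, mul_neg]
  linarith

private theorem lag_KC1 (a b : Fin m → ℝ) : ∑ i, ∑ l, (a l * b i - a i * b l) ^ 2 =
    2 * ((∑ i, a i ^ 2) * ∑ i, b i ^ 2 - (∑ i, a i * b i) ^ 2) := by
  have e1 : ∑ i, ∑ l, a l ^ 2 * b i ^ 2 = (∑ i, a i ^ 2) * ∑ i, b i ^ 2 := by
    rw [Finset.sum_mul_sum, Finset.sum_comm]
  have e : ∀ i l, (a l * b i - a i * b l) ^ 2 =
      a l ^ 2 * b i ^ 2 + a i ^ 2 * b l ^ 2 - 2 * (a i * b i * (a l * b l)) := fun i l => by ring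
  simp only [e, Finset.sum_sub_distrib, Finset.sum_add_distrib, e1, ← Finset.mul_sum,
    ← Finset.sum_mul]
  ring

private theorem sq_KC1 (h : Fin m → Fin m → Fin m → ℝ) :
    ∑ i, ∑ j, ∑ k, ∑ l, (∑ a, h i j a * h a k l) ^ 2 ≤ (∑ i, ∑ j, ∑ k, h i j k ^ 2) ^ 2 := by
  have e : ∑ k, ∑ l, ∑ a, h a k l ^ 2 = ∑ i, ∑ j, ∑ k, h i j k ^ 2 :=
    (Finset.sum_congr rfl fun _ _ => Finset.sum_comm).trans Finset.sum_comm
  refine (Finset.sum_le_sum fun i _ => Finset.sum_le_sum fun j _ => Finset.sum_le_sum fun k _ =>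
    Finset.sum_le_sum fun l _ => Finset.sum_mul_sq_le_sq_mul_sq _ _ _).trans (le_of_eq ?_)
  simp only [← Finset.mul_sum, ← Finset.sum_mul]
  rw [e, sq]

theorem Jet.bound (J : Jet lam T h H V) (t o D E : ℝ) (hD : D = T - ∑ i, lam i ^ 3)
    (hE : E = ∑ i, (lam i ^ 2 - 1) ^ 2) (hom : 0 < o) (hl : ∀ l, o ≤ 1 + t * lam l) :
    3 / 2 * o * (m * E - D ^ 2) - 9 * t ^ 2 / (4 * o) * (T * D) ^ 2 ≤
      ∑ i, ∑ j, ∑ k, ∑ l, (1 + t * lam l) * H i j k l ^ 2 -
        3 * t * ∑ i, ∑ j, ∑ k, ∑ l, (∑ a, h i j a * h a k l) * H i j k l := by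
  obtain ⟨τ, hτ⟩ : ∃ τ : Fin m → Fin m → ℝ, ∀ i l,
      τ i l = lam l * (lam i ^ 2 - 1) - lam i * (lam l ^ 2 - 1) := ⟨_, fun _ _ => rfl⟩
  obtain ⟨W, hW⟩ : ∃ W : Fin m → Fin m → Fin m → Fin m → ℝ, ∀ i j k l,
      W i j k l = ∑ a, h i j a * h a k l := ⟨_, fun _ _ _ _ => rfl⟩
  obtain ⟨K, hK⟩ : ∃ K : Fin m → Fin m → Fin m → Fin m → ℝ, ∀ i j k l, K i j k l =
      dl i j * dl k l * τ i l + dl i k * dl j l * τ i l + dl j k * dl i l * τ j l :=
    ⟨_, fun _ _ _ _ => rfl⟩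
  have ta : ∀ i l, τ l i = -τ i l := fun i l => by rw [hτ, hτ, neg_sub]
  have tH : ∀ i l, H i i l l - H l l i i = τ i l := fun i l => by
    have e := J.ric4 i l i l
    rw [J.H23 i l i l, J.H12 i l l i, J.H23 l i l i] at e
    rw [e, hτ]
    by_cases hil : i = l
    · simp [hil]
    · simp only [dl, hil, if_true, if_false]
      ring
  have tK : ∀ i l, K i i l l + K i l i l + K l i i l = 3 * τ i l := fun i l => by
    simp only [hK]
    by_cases hil : i = l
    · simp [hil, hτ]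
    · simp only [dl, hil, Ne.symm hil, if_true, if_false]
      ring
  have t2 : ∑ i, ∑ l, τ i l * τ i l = 2 * (m * E - D ^ 2) := by
    have e := lag_KC1 lam fun i => lam i ^ 2 - 1
    have e2 : ∑ i, lam i * (lam i ^ 2 - 1) = -D := by
      rw [hD, ← J.tr1, neg_sub, ← Finset.sum_sub_distrib]
      exact Finset.sum_congr rfl fun i _ => by ring
    rw [J.tr2, ← hE, e2, neg_sq] at e
    simp only [← sq, hτ]
    exact e
  have a1 := anti_KC1 (S := fun i l => H i i l l + H l l i i) (fun i l => add_comm _ _) ta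
  have a2 := anti_KC1 (S := fun i l => W i i l l + W i l i l + W l i i l) (fun i l => by
    simp only [hW, ← Finset.sum_add_distrib]
    exact Finset.sum_congr rfl fun a _ => by
      rw [J.h12 a i i, J.h23 i a i, J.h12 a l l, J.h23 l a l, J.h12 l i a, J.h23 a l i]
      ring) ta
  have a3 := pair_KC1 (fun i j k l => o * H i j k l - o / 4 * K i j k l - 3 * t / 2 * W i j k l) τ
  have a4 : ∀ i l, (o * H i i l l - o / 4 * K i i l l - 3 * t / 2 * W i i l l +
      (o * H i l i l - o / 4 * K i l i l - 3 * t / 2 * W i l i l) +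
      (o * H l i i l - o / 4 * K l i i l - 3 * t / 2 * W l i i l)) * τ i l =
      3 / 2 * o * ((H i i l l + H l l i i) * τ i l) + 3 / 4 * o * (τ i l * τ i l) -
        3 * t / 2 * ((W i i l l + W i l i l + W l i i l) * τ i l) := fun i l => by
    rw [J.H12 l i i l, J.H23 i l i l]
    linear_combination 3 / 2 * o * τ i l * tH i l - o / 4 * τ i l * tK i l
  simp only [a4, ← hK, Finset.sum_sub_distrib, Finset.sum_add_distrib, ← Finset.mul_sum] at a3
  rw [a1, a2, t2] at a3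
  have a5 := sq_KC1 h
  rw [J.P0, ← hD] at a5
  have a6 : ∀ i j k l, (o * H i j k l - o / 4 * K i j k l - 3 * t / 2 * W i j k l) * K i j k l -
      9 * t ^ 2 / (4 * o) * W i j k l ^ 2 ≤
      (1 + t * lam l) * H i j k l ^ 2 - 3 * t * (W i j k l * H i j k l) := fun i j k l => by
    have b1 := mul_nonneg (sub_nonneg.2 (hl l)) (sq_nonneg (H i j k l))
    have b2 := mul_nonneg hom.le
      (sq_nonneg (H i j k l - K i j k l / 2 - 3 * t / (2 * o) * W i j k l))
    have b3 : o * (H i j k l - K i j k l / 2 - 3 * t / (2 * o) * W i j k l) ^ 2 =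
        o * H i j k l ^ 2 - 3 * t * (W i j k l * H i j k l) -
        ((o * H i j k l - o / 4 * K i j k l - 3 * t / 2 * W i j k l) * K i j k l -
          9 * t ^ 2 / (4 * o) * W i j k l ^ 2) := by
      field_simp
      ring
    linarith
  have a7 := Finset.sum_le_sum (s := Finset.univ) fun i _ =>
    Finset.sum_le_sum (s := Finset.univ) fun j _ => Finset.sum_le_sum (s := Finset.univ) fun k _ =>
      Finset.sum_le_sum (s := Finset.univ) fun l _ => a6 i j k l
  simp only [Finset.sum_sub_distrib, ← Finset.mul_sum] at a7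
  simp only [← hW] at a5 ⊢
  have a8 := mul_le_mul_of_nonneg_left a5 (by positivity : 0 ≤ 9 * t ^ 2 / (4 * o))
  linarith

end BiH
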