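import Pool.Agent.P.MP_ecb6bc_gt.KDefs

/-! Positivity of the weighted square norm. -/

set_option autoImplicit false
set_option linter.unusedSectionVars false
set_option linter.unusedVariables false

noncomputable section

namespace BiH

open Matrix
open scoped ContDiff

variable {m : ℕ} {lam : Fin m → ℝ} {T : ℝ} {h : Fin m → Fin m → Fin m → ℝ}
  {H : Fin m → Fin m → Fin m → Fin m → ℝ} {V : Fin m → Fin m → Fin m → Fin m → Fin m → ℝ}


theorem split_KC2 (F : Fin m → Fin m → Fin m → ℝ) (h12 : ∀ i j k, F i j k = F j i k)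
    (h23 : ∀ i j k, F i j k = F i k j) (hd : ∀ i j k, i ≠ j → j ≠ k → i ≠ k → 0 ≤ F i j k) :
    ∑ k, ∑ i, wt i k * F i i k ≤ ∑ i, ∑ j, ∑ k, F i j k := by
  have h1 : ∀ i k, wt i k * F i i k = 3 * F i i k - if i = k then 2 * F k k k else 0 :=
    fun i k => by
      unfold wt
      split_ifs with e
      · subst e
        ring
      · ring
  refine le_trans (le_of_eq ?_) (Finset.sum_le_sum fun i _ => Finset.sum_le_sum fun j _ =>
    Finset.sum_le_sum (f := fun k => (if j = i then F i i k else 0) + (if k = j then F j j i else 0) +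
      (if k = i then F i i j else 0) - if j = i then (if k = i then 2 * F i i i else 0) else 0)
      fun k _ => ?_)
  · simp only [h1, Finset.sum_add_distrib, Finset.sum_sub_distrib, Finset.sum_ite_irrel,
      Finset.sum_const_zero, Finset.sum_ite_eq', Finset.mem_univ, if_true, ← Finset.mul_sum]
    rw [Finset.sum_comm (f := fun k i => F i i k)]
    ring
  · by_cases a : j = i <;> by_cases b : k = j <;> by_cases c : k = i
    · subst a b
      simp only [if_true]
      linarith
    · exact (c (b.trans a)).elim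
    · exact (b (c.trans a.symm)).elim
    · subst a
      simp [b]
    · exact (a (b.symm.trans c)).elim
    · subst b
      simp [a, h12 i, h23 k i]
    · subst c
      simp [a, b, h23 k j]
    · simpa [a, b, c] using hd i j k (Ne.symm a) (Ne.symm b) (Ne.symm c)

theorem weighted_nonneg (h12 : ∀ i j k, h i j k = h j i k) (h23 : ∀ i j k, h i j k = h i k j)
    (h0 : ∀ k, ∑ i, h i i k = 0) (h1 : ∀ k, ∑ i, lam i * h i i k = 0)
    (κ : Fin m → Fin m → Fin m → ℝ) (κ12 : ∀ i j k, κ i j k = κ j i k)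
    (κ23 : ∀ i j k, κ i j k = κ i k j) (c ρ : ℝ) (μ : Fin m) (hne : lam μ ≠ c)
    (hρ : ∑ j ∈ Finset.univ.erase μ, (lam j - c) ^ 2 = ρ * (lam μ - c) ^ 2)
    (hd : ∀ i j k, i ≠ j → j ≠ k → i ≠ k → 0 ≤ κ i j k) (ho : ∀ i k, i ≠ μ → 0 ≤ κ i i k)
    (ht : ∀ i k, i ≠ μ → 0 ≤ wt i k * κ i i k + wt μ k * ρ * κ μ μ k) :
    0 ≤ ∑ i, ∑ j, ∑ k, h i j k ^ 2 * κ i j k := by
  refine le_trans (Finset.sum_nonneg fun k _ => ?_) (split_KC2 (fun i j k => h i j k ^ 2 * κ i j k)
    (fun i j k => by rw [h12, κ12]) (fun i j k => by rw [h23, κ23])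
    fun i j k a b c => mul_nonneg (sq_nonneg _) (hd i j k a b c))
  have w0 : ∀ i, 0 < wt i k := fun i => by
    unfold wt
    split_ifs <;> norm_num
  rcases le_total 0 (κ μ μ k) with e | e
  · refine Finset.sum_nonneg fun i _ => mul_nonneg (w0 i).le (mul_nonneg (sq_nonneg _) ?_)
    exact (eq_or_ne i μ).elim (fun a => a ▸ e) (ho i k)
  have a1 : (lam μ - c) * h μ μ k = -∑ j ∈ Finset.univ.erase μ, (lam j - c) * h j j k := by
    rw [eq_neg_iff_add_eq_zero,
      Finset.add_sum_erase _ (fun j => (lam j - c) * h j j k) (Finset.mem_univ μ)]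
    simp only [sub_mul, Finset.sum_sub_distrib, ← Finset.mul_sum, h0, h1, mul_zero, sub_zero]
  have a2 := Finset.sum_mul_sq_le_sq_mul_sq (Finset.univ.erase μ) (fun j => lam j - c)
    fun j => h j j k
  rw [← neg_sq, ← a1, hρ, mul_pow, mul_comm ρ, mul_assoc] at a2
  have a3 := mul_le_mul_of_nonpos_left
    (le_of_mul_le_mul_left a2 (sq_pos_of_ne_zero (sub_ne_zero.2 hne)))
    (mul_nonpos_of_nonneg_of_nonpos (w0 μ).le e)
  have a4 := Finset.sum_nonneg (s := Finset.univ.erase μ) fun i hi =>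
    mul_nonneg (sq_nonneg (h i i k)) (ht i k (Finset.ne_of_mem_erase hi))
  simp only [mul_add, Finset.sum_add_distrib, ← Finset.sum_mul, mul_left_comm _ (wt _ k)] at a4
  rw [← Finset.add_sum_erase _ _ (Finset.mem_univ μ)]
  linarith

end BiH
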