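import Pool.Agent.P.MP_ecb6bc_gt.KD4
import Pool.Agent.P.MP_ecb6bc_gt.KTa
import Pool.Agent.P.MP_ecb6bc_gt.KTb
import Pool.Agent.P.MP_ecb6bc_gt.KTc

/-! The inequalities between principal curvatures hold in low dimensions. -/

set_option autoImplicit false
set_option maxRecDepth 100000

noncomputable section

namespace BiH

theorem cell3_0 : Good 3 0 4096 0 16384 1024 3072 :=
  Good.cell (by norm_num) 192 (by decide +kernel) rD3_0 rA3_0 rB3_0 rC3_0

theorem good3 : Good 3 0 8192 0 32768 1024 3072 :=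
  (Good.sT 4096 (Good.sD 16384 cell3_0 (Good.three 837 (by decide +kernel))) (Good.two
  (by decide +kernel)))

theorem cell4_0 : Good 4 0 4096 0 16384 1024 3072 :=
  Good.cell (by norm_num) 192 (by decide +kernel) rD4_0 rA4_0 rB4_0 rC4_0

theorem good4 : Good 4 0 8192 0 32768 1024 3072 :=
  (Good.sT 4096 (Good.sD 16384 cell4_0 (Good.three 731 (by decide +kernel))) (Good.two
  (by decide +kernel)))

theorem cell5_0 : Good 5 0 2048 0 16384 1024 2048 :=
  Good.cell (by norm_num) 256 (by decide +kernel) rD5_0 rA5_0 rB5_0 rC5_0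

theorem cell5_1 : Good 5 2048 4096 0 16384 1024 2048 :=
  Good.cell (by norm_num) 320 (by decide +kernel) rD5_1 rA5_1 rB5_1 rC5_1

theorem cell5_2 : Good 5 0 4096 0 16384 2048 3072 :=
  Good.cell (by norm_num) 160 (by decide +kernel) rD5_2 rA5_2 rB5_2 rC5_2

theorem good5 : Good 5 0 8192 0 32768 1024 3072 :=
  (Good.sT 4096 (Good.sD 16384 (Good.sS 2048 (Good.sT 2048 cell5_0 cell5_1) cell5_2) (Good.three
  662 (by decide +kernel))) (Good.two (by decide +kernel)))

theorem cell6_0 : Good 6 0 2048 0 8192 1024 1536 :=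
  Good.cell (by norm_num) 384 (by decide +kernel) rD6_0 rA6_0 rB6_0 rC6_0

theorem cell6_1 : Good 6 0 1024 0 8192 1536 2048 :=
  Good.cell (by norm_num) 64 (by decide +kernel) rD6_1 rA6_1 rB6_1 rC6_1

theorem cell6_2 : Good 6 1024 2048 0 4096 1536 2048 :=
  Good.cell (by norm_num) 256 (by decide +kernel) rD6_2 rA6_2 rB6_2 rC6_2

theorem cell6_3 : Good 6 1024 2048 4096 8192 1536 2048 :=
  Good.cell (by norm_num) 288 (by decide +kernel) rD6_3 rA6_3 rB6_3 rC6_3

theorem cell6_4 : Good 6 0 2048 8192 16384 1024 2048 :=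
  Good.cell (by norm_num) 320 (by decide +kernel) rD6_4 rA6_4 rB6_4 rC6_4

theorem cell6_5 : Good 6 2048 4096 0 16384 1024 2048 :=
  Good.cell (by norm_num) 288 (by decide +kernel) rD6_5 rA6_5 rB6_5 rC6_5

theorem cell6_6 : Good 6 0 1024 0 8192 2048 2560 :=
  Good.cell (by norm_num) 0 (by decide +kernel) rD6_6 rA6_6 rB6_6 rC6_6

theorem cell6_7 : Good 6 1024 2048 0 4096 2048 2560 :=
  Good.cell (by norm_num) 160 (by decide +kernel) rD6_7 rA6_7 rB6_7 rC6_7

theorem cell6_8 : Good 6 1024 2048 4096 8192 2048 2560 :=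
  Good.cell (by norm_num) 192 (by decide +kernel) rD6_8 rA6_8 rB6_8 rC6_8

theorem cell6_9 : Good 6 0 2048 8192 16384 2048 3072 :=
  Good.cell (by norm_num) 160 (by decide +kernel) rD6_9 rA6_9 rB6_9 rC6_9

theorem cell6_10 : Good 6 0 4096 16384 32768 1024 3072 :=
  Good.cell (by norm_num) 320 (by decide +kernel) rD6_10 rA6_10 rB6_10 rC6_10

theorem cell6_11 : Good 6 4096 8192 0 16384 1024 3072 :=
  Good.cell (by norm_num) 512 (by decide +kernel) rD6_11 rA6_11 rB6_11 rC6_11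

theorem good6 : Good 6 0 8192 0 32768 1024 3072 :=
  (Good.sT 4096 (Good.sD 16384 (Good.sS 2048 (Good.sT 2048 (Good.sD 8192 (Good.sS 1536 cell6_0
  (Good.sT 1024 cell6_1 (Good.sD 4096 cell6_2 cell6_3))) cell6_4) cell6_5) (Good.sT 2048 (Good.sD
  8192 (Good.sS 2560 (Good.sT 1024 cell6_6 (Good.sD 4096 cell6_7 cell6_8)) (Good.two
  (by decide +kernel))) cell6_9) (Good.two (by decide +kernel)))) cell6_10) (Good.sD 16384
  cell6_11 (Good.three 1024 (by decide +kernel))))

theorem cell7_0 : Good 7 0 2048 0 8192 1024 1536 :=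
  Good.cell (by norm_num) 384 (by decide +kernel) rD7_0 rA7_0 rB7_0 rC7_0

theorem cell7_1 : Good 7 0 2048 0 8192 1536 2048 :=
  Good.cell (by norm_num) 224 (by decide +kernel) rD7_1 rA7_1 rB7_1 rC7_1

theorem cell7_2 : Good 7 0 2048 8192 16384 1024 2048 :=
  Good.cell (by norm_num) 288 (by decide +kernel) rD7_2 rA7_2 rB7_2 rC7_2

theorem cell7_3 : Good 7 2048 3072 0 4096 1024 1280 :=
  Good.cell (by norm_num) 576 (by decide +kernel) rD7_3 rA7_3 rB7_3 rC7_3

theorem cell7_4 : Good 7 2048 3072 0 4096 1280 1536 :=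
  Good.cell (by norm_num) 416 (by decide +kernel) rD7_4 rA7_4 rB7_4 rC7_4

theorem cell7_5 : Good 7 2048 3072 4096 8192 1024 1536 :=
  Good.cell (by norm_num) 704 (by decide +kernel) rD7_5 rA7_5 rB7_5 rC7_5

theorem cell7_6 : Good 7 3072 4096 0 4096 1024 1280 :=
  Good.cell (by norm_num) 704 (by decide +kernel) rD7_6 rA7_6 rB7_6 rC7_6

theorem cell7_7 : Good 7 3072 4096 0 4096 1280 1536 :=
  Good.cell (by norm_num) 576 (by decide +kernel) rD7_7 rA7_7 rB7_7 rC7_7

theorem cell7_8 : Good 7 2048 3072 0 4096 1536 2048 :=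
  Good.cell (by norm_num) 288 (by decide +kernel) rD7_8 rA7_8 rB7_8 rC7_8

theorem cell7_9 : Good 7 2048 3072 4096 8192 1536 2048 :=
  Good.cell (by norm_num) 384 (by decide +kernel) rD7_9 rA7_9 rB7_9 rC7_9

theorem cell7_10 : Good 7 3072 4096 0 8192 1536 2048 :=
  Good.cell (by norm_num) 384 (by decide +kernel) rD7_10 rA7_10 rB7_10 rC7_10

theorem cell7_11 : Good 7 2048 4096 8192 16384 1024 2048 :=
  Good.cell (by norm_num) 608 (by decide +kernel) rD7_11 rA7_11 rB7_11 rC7_11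

theorem cell7_12 : Good 7 0 1024 0 8192 2048 2560 :=
  Good.cell (by norm_num) 0 (by decide +kernel) rD7_12 rA7_12 rB7_12 rC7_12

theorem cell7_13 : Good 7 1024 2048 0 8192 2048 2560 :=
  Good.cell (by norm_num) 160 (by decide +kernel) rD7_13 rA7_13 rB7_13 rC7_13

theorem cell7_14 : Good 7 0 2048 8192 16384 2048 3072 :=
  Good.cell (by norm_num) 160 (by decide +kernel) rD7_14 rA7_14 rB7_14 rC7_14

theorem cell7_15 : Good 7 2048 3072 0 4096 2048 2560 :=
  Good.cell (by norm_num) 224 (by decide +kernel) rD7_15 rA7_15 rB7_15 rC7_15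

theorem cell7_16 : Good 7 2048 3072 4096 8192 2048 2560 :=
  Good.cell (by norm_num) 288 (by decide +kernel) rD7_16 rA7_16 rB7_16 rC7_16

theorem cell7_17 : Good 7 2048 4096 8192 16384 2048 3072 :=
  Good.cell (by norm_num) 288 (by decide +kernel) rD7_17 rA7_17 rB7_17 rC7_17

theorem cell7_18 : Good 7 0 4096 16384 32768 1024 3072 :=
  Good.cell (by norm_num) 192 (by decide +kernel) rD7_18 rA7_18 rB7_18 rC7_18

theorem cell7_19 : Good 7 4096 8192 0 16384 1024 3072 :=
  Good.cell (by norm_num) 416 (by decide +kernel) rD7_19 rA7_19 rB7_19 rC7_19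

theorem good7 : Good 7 0 8192 0 32768 1024 3072 :=
  (Good.sT 4096 (Good.sD 16384 (Good.sS 2048 (Good.sT 2048 (Good.sD 8192 (Good.sS 1536 cell7_0
  cell7_1) cell7_2) (Good.sD 8192 (Good.sS 1536 (Good.sT 3072 (Good.sD 4096 (Good.sS 1280 cell7_3
  cell7_4) cell7_5) (Good.sD 4096 (Good.sS 1280 cell7_6 cell7_7) (Good.three 896
  (by decide +kernel)))) (Good.sT 3072 (Good.sD 4096 cell7_8 cell7_9) cell7_10)) cell7_11))
  (Good.sT 2048 (Good.sD 8192 (Good.sS 2560 (Good.sT 1024 cell7_12 cell7_13) (Good.two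
  (by decide +kernel))) cell7_14) (Good.sD 8192 (Good.sS 2560 (Good.sT 3072 (Good.sD 4096
  cell7_15 cell7_16) (Good.two (by decide +kernel))) (Good.two (by decide +kernel))) cell7_17)))
  cell7_18) (Good.sD 16384 cell7_19 (Good.three 948 (by decide +kernel))))

theorem exists_spec {m : ℕ} (hm3 : 3 ≤ m) (hm : m ≤ 7) (lam : Fin m → ℝ) (T D E : ℝ)
    (h1 : ∑ i, lam i = T) (h2 : ∑ i, lam i ^ 2 = m) (hD : D = T - ∑ i, lam i ^ 3)
    (hE : E = ∑ i, (lam i ^ 2 - 1) ^ 2) (hT : 0 < T) (hD0 : 0 < D) :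
    ∃ t o c ρ μ, Spec lam T D E t o c ρ μ := by
  refine Good.spec (by omega) (by omega) ?_ lam T D E h1 h2 hD hE hT hD0
  interval_cases m
  exacts [good3, good4, good5, good6, good7]

end BiH
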