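import Pool.Agent.P.MP_ecb6bc_gt.KB5
import Pool.Agent.P.MP_ecb6bc_gt.KC1
import Pool.Agent.P.MP_ecb6bc_gt.KC2
import Pool.Agent.P.MP_ecb6bc_gt.KSpec

/-! Rigidity of jets. -/

set_option autoImplicit false
set_option linter.unusedSectionVars false
set_option linter.unusedVariables false

noncomputable section

namespace BiH

open Matrix
open scoped ContDiff

variable {m : ℕ} {lam : Fin m → ℝ} {T : ℝ} {h : Fin m → Fin m → Fin m → ℝ}
  {H : Fin m → Fin m → Fin m → Fin m → ℝ} {V : Fin m → Fin m → Fin m → Fin m → Fin m → ℝ}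


theorem Jet.rigid (J : Jet lam T h H V) (hm : m ≤ 7) (hT : 0 < T) :
    (∀ i j k, h i j k = 0) ∧ ∀ i, lam i ^ 2 = 1 := by
  obtain ⟨D, hD⟩ : ∃ D, D = T - ∑ i, lam i ^ 3 := ⟨_, rfl⟩
  obtain ⟨E, hE⟩ : ∃ E, E = ∑ i, (lam i ^ 2 - 1) ^ 2 := ⟨_, rfl⟩
  have hP : ∑ i, ∑ j, ∑ k, h i j k ^ 2 = T * D := hD ▸ J.P0
  have hle : D ≤ 0 := by
    by_contra hn
    have hD0 : 0 < D := not_le.1 hn
    have t1 := J.tr1
    have t2 := J.tr2
    rcases lt_or_ge m 3 with h3 | h3
    · interval_cases m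
      · simp at t1
        exact hT.ne t1
      · simp only [Fin.sum_univ_one, Nat.cast_one] at t1 t2 hD
        rw [hD, ← t1, pow_succ, t2, one_mul, sub_self] at hD0
        exact lt_irrefl _ hD0
      · simp only [Fin.sum_univ_two, Nat.cast_ofNat] at t1 t2 hD
        have e : D = -(T * (lam 0 - lam 1) ^ 2 / 2) := by
          rw [hD, ← t1]
          linear_combination (-(lam 0 + lam 1) / 2) * t2
        have := mul_nonneg hT.le (sq_nonneg (lam 0 - lam 1))
        linarith
    obtain ⟨t, o, c, ρ, μ, S⟩ := exists_spec h3 hm lam T D E t1 t2 hD hE hT hD0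
    have w := weighted_nonneg J.h12 J.h23 J.h0 J.h1
      (fun i j k => kap m t T D (lam i) (lam j) (lam k) + shf m t o T D E)
      (fun i j k => by simp only [kap]; ring) (fun i j k => by simp only [kap]; ring) c ρ μ S.ne
      S.rho S.dis S.one S.two
    have i1 := J.ident t D E hD hE
    have i2 := J.bound t o D E hD hE S.pos S.om
    simp only [mul_add, Finset.sum_add_distrib, ← Finset.sum_mul, hP] at w
    have hTD := mul_pos hT hD0
    rw [shf, mul_sub, mul_div_cancel₀ _ hTD.ne'] at w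
    linarith
  have nn : ∀ i j k, 0 ≤ h i j k ^ 2 := fun _ _ _ => sq_nonneg _
  have n2 : ∀ i j, 0 ≤ ∑ k, h i j k ^ 2 := fun i j => Finset.sum_nonneg fun k _ => nn i j k
  have n1 : ∀ i, 0 ≤ ∑ j, ∑ k, h i j k ^ 2 := fun i => Finset.sum_nonneg fun j _ => n2 i j
  have h0 : ∀ i j k, h i j k = 0 := by
    intro i j k
    have a1 := Finset.single_le_sum (fun i _ => n1 i) (Finset.mem_univ i)
    have a2 := Finset.single_le_sum (fun j _ => n2 i j) (Finset.mem_univ j)
    have a3 := Finset.single_le_sum (fun k _ => nn i j k) (Finset.mem_univ k)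
    have a4 := mul_nonpos_of_nonneg_of_nonpos hT.le hle
    exact pow_eq_zero_iff two_ne_zero |>.1 (le_antisymm (by linarith) (nn i j k))
  refine ⟨h0, fun i => ?_⟩
  have i1 := J.ident 0 D E hD hE
  simp only [h0, zero_mul, mul_zero, add_zero, one_mul, sub_zero, zero_pow two_ne_zero,
    Finset.sum_const_zero] at i1
  have b1 : 0 ≤ ∑ i, ∑ j, ∑ k, ∑ l, H i j k l ^ 2 :=
    Finset.sum_nonneg fun _ _ => Finset.sum_nonneg fun _ _ => Finset.sum_nonneg fun _ _ =>
      Finset.sum_nonneg fun _ _ => sq_nonneg _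
  have b2 : E ≤ 0 := by
    by_contra hn
    have := mul_pos (pow_pos hT 2) (not_le.1 hn)
    linarith
  have b3 := Finset.single_le_sum (fun i _ => sq_nonneg (lam i ^ 2 - 1)) (Finset.mem_univ i)
  exact sub_eq_zero.1 (pow_eq_zero_iff two_ne_zero |>.1
    (le_antisymm (b3.trans (hE ▸ b2)) (sq_nonneg _)))

end BiH
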