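import Pool.Agent.P.MP_ecb6bc_gt.KDefs

/-! A checker for polynomial inequalities on boxes, in exact arithmetic of natural numbers.
All real quantities are scaled by `1024`; the three eigenvalue slots are shifted by `4096`. -/

set_option autoImplicit false
set_option linter.unusedVariables false

noncomputable section

namespace BiH

/-- An integer as a difference of natural numbers. -/
structure Z where
  p : ℕ
  n : ℕ

namespace Z

/-- The real value. -/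
def r (a : Z) : ℝ := (a.p : ℝ) - a.n
/-- Sum. -/
def add (a b : Z) : Z := ⟨Nat.add a.p b.p, Nat.add a.n b.n⟩
/-- Difference. -/
def sub (a b : Z) : Z := ⟨Nat.add a.p b.n, Nat.add a.n b.p⟩
/-- Product. -/
def mul (a b : Z) : Z :=
  ⟨Nat.add (Nat.mul a.p b.p) (Nat.mul a.n b.n), Nat.add (Nat.mul a.p b.n) (Nat.mul a.n b.p)⟩
/-- Multiple. -/
def sm (k : ℕ) (a : Z) : Z := ⟨Nat.mul k a.p, Nat.mul k a.n⟩
/-- Sum with a natural number. -/
def an (k : ℕ) (a : Z) : Z := ⟨Nat.add k a.p, a.n⟩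
/-- Absolute value. -/
def abs (a : Z) : ℕ := Nat.add (Nat.sub a.p a.n) (Nat.sub a.n a.p)
/-- Negative part. -/
def ng (a : Z) : ℕ := Nat.sub a.n a.p
/-- The difference of two natural numbers in reduced form. -/
def df (a b : ℕ) : Z := ⟨Nat.sub a b, Nat.sub b a⟩

end Z

/-- Coefficients of a second order expansion of the weight. -/
structure KQ where
  v : Z
  gT : Z
  gD : Z
  g1 : Z
  g2 : Z
  g3 : Z
  h1 : Z
  h2 : Z
  h3 : Z
  o12 : Z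
  o13 : Z
  o23 : Z
  a1 : Z
  a2 : Z
  a3 : Z
  rem : ℕ

/-- Coefficients of the expansion of the weight with two equal arguments. -/
structure K2 where
  v : Z
  gT : Z
  gD : Z
  gx : Z
  gz : Z
  hx : Z
  hz : Z
  o : Z
  ax : Z
  az : Z
  rem : ℕ

/-- Coefficients of the expansion of the shift. -/
structure SQ where
  v : Z
  gT : Z
  gD : Z
  g1 : Z
  g2 : Z
  g3 : Z
  h1 : Z
  h2 : Z
  h3 : Z
  b1 : Z
  b2 : Z
  b3 : Z
  td : Z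

/-- Second stage of `kap3Q`. -/
def kap3B (m : ℕ) (t : Z) (T D : ℕ) (x y z : Z) (rT rx ry rz : ℕ)
    (s x2 y2 z2 p2 w c1 tT P2 t2 : Z) (S : ℕ) : KQ where
  v := ((((tT.sm 5).add (t2.sm D)).add ((c1.mul s).sm 2)).an
      (Nat.mul (Nat.add m 3) 2097152) |>.sm 1048576).add ((P2.mul w).add
      (t2.mul ((s.mul p2).sub ((((x2.mul x).add (y2.mul y)).add (z2.mul z)).sm 2))))
  gT := (((t.sm 5).add (s.sm 4)).sm 1048576).add (t.mul w)
  gD := t2.sm 1048576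
  g1 := (c1.sm 2097152).add ((P2.mul ((s.sm 2).sub (x.sm 4))).add
    (t2.mul (p2.add (((s.mul x).sm 2).sub (x2.sm 6)))))
  g2 := (c1.sm 2097152).add ((P2.mul ((s.sm 2).sub (y.sm 4))).add
    (t2.mul (p2.add (((s.mul y).sm 2).sub (y2.sm 6)))))
  g3 := (c1.sm 2097152).add ((P2.mul ((s.sm 2).sub (z.sm 4))).add
    (t2.mul (p2.add (((s.mul z).sm 2).sub (z2.sm 6)))))
  h1 := (t2.mul (s.sub (x.sm 4))).sub P2
  h2 := (t2.mul (s.sub (y.sm 4))).sub P2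
  h3 := (t2.mul (s.sub (z.sm 4))).sub P2
  o12 := (P2.add (t2.mul (x.add y))).sm 2
  o13 := (P2.add (t2.mul (x.add z))).sm 2
  o23 := (P2.add (t2.mul (y.add z))).sm 2
  a1 := (t2.mul (s.sub (x.sm 2))).an 4194304
  a2 := (t2.mul (s.sub (y.sm 2))).an 4194304
  a3 := (t2.mul (s.sub (z.sm 2))).an 4194304
  rem := Nat.mul (Nat.mul t.abs S) (Nat.add (Nat.mul 2 (Nat.add (Nat.add (Nat.mul rx rx)
    (Nat.mul ry ry)) (Nat.mul rz rz))) (Nat.mul rT S))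

/-- First stage of `kap3Q`. -/
def kap3A (m : ℕ) (t : Z) (T D : ℕ) (x y z : Z) (rT rx ry rz : ℕ) (s x2 y2 z2 p2 tT : Z) : KQ :=
  kap3B m t T D x y z rT rx ry rz s x2 y2 z2 p2 ((s.mul s).sub (p2.sm 2))
    ((t.sm (Nat.add m 1)).an (Nat.mul 2 T)) tT (tT.an 2097152) (t.sm 2)
    (Nat.add (Nat.add rx ry) rz)

/-- Auxiliary stage of `kap3Q`. -/
def kap3C (m : ℕ) (t : Z) (T D : ℕ) (x y z : Z) (rT rx ry rz : ℕ) (x2 y2 z2 : Z) : KQ :=
  kap3A m t T D x y z rT rx ry rz ((x.add y).add z) x2 y2 z2 ((x2.add y2).add z2) (t.sm T)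

/-- The expansion of the weight at the centre of a box. -/
def kap3Q (m : ℕ) (t : Z) (T D : ℕ) (x y z : Z) (rT rx ry rz : ℕ) : KQ :=
  kap3C m t T D x y z rT rx ry rz (x.mul x) (y.mul y) (z.mul z)

/-- Second stage of `kap2Q`. -/
def kap2B (m : ℕ) (t : Z) (T D : ℕ) (x z : Z) (rT rx rz : ℕ)
    (s x2 xz z2 w c1 tT P2 t2 : Z) : K2 where
  v := ((((tT.sm 5).add (t2.sm D)).add ((c1.mul s).sm 2)).an
      (Nat.mul (Nat.add m 3) 2097152) |>.sm 1048576).add ((P2.mul w).add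
      (t2.mul (z.mul (((x2.add xz).sm 2).sub z2))))
  gT := (((t.sm 5).add (s.sm 4)).sm 1048576).add (t.mul w)
  gD := t2.sm 1048576
  gx := (c1.sm 4194304).add (((P2.mul z).sm 4).add (t2.mul ((xz.sm 4).add (z2.sm 2))))
  gz := (c1.sm 2097152).add ((P2.mul ((x.sm 4).sub (z.sm 2))).add
    (t2.mul (((x2.sm 2).add (xz.sm 4)).sub (z2.sm 3))))
  hx := (t2.mul z).sm 2
  hz := (t2.mul ((x.sm 2).sub (z.sm 3))).sub P2
  o := (P2.add (t2.mul (x.add z))).sm 4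
  ax := ((t2.mul z).sm 2).an 8388608
  az := (t2.mul ((x.sm 2).sub z)).an 4194304
  rem := Nat.mul (Nat.mul t.abs rz) (Nat.add (Nat.mul 2 (Nat.add
    (Nat.mul 2 (Nat.mul rx (Nat.add rx rz))) (Nat.mul rz rz)))
    (Nat.mul rT (Nat.add (Nat.mul 4 rx) rz)))

/-- First stage of `kap2Q`. -/
def kap2A (m : ℕ) (t : Z) (T D : ℕ) (x z : Z) (rT rx rz : ℕ) (xz z2 tT : Z) : K2 :=
  kap2B m t T D x z rT rx rz ((x.sm 2).add z) (x.mul x) xz z2 ((xz.sm 4).sub z2)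
    ((t.sm (Nat.add m 1)).an (Nat.mul 2 T)) tT (tT.an 2097152) (t.sm 2)

/-- The expansion of the weight with two equal arguments. -/
def kap2Q (m : ℕ) (t : Z) (T D : ℕ) (x z : Z) (rT rx rz : ℕ) : K2 :=
  kap2A m t T D x z rT rx rz (x.mul z) (z.mul z) (t.sm T)

/-- The repeated argument is the first slot. -/
def K2.one (A : K2) : KQ :=
  ⟨A.v, A.gT, A.gD, A.gx, A.gz, ⟨0, 0⟩, A.hx, A.hz, ⟨0, 0⟩, A.o, ⟨0, 0⟩, ⟨0, 0⟩, A.ax, A.az,
    ⟨0, 0⟩, A.rem⟩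

/-- A combination of two weights, with repeated arguments in the first and third slot. -/
def K2.comb (k : ℕ) (A : K2) (l : ℕ) (B : K2) : KQ :=
  ⟨(A.v.sm k).add (B.v.sm l), (A.gT.sm k).add (B.gT.sm l), (A.gD.sm k).add (B.gD.sm l),
    A.gx.sm k, (A.gz.sm k).add (B.gz.sm l), B.gx.sm l, A.hx.sm k, (A.hz.sm k).add (B.hz.sm l),
    B.hx.sm l, A.o.sm k, ⟨0, 0⟩, B.o.sm l, A.ax.sm k, (A.az.sm k).add (B.az.sm l), B.ax.sm l,
    Nat.add (Nat.mul k A.rem) (Nat.mul l B.rem)⟩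

/-- Contribution of one slot to the value of the shift. -/
def shV (m mN : ℕ) (al bN u c Lc : Z) (nu : ℕ) (ud : Z) : Z :=
  (Lc.mul ((((((u.mul u).add bN).sm m).add (al.mul u)).sm 2).sub (c.sm mN))).add
    ((ud.mul ud).sm nu)

/-- Second stage of `shQ`. Here `L2 = 2 L`, `nu = 2 m N ν`, `th = 2 m N θ`. -/
def shB (m mN : ℕ) (th : Z) (T D : ℕ) (x y z : Z) (L2 : ℕ) (a b : Z) (nu nu2 : ℕ)
    (de c1 c2 c3 al bN Lb L1 L2c L3 xd yd zd : Z) : SQ where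
  v := ((((th.sm (Nat.mul T D)).sub ⟨Nat.mul mN 16777216, 0⟩).sub
      ((((a.mul a).add (b.mul b)).sm (Nat.mul L2 (Nat.mul m mN))).add
        ((al.mul Lb).sm (Nat.mul 2 T)))).add
      (((de.sm (Nat.mul 2 T)).sub (((de.mul de).an 1048576).sm m)).sm nu)).add
      (((shV m mN al bN x c1 L1 nu xd).add (shV m mN al bN y c2 L2c nu2 yd)).add
        (shV m mN al bN z c3 L3 nu zd))
  gT := (th.sm D).add (((de.sm nu).sub (al.mul Lb)).sm 2)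
  gD := (th.sm T).add ((((((L1.mul x).add (L2c.mul y)).add (L3.mul z))).sub (Lb.sm T)).sm 2)
  g1 := ((L1.mul ((x.sm (Nat.mul 2 m)).add al)).add (xd.sm nu)).sm 2
  g2 := ((L2c.mul ((y.sm (Nat.mul 2 m)).add al)).add (yd.sm nu2)).sm 2
  g3 := ((L3.mul ((z.sm (Nat.mul 2 m)).add al)).add (zd.sm nu)).sm 2
  h1 := (L1.sm (Nat.mul 2 m)).an nu
  h2 := (L2c.sm (Nat.mul 2 m)).an nu2
  h3 := (L3.sm (Nat.mul 2 m)).an nu
  b1 := L1.sm 2
  b2 := L2c.sm 2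
  b3 := L3.sm 2
  td := th.sub (Lb.sm 2)

/-- First stage of `shQ`. -/
def shA (m mN : ℕ) (th : Z) (T D : ℕ) (x y z : Z) (e L2 : ℕ) (a b : Z) (nu : ℕ)
    (de c1 c2 c3 : Z) : SQ :=
  shB m mN th T D x y z L2 a b nu (Nat.mul e nu) de c1 c2 c3 ((a.sm m).an D)
    ((b.sub ⟨1024, 0⟩).sm 1024) (b.sm L2) (c1.sm L2) (c2.sm L2) (c3.sm L2)
    (x.sub de) (y.sub de) (z.sub de)

/-- The expansion of the shift at the centre of a box. -/
def shQ (m : ℕ) (th : Z) (T D : ℕ) (x y z : Z) (e L : ℕ) (a b : Z) (nu : ℕ)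
    (de c1 c2 c3 : Z) : SQ :=
  shA m (Nat.mul m 1024) (th.sm (Nat.mul m 2048)) T D x y z e (Nat.mul 2 L) a b
    (Nat.mul nu (Nat.mul m 2048)) de c1 (c2.sm e) c3

/-- Loss in one slot. -/
def ls (g h : Z) (r : ℕ) : ℕ := Nat.mul (Nat.add g.abs (Nat.mul h.ng r)) r

/-- Final comparison. -/
def okV (v : Z) (loss : ℕ) : Bool := Nat.ble (Nat.add loss v.n) v.p

/-- The combination `k K + l S` is nonnegative on the box with the given radii. -/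
def okKS (k : ℕ) (K : KQ) (l : ℕ) (S : SQ) (rT rD r1 r2 r3 : ℕ) : Bool :=
  okV ((K.v.sm k).add (S.v.sm l))
    (Nat.add (Nat.add (Nat.add (Nat.mul ((K.gT.sm k).add (S.gT.sm l)).abs rT)
        (Nat.mul ((K.gD.sm k).add (S.gD.sm l)).abs rD))
      (Nat.add (Nat.add (ls ((K.g1.sm k).add (S.g1.sm l)) ((K.h1.sm k).add (S.h1.sm l)) r1)
        (ls ((K.g2.sm k).add (S.g2.sm l)) ((K.h2.sm k).add (S.h2.sm l)) r2))
        (ls ((K.g3.sm k).add (S.g3.sm l)) ((K.h3.sm k).add (S.h3.sm l)) r3)))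
    (Nat.add (Nat.mul k (Nat.add (Nat.add
        (Nat.add (Nat.mul r1 (Nat.add (Nat.mul K.o12.abs r2) (Nat.mul K.o13.abs r3)))
          (Nat.mul r2 (Nat.mul K.o23.abs r3)))
        (Nat.mul rT (Nat.add (Nat.add (Nat.mul K.a1.abs r1) (Nat.mul K.a2.abs r2))
          (Nat.mul K.a3.abs r3)))) K.rem))
      (Nat.mul l (Nat.mul rD (Nat.add (Nat.add (Nat.add (Nat.mul S.b1.abs r1)
        (Nat.mul S.b2.abs r2)) (Nat.mul S.b3.abs r3)) (Nat.mul S.td.abs rT))))))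

/-- Digit number `i` of a certificate. -/
def dg (n i : ℕ) : ℕ := Nat.mod (Nat.shiftRight n i) 524288

/-- A signed digit. -/
def sg (n i : ℕ) : Z := Z.df (dg n i) 262144

/-- The midpoint. -/
def md (a b : ℕ) : ℕ := Nat.div (Nat.add a b) 2

/-- The bound on the multiplier `L`. -/
def okL (m : ℕ) (t : Z) (o L Tl Th Dh : ℕ) : Bool :=
  Nat.ble (Nat.mul Tl (Nat.add (Nat.mul (Nat.mul 2 L) Dh) (Nat.mul (Nat.mul 3072 m) t.n)))
    (Nat.mul 3072 (Nat.add (Nat.mul Tl Tl) (Nat.mul m (Nat.add (Nat.mul o 1024)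
      (Nat.mul Tl t.p))))) &&
  Nat.ble (Nat.add (Nat.mul Th (Nat.add (Nat.mul (Nat.mul 2 L) Dh)
      (Nat.mul (Nat.mul 3072 m) t.n))) (Nat.mul 3072 (Nat.mul Tl Tl)))
    (Nat.mul 3072 (Nat.add (Nat.mul 2 (Nat.mul Tl Th)) (Nat.mul m (Nat.add (Nat.mul o 1024)
      (Nat.mul Th t.p)))))

/-- Leaf for three distinct indices, second stage. -/
def lfDB (m : ℕ) (t th : Z) (n cT cD : ℕ) (x y z : Z) (rT rD r1 r2 r3 : ℕ) : Bool :=
  okKS m (kap3Q m t cT cD x y z rT r1 r2 r3) 1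
    (shQ m th cT cD x y z 1 (dg n 0) (sg n 19) (sg n 38) (dg n 57) (sg n 76) (sg n 95)
      (sg n 114) (sg n 133)) rT rD r1 r2 r3

/-- Leaf for three distinct indices, first stage. -/
def lfDA (m : ℕ) (t th : Z) (n Th Dh xh yh zh cT cD cx cy cz : ℕ) : Bool :=
  lfDB m t th n cT cD (Z.df cx 4096) (Z.df cy 4096) (Z.df cz 4096) (Nat.sub Th cT)
    (Nat.sub Dh cD) (Nat.sub xh cx) (Nat.sub yh cy) (Nat.sub zh cz)

/-- Leaf for three distinct indices. -/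
def lfD (m : ℕ) (t : Z) (o : ℕ) (th : Z) (n Tl Th Dl Dh xl xh yl yh zl zh : ℕ) : Bool :=
  okL m t o (dg n 0) Tl Th Dh &&
    lfDA m t th n Th Dh xh yh zh (md Tl Th) (md Dl Dh) (md xl xh) (md yl yh) (md zl zh)

/-- The bound on the ratio `ρ`. -/
def okR (m1 ρ Tl sl : ℕ) : Bool :=
  Nat.ble (Nat.mul (Nat.mul (Nat.mul m1 m1) (Nat.add m1 1)) 1073741824)
    (Nat.add (Nat.mul ρ (Nat.mul (Nat.add (Nat.mul (Nat.add m1 1) sl) Tl)
        (Nat.add (Nat.mul (Nat.add m1 1) sl) Tl)))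
      (Nat.mul (Nat.mul 1024 m1) (Nat.add (Nat.mul m1 (Nat.mul sl sl))
        (Nat.mul (Nat.add Tl sl) (Nat.add Tl sl)))))

/-- Leaf for a repeated index, third stage. -/
def lfRC (m k l : ℕ) (A B : K2) (S : SQ) (rT rD r1 r2 r3 : ℕ) : Bool :=
  okKS m A.one 1 S rT rD r1 r2 r3 && okKS m (A.comb k l B) (Nat.add k l) S rT rD r1 r2 r3

/-- Leaf for a repeated index, second stage. -/
def lfRB (m : ℕ) (t th : Z) (e w1 w2 n cT cD : ℕ) (x y z : Z) (rT rD r1 r2 r3 : ℕ) : Bool :=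
  lfRC m (Nat.mul w1 1024) (Nat.mul w2 (dg n 152)) (kap2Q m t cT cD x y rT r1 r2)
    (kap2Q m t cT cD z y rT r3 r2)
    (shQ m th cT cD x y z e (dg n 0) (sg n 19) (sg n 38) (dg n 57) (sg n 76) (sg n 95)
      (sg n 114) (sg n 133)) rT rD r1 r2 r3

/-- Leaf for a repeated index, first stage. -/
def lfRA (m : ℕ) (t th : Z) (e w1 w2 n Th Dh xh yh zh cT cD cx cy cz : ℕ) : Bool :=
  lfRB m t th e w1 w2 n cT cD (Z.df cx 4096) (Z.df cy 4096) (Z.df cz 4096) (Nat.sub Th cT)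
    (Nat.sub Dh cD) (Nat.sub xh cx) (Nat.sub yh cy) (Nat.sub zh cz)

/-- Leaf for a repeated index. -/
def lfR (m : ℕ) (t : Z) (o : ℕ) (th : Z) (e w1 w2 n Tl Th Dl Dh xl xh yl yh zl zh : ℕ) : Bool :=
  okL m t o (dg n 0) Tl Th Dh && okR (Nat.sub m 1) (dg n 152) Tl (Nat.sub 4096 zh) &&
    lfRA m t th e w1 w2 n Th Dh xh yh zh (md Tl Th) (md Dl Dh) (md xl xh) (md yl yh) (md zl zh)

/-- Positive part of the cubic moment bound. -/
def cbP (m T sb a : ℕ) : ℕ :=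
  Nat.add (Nat.mul (Nat.add T (Nat.mul sb m)) 1048576)
    (Nat.mul (Nat.mul a a) (Nat.add T (Nat.mul sb m)))

/-- Negative part of the cubic moment bound. -/
def cbN (m T Dl sb a : ℕ) : ℕ :=
  Nat.add (Nat.mul (Nat.add Dl (Nat.mul (Nat.mul 2 a) m)) 1048576)
    (Nat.mul (Nat.mul (Nat.mul 2 a) sb) T)

/-- The second moment excludes eigenvalues below `-sb`. -/
def okS (m Tl sb : ℕ) : Bool :=
  Nat.ble (Nat.mul (Nat.mul (Nat.sub m 1) m) 1048576)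
    (Nat.add (Nat.mul (Nat.add Tl sb) (Nat.add Tl sb)) (Nat.mul (Nat.sub m 1) (Nat.mul sb sb)))

/-- The third moment excludes the box. -/
def okC (m sh sb a Tl Th Dl : ℕ) : Bool :=
  (Nat.ble sh sb || okS m Tl sb) && Nat.blt (cbP m Tl sb a) (cbN m Tl Dl sb a) &&
    Nat.blt (cbP m Th sb a) (cbN m Th Dl sb a)

/-- Subdivision trees. -/
inductive Tr where
  | s0 (l r : Tr)
  | s1 (l r : Tr)
  | s2 (l r : Tr)
  | s3 (l r : Tr)
  | s4 (l r : Tr)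
  | od
  | cb (sb a : ℕ)
  | lf (n : ℕ)

/-- Tests on boxes. -/
abbrev Bx := ℕ → ℕ → ℕ → ℕ → ℕ → ℕ → ℕ → ℕ → ℕ → ℕ → Bool

/-- Run a subdivision tree. -/
def run (fo : Bx) (fc : ℕ → ℕ → Bx) (fl : ℕ → Bx) (tr : Tr) : Bx :=
  Tr.rec (motive := fun _ => Bx)
    (fun _ _ L R Tl Th Dl Dh xl xh yl yh zl zh =>
      L Tl (md Tl Th) Dl Dh xl xh yl yh zl zh && R (md Tl Th) Th Dl Dh xl xh yl yh zl zh)
    (fun _ _ L R Tl Th Dl Dh xl xh yl yh zl zh =>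
      L Tl Th Dl (md Dl Dh) xl xh yl yh zl zh && R Tl Th (md Dl Dh) Dh xl xh yl yh zl zh)
    (fun _ _ L R Tl Th Dl Dh xl xh yl yh zl zh =>
      L Tl Th Dl Dh xl (md xl xh) yl yh zl zh && R Tl Th Dl Dh (md xl xh) xh yl yh zl zh)
    (fun _ _ L R Tl Th Dl Dh xl xh yl yh zl zh =>
      L Tl Th Dl Dh xl xh yl (md yl yh) zl zh && R Tl Th Dl Dh xl xh (md yl yh) yh zl zh)
    (fun _ _ L R Tl Th Dl Dh xl xh yl yh zl zh =>
      L Tl Th Dl Dh xl xh yl yh zl (md zl zh) && R Tl Th Dl Dh xl xh yl yh (md zl zh) zh)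
    fo fc fl tr

/-- Three distinct indices, values in decreasing order. -/
def runD (m : ℕ) (t : Z) (o : ℕ) (th : Z) (lb Tl Th Dl Dh s1 : ℕ) (tr : Tr) : Bool :=
  run (fun _ _ _ _ _ xh yl yh zl _ => Nat.blt xh yl || Nat.blt yh zl)
    (fun sb a Tl Th Dl _ _ _ _ _ _ _ => okC m s1 sb a Tl Th Dl)
    (lfD m t o th) tr Tl Th Dl Dh (4096 - s1) (4096 + lb) (4096 - s1) (4096 + lb)
    (4096 - s1) (4096 + lb)

/-- Indices `i i k` with `i`, `k`, `μ` distinct. -/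
def runA (m : ℕ) (t : Z) (o : ℕ) (th : Z) (lb Tl Th Dl Dh s0 s1 : ℕ) (tr : Tr) : Bool :=
  run (fun _ _ _ _ _ xh _ yh zl _ => Nat.blt xh zl || Nat.blt yh zl)
    (fun sb a Tl Th Dl _ _ _ _ _ zl _ => okC m (Nat.sub 4096 zl) sb a Tl Th Dl)
    (lfR m t o th 1 1 1) tr Tl Th Dl Dh (4096 - s1) (4096 + lb) (4096 - s1) (4096 + lb)
    (4096 - s1) (4096 - s0)

/-- Indices `i i μ`. -/
def runB (m : ℕ) (t : Z) (o : ℕ) (th : Z) (lb Tl Th Dl Dh s0 s1 : ℕ) (tr : Tr) : Bool :=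
  run (fun _ _ _ _ _ xh _ _ zl _ => Nat.blt xh zl)
    (fun sb a Tl Th Dl _ _ _ _ _ zl _ => okC m (Nat.sub 4096 zl) sb a Tl Th Dl)
    (fun n Tl Th Dl Dh xl xh _ _ zl zh => lfR m t o th 0 3 1 n Tl Th Dl Dh xl xh zl zh zl zh)
    tr Tl Th Dl Dh (4096 - s1) (4096 + lb) 4096 4096 (4096 - s1) (4096 - s0)

/-- Indices `i i i`. -/
def runC (m : ℕ) (t : Z) (o : ℕ) (th : Z) (lb Tl Th Dl Dh s0 s1 : ℕ) (tr : Tr) : Bool :=
  run (fun _ _ _ _ _ xh _ _ zl _ => Nat.blt xh zl)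
    (fun sb a Tl Th Dl _ _ _ _ _ zl _ => okC m (Nat.sub 4096 zl) sb a Tl Th Dl)
    (fun n Tl Th Dl Dh xl xh _ _ zl zh => lfR m t o th 0 1 3 n Tl Th Dl Dh xl xh xl xh zl zh)
    tr Tl Th Dl Dh (4096 - s1) (4096 + lb) 4096 4096 (4096 - s1) (4096 - s0)

/-- The parameters of a cell are admissible. -/
def okP (m : ℕ) (t : Z) (o : ℕ) (th : Z) (lb a Tl Th Dl s1 : ℕ) : Bool :=
  decide (0 < o ∧ o * 1024 + t.n * lb + t.p * s1 ≤ 1048576 ∧
    8 * m * o * th.p + 18 * m * (t.abs * t.abs) ≤ 12288 * o + 8 * m * o * th.n ∧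
    a ≤ lb ∧ s1 ≤ 4096 ∧
    cbP m Tl s1 a ≤ cbN m Tl Dl s1 a + (lb + s1) * ((lb - a) * (lb - a)) ∧
    cbP m Th s1 a ≤ cbN m Th Dl s1 a + (lb + s1) * ((lb - a) * (lb - a)))

/-- Every spectrum with invariants in the given box satisfies the inequalities. -/
def Good (m Tl Th Dl Dh s0 s1 : ℕ) : Prop :=
  ∀ (lam : Fin m → ℝ) (T D E : ℝ) (μ : Fin m), ∑ i, lam i = T → ∑ i, lam i ^ 2 = m →
    D = T - ∑ i, lam i ^ 3 → E = ∑ i, (lam i ^ 2 - 1) ^ 2 → 0 < T → 0 < D →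
    (∀ i, lam μ ≤ lam i) → (Tl : ℝ) ≤ 1024 * T → 1024 * T ≤ Th → (Dl : ℝ) ≤ 1024 * D →
    1024 * D ≤ Dh → (s0 : ℝ) ≤ -(1024 * lam μ) → -(1024 * lam μ) ≤ s1 →
    ∃ t o c ρ, Spec lam T D E t o c ρ μ

end BiH
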