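import Pool.Agent.P.MP_ecb6bc_gt.KD0

/-! Soundness of the expansions used by the checker. -/

set_option autoImplicit false
set_option linter.unusedVariables false

noncomputable section

namespace BiH

namespace Z

theorem r_mk (a b : ℕ) : (Z.mk a b).r = (a : ℝ) - b := rfl

theorem r_add (a b : Z) : (a.add b).r = a.r + b.r := by
  simp only [r, add, Nat.add_eq]; push_cast; ring

theorem r_sub (a b : Z) : (a.sub b).r = a.r - b.r := by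
  simp only [r, sub, Nat.add_eq]; push_cast; ring

theorem r_mul (a b : Z) : (a.mul b).r = a.r * b.r := by
  simp only [r, mul, Nat.add_eq, Nat.mul_eq]; push_cast; ring

theorem r_sm (k : ℕ) (a : Z) : (a.sm k).r = k * a.r := by
  simp only [r, sm, Nat.mul_eq]; push_cast; ring

theorem r_an (k : ℕ) (a : Z) : (a.an k).r = k + a.r := by
  simp only [r, an, Nat.add_eq]; push_cast; ring

theorem r_df (a b : ℕ) : (df a b).r = (a : ℝ) - b := by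
  simp only [r, df, Nat.sub_eq]
  rcases le_total a b with h | h
  · rw [Nat.sub_eq_zero_of_le h, Nat.cast_sub h]; push_cast; ring
  · rw [Nat.sub_eq_zero_of_le h, Nat.cast_sub h]; push_cast; ring

theorem abs_r (a : Z) : (a.abs : ℝ) = |a.r| := by
  simp only [r, abs, Nat.sub_eq, Nat.add_eq]
  rcases le_total a.p a.n with h | h
  · have : (a.p : ℝ) ≤ a.n := by exact_mod_cast h
    rw [Nat.sub_eq_zero_of_le h, abs_of_nonpos (by linarith), zero_add, Nat.cast_sub h]; ring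
  · have : (a.n : ℝ) ≤ a.p := by exact_mod_cast h
    rw [Nat.sub_eq_zero_of_le h, abs_of_nonneg (by linarith), add_zero, Nat.cast_sub h]

theorem ng_r (a : Z) : -a.r ≤ (a.ng : ℝ) := by
  simp only [r, ng, Nat.sub_eq]
  rcases le_total a.p a.n with h | h
  · rw [Nat.cast_sub h]; linarith
  · have : (a.n : ℝ) ≤ a.p := by exact_mod_cast h
    rw [Nat.sub_eq_zero_of_le h]; push_cast; linarith

end Z

/-- The value of an expansion of the weight. -/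
def KQ.ev (K : KQ) (dT dD d1 d2 d3 : ℝ) : ℝ :=
  K.v.r + K.gT.r * dT + K.gD.r * dD + K.g1.r * d1 + K.g2.r * d2 + K.g3.r * d3 +
    K.h1.r * d1 ^ 2 + K.h2.r * d2 ^ 2 + K.h3.r * d3 ^ 2 +
    K.o12.r * (d1 * d2) + K.o13.r * (d1 * d3) + K.o23.r * (d2 * d3) +
    K.a1.r * (dT * d1) + K.a2.r * (dT * d2) + K.a3.r * (dT * d3) - K.rem

/-- The value of an expansion of the weight with two equal arguments. -/
def K2.ev (K : K2) (dT dD dx dz : ℝ) : ℝ :=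
  K.v.r + K.gT.r * dT + K.gD.r * dD + K.gx.r * dx + K.gz.r * dz +
    K.hx.r * dx ^ 2 + K.hz.r * dz ^ 2 + K.o.r * (dx * dz) +
    K.ax.r * (dT * dx) + K.az.r * (dT * dz) - K.rem

/-- The value of an expansion of the shift. -/
def SQ.ev (S : SQ) (dT dD d1 d2 d3 : ℝ) : ℝ :=
  S.v.r + S.gT.r * dT + S.gD.r * dD + S.g1.r * d1 + S.g2.r * d2 + S.g3.r * d3 +
    S.h1.r * d1 ^ 2 + S.h2.r * d2 ^ 2 + S.h3.r * d3 ^ 2 +
    S.b1.r * (dD * d1) + S.b2.r * (dD * d2) + S.b3.r * (dD * d3) + S.td.r * (dT * dD)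

theorem lin_low (g : Z) (d r : ℝ) (h : |d| ≤ r) : -((g.abs : ℝ) * r) ≤ g.r * d := by
  rw [Z.abs_r]
  have h1 : |g.r * d| ≤ |g.r| * r := by
    rw [abs_mul]; exact mul_le_mul_of_nonneg_left h (abs_nonneg _)
  exact (abs_le.1 h1).1

theorem bil_low (g : Z) (d e r s : ℝ) (h : |d| ≤ r) (h' : |e| ≤ s) :
    -((g.abs : ℝ) * (r * s)) ≤ g.r * (d * e) :=
  lin_low g _ _ (by
    rw [abs_mul]; exact mul_le_mul h h' (abs_nonneg _) ((abs_nonneg _).trans h))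

theorem ls_low (g h : Z) (r : ℕ) (d : ℝ) (hd : |d| ≤ r) :
    -(ls g h r : ℝ) ≤ g.r * d + h.r * d ^ 2 := by
  have h1 := lin_low g d r hd
  have h2 := h.ng_r
  have h3 : d ^ 2 ≤ (r : ℝ) ^ 2 := by
    rw [← sq_abs]; exact pow_le_pow_left₀ (abs_nonneg _) hd 2
  have h4 : (0 : ℝ) ≤ h.ng := Nat.cast_nonneg _
  have h5 : (h.ng : ℝ) * d ^ 2 ≤ h.ng * (r : ℝ) ^ 2 := mul_le_mul_of_nonneg_left h3 h4
  have h6 : -h.r * d ^ 2 ≤ h.ng * d ^ 2 := mul_le_mul_of_nonneg_right h2 (sq_nonneg _)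
  simp only [ls, Nat.mul_eq, Nat.add_eq]
  push_cast
  nlinarith

theorem okKS_sound {k l rT rD r1 r2 r3 : ℕ} {K : KQ} {S : SQ}
    (h : okKS k K l S rT rD r1 r2 r3 = true) {dT dD d1 d2 d3 : ℝ} (hT : |dT| ≤ rT)
    (hD : |dD| ≤ rD) (h1 : |d1| ≤ r1) (h2 : |d2| ≤ r2) (h3 : |d3| ≤ r3) :
    0 ≤ k * K.ev dT dD d1 d2 d3 + l * S.ev dT dD d1 d2 d3 := by
  have e1 := lin_low ((K.gT.sm k).add (S.gT.sm l)) _ _ hT
  have e2 := lin_low ((K.gD.sm k).add (S.gD.sm l)) _ _ hD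
  have e3 := ls_low ((K.g1.sm k).add (S.g1.sm l)) ((K.h1.sm k).add (S.h1.sm l)) _ _ h1
  have e4 := ls_low ((K.g2.sm k).add (S.g2.sm l)) ((K.h2.sm k).add (S.h2.sm l)) _ _ h2
  have e5 := ls_low ((K.g3.sm k).add (S.g3.sm l)) ((K.h3.sm k).add (S.h3.sm l)) _ _ h3
  have hk : (0 : ℝ) ≤ k := Nat.cast_nonneg _
  have hl : (0 : ℝ) ≤ l := Nat.cast_nonneg _
  have f1 := mul_le_mul_of_nonneg_left (bil_low K.o12 _ _ _ _ h1 h2) hk
  have f2 := mul_le_mul_of_nonneg_left (bil_low K.o13 _ _ _ _ h1 h3) hk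
  have f3 := mul_le_mul_of_nonneg_left (bil_low K.o23 _ _ _ _ h2 h3) hk
  have f4 := mul_le_mul_of_nonneg_left (bil_low K.a1 _ _ _ _ hT h1) hk
  have f5 := mul_le_mul_of_nonneg_left (bil_low K.a2 _ _ _ _ hT h2) hk
  have f6 := mul_le_mul_of_nonneg_left (bil_low K.a3 _ _ _ _ hT h3) hk
  have g1 := mul_le_mul_of_nonneg_left (bil_low S.b1 _ _ _ _ hD h1) hl
  have g2 := mul_le_mul_of_nonneg_left (bil_low S.b2 _ _ _ _ hD h2) hl
  have g3 := mul_le_mul_of_nonneg_left (bil_low S.b3 _ _ _ _ hD h3) hl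
  have g4 := mul_le_mul_of_nonneg_left (bil_low S.td _ _ _ _ hT hD) hl
  have e0 : ((K.v.sm k).add (S.v.sm l)).r = k * K.v.r + l * S.v.r := by
    rw [Z.r_add, Z.r_sm, Z.r_sm]
  simp only [okKS, okV, Nat.ble_eq, Nat.add_eq, Nat.mul_eq] at h
  have h' := (Nat.cast_le (α := ℝ)).2 h
  push_cast at h'
  simp only [Z.r_add, Z.r_sm] at e1 e2 e3 e4 e5
  rw [Z.r] at e0
  simp only [KQ.ev, SQ.ev]
  linarith

/-- The weight in scaled variables. -/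
def kapH (m t T D x y z : ℝ) : ℝ :=
  1048576 * (2097152 * (m + 3) + 5 * t * T + 2 * t * D +
      2 * (2 * T + t * (m + 1)) * (x + y + z)) +
    (2097152 + t * T) * ((x + y + z) ^ 2 - 2 * (x ^ 2 + y ^ 2 + z ^ 2)) +
    2 * t * ((x + y + z) * (x ^ 2 + y ^ 2 + z ^ 2) - 2 * (x ^ 3 + y ^ 3 + z ^ 3))

theorem kapH_eq (m t T D x y z : ℝ) :
    kapH m (1024 * t) (1024 * T) (1024 * D) (1024 * x) (1024 * y) (1024 * z) =
      2 * 1024 ^ 4 * kap m t T D x y z := by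
  simp only [kapH, kap]; ring

theorem abs_cub {a b r s : ℝ} (ha : |a| ≤ r) (hb : |b| ≤ s) : |a * b ^ 2| ≤ r * s ^ 2 := by
  rw [abs_mul, abs_pow]
  exact mul_le_mul ha (pow_le_pow_left₀ (abs_nonneg _) hb 2) (by positivity)
    ((abs_nonneg _).trans ha)

theorem abs_bil {a b r s : ℝ} (ha : |a| ≤ r) (hb : |b| ≤ s) : |a * b| ≤ r * s := by
  rw [abs_mul]; exact mul_le_mul ha hb (abs_nonneg _) ((abs_nonneg _).trans ha)

theorem kap3Q_le (m : ℕ) (t : Z) (T D : ℕ) (x y z : Z) (rT r1 r2 r3 : ℕ) {dT dD d1 d2 d3 : ℝ}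
    (hT : |dT| ≤ rT) (h1 : |d1| ≤ r1) (h2 : |d2| ≤ r2) (h3 : |d3| ≤ r3) :
    (kap3Q m t T D x y z rT r1 r2 r3).ev dT dD d1 d2 d3 ≤
      kapH m t.r (T + dT) (D + dD) (x.r + d1) (y.r + d2) (z.r + d3) := by
  have a1 : |(d1 + d2 + d3) * (d1 ^ 2 + d2 ^ 2 + d3 ^ 2) - 2 * (d1 ^ 3 + d2 ^ 3 + d3 ^ 3)| ≤
      ((r1 : ℝ) + r2 + r3) * ((r1 : ℝ) ^ 2 + (r2 : ℝ) ^ 2 + (r3 : ℝ) ^ 2) := by
    have c11 := abs_le.1 (abs_cub h1 h1)
    have c12 := abs_le.1 (abs_cub h1 h2)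
    have c13 := abs_le.1 (abs_cub h1 h3)
    have c21 := abs_le.1 (abs_cub h2 h1)
    have c22 := abs_le.1 (abs_cub h2 h2)
    have c23 := abs_le.1 (abs_cub h2 h3)
    have c31 := abs_le.1 (abs_cub h3 h1)
    have c32 := abs_le.1 (abs_cub h3 h2)
    have c33 := abs_le.1 (abs_cub h3 h3)
    rw [abs_le]
    constructor <;> linarith [c11.1, c11.2, c12.1, c12.2, c13.1, c13.2, c21.1, c21.2, c22.1,
      c22.2, c23.1, c23.2, c31.1, c31.2, c32.1, c32.2, c33.1, c33.2]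
  have a2 : |(d1 + d2 + d3) ^ 2 - 2 * (d1 ^ 2 + d2 ^ 2 + d3 ^ 2)| ≤ ((r1 : ℝ) + r2 + r3) ^ 2 := by
    have c11 := abs_le.1 (abs_bil h1 h1)
    have c12 := abs_le.1 (abs_bil h1 h2)
    have c13 := abs_le.1 (abs_bil h1 h3)
    have c22 := abs_le.1 (abs_bil h2 h2)
    have c23 := abs_le.1 (abs_bil h2 h3)
    have c33 := abs_le.1 (abs_bil h3 h3)
    rw [abs_le]
    constructor <;> linarith [c11.1, c11.2, c12.1, c12.2, c13.1, c13.2, c22.1,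
      c22.2, c23.1, c23.2, c33.1, c33.2]
  have b1 := lin_low t _ _ a1
  have b2 := bil_low t _ _ _ _ hT a2
  simp only [kap3Q, kap3C, kap3A, kap3B, KQ.ev, kapH, Z.r_add, Z.r_sub, Z.r_mul, Z.r_sm, Z.r_an,
    Nat.add_eq, Nat.mul_eq]
  push_cast
  linarith

theorem kap2Q_le (m : ℕ) (t : Z) (T D : ℕ) (x z : Z) (rT r1 r2 : ℕ) {dT dD d1 d2 : ℝ}
    (hT : |dT| ≤ rT) (h1 : |d1| ≤ r1) (h2 : |d2| ≤ r2) :
    (kap2Q m t T D x z rT r1 r2).ev dT dD d1 d2 ≤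
      kapH m t.r (T + dT) (D + dD) (x.r + d1) (x.r + d1) (z.r + d2) := by
  have a1 : |2 * (d2 * d1 ^ 2) + 2 * (d1 * d2 ^ 2) - d2 * d2 ^ 2| ≤
      2 * ((r2 : ℝ) * (r1 : ℝ) ^ 2) + 2 * ((r1 : ℝ) * (r2 : ℝ) ^ 2) + (r2 : ℝ) * (r2 : ℝ) ^ 2 := by
    have c12 := abs_le.1 (abs_cub h1 h2)
    have c21 := abs_le.1 (abs_cub h2 h1)
    have c22 := abs_le.1 (abs_cub h2 h2)
    rw [abs_le]
    constructor <;> linarith [c12.1, c12.2, c21.1, c21.2, c22.1, c22.2]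
  have a2 : |4 * (d1 * d2) - d2 * d2| ≤ 4 * ((r1 : ℝ) * r2) + (r2 : ℝ) * r2 := by
    have c12 := abs_le.1 (abs_bil h1 h2)
    have c22 := abs_le.1 (abs_bil h2 h2)
    rw [abs_le]
    constructor <;> linarith [c12.1, c12.2, c22.1, c22.2]
  have b1 := lin_low t _ _ a1
  have b2 := bil_low t _ _ _ _ hT a2
  simp only [kap2Q, kap2A, kap2B, K2.ev, kapH, Z.r_add, Z.r_sub, Z.r_mul, Z.r_sm, Z.r_an,
    Nat.add_eq, Nat.mul_eq]
  push_cast
  linarith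

theorem one_ev (A : K2) (dT dD d1 d2 d3 : ℝ) :
    A.one.ev dT dD d1 d2 d3 = A.ev dT dD d1 d2 := by
  simp only [K2.one, KQ.ev, K2.ev, Z.r_mk]; push_cast; ring

theorem comb_ev (k l : ℕ) (A B : K2) (dT dD d1 d2 d3 : ℝ) :
    (A.comb k l B).ev dT dD d1 d2 d3 = k * A.ev dT dD d1 d2 + l * B.ev dT dD d3 d2 := by
  simp only [K2.comb, KQ.ev, K2.ev, Z.r_mk, Z.r_add, Z.r_sm, Nat.add_eq, Nat.mul_eq]
  push_cast; ring

/-- The contribution of one eigenvalue to the shift in scaled variables. -/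
def shU (m D L a b c u : ℝ) : ℝ :=
  2 * L * c * (2 * (m * (u ^ 2 + (b - 1024) * 1024) + (D + m * a) * u) - m * 1024 * c)

/-- The shift in scaled variables. -/
def shH (m th T D x y z e L a b nu de c1 c2 c3 : ℝ) : ℝ :=
  2048 * m * (th * T * D - 8 * 1048576) -
    2 * L * (m ^ 2 * 1024 * (a ^ 2 + b ^ 2) + 2 * (D + m * a) * b * T) +
    2048 * m * nu * (2 * de * T - m * (1048576 + de ^ 2)) +
    (shU m D L a b c1 x + shU m D L a b (e * c2) y + shU m D L a b c3 z) +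
    2048 * m * nu * ((x - de) ^ 2 + e * (y - de) ^ 2 + (z - de) ^ 2)

theorem shQ_ev (m : ℕ) (th : Z) (T D : ℕ) (x y z : Z) (e L : ℕ) (a b : Z) (nu : ℕ)
    (de c1 c2 c3 : Z) (dT dD d1 d2 d3 : ℝ) :
    (shQ m th T D x y z e L a b nu de c1 c2 c3).ev dT dD d1 d2 d3 =
      shH m th.r (T + dT) (D + dD) (x.r + d1) (y.r + d2) (z.r + d3) e L a.r b.r nu de.r c1.r
        c2.r c3.r := by
  simp only [shQ, shA, shB, shV, SQ.ev, shH, shU, Z.r_add, Z.r_sub, Z.r_mul, Z.r_sm, Z.r_an,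
    Z.r_mk, Nat.mul_eq]
  push_cast
  ring

end BiH
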