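import Pool.Agent.P.MP_ecb6bc_gt.KD1

/-! Spectral facts and soundness of the leaves of the checker. -/

set_option autoImplicit false
set_option linter.unusedVariables false

noncomputable section

namespace BiH

variable {m : ℕ}

/-- The moments of a spectrum. -/
structure Mom (lam : Fin m → ℝ) (T D E : ℝ) : Prop where
  h1 : ∑ i, lam i = T
  h2 : ∑ i, lam i ^ 2 = m
  hD : D = T - ∑ i, lam i ^ 3
  hE : E = ∑ i, (lam i ^ 2 - 1) ^ 2
  hT : 0 < T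
  hD0 : 0 < D

/-- The numbers `x`, `z`, and `y` if `e = 1`, are different members of the spectrum. -/
def Sub (lam : Fin m → ℝ) (e : ℕ) (x y z : ℝ) : Prop :=
  (e = 0 ∨ e = 1) ∧ ∀ f : ℝ → ℝ, (∀ u, 0 ≤ f u) → f x + e * f y + f z ≤ ∑ i, f (lam i)

theorem sub_two (lam : Fin m → ℝ) {i k : Fin m} (h : i ≠ k) (y : ℝ) :
    Sub lam 0 (lam i) y (lam k) := by
  refine ⟨Or.inl rfl, fun f hf => ?_⟩
  have := Finset.sum_le_sum_of_subset_of_nonneg (f := fun i => f (lam i))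
    (Finset.subset_univ ({i, k} : Finset (Fin m))) (fun i _ _ => hf _)
  rw [Finset.sum_pair h] at this
  simpa using this

theorem sub_three (lam : Fin m → ℝ) {i j k : Fin m} (h : i ≠ j) (h' : j ≠ k) (h'' : i ≠ k) :
    Sub lam 1 (lam i) (lam j) (lam k) := by
  refine ⟨Or.inr rfl, fun f hf => ?_⟩
  have := Finset.sum_le_sum_of_subset_of_nonneg (f := fun i => f (lam i))
    (Finset.subset_univ ({i, j, k} : Finset (Fin m))) (fun i _ _ => hf _)
  rw [Finset.sum_insert (by simp [h, h'']), Finset.sum_pair h'] at this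
  push_cast
  linarith

theorem Mom.poly {lam : Fin m → ℝ} {T D E : ℝ} (h : Mom lam T D E) (a0 a1 a2 a3 : ℝ) :
    ∑ i, (a0 + a1 * lam i + a2 * lam i ^ 2 + a3 * lam i ^ 3) =
      a0 * m + a1 * T + a2 * m + a3 * (T - D) := by
  have e3 : ∑ i, lam i ^ 3 = T - D := by rw [h.hD]; ring
  simp only [Finset.sum_add_distrib, ← Finset.mul_sum, h.h1, h.h2, e3, Finset.sum_const,
    Finset.card_univ, Fintype.card_fin, nsmul_eq_mul]
  ring

theorem Mom.sq {lam : Fin m → ℝ} {T D E : ℝ} (h : Mom lam T D E) (hm : 0 < m) (a b : ℝ) :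
    ∑ i, (lam i ^ 2 - 1 + (D / m + a) * lam i + b) ^ 2 =
      E - D ^ 2 / m + (m * a ^ 2 + 2 * (D / m + a) * b * T + m * b ^ 2) := by
  have hm' : (m : ℝ) ≠ 0 := by positivity
  have := h.poly (b ^ 2 - 2 * b) (2 * (D / m + a) * b - 2 * (D / m + a))
    ((D / m + a) ^ 2 + 2 * b) (2 * (D / m + a))
  have e : ∑ i, (lam i ^ 2 - 1 + (D / m + a) * lam i + b) ^ 2 =
      ∑ i, (lam i ^ 2 - 1) ^ 2 + ∑ i, (b ^ 2 - 2 * b +
        (2 * (D / m + a) * b - 2 * (D / m + a)) * lam i + ((D / m + a) ^ 2 + 2 * b) * lam i ^ 2 +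
        2 * (D / m + a) * lam i ^ 3) := by
    rw [← Finset.sum_add_distrib]
    exact Finset.sum_congr rfl fun i _ => by ring
  rw [e, this, ← h.hE]
  field_simp
  ring

theorem shH_le {lam : Fin m → ℝ} {T D E : ℝ} (h : Mom lam T D E) (hm : 0 < m) {e : ℕ}
    {x y z : ℝ} (hs : Sub lam e x y z) {t o th L nu : ℝ} (a b de c1 c2 c3 : ℝ) (ho : 0 < o)
    (hth : th ≤ 3 / (2 * m) - 9 * t ^ 2 / (4 * o)) (hL0 : 0 ≤ L)
    (hL : 2 * L * (T * D) ≤ 3 * (T ^ 2 + m * (o + t * T))) (hnu : 0 ≤ nu) :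
    shH m (1024 * th) (1024 * T) (1024 * D) (1024 * x) (1024 * y) (1024 * z) e (1024 * L)
      (1024 * a) (1024 * b) (1024 * nu) (1024 * de) (1024 * c1) (1024 * c2) (1024 * c3) ≤
      2 * m * 1024 ^ 4 * shf m t o T D E := by
  have hm' : (0 : ℝ) < m := by positivity
  have hTD : 0 < T * D := mul_pos h.hT h.hD0
  obtain ⟨p, hp⟩ : ∃ p : ℝ → ℝ, ∀ u, p u = u ^ 2 - 1 + (D / m + a) * u + b := ⟨_, fun _ => rfl⟩
  have s1 := hs.2 (fun u => p u ^ 2) fun u => sq_nonneg _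
  have s2 := hs.2 (fun u => (u - de) ^ 2) fun u => sq_nonneg _
  have q1 := h.sq hm a b
  have q0 := h.sq hm 0 0
  have q2 := h.poly (de ^ 2) (-2 * de) 1 0
  have q0' : 0 ≤ E - D ^ 2 / m := by
    have : 0 ≤ ∑ i, (lam i ^ 2 - 1 + (D / m + 0) * lam i + 0) ^ 2 :=
      Finset.sum_nonneg fun i _ => sq_nonneg _
    linarith
  simp only [← hp] at q1
  have q2' : ∑ i, (lam i - de) ^ 2 = de ^ 2 * m - 2 * de * T + m := by
    rw [show de ^ 2 * m - 2 * de * T + m = de ^ 2 * m + -2 * de * T + 1 * m + 0 * (T - D) by ring,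
      ← q2]
    exact Finset.sum_congr rfl fun i _ => by ring
  rw [q1] at s1
  rw [q2'] at s2
  have u1 : ∀ c u, shU m (1024 * D) (1024 * L) (1024 * a) (1024 * b) (1024 * c) (1024 * u) =
      2 * m * 1024 ^ 4 * (L * (2 * c * p u - c ^ 2)) := by
    intro c u
    rw [hp, shU]; field_simp; ring
  have u2 : ∀ c u, 2 * c * p u - c ^ 2 ≤ p u ^ 2 := fun c u => by
    nlinarith [sq_nonneg (p u - c)]
  have u3 : 2 * (e * c2) * p y - (e * c2) ^ 2 ≤ e * p y ^ 2 := by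
    rcases hs.1 with h0 | h0 <;> subst h0
    · simp
    · simpa using u2 c2 y
  have hsh : shf m t o T D E = (3 / (2 * m) - 9 * t ^ 2 / (4 * o)) * (T * D) - 1 / 128 +
      3 * (T ^ 2 + m * (o + t * T)) / (2 * (T * D)) * (E - D ^ 2 / m) := by
    have := h.hT.ne'
    have := h.hD0.ne'
    rw [shf]; field_simp; ring
  have hL' : L ≤ 3 * (T ^ 2 + m * (o + t * T)) / (2 * (T * D)) := by
    rw [le_div_iff₀ (by positivity)]; linarith
  have k1 := mul_le_mul_of_nonneg_right hL' q0'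
  have k2 := mul_le_mul_of_nonneg_right hth hTD.le
  have k3 : L * ((2 * c1 * p x - c1 ^ 2) + (2 * (e * c2) * p y - (e * c2) ^ 2) +
      (2 * c3 * p z - c3 ^ 2) - (m * a ^ 2 + 2 * (D / m + a) * b * T + m * b ^ 2)) ≤
      L * (E - D ^ 2 / m) :=
    mul_le_mul_of_nonneg_left (by linarith [u2 c1 x, u2 c3 z]) hL0
  have k4 : nu * ((x - de) ^ 2 + e * (y - de) ^ 2 + (z - de) ^ 2 -
      (de ^ 2 * m - 2 * de * T + m)) ≤ 0 := mul_nonpos_of_nonneg_of_nonpos hnu (by linarith)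
  have e1 : shH m (1024 * th) (1024 * T) (1024 * D) (1024 * x) (1024 * y) (1024 * z) e (1024 * L)
      (1024 * a) (1024 * b) (1024 * nu) (1024 * de) (1024 * c1) (1024 * c2) (1024 * c3) =
      2 * m * 1024 ^ 4 * (th * (T * D) - 1 / 128 + L * ((2 * c1 * p x - c1 ^ 2) +
        (2 * (e * c2) * p y - (e * c2) ^ 2) +
        (2 * c3 * p z - c3 ^ 2) - (m * a ^ 2 + 2 * (D / m + a) * b * T + m * b ^ 2)) +
        nu * ((x - de) ^ 2 + e * (y - de) ^ 2 + (z - de) ^ 2 - (de ^ 2 * m - 2 * de * T + m))) := by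
    rw [shH, show (e : ℝ) * (1024 * c2) = 1024 * (e * c2) by ring, u1, u1, u1]
    field_simp
    ring
  rw [e1, hsh]
  exact mul_le_mul_of_nonneg_left (by linarith) (by positivity)

theorem affine_nonneg {a b l u x : ℝ} (hl : l ≤ x) (hu : x ≤ u) (h1 : 0 ≤ a + b * l)
    (h2 : 0 ≤ a + b * u) : 0 ≤ a + b * x := by
  rcases le_total 0 b with h | h
  · nlinarith
  · nlinarith

theorem okL_sound {t : Z} {o L Tl Th Dh : ℕ} (h : okL m t o L Tl Th Dh = true) {T D : ℝ}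
    (hT : 0 < T) (h1 : (Tl : ℝ) ≤ 1024 * T) (h2 : 1024 * T ≤ Th) (h3 : 1024 * D ≤ Dh) :
    2 * ((L : ℝ) / 1024) * (T * D) ≤ 3 * (T ^ 2 + m * ((o : ℝ) / 1024 + t.r / 1024 * T)) := by
  simp only [okL, Bool.and_eq_true, Nat.ble_eq, Nat.add_eq, Nat.mul_eq] at h
  have a1 := (Nat.cast_le (α := ℝ)).2 h.1
  have a2 := (Nat.cast_le (α := ℝ)).2 h.2
  push_cast at a1 a2
  have := affine_nonneg (a := 3072 * (m * (o * 1024) - (Tl : ℝ) * Tl))
    (b := 3072 * (2 * Tl + m * t.r) - 2 * L * Dh) h1 h2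
    (by rw [Z.r]; linarith) (by rw [Z.r]; linarith)
  have hL : (0 : ℝ) ≤ L := Nat.cast_nonneg _
  have b1 : (L : ℝ) * T * (1024 * D) ≤ L * T * Dh :=
    mul_le_mul_of_nonneg_left h3 (by positivity)
  nlinarith [sq_nonneg (1024 * T - Tl)]

theorem md_abs {l h : ℕ} {x : ℝ} (hl : (l : ℝ) ≤ x) (hh : x ≤ h) :
    |x - md l h| ≤ (Nat.sub h (md l h) : ℕ) := by
  have hlh : l ≤ h := by exact_mod_cast hl.trans hh
  have e : md l h = (l + h) / 2 := rfl
  have a1 : md l h ≤ h := by omega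
  have a2 : md l h + md l h ≤ l + h := by omega
  have a3 := (Nat.cast_le (α := ℝ)).2 a2
  rw [Nat.sub_eq, Nat.cast_sub a1, abs_le]
  push_cast at a3
  constructor <;> linarith

/-- The parameters of a cell in real terms. -/
structure Par (m : ℕ) (t : Z) (o : ℕ) (th : Z) : Prop where
  hm : 0 < m
  pos : 0 < o
  th : th.r / 1024 ≤ 3 / (2 * m) - 9 * (t.r / 1024) ^ 2 / (4 * ((o : ℝ) / 1024))

/-- Membership in a box. -/
def InB (T D x y z : ℝ) (Tl Th Dl Dh xl xh yl yh zl zh : ℕ) : Prop :=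
  ((Tl : ℝ) ≤ T ∧ T ≤ Th) ∧ ((Dl : ℝ) ≤ D ∧ D ≤ Dh) ∧ ((xl : ℝ) ≤ x ∧ x ≤ xh) ∧
    ((yl : ℝ) ≤ y ∧ y ≤ yh) ∧ ((zl : ℝ) ≤ z ∧ z ≤ zh)

theorem shQ_le {lam : Fin m → ℝ} {T D E : ℝ} (h : Mom lam T D E) {t th : Z} {o : ℕ}
    (hp : Par m t o th) {e : ℕ} {x y z : ℝ} (hs : Sub lam e x y z) {L Tl Th Dh : ℕ}
    (hL : okL m t o L Tl Th Dh = true) (h1 : (Tl : ℝ) ≤ 1024 * T) (h2 : 1024 * T ≤ Th)
    (h3 : 1024 * D ≤ Dh) (cT cD cx cy cz nu : ℕ) (a b de c1 c2 c3 : Z) :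
    (shQ m th cT cD (Z.df cx 4096) (Z.df cy 4096) (Z.df cz 4096) e L a b nu de c1 c2 c3).ev
      (1024 * T - cT) (1024 * D - cD) (1024 * x + 4096 - cx) (1024 * y + 4096 - cy)
      (1024 * z + 4096 - cz) ≤ 2 * m * 1024 ^ 4 * shf m (t.r / 1024) ((o : ℝ) / 1024) T D E := by
  have ho : (0 : ℝ) < o := by exact_mod_cast hp.pos
  have := shH_le h hp.hm hs (a.r / 1024) (b.r / 1024) (de.r / 1024) (c1.r / 1024) (c2.r / 1024)
    (c3.r / 1024) (by positivity) hp.th (L := (L : ℝ) / 1024) (by positivity)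
    (okL_sound hL h.hT h1 h2 h3) (nu := (nu : ℝ) / 1024) (by positivity)
  rw [shQ_ev]
  simp only [Z.r_df]
  convert this using 2 <;> push_cast <;> ring

theorem lfD_sound {lam : Fin m → ℝ} {T D E : ℝ} (h : Mom lam T D E) {t th : Z} {o : ℕ}
    (hp : Par m t o th) {x y z : ℝ} (hs : Sub lam 1 x y z) {n Tl Th Dl Dh xl xh yl yh zl zh : ℕ}
    (hb : InB (1024 * T) (1024 * D) (1024 * x + 4096) (1024 * y + 4096) (1024 * z + 4096)
      Tl Th Dl Dh xl xh yl yh zl zh)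
    (hl : lfD m t o th n Tl Th Dl Dh xl xh yl yh zl zh = true) :
    0 ≤ kap m (t.r / 1024) T D x y z + shf m (t.r / 1024) ((o : ℝ) / 1024) T D E := by
  obtain ⟨⟨T1, T2⟩, ⟨D1, D2⟩, ⟨x1, x2⟩, ⟨y1, y2⟩, ⟨z1, z2⟩⟩ := hb
  simp only [lfD, lfDA, lfDB, Bool.and_eq_true] at hl
  have aT := md_abs T1 T2
  have aD := md_abs D1 D2
  have ax := md_abs x1 x2
  have ay := md_abs y1 y2
  have az := md_abs z1 z2
  have k0 := okKS_sound hl.2 aT aD ax ay az
  have k1 := shQ_le h hp hs hl.1 T1 T2 D2 (md Tl Th) (md Dl Dh) (md xl xh) (md yl yh) (md zl zh)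
    (dg n 57) (sg n 19) (sg n 38) (sg n 76) (sg n 95) (sg n 114) (sg n 133)
  have k2 := kap3Q_le m t (md Tl Th) (md Dl Dh) (Z.df (md xl xh) 4096) (Z.df (md yl yh) 4096)
    (Z.df (md zl zh) 4096) _ _ _ _ (dD := 1024 * D - md Dl Dh) aT ax ay az
  have k3 := kapH_eq m (t.r / 1024) T D x y z
  have k4 : kapH m t.r (md Tl Th + (1024 * T - md Tl Th)) (md Dl Dh + (1024 * D - md Dl Dh))
      ((Z.df (md xl xh) 4096).r + (1024 * x + 4096 - md xl xh))
      ((Z.df (md yl yh) 4096).r + (1024 * y + 4096 - md yl yh))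
      ((Z.df (md zl zh) 4096).r + (1024 * z + 4096 - md zl zh)) =
      2 * 1024 ^ 4 * kap m (t.r / 1024) T D x y z := by
    rw [← k3]
    simp only [Z.r_df]
    congr 1 <;> push_cast <;> ring
  rw [k4] at k2
  have hm : (0 : ℝ) < m := by exact_mod_cast hp.hm
  have k5 := mul_le_mul_of_nonneg_left k2 hm.le
  have k6 : 0 ≤ 2 * m * 1024 ^ 4 *
      (kap m (t.r / 1024) T D x y z + shf m (t.r / 1024) ((o : ℝ) / 1024) T D E) := by
    push_cast at k0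
    linarith
  exact nonneg_of_mul_nonneg_right k6 (by positivity)

theorem okR_sound {m1 ρ Tl zh : ℕ} (h : okR m1 ρ Tl (Nat.sub 4096 zh) = true) {T s r : ℝ}
    (hT : 0 < T) (hs : 0 ≤ s) (h1 : (Tl : ℝ) ≤ 1024 * T) (h2 : 1024 * (-s) + 4096 ≤ zh)
    (hr : r * ((m1 + 1) * s + T) ^ 2 = m1 * (m1 * (m1 + 1 - s ^ 2) - (T + s) ^ 2)) :
    1024 * r ≤ ρ := by
  obtain ⟨sl, hsl⟩ : ∃ sl, sl = Nat.sub 4096 zh := ⟨_, rfl⟩
  have h3 : (sl : ℝ) ≤ 1024 * s := by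
    rcases le_total zh 4096 with h' | h'
    · rw [hsl, Nat.sub_eq, Nat.cast_sub h']; push_cast; linarith
    · rw [hsl, Nat.sub_eq, Nat.sub_eq_zero_of_le h']; push_cast; linarith
  rw [← hsl] at h
  simp only [okR, Nat.ble_eq, Nat.add_eq, Nat.mul_eq] at h
  have a := (Nat.cast_le (α := ℝ)).2 h
  push_cast at a
  have p1 : (0 : ℝ) ≤ m1 := Nat.cast_nonneg _
  have p2 : (0 : ℝ) ≤ ρ := Nat.cast_nonneg _
  have p3 : (0 : ℝ) ≤ sl := Nat.cast_nonneg _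
  have p4 : (0 : ℝ) ≤ Tl := Nat.cast_nonneg _
  have b1 : ((m1 : ℝ) + 1) * sl + Tl ≤ 1024 * ((m1 + 1) * s + T) := by nlinarith
  have b2 := mul_le_mul_of_nonneg_left (mul_self_le_mul_self (by positivity) b1) p2
  have b3 := mul_self_le_mul_self p3 h3
  have b4 := mul_self_le_mul_self (by positivity : (0 : ℝ) ≤ Tl + sl) (add_le_add h1 h3)
  have b5 := mul_le_mul_of_nonneg_left b3 (mul_nonneg p1 p1)
  have b6 := mul_le_mul_of_nonneg_left b4 p1
  have q : 0 < (((m1 : ℝ) + 1) * s + T) ^ 2 := by positivity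
  have : 1024 * r * (((m1 : ℝ) + 1) * s + T) ^ 2 ≤ ρ * (((m1 : ℝ) + 1) * s + T) ^ 2 := by
    rw [mul_assoc, hr]
    linarith
  exact le_of_mul_le_mul_right this q

theorem lfR_sound {lam : Fin m → ℝ} {T D E : ℝ} (h : Mom lam T D E) {t th : Z} {o : ℕ}
    (hp : Par m t o th) {e : ℕ} {x y s r : ℝ} (hs : Sub lam e x y (-s)) (hs0 : 0 ≤ s)
    (hr0 : 0 ≤ r) (hr : r * (m * s + T) ^ 2 = (m - 1) * ((m - 1) * (m - s ^ 2) - (T + s) ^ 2))
    {w1 w2 n Tl Th Dl Dh xl xh yl yh zl zh : ℕ}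
    (hb : InB (1024 * T) (1024 * D) (1024 * x + 4096) (1024 * y + 4096) (1024 * (-s) + 4096)
      Tl Th Dl Dh xl xh yl yh zl zh)
    (hl : lfR m t o th e w1 w2 n Tl Th Dl Dh xl xh yl yh zl zh = true) :
    0 ≤ kap m (t.r / 1024) T D x x y + shf m (t.r / 1024) ((o : ℝ) / 1024) T D E ∧
    0 ≤ w1 * (kap m (t.r / 1024) T D x x y + shf m (t.r / 1024) ((o : ℝ) / 1024) T D E) +
      w2 * r * (kap m (t.r / 1024) T D (-s) (-s) y +
        shf m (t.r / 1024) ((o : ℝ) / 1024) T D E) := by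
  obtain ⟨⟨T1, T2⟩, ⟨D1, D2⟩, ⟨x1, x2⟩, ⟨y1, y2⟩, ⟨z1, z2⟩⟩ := hb
  simp only [lfR, lfRA, lfRB, lfRC, Bool.and_eq_true] at hl
  obtain ⟨⟨hL, hR⟩, hA, hB⟩ := hl
  have hm1 : ((Nat.sub m 1 : ℕ) : ℝ) = m - 1 := by
    rw [Nat.sub_eq, Nat.cast_sub hp.hm]; simp
  have hρ := okR_sound hR h.hT hs0 T1 z2 (r := r) (by rw [hm1, sub_add_cancel]; exact hr)
  have aT := md_abs T1 T2
  have aD := md_abs D1 D2
  have ax := md_abs x1 x2
  have ay := md_abs y1 y2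
  have az := md_abs z1 z2
  have kA := okKS_sound hA aT aD ax ay az
  have kB := okKS_sound hB aT aD ax ay az
  rw [one_ev] at kA
  rw [comb_ev] at kB
  have k1 := shQ_le h hp hs hL T1 T2 D2 (md Tl Th) (md Dl Dh) (md xl xh) (md yl yh) (md zl zh)
    (dg n 57) (sg n 19) (sg n 38) (sg n 76) (sg n 95) (sg n 114) (sg n 133)
  have k4 : ∀ (u : ℝ) (c : ℕ), kapH m t.r (md Tl Th + (1024 * T - md Tl Th))
      (md Dl Dh + (1024 * D - md Dl Dh))
      ((Z.df c 4096).r + (1024 * u + 4096 - c)) ((Z.df c 4096).r + (1024 * u + 4096 - c))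
      ((Z.df (md yl yh) 4096).r + (1024 * y + 4096 - md yl yh)) =
      2 * 1024 ^ 4 * kap m (t.r / 1024) T D u u y := by
    intro u c
    rw [← kapH_eq]
    simp only [Z.r_df]
    congr 1 <;> push_cast <;> ring
  have k2 := kap2Q_le m t (md Tl Th) (md Dl Dh) (Z.df (md xl xh) 4096) (Z.df (md yl yh) 4096)
    _ _ _ (dD := 1024 * D - md Dl Dh) aT ax ay
  have k3 := kap2Q_le m t (md Tl Th) (md Dl Dh) (Z.df (md zl zh) 4096) (Z.df (md yl yh) 4096)
    _ _ _ (dD := 1024 * D - md Dl Dh) aT az ay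
  rw [k4] at k2 k3
  have hm : (0 : ℝ) < m := by exact_mod_cast hp.hm
  generalize kap m (t.r / 1024) T D x x y = A at *
  generalize kap m (t.r / 1024) T D (-s) (-s) y = B at *
  generalize shf m (t.r / 1024) ((o : ℝ) / 1024) T D E = S at *
  generalize dg n 152 = ρ at *
  have w1' : (0 : ℝ) ≤ w1 := Nat.cast_nonneg _
  have w2' : (0 : ℝ) ≤ w2 := Nat.cast_nonneg _
  have ρ' : (0 : ℝ) ≤ ρ := Nat.cast_nonneg _
  have c1 : 0 ≤ A + S := by
    have k5 := mul_le_mul_of_nonneg_left k2 hm.le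
    have k6 : 0 ≤ 2 * m * 1024 ^ 4 * (A + S) := by
      push_cast at kA
      linarith
    exact nonneg_of_mul_nonneg_right k6 (by positivity)
  have c2 : 0 ≤ w1 * 1024 * (A + S) + w2 * ρ * (B + S) := by
    have k5 := mul_le_mul_of_nonneg_left k2 (by positivity : (0 : ℝ) ≤ m * (w1 * 1024))
    have k6 := mul_le_mul_of_nonneg_left k3 (by positivity : (0 : ℝ) ≤ m * (w2 * ρ))
    have k7 := mul_le_mul_of_nonneg_left k1 (by positivity : (0 : ℝ) ≤ w1 * 1024 + w2 * ρ)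
    have k8 : 0 ≤ 2 * m * 1024 ^ 4 * (w1 * 1024 * (A + S) + w2 * ρ * (B + S)) := by
      simp only [Nat.add_eq, Nat.mul_eq] at kB
      push_cast at kB
      linarith
    exact nonneg_of_mul_nonneg_right k8 (by positivity)
  refine ⟨c1, ?_⟩
  rcases le_total 0 (B + S) with hB | hB
  · positivity
  · have := mul_le_mul_of_nonpos_right (mul_le_mul_of_nonneg_left hρ w2') hB
    linarith

end BiH
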