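import Pool.Agent.P.MP_ecb6bc_gt.KD2

/-! Soundness of the checker. -/

set_option autoImplicit false
set_option linter.unusedVariables false

noncomputable section

namespace BiH

variable {m : ℕ}

theorem run_sound {fo : Bx} {fc : ℕ → ℕ → Bx} {fl : ℕ → Bx} {G : Prop} {T D x y z : ℝ}
    (ho : ∀ Tl Th Dl Dh xl xh yl yh zl zh, InB T D x y z Tl Th Dl Dh xl xh yl yh zl zh →
      fo Tl Th Dl Dh xl xh yl yh zl zh = true → G)
    (hc : ∀ sb a Tl Th Dl Dh xl xh yl yh zl zh, InB T D x y z Tl Th Dl Dh xl xh yl yh zl zh →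
      fc sb a Tl Th Dl Dh xl xh yl yh zl zh = true → G)
    (hl : ∀ n Tl Th Dl Dh xl xh yl yh zl zh, InB T D x y z Tl Th Dl Dh xl xh yl yh zl zh →
      fl n Tl Th Dl Dh xl xh yl yh zl zh = true → G) (tr : Tr) :
    ∀ Tl Th Dl Dh xl xh yl yh zl zh, InB T D x y z Tl Th Dl Dh xl xh yl yh zl zh →
      run fo fc fl tr Tl Th Dl Dh xl xh yl yh zl zh = true → G := by
  induction tr with
  | s0 l r il ir =>
    rintro Tl Th Dl Dh xl xh yl yh zl zh ⟨a, b, c, d, e⟩ h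
    have h' := Bool.and_eq_true_iff.1 h
    rcases le_total T (md Tl Th) with q | q
    · exact il _ _ _ _ _ _ _ _ _ _ ⟨⟨a.1, q⟩, b, c, d, e⟩ h'.1
    · exact ir _ _ _ _ _ _ _ _ _ _ ⟨⟨q, a.2⟩, b, c, d, e⟩ h'.2
  | s1 l r il ir =>
    rintro Tl Th Dl Dh xl xh yl yh zl zh ⟨a, b, c, d, e⟩ h
    have h' := Bool.and_eq_true_iff.1 h
    rcases le_total D (md Dl Dh) with q | q
    · exact il _ _ _ _ _ _ _ _ _ _ ⟨a, ⟨b.1, q⟩, c, d, e⟩ h'.1
    · exact ir _ _ _ _ _ _ _ _ _ _ ⟨a, ⟨q, b.2⟩, c, d, e⟩ h'.2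
  | s2 l r il ir =>
    rintro Tl Th Dl Dh xl xh yl yh zl zh ⟨a, b, c, d, e⟩ h
    have h' := Bool.and_eq_true_iff.1 h
    rcases le_total x (md xl xh) with q | q
    · exact il _ _ _ _ _ _ _ _ _ _ ⟨a, b, ⟨c.1, q⟩, d, e⟩ h'.1
    · exact ir _ _ _ _ _ _ _ _ _ _ ⟨a, b, ⟨q, c.2⟩, d, e⟩ h'.2
  | s3 l r il ir =>
    rintro Tl Th Dl Dh xl xh yl yh zl zh ⟨a, b, c, d, e⟩ h
    have h' := Bool.and_eq_true_iff.1 h
    rcases le_total y (md yl yh) with q | q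
    · exact il _ _ _ _ _ _ _ _ _ _ ⟨a, b, c, ⟨d.1, q⟩, e⟩ h'.1
    · exact ir _ _ _ _ _ _ _ _ _ _ ⟨a, b, c, ⟨q, d.2⟩, e⟩ h'.2
  | s4 l r il ir =>
    rintro Tl Th Dl Dh xl xh yl yh zl zh ⟨a, b, c, d, e⟩ h
    have h' := Bool.and_eq_true_iff.1 h
    rcases le_total z (md zl zh) with q | q
    · exact il _ _ _ _ _ _ _ _ _ _ ⟨a, b, c, d, ⟨e.1, q⟩⟩ h'.1
    · exact ir _ _ _ _ _ _ _ _ _ _ ⟨a, b, c, d, ⟨q, e.2⟩⟩ h'.2
  | od => exact ho
  | cb sb a => exact hc sb a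
  | lf n => exact hl n

theorem Mom.erase {lam : Fin m → ℝ} {T D E : ℝ} (h : Mom lam T D E) (μ : Fin m) (c : ℝ) :
    ∑ j ∈ Finset.univ.erase μ, (lam j - c) ^ 2 =
      m - lam μ ^ 2 - 2 * c * (T - lam μ) + (m - 1) * c ^ 2 := by
  have q := h.poly (c ^ 2) (-2 * c) 1 0
  have e := Finset.add_sum_erase Finset.univ (fun j => (lam j - c) ^ 2) (Finset.mem_univ μ)
  have e' : ∑ j, (lam j - c) ^ 2 =
      ∑ i, (c ^ 2 + -2 * c * lam i + 1 * lam i ^ 2 + 0 * lam i ^ 3) :=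
    Finset.sum_congr rfl fun i _ => by ring
  rw [e', q] at e
  linarith

theorem Mom.two {lam : Fin m → ℝ} {T D E : ℝ} (h : Mom lam T D E) (hm : 2 ≤ m) (μ : Fin m) :
    (T - lam μ) ^ 2 + (m - 1) * lam μ ^ 2 ≤ (m - 1) * m := by
  have hm' : (2 : ℝ) ≤ m := by exact_mod_cast hm
  have h1 : (0 : ℝ) < m - 1 := by linarith
  have e := h.erase μ ((T - lam μ) / (m - 1))
  have p : 0 ≤ ∑ j ∈ Finset.univ.erase μ, (lam j - (T - lam μ) / (m - 1)) ^ 2 :=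
    Finset.sum_nonneg fun i _ => sq_nonneg _
  rw [e] at p
  have q := mul_nonneg h1.le p
  have r : (m - 1) * (m - lam μ ^ 2 - 2 * ((T - lam μ) / (m - 1)) * (T - lam μ) +
      (m - 1) * ((T - lam μ) / (m - 1)) ^ 2) = (m - 1) * (m - lam μ ^ 2) - (T - lam μ) ^ 2 := by
    field_simp; ring
  rw [r] at q
  linarith

/-- The cubic moment in scaled variables. -/
theorem Mom.cub {lam : Fin m → ℝ} {T D E : ℝ} (h : Mom lam T D E) (sb a : ℝ) :
    ∑ i, (1024 * lam i + sb) * (1024 * lam i - a) ^ 2 =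
      (1024 * T - 1024 * D + (sb - 2 * a) * m) * 1048576 + a ^ 2 * sb * m +
        (a ^ 2 - 2 * a * sb) * (1024 * T) := by
  have q := h.poly (a ^ 2 * sb) (1024 * (a ^ 2 - 2 * a * sb)) (1048576 * (sb - 2 * a)) (1024 ^ 3)
  rw [show ∑ i, (1024 * lam i + sb) * (1024 * lam i - a) ^ 2 = ∑ i, (a ^ 2 * sb +
    1024 * (a ^ 2 - 2 * a * sb) * lam i + 1048576 * (sb - 2 * a) * lam i ^ 2 +
    1024 ^ 3 * lam i ^ 3) from Finset.sum_congr rfl fun i _ => by ring, q]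
  ring

theorem Mom.cub_le {lam : Fin m → ℝ} {T D E : ℝ} (h : Mom lam T D E) {sb a Tl Th Dl : ℕ} {B : ℝ}
    (h1 : (Tl : ℝ) ≤ 1024 * T) (h2 : 1024 * T ≤ Th) (h3 : (Dl : ℝ) ≤ 1024 * D)
    (b1 : (cbP m Tl sb a : ℝ) ≤ cbN m Tl Dl sb a + B)
    (b2 : (cbP m Th sb a : ℝ) ≤ cbN m Th Dl sb a + B) :
    ∑ i, (1024 * lam i + sb) * (1024 * lam i - a) ^ 2 ≤ B := by
  rw [h.cub]
  simp only [cbP, cbN, Nat.add_eq, Nat.mul_eq] at b1 b2
  push_cast at b1 b2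
  have := affine_nonneg (a := B - ((-Dl + (sb - 2 * a) * m) * 1048576 + (a : ℝ) ^ 2 * sb * m))
    (b := -(1048576 + ((a : ℝ) ^ 2 - 2 * a * sb))) h1 h2 (by linarith) (by linarith)
  linarith

theorem Mom.cub_false {lam : Fin m → ℝ} {T D E : ℝ} (h : Mom lam T D E) {sb a Tl Th Dl : ℕ}
    (h1 : (Tl : ℝ) ≤ 1024 * T) (h2 : 1024 * T ≤ Th) (h3 : (Dl : ℝ) ≤ 1024 * D)
    (hs : ∀ i, -(1024 * lam i) ≤ sb) (b1 : cbP m Tl sb a < cbN m Tl Dl sb a)
    (b2 : cbP m Th sb a < cbN m Th Dl sb a) : False := by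
  have c1 := (Nat.cast_le (α := ℝ)).2 (Nat.succ_le_of_lt b1)
  have c2 := (Nat.cast_le (α := ℝ)).2 (Nat.succ_le_of_lt b2)
  push_cast at c1 c2
  have := h.cub_le (B := -1) (sb := sb) (a := a) h1 h2 h3 (by linarith) (by linarith)
  have p : 0 ≤ ∑ i, (1024 * lam i + sb) * (1024 * lam i - a) ^ 2 :=
    Finset.sum_nonneg fun i _ => mul_nonneg (by linarith [hs i]) (sq_nonneg _)
  linarith

theorem okC_sound {lam : Fin m → ℝ} {T D E : ℝ} (h : Mom lam T D E) (hm : 2 ≤ m) {μ : Fin m}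
    (hμ : ∀ i, lam μ ≤ lam i) {sh sb a Tl Th Dl : ℕ}
    (h1 : (Tl : ℝ) ≤ 1024 * T) (h2 : 1024 * T ≤ Th) (h3 : (Dl : ℝ) ≤ 1024 * D)
    (hs : -(1024 * lam μ) ≤ sh) (hc : okC m sh sb a Tl Th Dl = true) : False := by
  simp only [okC, okS, Bool.and_eq_true, Bool.or_eq_true, Nat.ble_eq, Nat.blt_eq, Nat.add_eq,
    Nat.mul_eq, Nat.sub_eq] at hc
  refine h.cub_false h1 h2 h3 (fun i => ?_) hc.1.2 hc.2
  have q : -(1024 * lam μ) ≤ sb := by
    rcases hc.1.1 with q | q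
    · exact hs.trans (by exact_mod_cast q)
    · by_contra hn
      rw [not_le] at hn
      have q' := (Nat.cast_le (α := ℝ)).2 q
      push_cast [Nat.cast_sub (show 1 ≤ m by omega)] at q'
      have t := h.two hm μ
      have hm' : (2 : ℝ) ≤ m := by exact_mod_cast hm
      have p1 : (0 : ℝ) ≤ sb := Nat.cast_nonneg _
      have p2 : (0 : ℝ) ≤ Tl := Nat.cast_nonneg _
      have a1 := mul_self_lt_mul_self (by positivity : (0 : ℝ) ≤ Tl + sb)
        (add_lt_add_of_le_of_lt h1 hn)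
      have a2 := mul_le_mul_of_nonneg_left (mul_self_le_mul_self p1 hn.le)
        (by linarith : (0 : ℝ) ≤ m - 1)
      linarith
  linarith [hμ i]

theorem kap_swap12 (m t T D x y z : ℝ) : kap m t T D x y z = kap m t T D y x z := by
  simp only [kap]; ring

theorem kap_swap23 (m t T D x y z : ℝ) : kap m t T D x y z = kap m t T D x z y := by
  simp only [kap]; ring

theorem sub_le_cast (a b : ℕ) : (a : ℝ) - b ≤ (Nat.sub a b : ℕ) := by
  rcases le_total b a with h | h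
  · rw [Nat.sub_eq, Nat.cast_sub h]
  · have : (a : ℝ) ≤ b := by exact_mod_cast h
    have := Nat.cast_nonneg (α := ℝ) (Nat.sub a b)
    linarith

theorem Good.cell (hm : 2 ≤ m) {t th : Z} {o lb : ℕ} (a : ℕ) {Tl Th Dl Dh s0 s1 : ℕ}
    (hP : okP m t o th lb a Tl Th Dl s1 = true) {tD tA tB tC : Tr}
    (rD : runD m t o th lb Tl Th Dl Dh s1 tD = true)
    (rA : runA m t o th lb Tl Th Dl Dh s0 s1 tA = true)
    (rB : runB m t o th lb Tl Th Dl Dh s0 s1 tB = true)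
    (rC : runC m t o th lb Tl Th Dl Dh s0 s1 tC = true) : Good m Tl Th Dl Dh s0 s1 := by
  intro lam T D E μ h1 h2 hD hE hT hD0 hμ T1 T2 D1 D2 S1 S2
  have h : Mom lam T D E := ⟨h1, h2, hD, hE, hT, hD0⟩
  simp only [okP, decide_eq_true_eq] at hP
  obtain ⟨p1, p2, p3, p4, p5, p6, p7⟩ := hP
  have hm' : (2 : ℝ) ≤ m := by exact_mod_cast hm
  have ho : (0 : ℝ) < o := by exact_mod_cast p1
  have hp : Par m t o th := by
    refine ⟨by omega, p1, ?_⟩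
    have q := (Nat.cast_le (α := ℝ)).2 p3
    push_cast at q
    rw [Z.abs_r, abs_mul_abs_self] at q
    have e : 3 / (2 * (m : ℝ)) - 9 * (t.r / 1024) ^ 2 / (4 * ((o : ℝ) / 1024)) =
        (12288 * o - 18 * m * (t.r * t.r)) / (8 * m * o) / 1024 := by
      field_simp; ring
    rw [e, div_le_div_iff_of_pos_right (by norm_num), le_div_iff₀ (by positivity), Z.r]
    linarith
  have lo : ∀ i, -(1024 * lam i) ≤ s1 := fun i => by linarith [hμ i]
  have up : ∀ i, 1024 * lam i ≤ lb := by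
    intro i
    by_contra hn
    rw [not_le] at hn
    have q6 := (Nat.cast_le (α := ℝ)).2 p6
    have q7 := (Nat.cast_le (α := ℝ)).2 p7
    push_cast [Nat.cast_sub p4] at q6 q7
    have q := h.cub_le T1 T2 D1 q6 q7
    have q' : (1024 * lam i + s1) * (1024 * lam i - a) ^ 2 ≤
        ∑ i, (1024 * lam i + s1) * (1024 * lam i - a) ^ 2 :=
      Finset.single_le_sum (f := fun i => (1024 * lam i + s1) * (1024 * lam i - a) ^ 2)
        (fun j _ => mul_nonneg (by linarith [lo j]) (sq_nonneg _)) (Finset.mem_univ i)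
    have q4 : (a : ℝ) ≤ lb := by exact_mod_cast p4
    have a1 := mul_self_lt_mul_self (by linarith : (0 : ℝ) ≤ lb - a)
      (by linarith : (lb : ℝ) - a < 1024 * lam i - a)
    have a2 : ((lb : ℝ) + s1) * ((lb - a) * (lb - a)) <
        (1024 * lam i + s1) * ((1024 * lam i - a) * (1024 * lam i - a)) :=
      mul_lt_mul'' (by linarith) a1 (by positivity) (mul_self_nonneg _)
    rw [← sq (1024 * lam i - a)] at a2
    linarith
  have s0' : (0 : ℝ) ≤ s0 := Nat.cast_nonneg _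
  obtain ⟨s, hs⟩ : ∃ s, s = -lam μ := ⟨_, rfl⟩
  have hs' : lam μ = -s := by rw [hs, neg_neg]
  have hs0 : 0 ≤ s := by linarith
  have m1 : (0 : ℝ) < m - 1 := by linarith
  have hc : 0 < (T + s) / (m - 1) := by positivity
  have hne : lam μ - (T + s) / (m - 1) ≠ 0 := by linarith
  obtain ⟨ρ, hρ⟩ : ∃ ρ, ρ = (∑ j ∈ Finset.univ.erase μ, (lam j - (T + s) / (m - 1)) ^ 2) /
    (lam μ - (T + s) / (m - 1)) ^ 2 := ⟨_, rfl⟩
  have r0 : 0 ≤ ρ := by
    rw [hρ]; exact div_nonneg (Finset.sum_nonneg fun i _ => sq_nonneg _) (sq_nonneg _)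
  have r1 : ∑ j ∈ Finset.univ.erase μ, (lam j - (T + s) / (m - 1)) ^ 2 =
      ρ * (lam μ - (T + s) / (m - 1)) ^ 2 := by
    rw [hρ, div_mul_cancel₀ _ (pow_ne_zero 2 hne)]
  have r2 : ρ * (m * s + T) ^ 2 = (m - 1) * ((m - 1) * (m - s ^ 2) - (T + s) ^ 2) := by
    have q := r1
    rw [h.erase, hs'] at q
    have q' := congrArg (fun u => ((m : ℝ) - 1) ^ 2 * u) q
    have e1 : ((m : ℝ) - 1) ^ 2 * (ρ * (-s - (T + s) / (m - 1)) ^ 2) = ρ * (m * s + T) ^ 2 := by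
      field_simp; ring
    have e2 : ((m : ℝ) - 1) ^ 2 * (m - (-s) ^ 2 - 2 * ((T + s) / (m - 1)) * (T - -s) +
        (m - 1) * ((T + s) / (m - 1)) ^ 2) = (m - 1) * ((m - 1) * (m - s ^ 2) - (T + s) ^ 2) := by
      field_simp; ring
    simp only [e1, e2] at q'
    exact q'.symm
  have c1 : (((4096 - s1 : ℕ)) : ℝ) = 4096 - s1 := by rw [Nat.cast_sub p5]; norm_num
  have b1 : ∀ i, (((4096 - s1 : ℕ)) : ℝ) ≤ 1024 * lam i + 4096 ∧
      1024 * lam i + 4096 ≤ ((4096 + lb : ℕ) : ℝ) := fun i => by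
    rw [c1]; push_cast; constructor <;> linarith [lo i, up i]
  have b2 : (((4096 - s1 : ℕ)) : ℝ) ≤ 1024 * (-s) + 4096 ∧
      1024 * (-s) + 4096 ≤ ((4096 - s0 : ℕ) : ℝ) := by
    have := sub_le_cast 4096 s0
    rw [Nat.sub_eq] at this
    rw [c1, ← hs']
    push_cast at this
    constructor <;> linarith
  have b3 : ((4096 : ℕ) : ℝ) ≤ 4096 ∧ (4096 : ℝ) ≤ ((4096 : ℕ) : ℝ) := by norm_num
  have zc : ∀ zl : ℕ, (zl : ℝ) ≤ 1024 * (-s) + 4096 → -(1024 * lam μ) ≤ (Nat.sub 4096 zl : ℕ) := by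
    intro zl hz
    have := sub_le_cast 4096 zl
    push_cast at this ⊢
    linarith
  have lt : ∀ {a b : ℕ} {u v : ℝ}, Nat.blt a b = true → u ≤ a → (b : ℝ) ≤ v → v ≤ u → False := by
    intro a b u v q1 q2 q3 q4
    have : (a : ℝ) < b := by exact_mod_cast Nat.blt_eq.mp q1
    linarith
  have dis : ∀ i j k, i ≠ j → j ≠ k → i ≠ k → lam j ≤ lam i → lam k ≤ lam j →
      0 ≤ kap m (t.r / 1024) T D (lam i) (lam j) (lam k) +
        shf m (t.r / 1024) ((o : ℝ) / 1024) T D E := by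
    intro i j k hij hjk hik l1 l2
    refine run_sound ?_ ?_ ?_ tD _ _ _ _ _ _ _ _ _ _ ⟨⟨T1, T2⟩, ⟨D1, D2⟩, b1 i, b1 j, b1 k⟩ rD
    · rintro Tl Th Dl Dh xl xh yl yh zl zh ⟨-, -, c, d, e⟩ q
      rcases Bool.or_eq_true_iff.1 q with q | q
      · exact (lt q c.2 d.1 (by linarith)).elim
      · exact (lt q d.2 e.1 (by linarith)).elim
    · rintro sb a Tl Th Dl Dh xl xh yl yh zl zh ⟨c, d, -⟩ q
      exact (okC_sound h hm hμ c.1 c.2 d.1 S2 q).elim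
    · intro n Tl Th Dl Dh xl xh yl yh zl zh c q
      exact lfD_sound h hp (sub_three lam hij hjk hik) c q
  have rep : ∀ i k, i ≠ μ → 0 ≤ kap m (t.r / 1024) T D (lam i) (lam i) (lam k) +
        shf m (t.r / 1024) ((o : ℝ) / 1024) T D E ∧
      0 ≤ wt i k * (kap m (t.r / 1024) T D (lam i) (lam i) (lam k) +
        shf m (t.r / 1024) ((o : ℝ) / 1024) T D E) +
      wt μ k * ρ * (kap m (t.r / 1024) T D (lam μ) (lam μ) (lam k) +
        shf m (t.r / 1024) ((o : ℝ) / 1024) T D E) := by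
    intro i k hi
    have li : -s ≤ lam i := hs' ▸ hμ i
    have lk : -s ≤ lam k := hs' ▸ hμ k
    by_cases h1 : k = μ
    · subst h1
      have := run_sound (G := _) ?_ ?_ (fun n Tl Th Dl Dh xl xh yl yh zl zh c q =>
        lfR_sound h hp (hs' ▸ sub_two lam hi (-s)) hs0 r0 r2
          ⟨c.1, c.2.1, c.2.2.1, c.2.2.2.2, c.2.2.2.2⟩ q) tB _ _ _ _ _ _ _ _ _ _
          ⟨⟨T1, T2⟩, ⟨D1, D2⟩, b1 i, b3, b2⟩ rB
      · simpa [wt, hi, hs'] using this
      · rintro Tl Th Dl Dh xl xh yl yh zl zh ⟨-, -, c, d, e⟩ q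
        exact (lt q c.2 e.1 (by linarith)).elim
      · rintro sb a Tl Th Dl Dh xl xh yl yh zl zh ⟨c, d, -, -, e⟩ q
        exact (okC_sound h hm hμ c.1 c.2 d.1 (zc _ e.1) q).elim
    by_cases h2 : k = i
    · subst h2
      have := run_sound (G := _) ?_ ?_ (fun n Tl Th Dl Dh xl xh yl yh zl zh c q =>
        lfR_sound h hp (hs' ▸ sub_two lam hi (lam k)) hs0 r0 r2
          ⟨c.1, c.2.1, c.2.2.1, c.2.2.1, c.2.2.2.2⟩ q) tC _ _ _ _ _ _ _ _ _ _
          ⟨⟨T1, T2⟩, ⟨D1, D2⟩, b1 k, b3, b2⟩ rC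
      · simpa [wt, Ne.symm hi, hs'] using this
      · rintro Tl Th Dl Dh xl xh yl yh zl zh ⟨-, -, c, d, e⟩ q
        exact (lt q c.2 e.1 (by linarith)).elim
      · rintro sb a Tl Th Dl Dh xl xh yl yh zl zh ⟨c, d, -, -, e⟩ q
        exact (okC_sound h hm hμ c.1 c.2 d.1 (zc _ e.1) q).elim
    · have := run_sound (G := _) ?_ ?_ (fun n Tl Th Dl Dh xl xh yl yh zl zh c q =>
        lfR_sound h hp (hs' ▸ sub_three lam (Ne.symm h2) h1 hi) hs0 r0 r2 c q)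
          tA _ _ _ _ _ _ _ _ _ _ ⟨⟨T1, T2⟩, ⟨D1, D2⟩, b1 i, b1 k, b2⟩ rA
      · refine ⟨this.1, ?_⟩
        have q := this.2
        simp only [wt, if_neg (Ne.symm h1), if_neg (Ne.symm h2), hs']
        push_cast at q
        linarith
      · rintro Tl Th Dl Dh xl xh yl yh zl zh ⟨-, -, c, d, e⟩ q
        rcases Bool.or_eq_true_iff.1 q with q | q
        · exact (lt q c.2 e.1 (by linarith)).elim
        · exact (lt q d.2 e.1 (by linarith)).elim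
      · rintro sb a Tl Th Dl Dh xl xh yl yh zl zh ⟨c, d, -, -, e⟩ q
        exact (okC_sound h hm hμ c.1 c.2 d.1 (zc _ e.1) q).elim
  refine ⟨t.r / 1024, (o : ℝ) / 1024, (T + s) / (m - 1), ρ, by positivity, fun l => ?_,
    sub_ne_zero.1 hne, r1, fun i j k hij hjk hik => ?_, fun i k hi => (rep i k hi).1,
    fun i k hi => (rep i k hi).2⟩
  · have q := (Nat.cast_le (α := ℝ)).2 p2
    push_cast at q
    have a1 := mul_le_mul_of_nonneg_left (lo l) (Nat.cast_nonneg (α := ℝ) t.p)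
    have a2 := mul_le_mul_of_nonneg_left (up l) (Nat.cast_nonneg (α := ℝ) t.n)
    rw [Z.r]
    linarith
  · rcases le_total (lam j) (lam i) with l1 | l1 <;> rcases le_total (lam k) (lam j) with l2 | l2 <;>
      rcases le_total (lam k) (lam i) with l3 | l3
    · exact dis i j k hij hjk hik l1 l2
    · exact dis i j k hij hjk hik l1 l2
    · rw [kap_swap23]; exact dis i k j hik hjk.symm hij l3 l2
    · rw [kap_swap23, kap_swap12]; exact dis k i j hik.symm hij hjk.symm l3 l1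
    · rw [kap_swap12]; exact dis j i k hij.symm hik hjk l1 l3
    · rw [kap_swap12, kap_swap23]; exact dis j k i hjk hik.symm hij.symm l2 l3
    · rw [kap_swap12]; exact dis j i k hij.symm hik hjk l1 l3
    · rw [kap_swap12, kap_swap23, kap_swap12]
      exact dis k j i hjk.symm hij.symm hik.symm l2 l1

theorem Good.sT {Tl Th Dl Dh s0 s1 : ℕ} (x : ℕ) (a : Good m Tl x Dl Dh s0 s1)
    (b : Good m x Th Dl Dh s0 s1) : Good m Tl Th Dl Dh s0 s1 := by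
  intro lam T D E μ h1 h2 hD hE hT hD0 hμ T1 T2 D1 D2 S1 S2
  rcases le_total (1024 * T) x with q | q
  · exact a lam T D E μ h1 h2 hD hE hT hD0 hμ T1 q D1 D2 S1 S2
  · exact b lam T D E μ h1 h2 hD hE hT hD0 hμ q T2 D1 D2 S1 S2

theorem Good.sD {Tl Th Dl Dh s0 s1 : ℕ} (x : ℕ) (a : Good m Tl Th Dl x s0 s1)
    (b : Good m Tl Th x Dh s0 s1) : Good m Tl Th Dl Dh s0 s1 := by
  intro lam T D E μ h1 h2 hD hE hT hD0 hμ T1 T2 D1 D2 S1 S2
  rcases le_total (1024 * D) x with q | q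
  · exact a lam T D E μ h1 h2 hD hE hT hD0 hμ T1 T2 D1 q S1 S2
  · exact b lam T D E μ h1 h2 hD hE hT hD0 hμ T1 T2 q D2 S1 S2

theorem Good.sS {Tl Th Dl Dh s0 s1 : ℕ} (x : ℕ) (a : Good m Tl Th Dl Dh s0 x)
    (b : Good m Tl Th Dl Dh x s1) : Good m Tl Th Dl Dh s0 s1 := by
  intro lam T D E μ h1 h2 hD hE hT hD0 hμ T1 T2 D1 D2 S1 S2
  rcases le_total (-(1024 * lam μ)) x with q | q
  · exact a lam T D E μ h1 h2 hD hE hT hD0 hμ T1 T2 D1 D2 S1 q
  · exact b lam T D E μ h1 h2 hD hE hT hD0 hμ T1 T2 D1 D2 q S2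

theorem Good.two {Tl Th Dl Dh s0 s1 : ℕ}
    (hc : 2 ≤ m ∧ (m - 1) * m * 1048576 < (Tl + s0) * (Tl + s0) + (m - 1) * (s0 * s0)) :
    Good m Tl Th Dl Dh s0 s1 := by
  intro lam T D E μ h1 h2 hD hE hT hD0 hμ T1 T2 D1 D2 S1 S2
  have h : Mom lam T D E := ⟨h1, h2, hD, hE, hT, hD0⟩
  exfalso
  have q := (Nat.cast_lt (α := ℝ)).2 hc.2
  push_cast [Nat.cast_sub (show 1 ≤ m by omega)] at q
  have t := h.two hc.1 μ
  have hm' : (2 : ℝ) ≤ m := by exact_mod_cast hc.1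
  have p1 : (0 : ℝ) ≤ s0 := Nat.cast_nonneg _
  have p2 : (0 : ℝ) ≤ Tl := Nat.cast_nonneg _
  have a1 := mul_self_le_mul_self (by positivity : (0 : ℝ) ≤ Tl + s0) (add_le_add T1 S1)
  have a2 := mul_le_mul_of_nonneg_left (mul_self_le_mul_self p1 S1)
    (by linarith : (0 : ℝ) ≤ m - 1)
  linarith

theorem Good.three {Tl Th Dl Dh s0 s1 : ℕ} (a : ℕ)
    (hc : cbP m Tl s1 a < cbN m Tl Dl s1 a ∧ cbP m Th s1 a < cbN m Th Dl s1 a) :
    Good m Tl Th Dl Dh s0 s1 := by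
  intro lam T D E μ h1 h2 hD hE hT hD0 hμ T1 T2 D1 D2 S1 S2
  have h : Mom lam T D E := ⟨h1, h2, hD, hE, hT, hD0⟩
  exact (h.cub_false T1 T2 D1 (fun i => by linarith [hμ i]) hc.1 hc.2).elim

theorem Good.spec (hm0 : 0 < m) (hm8 : m ≤ 8) (g : Good m 0 8192 0 32768 1024 3072)
    (lam : Fin m → ℝ) (T D E : ℝ) (h1 : ∑ i, lam i = T) (h2 : ∑ i, lam i ^ 2 = m)
    (hD : D = T - ∑ i, lam i ^ 3) (hE : E = ∑ i, (lam i ^ 2 - 1) ^ 2) (hT : 0 < T) (hD0 : 0 < D) :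
    ∃ t o c ρ μ, Spec lam T D E t o c ρ μ := by
  have h : Mom lam T D E := ⟨h1, h2, hD, hE, hT, hD0⟩
  have : Nonempty (Fin m) := ⟨⟨0, hm0⟩⟩
  obtain ⟨μ, hμ⟩ := Finite.exists_min lam
  have m8 : (m : ℝ) ≤ 8 := by exact_mod_cast hm8
  have s1 : lam μ ≤ -1 := by
    by_contra hn
    rw [not_le] at hn
    have q := h.poly 1 (-1) (-1) 1
    have : 0 ≤ ∑ i, (1 + -1 * lam i + -1 * lam i ^ 2 + 1 * lam i ^ 3) :=
      Finset.sum_nonneg fun i _ => by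
        have := mul_nonneg (sq_nonneg (1 - lam i)) (by linarith [hμ i] : 0 ≤ 1 + lam i)
        linarith
    linarith
  have s3 : -3 ≤ lam μ := by
    have : lam μ ^ 2 ≤ ∑ i, lam i ^ 2 :=
      Finset.single_le_sum (f := fun i => lam i ^ 2) (fun j _ => sq_nonneg _) (Finset.mem_univ μ)
    nlinarith
  have T8 : T ≤ 8 := by
    have q := h.poly 1 (-2) 1 0
    have : 0 ≤ ∑ i, (1 + -2 * lam i + 1 * lam i ^ 2 + 0 * lam i ^ 3) :=
      Finset.sum_nonneg fun i _ => by nlinarith [sq_nonneg (1 - lam i)]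
    linarith
  have D32 : D ≤ 32 := by
    have q := h.poly 0 0 3 1
    have : 0 ≤ ∑ i, (0 + 0 * lam i + 3 * lam i ^ 2 + 1 * lam i ^ 3) :=
      Finset.sum_nonneg fun i _ => by
        have := mul_nonneg (sq_nonneg (lam i)) (by linarith [hμ i] : 0 ≤ 3 + lam i)
        linarith
    linarith
  obtain ⟨t, o, c, ρ, hs⟩ := g lam T D E μ h1 h2 hD hE hT hD0 hμ (by push_cast; linarith)
    (by push_cast; linarith) (by push_cast; linarith) (by push_cast; linarith)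
    (by push_cast; linarith) (by push_cast; linarith)
  exact ⟨t, o, c, ρ, μ, hs⟩

end BiH
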