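import Pool.Agent.P.MP_ecb6bc_gt.HDefs

/-! Covariant derivatives of the shape operator and their values at a point. -/

set_option autoImplicit false
set_option linter.unusedSectionVars false
set_option linter.unusedVariables false

noncomputable section

namespace BiH

open Matrix
open scoped ContDiff

variable {R : Type} [CommRing R] [Algebra ℝ R] {m : ℕ}

/-- First covariant derivative of `A`. -/
def T3 (Δ : DR R m) (Γ : Fin m → Matrix (Fin m) (Fin m) R) (A : Matrix (Fin m) (Fin m) R)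
    (k : Fin m) : Matrix (Fin m) (Fin m) R :=
  nab (Δ.d k) (Γ k) A

/-- Second covariant derivative of `A` (first in direction `k`, then in direction `l`). -/
def T4 (Δ : DR R m) (Γ : Fin m → Matrix (Fin m) (Fin m) R) (A : Matrix (Fin m) (Fin m) R)
    (k l : Fin m) : Matrix (Fin m) (Fin m) R :=
  nab (Δ.d l) (Γ l) (T3 Δ Γ A k) - ∑ p, Γ l p k • T3 Δ Γ A p

/-- Third covariant derivative of `A`. -/
def T5 (Δ : DR R m) (Γ : Fin m → Matrix (Fin m) (Fin m) R) (A : Matrix (Fin m) (Fin m) R)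
    (k l p : Fin m) : Matrix (Fin m) (Fin m) R :=
  nab (Δ.d p) (Γ p) (T4 Δ Γ A k l) - ∑ q, Γ p q k • T4 Δ Γ A q l - ∑ q, Γ p q l • T4 Δ Γ A k q

/-- The curvature matrix. -/
def Rm (Δ : DR R m) (Γ : Fin m → Matrix (Fin m) (Fin m) R) (i k : Fin m) :
    Matrix (Fin m) (Fin m) R :=
  (Γ i).map (Δ.d k) - (Γ k).map (Δ.d i) + Γ k * Γ i - Γ i * Γ k

/-- The covariant derivative of the curvature matrix. -/
def dRm (Δ : DR R m) (g : Matrix (Fin m) (Fin m) R) (Γ : Fin m → Matrix (Fin m) (Fin m) R)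
    (A : Matrix (Fin m) (Fin m) R) (k l p : Fin m) : Matrix (Fin m) (Fin m) R :=
  Matrix.of fun a b => (g * T3 Δ Γ A p) k b * A a l + (g * A) k b * T3 Δ Γ A p a l -
    (g * T3 Δ Γ A p) l b * A a k - (g * A) l b * T3 Δ Γ A p a k

/-- The derivations after a linear change of coordinates. -/
def DR.lin (Δ : DR R m) (P : Matrix (Fin m) (Fin m) ℝ) : DR R m where
  d := fun a => ∑ i, P i a • Δ.d i
  ev := Δ.ev
  comm := fun a b u => by
    have e : ∀ (c : Fin m) (v : R), (∑ i, P i c • Δ.d i) v = ∑ i, P i c • Δ.d i v := by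
      intro c v
      induction (Finset.univ : Finset (Fin m)) using Finset.induction_on with
      | empty => simp
      | insert x s hx ih => rw [Finset.sum_insert hx, Finset.sum_insert hx, ← ih]; simp
    simp only [e, map_sum, Derivation.map_smul, Finset.smul_sum]
    rw [Finset.sum_comm]
    exact Finset.sum_congr rfl fun i _ => Finset.sum_congr rfl fun j _ => by
      rw [smul_comm, Δ.comm]
  unit := Δ.unit
  sqrt := Δ.sqrt
  sq := Δ.sq

/-- The matrix which is constant on the model hypersurfaces. -/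
def Qm (Δ : DR R m) (f N : Fin (m + 2) → R) : Matrix (Fin (m + 2)) (Fin (m + 2)) R :=
  vecMulVec f N + vecMulVec N f +
    ∑ i, ∑ j, (Δ.metric f)⁻¹ i j • vecMulVec (Δ.pv i N) (Δ.pv j f)

/-- The Kronecker delta. -/
def dl (i j : Fin m) : ℝ := if i = j then 1 else 0

/-- The values at a point, in an orthonormal basis of principal directions, of the shape
operator and of its first three covariant derivatives. -/
structure Jet (lam : Fin m → ℝ) (T : ℝ) (h : Fin m → Fin m → Fin m → ℝ)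
    (H : Fin m → Fin m → Fin m → Fin m → ℝ)
    (V : Fin m → Fin m → Fin m → Fin m → Fin m → ℝ) : Prop where
  tr1 : ∑ i, lam i = T
  tr2 : ∑ i, lam i ^ 2 = m
  h12 : ∀ i j k, h i j k = h j i k
  h23 : ∀ i j k, h i j k = h i k j
  H12 : ∀ i j k l, H i j k l = H j i k l
  H23 : ∀ i j k l, H i j k l = H i k j l
  V12 : ∀ i j k l p, V i j k l p = V j i k l p
  V23 : ∀ i j k l p, V i j k l p = V i k j l p
  ric4 : ∀ i j k l, H i j k l - H i j l k =
    (1 + lam k * lam l) * (lam j - lam i) * (dl k j * dl i l - dl l j * dl i k)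
  ric5a : ∀ i j k l p, V i j k l p - V i j l k p =
    (lam j - lam i) * (h k j p * lam i * dl i l + lam k * dl k j * h i l p -
      h l j p * lam i * dl i k - lam l * dl l j * h i k p) +
    (1 + lam k * lam l) * (dl i l * h k j p - dl i k * h l j p - dl k j * h i l p +
      dl l j * h i k p)
  ric5b : ∀ i j k l p, V i j k l p - V i j k p l =
    (1 + lam l * lam p) * (dl i p * h l j k - dl i l * h p j k - dl l j * h i p k +
      dl p j * h i l k - dl l k * h i j p + dl p k * h i j l)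
  h0 : ∀ k, ∑ i, h i i k = 0
  h1 : ∀ k, ∑ i, lam i * h i i k = 0
  H0 : ∀ k l, ∑ i, H i i k l = 0
  H1 : ∀ k l, ∑ i, ∑ j, h i j k * h i j l + ∑ i, lam i * H i i k l = 0
  V0 : ∀ k l p, ∑ i, V i i k l p = 0
  V1 : ∀ k l p, ∑ i, ∑ j, (H i j l p * h i j k + h i j l * H i j k p + h i j p * H i j k l) +
    ∑ i, lam i * V i i k l p = 0
  P0 : ∑ i, ∑ j, ∑ k, h i j k ^ 2 = T * (T - ∑ i, lam i ^ 3)
  P2 : ∀ p, 2 * ∑ i, ∑ j, ∑ k, (V i j k p p * h i j k + H i j k p ^ 2) +
    3 * T * (2 * ∑ i, ∑ j, lam i * h i j p ^ 2 + ∑ i, lam i ^ 2 * H i i p p) = 0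

/-- The weight of the component `h i j k` in the basic identity. -/
def kap (m t T D x y z : ℝ) : ℝ :=
  m + 3 + 5 / 2 * t * T + t * D + (2 * T + t * (m + 1)) * (x + y + z) +
    (1 + t * T / 2) * ((x + y + z) ^ 2 - 2 * (x ^ 2 + y ^ 2 + z ^ 2)) +
    t * ((x + y + z) * (x ^ 2 + y ^ 2 + z ^ 2) - 2 * (x ^ 3 + y ^ 3 + z ^ 3))

/-- The terms of the basic inequality which do not involve `h`, divided by the square norm
of `h`, minus a margin. -/
def shf (m t o T D E : ℝ) : ℝ :=
  (3 / 2 * T ^ 2 * E + 3 / 2 * (o + t * T) * (m * E - D ^ 2) - 9 * t ^ 2 / (4 * o) * (T * D) ^ 2) /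
    (T * D) - 1 / 128

/-- The multiplicity of the component `h i i k`. -/
def wt (i k : Fin m) : ℝ := if i = k then 1 else 3

/-- The inequalities between principal curvatures which force rigidity. -/
structure Spec (lam : Fin m → ℝ) (T D E t o c ρ : ℝ) (μ : Fin m) : Prop where
  pos : 0 < o
  om : ∀ l, o ≤ 1 + t * lam l
  ne : lam μ ≠ c
  rho : ∑ j ∈ Finset.univ.erase μ, (lam j - c) ^ 2 = ρ * (lam μ - c) ^ 2
  dis : ∀ i j k, i ≠ j → j ≠ k → i ≠ k →
    0 ≤ kap m t T D (lam i) (lam j) (lam k) + shf m t o T D E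
  one : ∀ i k, i ≠ μ → 0 ≤ kap m t T D (lam i) (lam i) (lam k) + shf m t o T D E
  two : ∀ i k, i ≠ μ → 0 ≤ wt i k * (kap m t T D (lam i) (lam i) (lam k) + shf m t o T D E) +
    wt μ k * ρ * (kap m t T D (lam μ) (lam μ) (lam k) + shf m t o T D E)

/-- Near `x` the map `φ` is an immersion into the intersection of the sphere with the cone of
the symmetric involution `Q`. -/
structure InQ (Q : Matrix (Fin (m + 2)) (Fin (m + 2)) ℝ) (φ : (Fin m → ℝ) → Fin (m + 2) → ℝ)
    (x : Fin m → ℝ) : Prop where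
  symm : Qᵀ = Q
  sq : Q * Q = 1
  smooth : ContDiffAt ℝ ∞ φ x
  imm : LinearIndependent ℝ fun i : Fin m => pv i φ x
  sph : ∀ᶠ y in nhds x, φ y ⬝ᵥ φ y = 1
  cone : ∀ᶠ y in nhds x, φ y ⬝ᵥ Q *ᵥ φ y = 0

end BiH
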