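import Pool.Agent.P.MP_ecb6bc_gt.KDefs
import Pool.Agent.P.MP_ecb6bc_gt.GeoB0
import Pool.Agent.P.MP_ecb6bc_gt.Eig

/-! Linear changes of coordinates. -/

set_option autoImplicit false
set_option linter.unusedSectionVars false
set_option linter.unusedVariables false

noncomputable section

namespace BiH

open Matrix
open scoped ContDiff

variable {R : Type} [CommRing R] [Algebra ℝ R] {m : ℕ} {Δ : DR R m}
  {g gi : Matrix (Fin m) (Fin m) R} {Γ : Fin m → Matrix (Fin m) (Fin m) R}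
  {A : Matrix (Fin m) (Fin m) R}


theorem exists_basis (G B : Matrix (Fin m) (Fin m) ℝ) (hG : G.PosDef) (hB : (G * B)ᵀ = G * B) :
    ∃ (P P' : Matrix (Fin m) (Fin m) ℝ) (lam : Fin m → ℝ),
      P * P' = 1 ∧ Pᵀ * G * P = 1 ∧ P' * B * P = diagonal lam := by
  obtain ⟨L, M, hLM, hML, hgL⟩ := fac_Eig G hG
  have hMLt : Mᵀ * Lᵀ = 1 := by rw [← transpose_mul, hLM, transpose_one]
  have e : L * B * M = Mᵀ * (G * B) * M := by
    rw [hgL]
    simp only [← Matrix.mul_assoc]
    rw [hMLt, Matrix.one_mul]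
  have hS : (L * B * M).IsHermitian := by
    change (L * B * M)ᴴ = _
    rw [conjTranspose_eq_transpose_of_trivial, e, transpose_mul, transpose_mul, hB,
      transpose_transpose, Matrix.mul_assoc, Matrix.mul_assoc, Matrix.mul_assoc]
  have h1 := hS.conjStarAlgAut_star_eigenvectorUnitary
  rw [Unitary.conjStarAlgAut_star_apply] at h1
  generalize hS.eigenvectorUnitary = U' at h1
  obtain ⟨U, h2, h3⟩ := U'
  change star U * _ * U = _ at h1
  rw [star_eq_conjTranspose, conjTranspose_eq_transpose_of_trivial] at h1 h2 h3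
  refine ⟨M * U, Uᵀ * L, _, ?_, ?_, Eq.trans ?_ h1⟩
  · rw [Matrix.mul_assoc, ← Matrix.mul_assoc U, h3, Matrix.one_mul, hML]
  · calc (M * U)ᵀ * G * (M * U) = Uᵀ * (Mᵀ * Lᵀ) * (L * M) * U := by
          rw [hgL, transpose_mul]
          simp only [Matrix.mul_assoc]
      _ = 1 := by rw [hMLt, hLM, Matrix.mul_one, Matrix.mul_one, h2]
  · simp only [Matrix.mul_assoc]

theorem one_KE1 {P P' : Matrix (Fin m) (Fin m) ℝ} (hP : P * P' = 1) :
    P.map (algebraMap ℝ R) * P'.map (algebraMap ℝ R) = 1 := by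
  rw [← Matrix.map_mul, hP, Matrix.map_one _ (map_zero _) (map_one _)]

theorem conj_KE1 (D : Derivation ℝ R R) (P Q : Matrix (Fin m) (Fin m) ℝ)
    (W : Matrix (Fin m) (Fin m) R) :
    (P.map (algebraMap ℝ R) * W * Q.map (algebraMap ℝ R)).map D =
      P.map (algebraMap ℝ R) * W.map D * Q.map (algebraMap ℝ R) := by
  have e : ∀ P : Matrix (Fin m) (Fin m) ℝ, (P.map (algebraMap ℝ R)).map D = 0 := fun P => by
    ext a b
    exact D.map_algebraMap _
  rw [map_mul_GeoB0, map_mul_GeoB0, e, e, Matrix.zero_mul, Matrix.mul_zero, zero_add, add_zero]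

theorem map_lin_KE1 (P : Matrix (Fin m) (Fin m) ℝ) (a : Fin m) (W : Matrix (Fin m) (Fin m) R) :
    W.map ((Δ.lin P).d a) = ∑ i, P i a • W.map (Δ.d i) := by
  have e : ∀ v : R, (∑ i, P i a • Δ.d i) v = ∑ i, P i a • Δ.d i v := by
    intro v
    induction (Finset.univ : Finset (Fin m)) using Finset.induction_on with
    | empty => simp
    | insert x s hx ih => rw [Finset.sum_insert hx, Finset.sum_insert hx, ← ih]; simp
  ext k l
  rw [Matrix.sum_apply]
  exact e _

theorem map_sum_KE1 (D : Derivation ℝ R R) (c : Fin m → ℝ) (F : Fin m → Matrix (Fin m) (Fin m) R) :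
    (∑ i, c i • F i).map D = ∑ i, c i • (F i).map D := by
  ext k l
  simp only [Matrix.map_apply, Matrix.sum_apply, Matrix.smul_apply, map_sum, Derivation.map_smul]

theorem symm_KE1 (P : Matrix (Fin m) (Fin m) ℝ) (q : Matrix (Fin m) (Fin m) R)
    {F : Fin m → Matrix (Fin m) (Fin m) R} (h : ∀ i j k, F i k j = F j k i) (a b k : Fin m) :
    (q * (∑ i, P i a • F i) * P.map (algebraMap ℝ R)) k b =
      (q * (∑ i, P i b • F i) * P.map (algebraMap ℝ R)) k a := by
  rw [Matrix.mul_assoc, Matrix.mul_assoc, Matrix.mul_apply, Matrix.mul_apply]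
  refine Finset.sum_congr rfl fun l _ => congrArg _ ?_
  simp only [Matrix.mul_apply, Matrix.sum_apply, Matrix.smul_apply, Matrix.map_apply,
    Finset.sum_mul, Algebra.smul_def (A := R)]
  rw [Finset.sum_comm]
  exact Finset.sum_congr rfl fun i _ => Finset.sum_congr rfl fun j _ => by
    rw [h i j l]
    ring

theorem cod_KE1 {P P' : Matrix (Fin m) (Fin m) ℝ} (hP : P * P' = 1) (a : Fin m) :
    (P'.map (algebraMap ℝ R) * A * P.map (algebraMap ℝ R)).map ((Δ.lin P).d a) +
      P'.map (algebraMap ℝ R) * (∑ i, P i a • Γ i) * P.map (algebraMap ℝ R) *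
        (P'.map (algebraMap ℝ R) * A * P.map (algebraMap ℝ R)) =
      P'.map (algebraMap ℝ R) * (∑ i, P i a • (A.map (Δ.d i) + Γ i * A)) *
        P.map (algebraMap ℝ R) := by
  rw [conj_KE1, map_lin_KE1]
  simp only [smul_add, Finset.sum_add_distrib, ← Matrix.smul_mul, ← Finset.sum_mul,
    Matrix.mul_add, Matrix.add_mul, Matrix.mul_assoc]
  rw [← Matrix.mul_assoc (P.map _) (P'.map _), one_KE1 hP, Matrix.one_mul]

/-- Change of coordinates for a family of endomorphisms with two lower indices. -/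
def L2_KE1 (P P' : Matrix (Fin m) (Fin m) ℝ) (F : Fin m → Fin m → Matrix (Fin m) (Fin m) R)
    (a c : Fin m) : Matrix (Fin m) (Fin m) R :=
  P'.map (algebraMap ℝ R) * (∑ i, ∑ k, (P i a * P k c) • F i k) * P.map (algebraMap ℝ R)

theorem alt_KE1 (P P' : Matrix (Fin m) (Fin m) ℝ) (F G : Fin m → Fin m → Matrix (Fin m) (Fin m) R)
    (a c : Fin m) :
    L2_KE1 P P' F a c - L2_KE1 P P' F c a + L2_KE1 P P' G a c - L2_KE1 P P' G c a =
      L2_KE1 P P' (fun i k => F i k - F k i + G i k - G k i) a c := by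
  have e : ∀ F : Fin m → Fin m → Matrix (Fin m) (Fin m) R,
      ∑ i, ∑ k, (P i c * P k a) • F i k = ∑ i, ∑ k, (P i a * P k c) • F k i := fun F => by
    rw [Finset.sum_comm]
    exact Finset.sum_congr rfl fun i _ => Finset.sum_congr rfl fun k _ => by rw [mul_comm]
  simp only [L2_KE1, e, smul_add, smul_sub, Finset.sum_add_distrib, Finset.sum_sub_distrib,
    Matrix.mul_add, Matrix.mul_sub, Matrix.add_mul, Matrix.sub_mul]

theorem L2d_KE1 (P P' : Matrix (Fin m) (Fin m) ℝ) (a c : Fin m) :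
    (P'.map (algebraMap ℝ R) * (∑ i, P i a • Γ i) * P.map (algebraMap ℝ R)).map ((Δ.lin P).d c) =
      L2_KE1 P P' (fun i k => (Γ i).map (Δ.d k)) a c := by
  rw [conj_KE1, map_sum_KE1, L2_KE1]
  simp only [map_lin_KE1, Finset.smul_sum, smul_smul]

theorem L2m_KE1 {P P' : Matrix (Fin m) (Fin m) ℝ} (hP : P * P' = 1) (a c : Fin m) :
    P'.map (algebraMap ℝ R) * (∑ i, P i c • Γ i) * P.map (algebraMap ℝ R) *
      (P'.map (algebraMap ℝ R) * (∑ i, P i a • Γ i) * P.map (algebraMap ℝ R)) =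
      L2_KE1 P P' (fun i k => Γ k * Γ i) a c := by
  have e : ∑ i, ∑ k, (P i a * P k c) • (Γ k * Γ i) = (∑ i, P i c • Γ i) * ∑ i, P i a • Γ i := by
    simp only [Finset.mul_sum, Finset.sum_mul, Matrix.smul_mul, Matrix.mul_smul, smul_smul]
  rw [L2_KE1, e]
  simp only [Matrix.mul_assoc]
  rw [← Matrix.mul_assoc (P.map _) (P'.map _), one_KE1 hP, Matrix.one_mul]

theorem L2x_KE1 (P P' : Matrix (Fin m) (Fin m) ℝ) (S B : Matrix (Fin m) (Fin m) R)
    (a c j l : Fin m) : L2_KE1 P P' (fun i k => vecMulVec (Bᵀ k) (S i)) a c l j =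
      ((P.map (algebraMap ℝ R))ᵀ * S * P.map (algebraMap ℝ R)) a j *
        (P'.map (algebraMap ℝ R) * B * P.map (algebraMap ℝ R)) l c := by
  have e : ∑ i, ∑ k, (P i a * P k c) • vecMulVec (Bᵀ k) (S i) =
      vecMulVec ((B * P.map (algebraMap ℝ R))ᵀ c) (((P.map (algebraMap ℝ R))ᵀ * S) a) := by
    ext l j
    simp only [Matrix.sum_apply, Matrix.smul_apply, vecMulVec_apply, transpose_apply,
      Matrix.mul_apply, Matrix.map_apply, Algebra.smul_def (A := R), map_mul, Finset.mul_sum,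
      Finset.sum_mul]
    exact Finset.sum_congr rfl fun i _ => Finset.sum_congr rfl fun k _ => by ring
  rw [L2_KE1, e, Matrix.mul_vecMulVec, Matrix.vecMulVec_mul, vecMulVec_apply, mul_comm,
    Matrix.mul_assoc (P'.map _)]
  rfl

theorem Str.lin (h : Str Δ g gi Γ A) (P P' : Matrix (Fin m) (Fin m) ℝ) (hP : P * P' = 1) :
    Str (Δ.lin P) ((P.map (algebraMap ℝ R))ᵀ * g * P.map (algebraMap ℝ R))
      (P'.map (algebraMap ℝ R) * gi * (P'.map (algebraMap ℝ R))ᵀ)
      (fun a => P'.map (algebraMap ℝ R) * (∑ i, P i a • Γ i) * P.map (algebraMap ℝ R))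
      (P'.map (algebraMap ℝ R) * A * P.map (algebraMap ℝ R)) := by
  have pq : P.map (algebraMap ℝ R) * P'.map (algebraMap ℝ R) = 1 := one_KE1 hP
  have qp : P'.map (algebraMap ℝ R) * P.map (algebraMap ℝ R) = 1 := mul_eq_one_comm.1 pq
  have gA : (P.map (algebraMap ℝ R))ᵀ * g * P.map (algebraMap ℝ R) *
      (P'.map (algebraMap ℝ R) * A * P.map (algebraMap ℝ R)) =
      (P.map (algebraMap ℝ R))ᵀ * (g * A) * P.map (algebraMap ℝ R) := by
    simp only [Matrix.mul_assoc]
    rw [← Matrix.mul_assoc (P.map _) (P'.map _), pq, Matrix.one_mul]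
  refine ⟨?_, ?_, ?_, fun Z hZ => ?_, fun a => ?_, fun a b k => symm_KE1 P _ h.sy a b k, ?_,
    fun a b k => ?_, fun a c j l => ?_⟩
  · rw [transpose_mul, transpose_mul, transpose_transpose, h.gs, Matrix.mul_assoc]
  · simp only [Matrix.mul_assoc]
    rw [← Matrix.mul_assoc (P.map _) (P'.map _), pq, Matrix.one_mul, ← Matrix.mul_assoc g, h.gg,
      Matrix.one_mul, ← transpose_mul, qp, transpose_one]
  · have e : (P.map (algebraMap ℝ R)).map (Δ.ev : R →+* ℝ) = P := by
      ext a b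
      exact Δ.ev.commutes _
    have h1 := h.pos.conjTranspose_mul_mul_same (B := P) fun x y e => by
      rw [← one_mulVec x, ← one_mulVec y, ← mul_eq_one_comm.1 hP, ← mulVec_mulVec, ← mulVec_mulVec, e]
    rw [conjTranspose_eq_transpose_of_trivial] at h1
    change (Matrix.map _ (Δ.ev : R →+* ℝ)).PosDef
    rw [Matrix.map_mul, Matrix.map_mul, transpose_map, e]
    exact h1
  · rw [← mulVec_mulVec, ← mulVec_mulVec, dotProduct_mulVec, vecMul_transpose] at hZ
    rw [← one_mulVec Z, ← qp, ← mulVec_mulVec, h.sq _ hZ, mulVec_zero]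
  · have e : ∑ i, P i a • g.map (Δ.d i) = (∑ i, P i a • Γ i)ᵀ * g + g * ∑ i, P i a • Γ i := by
      simp only [h.dg, smul_add, Finset.sum_add_distrib, transpose_sum, transpose_smul,
        Finset.sum_mul, Finset.mul_sum, Matrix.smul_mul, Matrix.mul_smul]
    rw [← transpose_map, conj_KE1, map_lin_KE1, transpose_map, e]
    simp only [transpose_mul, Matrix.mul_add, Matrix.add_mul, Matrix.mul_assoc]
    rw [← Matrix.mul_assoc (P.map _) (P'.map _), pq, Matrix.one_mul,
      ← Matrix.mul_assoc (P'.map _)ᵀ, ← transpose_mul, pq, transpose_one, Matrix.one_mul]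
  · rw [gA, transpose_mul, transpose_mul, transpose_transpose, h.hs, ← Matrix.mul_assoc]
  · rw [cod_KE1 hP, cod_KE1 hP]
    exact symm_KE1 P _ h.cod a b k
  · have e : (fun i k => (Γ i).map (Δ.d k) - (Γ k).map (Δ.d i) + Γ k * Γ i - Γ i * Γ k) =
        fun i k => vecMulVec ((1 : Matrix (Fin m) (Fin m) R)ᵀ k) (g i) -
          vecMulVec ((1 : Matrix (Fin m) (Fin m) R)ᵀ i) (g k) + vecMulVec (Aᵀ k) ((g * A) i) -
          vecMulVec (Aᵀ i) ((g * A) k) := by
      ext i k l j
      rw [h.gau]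
      simp only [Matrix.sub_apply, Matrix.add_apply, vecMulVec_apply, transpose_apply]
      ring
    rw [L2d_KE1, L2d_KE1, L2m_KE1 hP, L2m_KE1 hP, alt_KE1, e,
      ← alt_KE1 P P' (fun i k => vecMulVec ((1 : Matrix (Fin m) (Fin m) R)ᵀ k) (g i))
        fun i k => vecMulVec (Aᵀ k) ((g * A) i)]
    simp only [Matrix.sub_apply, Matrix.add_apply, L2x_KE1, gA, Matrix.mul_one, qp]

theorem T3_lin (P P' : Matrix (Fin m) (Fin m) ℝ) (hP : P * P' = 1) (a : Fin m) :
    T3 (Δ.lin P) (fun a => P'.map (algebraMap ℝ R) * (∑ i, P i a • Γ i) * P.map (algebraMap ℝ R))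
      (P'.map (algebraMap ℝ R) * A * P.map (algebraMap ℝ R)) a =
      P'.map (algebraMap ℝ R) * (∑ i, P i a • T3 Δ Γ A i) * P.map (algebraMap ℝ R) := by
  rw [T3, nab, cod_KE1 hP]
  simp only [T3, nab, smul_sub, Finset.sum_sub_distrib, ← Matrix.mul_smul, ← Finset.mul_sum,
    Matrix.mul_sub, Matrix.sub_mul, Matrix.mul_assoc]
  rw [← Matrix.mul_assoc (P.map _) (P'.map _), one_KE1 hP, Matrix.one_mul]

end BiH
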