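import Pool.Agent.P.MP_ecb6bc_gt.KE1
import Pool.Agent.P.MP_ecb6bc_gt.KA8
import Pool.Agent.P.MP_ecb6bc_gt.KC3

/-! Rigidity at the base point. -/

set_option autoImplicit false
set_option linter.unusedSectionVars false
set_option linter.unusedVariables false

noncomputable section

namespace BiH

open Matrix
open scoped ContDiff

variable {R : Type} [CommRing R] [Algebra ℝ R] {m : ℕ} {Δ : DR R m}
  {g gi : Matrix (Fin m) (Fin m) R} {Γ : Fin m → Matrix (Fin m) (Fin m) R}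
  {A : Matrix (Fin m) (Fin m) R}

theorem ev_mul_KE2 (Δ : DR R m) (X Y : Matrix (Fin m) (Fin m) R) :
    (X * Y).map Δ.ev = X.map Δ.ev * Y.map Δ.ev := Matrix.map_mul

theorem ev_alg_KE2 (Δ : DR R m) (P : Matrix (Fin m) (Fin m) ℝ) :
    (P.map (algebraMap ℝ R)).map Δ.ev = P := by
  ext a b
  simp

theorem alg_mul_KE2 {P P' : Matrix (Fin m) (Fin m) ℝ} (hP : P * P' = 1) :
    P.map (algebraMap ℝ R) * P'.map (algebraMap ℝ R) = 1 := by
  rw [← Matrix.map_mul, hP, Matrix.map_one _ (map_zero _) (map_one _)]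

theorem Str.rigid (h : Str Δ g gi Γ A) (hm : m ≤ 7) (T : ℝ) (hT : 0 < T)
    (h1 : A.trace = algebraMap ℝ R T) (h2 : (A * A).trace = (m : R)) :
    (∀ k, (T3 Δ Γ A k).map Δ.ev = 0) ∧ (A * A).map Δ.ev = 1 := by
  have hB : (g.map Δ.ev * A.map Δ.ev)ᵀ = g.map Δ.ev * A.map Δ.ev := by
    rw [← ev_mul_KE2, ← Matrix.transpose_map, h.hs]
  obtain ⟨P, P', lam, hP, hG, hD⟩ := exists_basis _ _ h.pos hB
  have hP' : P' * P = 1 := mul_eq_one_comm.1 hP
  have e1 := alg_mul_KE2 (R := R) hP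
  have t1 : ∀ X : Matrix (Fin m) (Fin m) R,
      (P'.map (algebraMap ℝ R) * X * P.map (algebraMap ℝ R)).trace = X.trace := fun X => by
    rw [Matrix.trace_mul_cycle, e1, Matrix.one_mul]
  have t2 : (P'.map (algebraMap ℝ R) * A * P.map (algebraMap ℝ R)) *
      (P'.map (algebraMap ℝ R) * A * P.map (algebraMap ℝ R)) =
      P'.map (algebraMap ℝ R) * (A * A) * P.map (algebraMap ℝ R) := by
    simp only [Matrix.mul_assoc]
    rw [← Matrix.mul_assoc (P.map _) (P'.map _), e1, Matrix.one_mul]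
  have cj : ∀ X : Matrix (Fin m) (Fin m) R,
      (P'.map (algebraMap ℝ R) * X * P.map (algebraMap ℝ R)).map Δ.ev = P' * X.map Δ.ev * P :=
    fun X => by rw [ev_mul_KE2, ev_mul_KE2, ev_alg_KE2, ev_alg_KE2]
  have un : ∀ X : Matrix (Fin m) (Fin m) ℝ, P * (P' * X * P) * P' = X := fun X => by
    simp only [Matrix.mul_assoc]
    rw [hP, Matrix.mul_one, ← Matrix.mul_assoc, hP, Matrix.one_mul]
  have hg : ((P.map (algebraMap ℝ R))ᵀ * g * P.map (algebraMap ℝ R)).map (Δ.lin P).ev = 1 := by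
    change ((P.map (algebraMap ℝ R))ᵀ * g * P.map (algebraMap ℝ R)).map Δ.ev = 1
    rw [ev_mul_KE2, ev_mul_KE2, Matrix.transpose_map, ev_alg_KE2, hG]
  have hA : (P'.map (algebraMap ℝ R) * A * P.map (algebraMap ℝ R)).map (Δ.lin P).ev =
      diagonal lam := (cj A).trans hD
  obtain ⟨r1, r2⟩ := ((h.lin P P' hP).jet T (by rw [t1, h1]) (by rw [t2, t1, h2]) hg hA).rigid
    hm hT
  have z : ∀ a, (∑ i, P i a • T3 Δ Γ A i).map Δ.ev = 0 := fun a => by
    have w : P' * (∑ i, P i a • T3 Δ Γ A i).map Δ.ev * P = 0 := by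
      rw [← cj, ← T3_lin P P' hP a]
      ext i j
      exact r1 i j a
    rw [← un ((∑ i, P i a • T3 Δ Γ A i).map Δ.ev), w, Matrix.mul_zero, Matrix.zero_mul]
  refine ⟨fun k => ?_, ?_⟩
  · ext i j
    have y : ∀ a, ∑ l, P l a * Δ.ev (T3 Δ Γ A l i j) = 0 := fun a => by
      have := congrFun (congrFun (z a) i) j
      simpa [Matrix.sum_apply, map_sum] using this
    have v : (fun l => Δ.ev (T3 Δ Γ A l i j)) ᵥ* P = 0 := by
      ext a
      rw [Pi.zero_apply, ← y a]
      simp only [Matrix.vecMul, dotProduct, mul_comm]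
    have u := congrArg (fun w => w ᵥ* P') v
    simp only [Matrix.vecMul_vecMul, hP, Matrix.vecMul_one, Matrix.zero_vecMul] at u
    exact congrFun u k
  · have w : P' * (A * A).map Δ.ev * P = 1 := by
      rw [← cj, ← t2, ev_mul_KE2, cj, hD, Matrix.diagonal_mul_diagonal, ← Matrix.diagonal_one]
      exact congrArg _ (funext fun i => (pow_two _).symm.trans (r2 i))
    rw [← un ((A * A).map Δ.ev), w, Matrix.mul_one, hP]

end BiH
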