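import Pool.Agent.P.MP_ecb6bc_gt.KDefs
import Pool.Agent.P.MP_ecb6bc_gt.GeoA2
import Pool.Agent.P.MP_ecb6bc_gt.GeoB0

/-! The matrix Q. -/

set_option autoImplicit false
set_option linter.unusedSectionVars false
set_option linter.unusedVariables false

noncomputable section

namespace BiH

open Matrix
open scoped ContDiff

variable {R : Type} [CommRing R] [Algebra ℝ R] {m : ℕ} {Δ : DR R m}
  {f N : Fin (m + 2) → R}


/-- The matrix of tangent vectors. -/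
def tm_KE3 (Δ : DR R m) (f : Fin (m + 2) → R) : Matrix (Fin (m + 2)) (Fin m) R :=
  Matrix.of fun a i => Δ.pv i f a

theorem sum_KE3 (B : Matrix (Fin m) (Fin m) R) (f N : Fin (m + 2) → R) :
    ∑ i, ∑ j, B i j • vecMulVec (Δ.pv i N) (Δ.pv j f) = tm_KE3 Δ N * B * (tm_KE3 Δ f)ᵀ := by
  ext a b
  simp only [Matrix.sum_apply, Matrix.smul_apply, vecMulVec_apply, smul_eq_mul, Matrix.mul_apply,
    transpose_apply, tm_KE3, of_apply, Finset.sum_mul]
  rw [Finset.sum_comm]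
  exact Finset.sum_congr rfl fun j _ => Finset.sum_congr rfl fun i _ => by ring

theorem gram_KE3 : (tm_KE3 Δ f)ᵀ * tm_KE3 Δ f = Δ.metric f := rfl

theorem tf_KE3 (h : Fr Δ f N) : (tm_KE3 Δ f)ᵀ *ᵥ f = 0 :=
  funext fun i => self_GeoA1 h.ff i

theorem tN_KE3 (h : Fr Δ f N) : (tm_KE3 Δ f)ᵀ *ᵥ N = 0 :=
  funext fun i => (dotProduct_comm _ _).trans (h.Nd i)

theorem wein_KE3 (h : Fr Δ f N) : tm_KE3 Δ N = -(tm_KE3 Δ f * shape Δ f N) := by
  ext a i
  have := congrFun (h.wein i) a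
  simp only [Pi.neg_apply, Finset.sum_apply, Pi.smul_apply, smul_eq_mul] at this
  simp only [tm_KE3, of_apply, Matrix.neg_apply, Matrix.mul_apply, this, mul_comm]

theorem Q_KE3 (h : Fr Δ f N) : Qm Δ f N = vecMulVec f N + vecMulVec N f -
    tm_KE3 Δ f * (shape Δ f N * (Δ.metric f)⁻¹) * (tm_KE3 Δ f)ᵀ := by
  rw [Qm, sum_KE3, wein_KE3 h, Matrix.neg_mul, Matrix.neg_mul, ← sub_eq_add_neg,
    Matrix.mul_assoc (tm_KE3 Δ f) (shape Δ f N)]

theorem sym_KE3 (h : Fr Δ f N) :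
    (shape Δ f N * (Δ.metric f)⁻¹)ᵀ = shape Δ f N * (Δ.metric f)⁻¹ := by
  obtain ⟨g1, g2, g3, g4⟩ := metric_mul_inv h.det
  have h1 : shape Δ f N * (Δ.metric f)⁻¹ =
      (Δ.metric f)⁻¹ * (Δ.metric f * shape Δ f N) * (Δ.metric f)⁻¹ := by
    rw [← Matrix.mul_assoc, g2, Matrix.one_mul]
  rw [h1, transpose_mul, transpose_mul, h.str.hs, g4]
  simp only [Matrix.mul_assoc]

theorem one_KE3 (h : Fr Δ f N) : vecMulVec f f + vecMulVec N N +
    tm_KE3 Δ f * (Δ.metric f)⁻¹ * (tm_KE3 Δ f)ᵀ = 1 := by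
  ext a b
  have := congrFun (h.span (Pi.single b 1)) a
  simp only [single_dotProduct, one_mul, Pi.add_apply, Pi.smul_apply, smul_eq_mul,
    Finset.sum_apply] at this
  rw [Matrix.one_apply, ← Pi.single_apply b (1 : R) a, this]
  simp only [Matrix.add_apply, vecMulVec_apply, Matrix.mul_apply, transpose_apply, tm_KE3,
    of_apply, Finset.sum_mul]
  rw [Finset.sum_comm, mul_comm (f a), mul_comm (N a)]
  exact congrArg _ (Finset.sum_congr rfl fun j _ => Finset.sum_congr rfl fun i _ => by ring)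

theorem Fr.Qm_eq (h : Fr Δ f N) : Qm Δ f N = vecMulVec f N + vecMulVec N f -
    ∑ i, ∑ j, (shape Δ f N * (Δ.metric f)⁻¹) i j • vecMulVec (Δ.pv i f) (Δ.pv j f) := by
  rw [sum_KE3, Q_KE3 h]

theorem Fr.Qm_symm (h : Fr Δ f N) : (Qm Δ f N)ᵀ = Qm Δ f N := by
  rw [Q_KE3 h, transpose_sub, transpose_add, transpose_vecMulVec, transpose_vecMulVec,
    transpose_mul, transpose_mul (tm_KE3 Δ f), sym_KE3 h, transpose_transpose,
    add_comm (vecMulVec N f), ← Matrix.mul_assoc (tm_KE3 Δ f) (_ * _)]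

theorem Fr.Qm_f (h : Fr Δ f N) : Qm Δ f N *ᵥ f = N := by
  rw [Q_KE3 h, sub_mulVec, add_mulVec, vecMulVec_mulVec, vecMulVec_mulVec, ← mulVec_mulVec,
    tf_KE3 h, h.Nf, h.ff]
  simp

theorem Fr.Qm_trace (h : Fr Δ f N) : (Qm Δ f N).trace = -(shape Δ f N).trace := by
  rw [Q_KE3 h, trace_sub, trace_add, trace_vecMulVec, trace_vecMulVec, dotProduct_comm f, h.Nf,
    trace_mul_cycle, gram_KE3, trace_mul_comm, Matrix.mul_assoc, (metric_mul_inv h.det).2.1,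
    Matrix.mul_one, add_zero, zero_sub]

theorem sq_KE3 (h : Fr Δ f N) : Qm Δ f N * Qm Δ f N = vecMulVec f f + vecMulVec N N +
    tm_KE3 Δ f * (shape Δ f N * shape Δ f N) * (Δ.metric f)⁻¹ * (tm_KE3 Δ f)ᵀ := by
  obtain ⟨g1, g2, g3, g4⟩ := metric_mul_inv h.det
  set F := tm_KE3 Δ f with hF
  set B := shape Δ f N * (Δ.metric f)⁻¹ with hB
  have e1 : ∀ v : Fin (m + 2) → R, F * B * Fᵀ * vecMulVec f v = 0 := fun v => by
    rw [mul_vecMulVec, ← mulVec_mulVec, tf_KE3 h]; simp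
  have e2 : ∀ v : Fin (m + 2) → R, F * B * Fᵀ * vecMulVec N v = 0 := fun v => by
    rw [mul_vecMulVec, ← mulVec_mulVec, tN_KE3 h]; simp
  have e3 : ∀ v : Fin (m + 2) → R, vecMulVec v f * (F * B * Fᵀ) = 0 := fun v => by
    rw [vecMulVec_mul, ← vecMul_vecMul, ← vecMul_vecMul, ← mulVec_transpose F, tf_KE3 h]; simp
  have e4 : ∀ v : Fin (m + 2) → R, vecMulVec v N * (F * B * Fᵀ) = 0 := fun v => by
    rw [vecMulVec_mul, ← vecMul_vecMul, ← vecMul_vecMul, ← mulVec_transpose F, tN_KE3 h]; simp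
  have e5 : F * B * Fᵀ * (F * B * Fᵀ) =
      F * (shape Δ f N * shape Δ f N) * (Δ.metric f)⁻¹ * Fᵀ := by
    calc F * B * Fᵀ * (F * B * Fᵀ)
        = F * (shape Δ f N * ((Δ.metric f)⁻¹ * (Fᵀ * F)) * B) * Fᵀ := by
          simp only [hB, Matrix.mul_assoc]
      _ = _ := by
          rw [hF, gram_KE3, g2, Matrix.mul_one]
          simp only [hB, Matrix.mul_assoc]
  rw [Q_KE3 h, Matrix.sub_mul, Matrix.mul_sub, Matrix.mul_sub, e5, Matrix.add_mul, Matrix.add_mul,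
    Matrix.mul_add, Matrix.mul_add, Matrix.mul_add, e1, e2, e3, e4]
  simp only [vecMulVec_mul_vecMulVec, h.Nf, h.NN, h.ff, dotProduct_comm f N]
  simp

theorem Fr.Qm_sq (h : Fr Δ f N) (hA : (shape Δ f N * shape Δ f N).map Δ.ev = 1) :
    (Qm Δ f N).map Δ.ev * (Qm Δ f N).map Δ.ev = 1 := by
  have e : ∀ {a b c : Type} [Fintype b] (P : Matrix a b R) (Q : Matrix b c R),
      (P * Q).map Δ.ev = P.map Δ.ev * Q.map Δ.ev := fun P Q => Matrix.map_mul
  have e' : ∀ {a b : Type} (P Q : Matrix a b R),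
      (P + Q).map Δ.ev = P.map Δ.ev + Q.map Δ.ev := fun P Q => Matrix.map_add _ (map_add _) _ _
  rw [← e, sq_KE3 h, e', e, e, e (tm_KE3 Δ f), hA, Matrix.mul_one, ← e, ← e, ← e', one_KE3 h]
  exact Matrix.map_one _ (map_zero _) (map_one _)

end BiH
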