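import Pool.Agent.P.MP_ecb6bc_gt.KE3

/-! The derivative of the matrix Q. -/

set_option autoImplicit false
set_option linter.unusedSectionVars false
set_option linter.unusedVariables false

noncomputable section

namespace BiH

open Matrix
open scoped ContDiff

variable {R : Type} [CommRing R] [Algebra ℝ R] {m : ℕ} {Δ : DR R m}
  {f N : Fin (m + 2) → R}

theorem map_mul_KE4 {p q r : ℕ} (D : Derivation ℝ R R) (P : Matrix (Fin p) (Fin q) R)
    (Q : Matrix (Fin q) (Fin r) R) : (P * Q).map D = P.map D * Q + P * Q.map D := by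
  ext a b
  simp only [Matrix.map_apply, Matrix.mul_apply, Matrix.add_apply, map_sum, Derivation.leibniz,
    smul_eq_mul, ← Finset.sum_add_distrib]
  exact Finset.sum_congr rfl fun p _ => by ring

theorem dgi_KE4 {g gi A : Matrix (Fin m) (Fin m) R} {Γ : Fin m → Matrix (Fin m) (Fin m) R}
    (h : Str Δ g gi Γ A) (k : Fin m) : gi.map (Δ.d k) = -(Γ k * gi) - gi * (Γ k)ᵀ := by
  have h1 : (g * gi).map (Δ.d k) = 0 := by
    rw [h.gg]
    ext a b
    by_cases hab : a = b
    · subst hab
      simp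
    · simp [Matrix.one_apply_ne hab]
  rw [map_mul_KE4, h.dg] at h1
  have h2 : gi * (((Γ k)ᵀ * g + g * Γ k) * gi + g * gi.map (Δ.d k)) = 0 := by
    rw [h1, Matrix.mul_zero]
  have h3 : gi * (((Γ k)ᵀ * g + g * Γ k) * gi + g * gi.map (Δ.d k)) =
      gi * (Γ k)ᵀ * (g * gi) + (gi * g) * Γ k * gi + (gi * g) * gi.map (Δ.d k) := by
    noncomm_ring
  rw [h3, h.gg, h.gig.1, Matrix.mul_one, Matrix.one_mul, Matrix.one_mul] at h2
  rw [← sub_eq_zero, ← h2]
  abel

theorem dQ_KE4 (h : Fr Δ f N) (k : Fin m) (F : Matrix (Fin (m + 2)) (Fin m) R)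
    (hF : F = Matrix.of fun a i => Δ.pv i f a) :
    (Qm Δ f N).map (Δ.d k) =
      vecMulVec N (F *ᵥ (1 - shape Δ f N * shape Δ f N).col k) +
        vecMulVec (F *ᵥ (1 - shape Δ f N * shape Δ f N).col k) N -
        F * (T3 Δ (gam Δ f) (shape Δ f N) k * (Δ.metric f)⁻¹) * Fᵀ := by
  have hs := h.str
  have hga := h.gauss k
  have hw := h.wein k
  have hQ := h.Qm_eq
  generalize Δ.metric f = g at *
  generalize g⁻¹ = gi at *
  generalize shape Δ f N = A at *
  generalize gam Δ f = Γ at *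
  have hAg : Aᵀ * g = g * A := by
    have := hs.hs
    rwa [Matrix.transpose_mul, hs.gs] at this
  have hgB : g * (A * gi) = Aᵀ := by
    rw [← Matrix.mul_assoc, ← hAg, Matrix.mul_assoc, hs.gg, Matrix.mul_one]
  have hBt : (A * gi)ᵀ = A * gi := by
    rw [Matrix.transpose_mul, hs.gig.2, ← hgB, ← Matrix.mul_assoc, hs.gig.1, Matrix.one_mul]
  have hgAB : g * A * (A * gi) = (A * A)ᵀ := by
    rw [← hAg, Matrix.mul_assoc, hgB, Matrix.transpose_mul]
  have hQ' : Qm Δ f N = vecMulVec f N + vecMulVec N f - F * (A * gi) * Fᵀ := by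
    rw [hQ]
    congr 1
    ext a b
    simp only [hF, Matrix.sum_apply, Matrix.smul_apply, Matrix.vecMulVec_apply, smul_eq_mul,
      Matrix.mul_apply (M := Matrix.of _ * _), Matrix.mul_apply (M := Matrix.of _),
      Matrix.of_apply, Matrix.transpose_apply, Finset.sum_mul]
    rw [Finset.sum_comm]
    exact Finset.sum_congr rfl fun j _ => Finset.sum_congr rfl fun i _ => by ring
  have hDF : F.map (Δ.d k) = -vecMulVec f (g.row k) + vecMulVec N ((g * A).row k) + F * Γ k := by
    ext a j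
    have := congrFun (hga j) a
    simp only [Pi.add_apply, Pi.smul_apply, Finset.sum_apply, smul_eq_mul] at this
    simp only [hF, Matrix.map_apply, Matrix.of_apply, Matrix.add_apply, Matrix.neg_apply,
      Matrix.vecMulVec_apply, Matrix.mul_apply (M := Matrix.of _), Matrix.row]
    refine Eq.trans this ?_
    rw [Finset.sum_congr rfl fun l _ => mul_comm (Γ k l j) (Δ.pv l f a)]
    ring
  have hdf : Δ.pv k f = F *ᵥ (1 : Matrix (Fin m) (Fin m) R).col k := by
    funext a
    simp [hF, Matrix.mulVec, dotProduct, Matrix.col, Matrix.one_apply]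
  have hdN : Δ.pv k N = -(F *ᵥ A.col k) := by
    rw [hw]
    funext a
    simp only [hF, Pi.neg_apply, Finset.sum_apply, Pi.smul_apply, smul_eq_mul, Matrix.mulVec,
      dotProduct, Matrix.col, Matrix.of_apply, Matrix.transpose_apply]
    congr 1
    exact Finset.sum_congr rfl fun l _ => mul_comm _ _
  have hvv : ∀ U V : Fin (m + 2) → R, (vecMulVec U V).map (Δ.d k) =
      vecMulVec (Δ.pv k U) V + vecMulVec U (Δ.pv k V) := by
    intro U V
    ext a b
    simp only [Matrix.map_apply, Matrix.vecMulVec_apply, Matrix.add_apply, Derivation.leibniz,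
      smul_eq_mul, DR.pv]
    ring
  have e1 : F.map (Δ.d k) * (A * gi) * Fᵀ = -vecMulVec f (F *ᵥ A.col k) +
      vecMulVec N (F *ᵥ (A * A).col k) + F * (Γ k * (A * gi)) * Fᵀ := by
    have r1 : g.row k ᵥ* (A * gi) = A.col k := by
      funext j
      exact congrFun (congrFun hgB k) j
    have r2 : (g * A).row k ᵥ* (A * gi) = (A * A).col k := by
      funext j
      exact congrFun (congrFun hgAB k) j
    rw [hDF, Matrix.add_mul, Matrix.add_mul, Matrix.add_mul, Matrix.add_mul, Matrix.neg_mul,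
      Matrix.neg_mul, Matrix.vecMulVec_mul, Matrix.vecMulVec_mul, Matrix.vecMulVec_mul,
      Matrix.vecMulVec_mul, r1, r2, Matrix.vecMul_transpose, Matrix.vecMul_transpose,
      Matrix.mul_assoc F (Γ k)]
  have e2 : F * (A * gi) * (Fᵀ).map (Δ.d k) = -vecMulVec (F *ᵥ A.col k) f +
      vecMulVec (F *ᵥ (A * A).col k) N + F * (A * gi * (Γ k)ᵀ) * Fᵀ := by
    have t := congrArg Matrix.transpose e1
    rw [Matrix.transpose_mul, Matrix.transpose_mul, hBt, Matrix.transpose_transpose,
      ← Matrix.transpose_map, ← Matrix.mul_assoc, Matrix.transpose_add, Matrix.transpose_add,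
      Matrix.transpose_neg, Matrix.transpose_vecMulVec, Matrix.transpose_vecMulVec,
      Matrix.transpose_mul, Matrix.transpose_mul, Matrix.transpose_mul (Γ k), hBt,
      Matrix.transpose_transpose] at t
    simpa only [Matrix.mul_assoc] using t
  have e3 : T3 Δ Γ A k * gi = Γ k * (A * gi) + (A * gi).map (Δ.d k) + A * gi * (Γ k)ᵀ := by
    rw [map_mul_KE4, dgi_KE4 hs, T3, nab]
    noncomm_ring
  have e4 : F *ᵥ (1 - A * A).col k =
      F *ᵥ (1 : Matrix (Fin m) (Fin m) R).col k - F *ᵥ (A * A).col k := by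
    rw [← Matrix.mulVec_sub]
    rfl
  rw [hQ', Matrix.map_sub _ (map_sub (Δ.d k)), Matrix.map_add _ (map_add (Δ.d k)), hvv, hvv,
    map_mul_KE4, map_mul_KE4, Matrix.add_mul, e1, e2, e3, e4, hdf, hdN, Matrix.mul_add,
    Matrix.mul_add, Matrix.add_mul, Matrix.add_mul, Matrix.vecMulVec_sub, Matrix.sub_vecMulVec,
    Matrix.vecMulVec_neg, Matrix.neg_vecMulVec]
  abel

theorem Fr.Qm_d (h : Fr Δ f N) (hA : (shape Δ f N * shape Δ f N).map Δ.ev = 1)
    (h3 : ∀ k, (T3 Δ (gam Δ f) (shape Δ f N) k).map Δ.ev = 0) (k : Fin m) (a b : Fin (m + 2)) :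
    Δ.ev (Δ.d k (Qm Δ f N a b)) = 0 := by
  have e := congrFun (congrFun (dQ_KE4 h k _ rfl) a) b
  rw [Matrix.map_apply] at e
  have z1 : ∀ i j, Δ.ev ((1 - shape Δ f N * shape Δ f N) i j) = 0 := by
    intro i j
    have := congrFun (congrFun hA i) j
    rw [Matrix.map_apply] at this
    rw [Matrix.sub_apply, map_sub, this]
    by_cases hij : i = j
    · subst hij
      simp
    · simp [Matrix.one_apply_ne hij]
  have z2 : ∀ i j, Δ.ev (T3 Δ (gam Δ f) (shape Δ f N) k i j) = 0 := fun i j =>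
    congrFun (congrFun (h3 k) i) j
  rw [e]
  generalize (1 - shape Δ f N * shape Δ f N) = W at *
  generalize T3 Δ (gam Δ f) (shape Δ f N) k = T at *
  simp only [Matrix.sub_apply, Matrix.add_apply, Matrix.vecMulVec_apply, Matrix.mul_apply,
    Matrix.mulVec, dotProduct, Matrix.col, Matrix.transpose_apply, map_sub, map_add, map_mul,
    map_sum, z1, z2, mul_zero, zero_mul, Finset.sum_const_zero, add_zero, sub_zero]

end BiH
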