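import Pool.Agent.P.MP_ecb6bc_gt.KE2
import Pool.Agent.P.MP_ecb6bc_gt.KE4
import Pool.Agent.P.MP_ecb6bc_gt.Germ

/-! The local theorem. -/

set_option autoImplicit false
set_option linter.unusedSectionVars false
set_option linter.unusedVariables false

noncomputable section

namespace BiH

open Matrix
open scoped ContDiff

variable {m : ℕ}


theorem alg_KE5 {R : Type} [CommRing R] [Algebra ℝ R] (Δ : DR R m) (f : Fin (m + 2) → R)
    (h1 : f ⬝ᵥ f = 1) (hdet : Δ.ev (Δ.metric f).det ≠ 0) (hb : Δ.bitension f = 0) {T : ℝ}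
    (hT0 : T ≠ 0) (hT : Δ.tension f ⬝ᵥ Δ.tension f = algebraMap ℝ R (T * T)) :
    Fr Δ f (algebraMap ℝ R T⁻¹ • Δ.tension f) ∧
      (shape Δ f (algebraMap ℝ R T⁻¹ • Δ.tension f)).trace = algebraMap ℝ R T ∧
      (shape Δ f (algebraMap ℝ R T⁻¹ • Δ.tension f) *
        shape Δ f (algebraMap ℝ R T⁻¹ • Δ.tension f)).trace = (m : R) := by
  have hU : algebraMap ℝ R T⁻¹ * algebraMap ℝ R T = 1 := by
    rw [← map_mul, inv_mul_cancel₀ hT0, map_one]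
  rw [map_mul] at hT
  have dT : ∀ i, Δ.d i (algebraMap ℝ R T) = 0 := fun i => (Δ.d i).map_algebraMap T
  generalize algebraMap ℝ R T⁻¹ = U at hU ⊢
  generalize algebraMap ℝ R T = S at hU hT dT ⊢
  obtain ⟨hd1, hd2⟩ := tension_dot h1 hdet
  have hF : Fr Δ f (U • Δ.tension f) := by
    refine ⟨h1, hdet, ?_, ?_, fun j => ?_⟩
    · rw [smul_dotProduct, dotProduct_smul, hT, smul_eq_mul, smul_eq_mul]
      linear_combination (U * S + 1) * hU
    · rw [smul_dotProduct, hd1, smul_zero]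
    · rw [smul_dotProduct, hd2, smul_zero]
  have hTA : S = (shape Δ f (U • Δ.tension f)).trace := by
    have e := congrArg (fun V => V ⬝ᵥ (U • Δ.tension f)) hF.tension_eq
    simp only [smul_dotProduct, hF.NN, smul_eq_mul, mul_one] at e
    rw [← e, dotProduct_smul, hT, smul_eq_mul]
    linear_combination (-S) * hU
  obtain ⟨hn, -⟩ := hF.bih hb S hTA
  have hl : lap Δ (Δ.metric f)⁻¹ (gam Δ f) S = 0 := by
    simp only [lap, dT, map_zero, mul_zero, Finset.sum_const_zero, sub_zero]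
  rw [hl] at hn
  refine ⟨hF, hTA.symm, ?_⟩
  linear_combination (-U) * hn -
    ((shape Δ f (U • Δ.tension f) * shape Δ f (U • Δ.tension f)).trace - m) * hU

/-- The unit normal. -/
def Nf_KE5 (T : ℝ) (φ : (Fin m → ℝ) → Fin (m + 2) → ℝ) (x : Fin m → ℝ) : Fin (m + 2) → ℝ :=
  T⁻¹ • tension φ x

/-- The matrix that turns out to be constant. -/
def Qf_KE5 (T : ℝ) (φ : (Fin m → ℝ) → Fin (m + 2) → ℝ) (x : Fin m → ℝ) :
    Matrix (Fin (m + 2)) (Fin (m + 2)) ℝ :=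
  Matrix.of fun a b => φ x a * Nf_KE5 T φ x b + Nf_KE5 T φ x a * φ x b +
    ∑ i, ∑ j, (metric φ x)⁻¹ i j * (pv i (Nf_KE5 T φ) x a * pv j φ x b)

theorem fderiv_KE5 {u : (Fin m → ℝ) → ℝ} {x : Fin m → ℝ} (h : ∀ i, pd i u x = 0) :
    fderiv ℝ u x = 0 := by
  ext1 v
  have ev : v = ∑ i, v i • (Pi.single i 1 : Fin m → ℝ) := by
    ext j
    simp [Finset.sum_apply, Pi.single_apply]
  rw [ev, map_sum]
  refine Finset.sum_eq_zero fun i _ => ?_
  rw [map_smul]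
  exact smul_eq_zero_of_right _ (h i)

theorem local_cone (hm : m ≤ 7) (U : Set (Fin m → ℝ)) (hU : IsOpen U) (hc : IsPreconnected U)
    (φ : (Fin m → ℝ) → Fin (m + 2) → ℝ) (hφ : ContDiffOn ℝ ∞ φ U)
    (h1 : ∀ x ∈ U, φ x ⬝ᵥ φ x = 1)
    (himm : ∀ x ∈ U, LinearIndependent ℝ fun i : Fin m => pv i φ x)
    (hb : ∀ x ∈ U, bitension φ x = 0) (hp : ∃ x ∈ U, tension φ x ≠ 0) :
    ∃ Q : Matrix (Fin (m + 2)) (Fin (m + 2)) ℝ,
      Qᵀ = Q ∧ Q * Q = 1 ∧ Q.trace < 0 ∧ ∀ x ∈ U, φ x ⬝ᵥ Q *ᵥ φ x = 0 := by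
  obtain ⟨c, hcc⟩ := cmc U hU hc φ hφ h1 himm hb
  obtain ⟨x₁, hx₁, hp⟩ := hp
  have c0 : 0 < c := by
    rw [← hcc x₁ hx₁]
    exact lt_of_le_of_ne (Finset.sum_nonneg fun a _ => mul_self_nonneg _)
      fun h => hp (dotProduct_self_eq_zero.1 h.symm)
  obtain ⟨T, T0, hT⟩ : ∃ T : ℝ, 0 < T ∧ T * T = c :=
    ⟨√c, Real.sqrt_pos.2 c0, Real.mul_self_sqrt c0.le⟩
  have key : ∀ x₀ ∈ U, ((Qf_KE5 T φ x₀)ᵀ = Qf_KE5 T φ x₀ ∧ Qf_KE5 T φ x₀ * Qf_KE5 T φ x₀ = 1 ∧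
      (Qf_KE5 T φ x₀).trace < 0 ∧ φ x₀ ⬝ᵥ Qf_KE5 T φ x₀ *ᵥ φ x₀ = 0) ∧
      ∀ a b, DifferentiableAt ℝ (fun x => Qf_KE5 T φ x a b) x₀ ∧
        fderiv ℝ (fun x => Qf_KE5 T φ x a b) x₀ = 0 := by
    intro x₀ hx
    obtain ⟨R, _, _, Δ, Rep, h⟩ := exists_germ x₀
    have hn : U ∈ nhds x₀ := hU.mem_nhds hx
    have hs : ContDiffAt ℝ ∞ φ x₀ := hφ.contDiffAt hn
    have hex : ∀ a, ∃ r, Rep r fun x => φ x a := fun a =>
      h.ex _ (contDiffAt_pi.1 hs a)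
    choose f hf using hex
    have hdet : (metric φ x₀).det ≠ 0 := gram_Germ _ (himm x₀ hx)
    have e1 : f ⬝ᵥ f = 1 := by
      have r1 := h.congr _ _ (fun _ => (1 : ℝ)) (h.dot_Germ hf hf)
        (Filter.eventually_of_mem hn fun x hx' => h1 x hx')
      have r2 := h.const 1
      rw [map_one] at r2
      exact h.inj _ _ _ r1 r2
    have e2 : Δ.bitension f = 0 := by
      funext a
      have r1 := h.congr _ _ (fun _ => (0 : ℝ)) (h.rep_bitension hf hdet a)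
        (Filter.eventually_of_mem hn fun x hx' => by simp [hb x hx'])
      have r2 := h.const 0
      rw [map_zero] at r2
      exact h.inj _ _ _ r1 r2
    have e3 : Δ.ev (Δ.metric f).det ≠ 0 := by
      rw [h.ev_det hf]
      exact hdet
    have e4 : Δ.tension f ⬝ᵥ Δ.tension f = algebraMap ℝ R (T * T) :=
      h.inj _ _ _ (h.congr _ _ (fun _ => T * T)
        (h.dot_Germ (h.rep_tension hf hdet) (h.rep_tension hf hdet))
        (Filter.eventually_of_mem hn fun x hx' => (hcc x hx').trans hT.symm)) (h.const _)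
    obtain ⟨hF, t1, t2⟩ := alg_KE5 Δ f e1 e3 e2 T0.ne' e4
    have hN : ∀ a, Rep ((algebraMap ℝ R T⁻¹ • Δ.tension f) a) fun x => Nf_KE5 T φ x a :=
      fun a => h.mul _ _ _ _ (h.const T⁻¹) (h.rep_tension hf hdet a)
    generalize algebraMap ℝ R T⁻¹ • Δ.tension f = N at hF t1 t2 hN
    obtain ⟨r3, r2⟩ := hF.str.rigid hm T T0 t1 t2
    have hQ : ∀ a b, Rep (Qm Δ f N a b) fun x => Qf_KE5 T φ x a b := fun a b => by
      have e : Qm Δ f N a b = f a * N b + N a * f b +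
          ∑ i, ∑ j, (Δ.metric f)⁻¹ i j * (Δ.pv i N a * Δ.pv j f b) := by
        simp only [Qm, Matrix.add_apply, Matrix.sum_apply, Matrix.smul_apply, vecMulVec_apply,
          smul_eq_mul]
      rw [e]
      exact h.add _ _ _ _ (h.add _ _ _ _ (h.mul _ _ _ _ (hf a) (hN b)) (h.mul _ _ _ _ (hN a) (hf b)))
        (Germ2Aux.sum h _ fun i => Germ2Aux.sum h _ fun j => h.mul _ _ _ _
          (Germ2Aux.inv h (Germ2Aux.metric' h hf) hdet i j)
          (h.mul _ _ _ _ (Germ2Aux.pv' h hN i a) (Germ2Aux.pv' h hf j b)))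
    have eQ : Qf_KE5 T φ x₀ = (Qm Δ f N).map Δ.ev := by
      ext a b
      exact (h.ev _ _ (hQ a b)).symm
    have ef : ∀ a, φ x₀ a = Δ.ev (f a) := fun a => (h.ev _ _ (hf a)).symm
    refine ⟨⟨?_, ?_, ?_, ?_⟩, fun a b => ⟨(h.smooth _ _ (hQ a b)).differentiableAt (by simp),
      fderiv_KE5 fun k => ?_⟩⟩
    · rw [eQ, ← Matrix.transpose_map, hF.Qm_symm]
    · rw [eQ]
      exact hF.Qm_sq r2
    · have e : (Qf_KE5 T φ x₀).trace = Δ.ev (Qm Δ f N).trace := by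
        rw [eQ]
        simp only [Matrix.trace, Matrix.diag, Matrix.map_apply, map_sum]
      rw [e, hF.Qm_trace, t1, map_neg, AlgHom.commutes]
      exact neg_neg_of_pos T0
    · have e : φ x₀ ⬝ᵥ Qf_KE5 T φ x₀ *ᵥ φ x₀ = Δ.ev (f ⬝ᵥ Qm Δ f N *ᵥ f) := by
        rw [eQ]
        simp only [dotProduct, Matrix.mulVec, Matrix.map_apply, map_sum, map_mul, ef]
      rw [e, hF.Qm_f, dotProduct_comm, hF.Nf, map_zero]
    · rw [← h.ev _ _ (h.d k _ _ (hQ a b))]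
      exact hF.Qm_d r2 r3 k a b
  have hconst : ∀ x ∈ U, Qf_KE5 T φ x = Qf_KE5 T φ x₁ := fun x hx => by
    ext a b
    obtain ⟨q, hq⟩ := hU.exists_is_const_of_fderiv_eq_zero (𝕜 := ℝ) hc
      (f := fun x => Qf_KE5 T φ x a b)
      (fun x hx => ((key x hx).2 a b).1.differentiableWithinAt) (fun x hx => ((key x hx).2 a b).2)
    exact (hq x hx).trans (hq x₁ hx₁).symm
  obtain ⟨q1, q2, q3, -⟩ := (key x₁ hx₁).1
  refine ⟨Qf_KE5 T φ x₁, q1, q2, q3, fun x hx => ?_⟩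
  rw [← hconst x hx]
  exact (key x hx).1.2.2.2

end BiH
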