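import Pool.Agent.P.MP_ecb6bc_gt.KDefs
import Pool.Agent.P.MP_ecb6bc_gt.Germ

/-! Immersions into a cone: tension field and frame. -/

set_option autoImplicit false
set_option linter.unusedSectionVars false
set_option linter.unusedVariables false

noncomputable section

namespace BiH

open Matrix
open scoped ContDiff

variable {m : ℕ}
  {Q : Matrix (Fin (m + 2)) (Fin (m + 2)) ℝ} {φ : (Fin m → ℝ) → Fin (m + 2) → ℝ}
  {x : Fin m → ℝ}


section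

variable {R : Type} [CommRing R] [Algebra ℝ R] {Δ : DR R m} {f : Fin (m + 2) → R}

theorem pv_KE6 (i : Fin m) (V : Fin (m + 2) → R) :
    Δ.pv i (Q.map (algebraMap ℝ R) *ᵥ V) = Q.map (algebraMap ℝ R) *ᵥ Δ.pv i V := by
  funext a
  simp only [DR.pv, mulVec, dotProduct, map_sum, map_apply, Derivation.leibniz,
    Derivation.map_algebraMap, mul_zero, add_zero, smul_eq_mul]

theorem sym_KE6 (hs : Qᵀ = Q) (U V : Fin (m + 2) → R) :
    U ⬝ᵥ Q.map (algebraMap ℝ R) *ᵥ V = Q.map (algebraMap ℝ R) *ᵥ U ⬝ᵥ V := by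
  rw [dotProduct_mulVec, ← mulVec_transpose, ← transpose_map, hs]

theorem sq_KE6 (hq : Q * Q = 1) (V : Fin (m + 2) → R) :
    Q.map (algebraMap ℝ R) *ᵥ Q.map (algebraMap ℝ R) *ᵥ V = V := by
  rw [mulVec_mulVec, ← Matrix.map_mul, hq, Matrix.map_one _ (map_zero _) (map_one _), one_mulVec]

theorem fr_KE6 (hs : Qᵀ = Q) (hq : Q * Q = 1) (h1 : f ⬝ᵥ f = 1)
    (h2 : f ⬝ᵥ Q.map (algebraMap ℝ R) *ᵥ f = 0) (hd : Δ.ev (Δ.metric f).det ≠ 0) :
    Fr Δ f (Q.map (algebraMap ℝ R) *ᵥ f) := by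
  refine ⟨h1, hd, ?_, by rw [dotProduct_comm, h2], fun i => ?_⟩
  · rw [← sym_KE6 hs, sq_KE6 hq, h1]
  · have h := d_dot_GeoA1 (Δ := Δ) i f (Q.map (algebraMap ℝ R) *ᵥ f)
    rw [h2, map_zero, pv_KE6, sym_KE6 hs f, dotProduct_comm (Δ.pv i f)] at h
    linear_combination (-algebraMap ℝ R (1 / 2)) * h -
      (Q.map (algebraMap ℝ R) *ᵥ f ⬝ᵥ Δ.pv i f) * (half_GeoA1 (R := R))

theorem trace_KE6 (hq : Q * Q = 1) (h : Fr Δ f (Q.map (algebraMap ℝ R) *ᵥ f)) :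
    (shape Δ f (Q.map (algebraMap ℝ R) *ᵥ f)).trace = -(Q.map (algebraMap ℝ R)).trace := by
  have e0 := sq_KE6 hq f
  have e1 := fun i => pv_KE6 (Q := Q) (Δ := Δ) i f
  generalize Q.map (algebraMap ℝ R) = M at h e0 e1 ⊢
  have e2 : ∀ k l, Δ.pv l f ⬝ᵥ M *ᵥ Δ.pv k f = -(M *ᵥ f ⬝ᵥ Δ.pv l (Δ.pv k f)) := fun k l => by
    have h1 := d_dot_GeoA1 (Δ := Δ) k (M *ᵥ f) (Δ.pv l f)
    rw [h.Nd, map_zero, pv_comm_GeoA1 k l, e1, dotProduct_comm (M *ᵥ Δ.pv k f)] at h1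
    linear_combination -h1
  have e3 : ∀ a, M a a = f a * (M *ᵥ f) a + (M *ᵥ f) a * f a +
      ∑ k, ∑ l, (Δ.metric f)⁻¹ k l * (Δ.pv l f a * (M *ᵥ Δ.pv k f) a) := fun a => by
    have h1 := congrFun (congrArg (M *ᵥ ·) (h.span (Pi.single a 1))) a
    simp only [mulVec_add, mulVec_smul, mulVec_sum, e0, single_dotProduct, one_mul, Pi.add_apply,
      Pi.smul_apply, Finset.sum_apply, smul_eq_mul, Finset.sum_mul, mul_assoc] at h1
    rw [← h1, mulVec_single_one]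
    rfl
  have e4 : M.trace = f ⬝ᵥ M *ᵥ f + M *ᵥ f ⬝ᵥ f +
      ∑ k, ∑ l, (Δ.metric f)⁻¹ k l * (Δ.pv l f ⬝ᵥ M *ᵥ Δ.pv k f) := by
    rw [trace, Finset.sum_congr rfl fun a _ => (show M.diag a = _ from e3 a),
      Finset.sum_add_distrib, Finset.sum_add_distrib, Finset.sum_comm]
    refine congrArg₂ (· + ·) rfl (Finset.sum_congr rfl fun k _ => ?_)
    rw [Finset.sum_comm]
    exact Finset.sum_congr rfl fun l _ => (Finset.mul_sum _ _ _).symm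
  rw [e4, dotProduct_comm f, h.Nf]
  simp only [e2, shape, trace, diag_apply, Matrix.mul_apply, of_apply, mul_neg,
    Finset.sum_neg_distrib, zero_add, neg_neg]

end

theorem germ_KE6 (h : InQ Q φ x) : ∃ (R : Type) (_ : CommRing R) (_ : Algebra ℝ R) (Δ : DR R m)
    (Rep : R → ((Fin m → ℝ) → ℝ) → Prop) (f : Fin (m + 2) → R), IsGerm Δ x Rep ∧
      (∀ a, Rep (f a) fun y => φ y a) ∧ Fr Δ f (Q.map (algebraMap ℝ R) *ᵥ f) ∧
        ∀ a, Δ.ev ((Q.map (algebraMap ℝ R) *ᵥ f) a) = (Q *ᵥ φ x) a := by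
  obtain ⟨R, _, _, Δ, Rep, g⟩ := exists_germ x
  choose f hf using fun a => g.ex _ (contDiffAt_pi.1 h.smooth a)
  have hN : ∀ a, Rep ((Q.map (algebraMap ℝ R) *ᵥ f) a) fun y => (Q *ᵥ φ y) a := fun a => by
    simp only [mulVec, dotProduct, map_apply]
    exact Germ2Aux.sum g _ fun b => g.mul _ _ _ _ (g.const _) (hf b)
  refine ⟨R, _, _, Δ, Rep, f, g, hf, fr_KE6 h.symm h.sq ?_ ?_ ?_, fun a => g.ev _ _ (hN a)⟩
  · exact g.inj _ _ _ (g.congr _ _ (fun _ => (1 : ℝ)) (g.dot_Germ hf hf) h.sph) (Germ2Aux.one g)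
  · exact g.inj _ _ _ (g.congr _ _ (fun _ => (0 : ℝ)) (g.dot_Germ hf hN) h.cone) (Germ2Aux.zero g)
  · rw [g.ev_det hf]
    exact gram_Germ _ h.imm

theorem InQ.tension_eq (h : InQ Q φ x) : tension φ x = (-Q.trace) • Q *ᵥ φ x := by
  obtain ⟨R, _, _, Δ, Rep, f, g, hf, hF, hN⟩ := germ_KE6 h
  funext a
  rw [← g.ev _ _ (g.rep_tension hf (gram_Germ _ h.imm) a), hF.tension_eq, trace_KE6 h.sq hF,
    Pi.smul_apply, Pi.smul_apply, smul_eq_mul, smul_eq_mul, map_mul, hN, map_neg]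
  simp [trace]

theorem InQ.span (h : InQ Q φ x) (v : Fin (m + 2) → ℝ) :
    ∃ (a b : ℝ) (c : Fin m → ℝ), v = a • φ x + b • Q *ᵥ φ x + ∑ k, c k • pv k φ x := by
  obtain ⟨R, _, _, Δ, Rep, f, g, hf, hF, hN⟩ := germ_KE6 h
  obtain ⟨a, b, c, e⟩ : ∃ (a b : R) (c : Fin m → R), (fun i => algebraMap ℝ R (v i)) =
      a • f + b • Q.map (algebraMap ℝ R) *ᵥ f + ∑ k, c k • Δ.pv k f := ⟨_, _, _, hF.span _⟩
  refine ⟨Δ.ev a, Δ.ev b, fun k => Δ.ev (c k), funext fun i => ?_⟩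
  have h1 := congrArg Δ.ev (congrFun e i)
  simpa only [AlgHom.commutes, Algebra.algebraMap_self, RingHom.id_apply, Pi.add_apply,
    Pi.smul_apply, Finset.sum_apply, smul_eq_mul, map_add, map_mul, map_sum, hN, g.ev _ _ (hf i),
    fun k => g.ev _ _ (Germ2Aux.pv' g hf k i)] using h1

end BiH
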