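import Pool.Agent.P.MP_ecb6bc_gt.KE6

/-! Immersions into a cone: uniqueness of the cone. -/

set_option autoImplicit false
set_option linter.unusedSectionVars false
set_option linter.unusedVariables false

noncomputable section

namespace BiH

open Matrix
open scoped ContDiff

variable {m : ℕ}
  {Q Q' : Matrix (Fin (m + 2)) (Fin (m + 2)) ℝ} {φ : (Fin m → ℝ) → Fin (m + 2) → ℝ}
  {x : Fin m → ℝ}


theorem unit_KE7 {y : Fin m → ℝ} (h : InQ Q φ y) : (Q *ᵥ φ y) ⬝ᵥ (Q *ᵥ φ y) = 1 := by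
  have e : (Q *ᵥ φ y) ⬝ᵥ (Q *ᵥ φ y) = φ y ⬝ᵥ ((Qᵀ * Q) *ᵥ φ y) := by
    rw [← Matrix.mulVec_mulVec, Matrix.dotProduct_mulVec (φ y), Matrix.vecMul_transpose]
  rw [e, h.symm, h.sq, Matrix.one_mulVec]
  exact h.sph.self_of_nhds

theorem same_KE7 {n : ℕ} {u v : Fin n → ℝ} {a b : ℝ} (ha : 0 < a) (hb : 0 < b)
    (hu : u ⬝ᵥ u = 1) (hv : v ⬝ᵥ v = 1) (e : a • u = b • v) : u = v := by
  have e2 : (a • u) ⬝ᵥ (a • u) = (b • v) ⬝ᵥ (b • v) := by rw [e]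
  simp only [smul_dotProduct, dotProduct_smul, hu, hv, smul_eq_mul, mul_one] at e2
  have e3 : a = b := by nlinarith
  subst e3
  exact smul_right_injective _ ha.ne' e

theorem pv_KE7 (M : Matrix (Fin (m + 2)) (Fin (m + 2)) ℝ) (hφ : ContDiffAt ℝ ∞ φ x)
    (k : Fin m) : pv k (fun y => M *ᵥ φ y) x = M *ᵥ pv k φ x := by
  funext a
  have hd : ∀ b, DifferentiableAt ℝ (fun y => φ y b) x := fun b =>
    differentiableAt_pi.1 (hφ.differentiableAt (by simp)) b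
  have e : HasFDerivAt (fun y => ∑ b, M a b * φ y b)
      (∑ b, M a b • fderiv ℝ (fun y => φ y b) x) x :=
    HasFDerivAt.fun_sum fun b _ => ((hd b).hasFDerivAt.const_mul (M a b))
  have e2 : (fun y => (M *ᵥ φ y) a) = fun y => ∑ b, M a b * φ y b := rfl
  simp only [pv, pd]
  rw [e2, e.fderiv]
  simp [Matrix.mulVec, dotProduct, pv, pd]

theorem InQ.unique (U : Set (Fin m → ℝ)) (hU : U ∈ nhds x) (h : ∀ y ∈ U, InQ Q φ y)
    (h' : ∀ y ∈ U, InQ Q' φ y) (ht : Q.trace < 0) (ht' : Q'.trace < 0) : Q = Q' := by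
  have hx : x ∈ U := mem_of_mem_nhds hU
  have e1 : ∀ y ∈ U, Q *ᵥ φ y = Q' *ᵥ φ y := fun y hy =>
    same_KE7 (neg_pos.2 ht) (neg_pos.2 ht') (unit_KE7 (h y hy)) (unit_KE7 (h' y hy))
      ((h y hy).tension_eq.symm.trans (h' y hy).tension_eq)
  have e2 : (fun y => Q *ᵥ φ y) =ᶠ[nhds x] fun y => Q' *ᵥ φ y :=
    Filter.mem_of_superset hU e1
  have e3 : ∀ k, Q *ᵥ pv k φ x = Q' *ᵥ pv k φ x := fun k => by
    rw [← pv_KE7 Q (h x hx).smooth, ← pv_KE7 Q' (h x hx).smooth]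
    funext a
    have e4 : (fun y => (Q *ᵥ φ y) a) =ᶠ[nhds x] fun y => (Q' *ᵥ φ y) a :=
      e2.mono fun y hy => congrFun hy a
    simp only [pv, pd]
    rw [e4.fderiv_eq]
  have e5 : Q *ᵥ (Q *ᵥ φ x) = Q' *ᵥ (Q *ᵥ φ x) := by
    conv_rhs => rw [e1 x hx]
    rw [Matrix.mulVec_mulVec, Matrix.mulVec_mulVec, (h x hx).sq, (h' x hx).sq]
  have e6 : ∀ v, Q *ᵥ v = Q' *ᵥ v := fun v => by
    obtain ⟨a, b, c, rfl⟩ := (h x hx).span v
    simp only [Matrix.mulVec_add, Matrix.mulVec_smul, Matrix.mulVec_sum, e3, e5]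
    rw [e1 x hx]
  exact Matrix.ext_of_mulVec_single fun i => e6 _

end BiH
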