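import Pool.Agent.P.MP_ecb6bc_gt.KE6

/-! Immersions into a cone are open. -/

set_option autoImplicit false
set_option linter.unusedSectionVars false
set_option linter.unusedVariables false

noncomputable section

namespace BiH

open Matrix
open scoped ContDiff

variable {m : ℕ}
  {Q : Matrix (Fin (m + 2)) (Fin (m + 2)) ℝ} {φ : (Fin m → ℝ) → Fin (m + 2) → ℝ}
  {x : Fin m → ℝ}


theorem InQ.open_map (h : InQ Q φ x) (s : Set (Fin m → ℝ)) (hs : s ∈ nhds x) :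
    ∃ W ∈ nhds (φ x), ∀ y ∈ W, y ⬝ᵥ y = 1 → y ⬝ᵥ Q *ᵥ y = 0 → y ∈ φ '' s := by
  have hφ := h.smooth.hasStrictFDerivAt (by simp)
  have h1 := HasStrictFDerivAt.comp (f := Prod.fst) ((x, 1, 0) : (Fin m → ℝ) × ℝ × ℝ) hφ
    hasStrictFDerivAt_fst
  have ha := HasStrictFDerivAt.comp (𝕜 := ℝ) (f := Prod.snd) (g := Prod.fst)
    ((x, 1, 0) : (Fin m → ℝ) × ℝ × ℝ) hasStrictFDerivAt_fst hasStrictFDerivAt_snd
  have hb := HasStrictFDerivAt.comp (𝕜 := ℝ) (f := Prod.snd) (g := Prod.snd)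
    ((x, 1, 0) : (Fin m → ℝ) × ℝ × ℝ) hasStrictFDerivAt_snd hasStrictFDerivAt_snd
  have h2 := ((ha.smul h1).add (hb.smul ((LinearMap.toContinuousLinearMap
    Q.mulVecLin).hasStrictFDerivAt.comp _ h1))).map_nhds_eq_of_surj
    (LinearMap.range_eq_top.2 fun v => by
      obtain ⟨a, b, c, rfl⟩ := h.span v
      have h2 : fderiv ℝ φ x c = ∑ k, c k • pv k φ x := by
        conv_lhs => rw [pi_eq_sum_univ' c, map_sum]
        refine Finset.sum_congr rfl fun k _ => ?_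
        rw [map_smul]
        congr 1
        ext i
        rw [pv, pd, fderiv_apply hφ.hasFDerivAt.differentiableAt]
        rfl
      refine ⟨(c, a, b), ?_⟩
      simp [h2]
      abel)
  have h3 := h2 ▸ Filter.image_mem_map (prod_mem_nhds
    (Filter.inter_mem hs (h.sph.and h.cone)) (prod_mem_nhds (Ioi_mem_nhds one_pos)
      (Filter.univ_mem (f := nhds (0 : ℝ)))))
  refine ⟨_, by simpa using h3, ?_⟩
  rintro _ ⟨⟨z, a, b⟩, ⟨⟨hz, h4, h5⟩, h6, -⟩, rfl⟩ h7 h8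
  have h9 : Q *ᵥ Q *ᵥ φ z = φ z := by rw [mulVec_mulVec, h.sq, one_mulVec]
  have h10 : Q *ᵥ φ z ⬝ᵥ Q *ᵥ φ z = 1 := by
    rw [dotProduct_mulVec, ← mulVec_transpose, h.symm, h9, h4]
  have h11 : Q *ᵥ φ z ⬝ᵥ φ z = 0 := (dotProduct_comm _ _).trans h5
  change (a • φ z + b • Q *ᵥ φ z) ⬝ᵥ (a • φ z + b • Q *ᵥ φ z) = 1 at h7
  change (a • φ z + b • Q *ᵥ φ z) ⬝ᵥ Q *ᵥ (a • φ z + b • Q *ᵥ φ z) = 0 at h8
  change a • φ z + b • Q *ᵥ φ z ∈ _
  have h12 : 0 < a := h6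
  simp only [mulVec_add, mulVec_smul, h9, add_dotProduct, dotProduct_add, smul_dotProduct,
    dotProduct_smul, h4, h5, h10, h11, smul_eq_mul] at h7 h8
  obtain rfl : b = 0 := by nlinarith
  obtain rfl : a = 1 := by nlinarith
  exact ⟨z, hz, by simp⟩

end BiH
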