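import Pool.Agent.P.MP_ecb6bc_gt.KDefs

/-! Normal form of a symmetric involution. -/

set_option autoImplicit false
set_option linter.unusedSectionVars false
set_option linter.unusedVariables false

noncomputable section

namespace BiH

open Matrix
open scoped ContDiff

variable {m : ℕ}

private theorem diag_KE9 (n : ℕ) (Q : Matrix (Fin n) (Fin n) ℝ) (h1 : Qᵀ = Q) :
    ∃ (U : Matrix (Fin n) (Fin n) ℝ) (e : Fin n → ℝ), U * Uᵀ = 1 ∧ Monotone e ∧
      Q = Uᵀ * diagonal e * U := by
  have hQ : Q.IsHermitian := by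
    rw [Matrix.IsHermitian, Matrix.conjTranspose_eq_transpose_of_trivial]
    exact h1
  have hs := hQ.spectral_theorem
  rw [Unitary.conjStarAlgAut_apply] at hs
  set W : Matrix (Fin n) (Fin n) ℝ := (hQ.eigenvectorUnitary : Matrix (Fin n) (Fin n) ℝ) with hW
  have hW1 : star W * W = 1 := (Unitary.mem_iff.mp hQ.eigenvectorUnitary.2).1
  have hst : star W = Wᵀ := by
    rw [Matrix.star_eq_conjTranspose, Matrix.conjTranspose_eq_transpose_of_trivial]
  rw [hst] at hW1 hs
  have hd : (RCLike.ofReal ∘ hQ.eigenvalues : Fin n → ℝ) = hQ.eigenvalues := by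
    funext i
    simp
  rw [hd] at hs
  set σ := Tuple.sort hQ.eigenvalues with hσ
  refine ⟨Wᵀ.submatrix σ id, hQ.eigenvalues ∘ σ, ?_, Tuple.monotone_sort _, ?_⟩
  · have e1 : (Wᵀ.submatrix σ id) * (Wᵀ.submatrix σ id)ᵀ = (Wᵀ * W).submatrix σ σ := by
      ext a b
      simp [Matrix.mul_apply]
    rw [e1, hW1]
    exact Matrix.submatrix_one_equiv σ
  · refine hs.trans ?_
    ext a b
    simp only [Matrix.mul_apply, Matrix.diagonal_apply, Matrix.submatrix_apply,
      Matrix.transpose_apply, mul_ite, mul_zero, Finset.sum_ite_eq', Finset.mem_univ, if_true,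
      id, Function.comp]
    exact (Equiv.sum_comp σ (fun j => W a j * hQ.eigenvalues j * W b j)).symm

theorem normal_form (n : ℕ) (Q : Matrix (Fin n) (Fin n) ℝ) (h1 : Qᵀ = Q) (h2 : Q * Q = 1) :
    ∃ O ∈ Matrix.orthogonalGroup (Fin n) ℝ, ∃ q : ℕ, q ≤ n ∧ Q.trace = n - 2 * q ∧
      ∀ y : Fin n → ℝ, y ⬝ᵥ Q *ᵥ y =
        ∑ a : Fin n with q ≤ a.val, (O *ᵥ y) a ^ 2 - ∑ a : Fin n with a.val < q, (O *ᵥ y) a ^ 2 := by
  classical
  obtain ⟨U, e, hU, he, hQ⟩ := diag_KE9 n Q h1
  have hU' : Uᵀ * U = 1 := mul_eq_one_comm.mp hU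
  have hD : diagonal e = U * Q * Uᵀ := by
    rw [hQ]
    calc diagonal e = (U * Uᵀ) * diagonal e * (U * Uᵀ) := by rw [hU]; simp
      _ = _ := by simp only [Matrix.mul_assoc]
  have hsq : diagonal e * diagonal e = 1 := by
    rw [hD]
    calc U * Q * Uᵀ * (U * Q * Uᵀ) = U * (Q * (Uᵀ * U) * Q) * Uᵀ := by
          simp only [Matrix.mul_assoc]
      _ = 1 := by rw [hU', Matrix.mul_one, h2, Matrix.mul_one, hU]
  have he2 : ∀ a, e a * e a = 1 := by
    intro a
    have := congrFun (congrFun hsq a) a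
    simpa [Matrix.diagonal_mul_diagonal] using this
  set q : ℕ := (Finset.univ.filter fun i : Fin n => e i < 0).card with hq
  have hlt : ∀ a : Fin n, a.val < q ↔ e a < 0 := fun a =>
    Tuple.lt_card_lt_iff_apply_lt_of_monotone he
  have hneg : ∀ a : Fin n, a.val < q → e a = -1 := by
    intro a ha
    have h := (hlt a).mp ha
    rcases mul_self_eq_one_iff.mp (he2 a) with h' | h'
    · linarith
    · exact h'
  have hpos : ∀ a : Fin n, q ≤ a.val → e a = 1 := by
    intro a ha
    have h : ¬ e a < 0 := fun h => absurd ((hlt a).mpr h) (not_lt.mpr ha)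
    rcases mul_self_eq_one_iff.mp (he2 a) with h' | h'
    · exact h'
    · exfalso
      apply h
      linarith
  have hsplit : ∀ f : Fin n → ℝ, ∑ a, e a * f a =
      ∑ a : Fin n with q ≤ a.val, f a - ∑ a : Fin n with a.val < q, f a := by
    intro f
    rw [Finset.sum_filter, Finset.sum_filter, ← Finset.sum_sub_distrib]
    refine Finset.sum_congr rfl fun a _ => ?_
    by_cases ha : a.val < q
    · rw [hneg a ha, if_neg (not_le.mpr ha), if_pos ha]
      ring
    · rw [hpos a (not_lt.mp ha), if_pos (not_lt.mp ha), if_neg ha]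
      ring
  refine ⟨U, ?_, q, ?_, ?_, ?_⟩
  · rw [Matrix.mem_orthogonalGroup_iff]
    exact hU
  · calc q ≤ (Finset.univ : Finset (Fin n)).card := Finset.card_filter_le _ _
      _ = n := by simp
  · have e1 : Q.trace = ∑ a, e a := by
      rw [hQ, Matrix.trace_mul_cycle, hU, Matrix.one_mul, Matrix.trace_diagonal]
    have e2 : ∀ a : Fin n, e a = 1 - 2 * (if e a < 0 then (1 : ℝ) else 0) := by
      intro a
      by_cases ha : a.val < q
      · rw [if_pos ((hlt a).mp ha), hneg a ha]
        norm_num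
      · rw [if_neg (fun h => ha ((hlt a).mpr h)), hpos a (not_lt.mp ha)]
        norm_num
    rw [e1, Finset.sum_congr rfl fun a _ => e2 a, Finset.sum_sub_distrib, ← Finset.mul_sum,
      Finset.sum_boole]
    simp [hq]
  · intro y
    rw [← hsplit, hQ, ← Matrix.mulVec_mulVec, ← Matrix.mulVec_mulVec, Matrix.dotProduct_mulVec,
      Matrix.vecMul_transpose]
    simp only [dotProduct, Matrix.mulVec_diagonal]
    exact Finset.sum_congr rfl fun a _ => by ring

end BiH
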