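import Pool.Agent.P.MP_ecb6bc_gt.KE5
import Pool.Agent.P.MP_ecb6bc_gt.KE7

/-! The cone is the same for all points of a connected manifold. -/

set_option autoImplicit false
set_option linter.unusedSectionVars false
set_option linter.unusedVariables false

noncomputable section

namespace BiH

open Matrix
open scoped ContDiff

variable {m : ℕ}


theorem global_cone (hm : m ≤ 7) (M : Type*) [TopologicalSpace M] [ChartedSpace (Fin m → ℝ) M]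
    [ConnectedSpace M] (φ : M → Fin (m + 2) → ℝ) (h1 : ∀ p, φ p ⬝ᵥ φ p = 1)
    (hφ : ∀ e ∈ atlas (Fin m → ℝ) M, ContDiffOn ℝ ∞ (φ ∘ e.symm) e.target)
    (himm : ∀ e ∈ atlas (Fin m → ℝ) M, ∀ x ∈ e.target,
      LinearIndependent ℝ fun i : Fin m => pv i (φ ∘ e.symm) x)
    (hb : ∀ e ∈ atlas (Fin m → ℝ) M, ∀ x ∈ e.target, bitension (φ ∘ e.symm) x = 0)
    (hp : ∃ e ∈ atlas (Fin m → ℝ) M, ∃ x ∈ e.target, tension (φ ∘ e.symm) x ≠ 0) :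
    ∃ Q : Matrix (Fin (m + 2)) (Fin (m + 2)) ℝ,
      Qᵀ = Q ∧ Q * Q = 1 ∧ Q.trace < 0 ∧ ∀ p, φ p ⬝ᵥ Q *ᵥ φ p = 0 := by
  have mk : ∀ e ∈ atlas (Fin m → ℝ) M, ∀ Q : Matrix (Fin (m + 2)) (Fin (m + 2)) ℝ, Qᵀ = Q →
      Q * Q = 1 → ∀ y ∈ e.target,
      (∀ᶠ z in nhds y, (φ ∘ e.symm) z ⬝ᵥ Q *ᵥ (φ ∘ e.symm) z = 0) → InQ Q (φ ∘ e.symm) y :=
    fun e he Q s1 s2 y hy hc => ⟨s1, s2, (hφ e he).contDiffAt (e.open_target.mem_nhds hy),
      himm e he y hy, Filter.Eventually.of_forall fun z => h1 _, hc⟩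
  have loc : ∀ e ∈ atlas (Fin m → ℝ) M, ∀ (x : Fin m → ℝ) (r : ℝ), Metric.ball x r ⊆ e.target →
      (∃ z ∈ Metric.ball x r, tension (φ ∘ e.symm) z ≠ 0) →
      ∃ Q : Matrix (Fin (m + 2)) (Fin (m + 2)) ℝ, Qᵀ = Q ∧ Q * Q = 1 ∧ Q.trace < 0 ∧
        ∀ z ∈ Metric.ball x r, (φ ∘ e.symm) z ⬝ᵥ Q *ᵥ (φ ∘ e.symm) z = 0 :=
    fun e he x r hr hz => local_cone hm _ Metric.isOpen_ball (convex_ball x r).isPreconnected _
      ((hφ e he).mono hr) (fun z _ => h1 _) (fun z hz => himm e he z (hr hz))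
      (fun z hz => hb e he z (hr hz)) hz
  obtain ⟨e0, he0, x0, hx0, ht0⟩ := hp
  obtain ⟨r0, hr0, hB0⟩ := Metric.isOpen_iff.1 e0.open_target x0 hx0
  obtain ⟨Q0, s1, s2, s3, s4⟩ := loc e0 he0 x0 r0 hB0 ⟨x0, Metric.mem_ball_self hr0, ht0⟩
  refine ⟨Q0, s1, s2, s3, ?_⟩
  have hne : ({p | ∀ᶠ q in nhds p, φ q ⬝ᵥ Q0 *ᵥ φ q = 0} : Set M).Nonempty := by
    refine ⟨e0.symm x0, ?_⟩
    refine (e0.eventually_nhds' (fun q => φ q ⬝ᵥ Q0 *ᵥ φ q = 0) (e0.map_target hx0)).1 ?_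
    rw [e0.right_inv hx0]
    exact Filter.eventually_of_mem (Metric.ball_mem_nhds x0 hr0) s4
  have hcl : IsClosed ({p | ∀ᶠ q in nhds p, φ q ⬝ᵥ Q0 *ᵥ φ q = 0} : Set M) := by
    refine isClosed_of_closure_subset fun p hp => ?_
    have he := chart_mem_atlas (Fin m → ℝ) p
    have hps := mem_chart_source (Fin m → ℝ) p
    generalize chartAt (Fin m → ℝ) p = e at he hps
    obtain ⟨r, hr, hB⟩ := Metric.isOpen_iff.1 e.open_target (e p) (e.map_source hps)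
    have hn : e.source ∩ e ⁻¹' Metric.ball (e p) r ∈ nhds p :=
      Filter.inter_mem (e.open_source.mem_nhds hps)
        ((e.continuousAt hps).preimage_mem_nhds (Metric.ball_mem_nhds _ hr))
    obtain ⟨q, ⟨hq1, hq2⟩, hq3⟩ := mem_closure_iff_nhds.1 hp _ hn
    have hq4 : ∀ᶠ z in nhds (e q), (φ ∘ e.symm) z ⬝ᵥ Q0 *ᵥ (φ ∘ e.symm) z = 0 :=
      (e.eventually_nhds' (fun q => φ q ⬝ᵥ Q0 *ᵥ φ q = 0) hq1).2 hq3
    have hten : tension (φ ∘ e.symm) (e q) ≠ 0 := by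
      rw [(mk e he Q0 s1 s2 _ (hB hq2) hq4).tension_eq]
      refine smul_ne_zero (by linarith) fun h0 => ?_
      have h2 : Q0 *ᵥ (Q0 *ᵥ (φ ∘ e.symm) (e q)) = 0 := by rw [h0, mulVec_zero]
      rw [mulVec_mulVec, s2, one_mulVec] at h2
      have h3 := h1 (e.symm (e q))
      rw [show φ (e.symm (e q)) = 0 from h2, zero_dotProduct] at h3
      exact zero_ne_one h3
    obtain ⟨Q, t1, t2, t3, t4⟩ := loc e he (e p) r hB ⟨e q, hq2, hten⟩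
    have hQ : Q = Q0 := by
      refine InQ.unique (φ := φ ∘ e.symm) (x := e q) (Metric.ball (e p) r ∩
        {y | ∀ᶠ z in nhds y, (φ ∘ e.symm) z ⬝ᵥ Q0 *ᵥ (φ ∘ e.symm) z = 0})
        (Filter.inter_mem (Metric.isOpen_ball.mem_nhds hq2) hq4.eventually_nhds) ?_ ?_ t3 s3
      · intro y hy
        exact mk e he Q t1 t2 y (hB hy.1)
          (Filter.eventually_of_mem (Metric.isOpen_ball.mem_nhds hy.1) t4)
      · intro y hy
        exact mk e he Q0 s1 s2 y (hB hy.1) hy.2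
    subst hQ
    exact (e.eventually_nhds' (fun q => φ q ⬝ᵥ Q *ᵥ φ q = 0) hps).1
      (Filter.eventually_of_mem (Metric.ball_mem_nhds _ hr) t4)
  have hall := IsClopen.eq_univ ⟨hcl, isOpen_setOfPred_eventually_nhds⟩ hne
  intro p
  have hp : p ∈ ({p | ∀ᶠ q in nhds p, φ q ⬝ᵥ Q0 *ᵥ φ q = 0} : Set M) := by
    rw [hall]
    exact Set.mem_univ p
  exact Filter.Eventually.self_of_nhds (p := fun q => φ q ⬝ᵥ Q0 *ᵥ φ q = 0) hp

end BiH
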