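import Pool.Agent.P.MP_ecb6bc_gt.KE8
import Pool.Agent.P.MP_ecb6bc_gt.KE9

/-! An immersion into a cone is an open part of a model hypersurface. -/

set_option autoImplicit false
set_option linter.unusedSectionVars false
set_option linter.unusedVariables false

noncomputable section

namespace BiH

open Matrix
open scoped ContDiff

variable {m : ℕ}


theorem split_KF2 {n : ℕ} (q : ℕ) (y : Fin n → ℝ) :
    y ⬝ᵥ y = ∑ a : Fin n with a.val < q, y a ^ 2 + ∑ a : Fin n with q ≤ a.val, y a ^ 2 := by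
  simp only [← not_lt (b := q), Finset.sum_filter_add_sum_filter_not, dotProduct, sq]

theorem range_KF2 {M : Type*} {n q : ℕ} {φ : M → Fin n → ℝ} {Q O : Matrix (Fin n) (Fin n) ℝ}
    {W : Set (Fin n → ℝ)} (hW : IsOpen W)
    (e : Set.range φ = W ∩ {y | y ⬝ᵥ y = 1 ∧ y ⬝ᵥ Q *ᵥ y = 0})
    (hO : O ∈ Matrix.orthogonalGroup (Fin n) ℝ) (h : ∀ y : Fin n → ℝ, y ⬝ᵥ Q *ᵥ y =
      ∑ a : Fin n with q ≤ a.val, (O *ᵥ y) a ^ 2 - ∑ a : Fin n with a.val < q, (O *ᵥ y) a ^ 2) :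
    ∃ W', IsOpen W' ∧ (Set.range fun p => O *ᵥ φ p) =
      W' ∩ {y | ∑ a : Fin n with a.val < q, y a ^ 2 = 1 / 2 ∧
        ∑ a : Fin n with q ≤ a.val, y a ^ 2 = 1 / 2} := by
  have h1 : Oᵀ * O = 1 := (Matrix.mem_orthogonalGroup_iff' _ _).1 hO
  have h2 : O * Oᵀ = 1 := (Matrix.mem_orthogonalGroup_iff _ _).1 hO
  have h3 : ∀ y, O *ᵥ y ⬝ᵥ O *ᵥ y = y ⬝ᵥ y := fun y => by
    rw [dotProduct_mulVec, ← mulVec_transpose, mulVec_mulVec, h1, one_mulVec]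
  refine ⟨(Oᵀ *ᵥ ·) ⁻¹' W, hW.preimage (by fun_prop), Set.ext fun y => ⟨?_, fun hy => ?_⟩⟩
  · rintro ⟨p, rfl⟩
    obtain ⟨k1, k2, k3⟩ := e.subset ⟨p, rfl⟩
    rw [← h3, split_KF2 q] at k2
    rw [h] at k3
    exact ⟨by simpa [h1] using k1, by linarith, by linarith⟩
  · have k : O *ᵥ Oᵀ *ᵥ y = y := by rw [mulVec_mulVec, h2, one_mulVec]
    obtain ⟨p, hp⟩ := e.superset ⟨hy.1, by rw [← h3, k, split_KF2 q, hy.2.1, hy.2.2, add_halves],
      by rw [h, k, hy.2.1, hy.2.2, sub_self]⟩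
    exact ⟨p, by simp only [hp, k]⟩

theorem open_part (M : Type*) [TopologicalSpace M] [ChartedSpace (Fin m → ℝ) M]
    [ConnectedSpace M] (φ : M → Fin (m + 2) → ℝ) (h1 : ∀ p, φ p ⬝ᵥ φ p = 1)
    (hφ : ∀ e ∈ atlas (Fin m → ℝ) M, ContDiffOn ℝ ∞ (φ ∘ e.symm) e.target)
    (himm : ∀ e ∈ atlas (Fin m → ℝ) M, ∀ x ∈ e.target,
      LinearIndependent ℝ fun i : Fin m => pv i (φ ∘ e.symm) x)
    (Q : Matrix (Fin (m + 2)) (Fin (m + 2)) ℝ) (q1 : Qᵀ = Q) (q2 : Q * Q = 1) (q3 : Q.trace < 0)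
    (q4 : ∀ p, φ p ⬝ᵥ Q *ᵥ φ p = 0) :
    ∃ O ∈ Matrix.orthogonalGroup (Fin (m + 2)) ℝ, ∃ W : Set (Fin (m + 2) → ℝ), IsOpen W ∧
      ((Set.range fun p => O *ᵥ φ p) =
          W ∩ {y | y ⬝ᵥ y = 1 ∧ y (Fin.last (m + 1)) = 1 / Real.sqrt 2} ∨
        ∃ m₁ m₂ : ℕ, 1 ≤ m₁ ∧ 1 ≤ m₂ ∧ m₁ + m₂ = m ∧ m₁ ≠ m₂ ∧
          (Set.range fun p => O *ᵥ φ p) =
            W ∩ {y | ∑ a : Fin (m + 2) with a.val < m₁ + 1, y a ^ 2 = 1 / 2 ∧
              ∑ a : Fin (m + 2) with m₁ + 1 ≤ a.val, y a ^ 2 = 1 / 2}) := by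
  have hc : Continuous φ := continuous_iff_continuousAt.2 fun p =>
    (((hφ _ (chart_mem_atlas _ p)).continuousOn.continuousAt (chart_target_mem_nhds _ p)).comp
      ((chartAt _ p).continuousAt (mem_chart_source _ p))).congr
      (Filter.mem_of_superset (chart_source_mem_nhds (Fin m → ℝ) p) fun x hx =>
        congrArg φ ((chartAt _ p).left_inv hx))
  have k : ∀ p, ∃ W ∈ nhds (φ p), ∀ y ∈ W, y ⬝ᵥ y = 1 → y ⬝ᵥ Q *ᵥ y = 0 → y ∈ Set.range φ := by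
    intro p
    have t := chart_target_mem_nhds (Fin m → ℝ) p
    obtain ⟨W, w1, w2⟩ := InQ.open_map ⟨q1, q2, (hφ _ (chart_mem_atlas _ p)).contDiffAt t,
      himm _ (chart_mem_atlas _ p) _ (mem_chart_target _ p), .of_forall fun _ => h1 _,
      .of_forall fun _ => q4 _⟩ _ t
    rw [Function.comp_apply, (chartAt _ p).left_inv (mem_chart_source _ p)] at w1
    exact ⟨W, w1, fun y a b c => (w2 y a b c).elim fun _ h => ⟨_, h.2⟩⟩
  choose W w1 w2 using k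
  have hW : IsOpen (⋃ p, interior (W p)) := isOpen_iUnion fun _ => isOpen_interior
  have e : Set.range φ = (⋃ p, interior (W p)) ∩ {y | y ⬝ᵥ y = 1 ∧ y ⬝ᵥ Q *ᵥ y = 0} :=
    Set.ext fun y => ⟨by
      rintro ⟨p, rfl⟩
      exact ⟨Set.mem_iUnion.2 ⟨p, mem_interior_iff_mem_nhds.2 (w1 p)⟩, h1 p, q4 p⟩, fun h =>
      (Set.mem_iUnion.1 h.1).elim fun p hp => w2 p y (interior_subset hp) h.2.1 h.2.2⟩
  obtain ⟨O, hO, q, a1, a2, a3⟩ := normal_form _ Q q1 q2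
  have a4 : m + 2 < 2 * q := by
    rw [a2, sub_neg] at q3
    exact_mod_cast q3
  obtain ⟨U, u1, u2⟩ := range_KF2 hW e hO a3
  rcases lt_trichotomy q (m + 1) with hq | rfl | hq
  · obtain ⟨r, rfl⟩ : ∃ r, q = r + 1 := ⟨q - 1, by omega⟩
    exact ⟨O, hO, U, u1, .inr ⟨r, m - r, by omega, by omega, by omega, by omega, u2⟩⟩
  · have s : ∀ y : Fin (m + 2) → ℝ, ∑ a : Fin (m + 2) with m + 1 ≤ a.val, y a ^ 2 =
        y (Fin.last (m + 1)) ^ 2 := fun y => by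
      rw [show Finset.univ.filter (fun a : Fin (m + 2) => m + 1 ≤ a.val) = {Fin.last (m + 1)} by
        ext a; simp [Fin.ext_iff]; omega, Finset.sum_singleton]
    have s2 : (1 / Real.sqrt 2) ^ 2 = 1 / 2 := by rw [div_pow, one_pow, Real.sq_sqrt zero_le_two]
    have key : ∀ O ∈ Matrix.orthogonalGroup (Fin (m + 2)) ℝ, (∀ y : Fin (m + 2) → ℝ, y ⬝ᵥ Q *ᵥ y =
        ∑ a : Fin (m + 2) with m + 1 ≤ a.val, (O *ᵥ y) a ^ 2 -
          ∑ a : Fin (m + 2) with a.val < m + 1, (O *ᵥ y) a ^ 2) →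
        (∀ p, (O *ᵥ φ p) (Fin.last (m + 1)) = 1 / Real.sqrt 2) → ∃ U, IsOpen U ∧
          (Set.range fun p => O *ᵥ φ p) =
            U ∩ {y | y ⬝ᵥ y = 1 ∧ y (Fin.last (m + 1)) = 1 / Real.sqrt 2} := fun O hO a b => by
      obtain ⟨U, u1, u2⟩ := range_KF2 hW e hO a
      refine ⟨U, u1, Set.ext fun y => ⟨fun h => ?_, fun h => u2.superset ⟨h.1, ?_⟩⟩⟩
      · obtain ⟨k1, k2, k3⟩ := u2.subset h
        obtain ⟨p, rfl⟩ := h
        exact ⟨k1, by rw [split_KF2 (m + 1), k2, k3, add_halves], b p⟩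
      · obtain ⟨-, k1, k2⟩ := h
        rw [split_KF2 (m + 1), s, k2, s2] at k1
        exact ⟨by linarith, by rw [s, k2, s2]⟩
    rcases isPreconnected_univ.eq_or_eq_neg_of_sq_eq (f := fun p => (O *ᵥ φ p) (Fin.last (m + 1)))
      (g := fun _ => 1 / Real.sqrt 2) (by fun_prop) continuousOn_const
      (fun p _ => ((s _).symm.trans (u2.subset ⟨p, rfl⟩).2.2).trans s2.symm)
      (fun _ => by positivity) with h | h
    · exact ⟨O, hO, (key O hO a3 fun p => h trivial).imp fun _ h => ⟨h.1, .inl h.2⟩⟩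
    · have hO' : -O ∈ Matrix.orthogonalGroup (Fin (m + 2)) ℝ := by
        simpa [Matrix.mem_orthogonalGroup_iff] using hO
      exact ⟨-O, hO', (key _ hO' (by simpa [neg_mulVec] using a3) fun p => by
        rw [neg_mulVec, Pi.neg_apply, neg_eq_iff_eq_neg]
        exact h trivial).imp fun _ h => ⟨h.1, .inl h.2⟩⟩
  · have := (u2.subset ⟨Classical.arbitrary M, rfl⟩).2.2
    rw [Finset.filter_false_of_mem fun a _ => by omega, Finset.sum_empty] at this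
    norm_num at this

end BiH
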