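import Pool.Agent.P.MP_ecb6bc_gt.Frac

/-! The differential field of a point. -/

set_option autoImplicit false
set_option linter.unusedSectionVars false
set_option linter.unusedVariables false

noncomputable section

namespace BiH

theorem iter_Lift {A : Type} [CommRing A] [Algebra ℂ A] (δ : Derivation ℂ A A) (n : ℕ) (a b : A) :
    (⇑δ)^[n] (a * b) =
      ∑ ij ∈ Finset.HasAntidiagonal.antidiagonal n, n.choose ij.1 • ((⇑δ)^[ij.1] a * (⇑δ)^[ij.2] b) := by
  induction n with
  | zero => simp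
  | succ n ih =>
    rw [Finset.sum_antidiagonal_choose_succ_nsmul (M := A) (fun i j => (⇑δ)^[i] a * (⇑δ)^[j] b) n]
    simp only [Function.iterate_succ_apply', ih, map_sum, map_nsmul, Derivation.leibniz, smul_add,
      Finset.sum_add_distrib, smul_eq_mul, add_right_inj]
    refine Finset.sum_congr rfl fun ⟨i, j⟩ hij => ?_
    rw [n.choose_symm_of_eq_add (Finset.HasAntidiagonal.mem_antidiagonal.1 hij).symm, mul_comm]

/-- The Taylor series at the point. -/
def taylor_Lift {A : Type} [CommRing A] [Algebra ℂ A] (δ : Derivation ℂ A A) (ev : A →ₐ[ℂ] ℂ) :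
    A →+* PowerSeries ℂ where
  toFun a := PowerSeries.mk fun n => ev ((⇑δ)^[n] a) / n.factorial
  map_zero' := PowerSeries.ext fun n => by simp
  map_add' a b := PowerSeries.ext fun n => by simp [iterate_map_add, add_div]
  map_one' := PowerSeries.ext fun n => by
    cases n with
    | zero => simp
    | succ n => simp [PowerSeries.coeff_one]
  map_mul' a b := PowerSeries.ext fun n => by
    rw [PowerSeries.coeff_mul, PowerSeries.coeff_mk, iter_Lift, map_sum, Finset.sum_div]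
    refine Finset.sum_congr rfl fun ⟨i, j⟩ hij => ?_
    obtain rfl : i + j = n := Finset.HasAntidiagonal.mem_antidiagonal.1 hij
    rw [PowerSeries.coeff_mk, PowerSeries.coeff_mk, map_nsmul, map_mul, nsmul_eq_mul,
      ← Nat.add_choose_mul_factorial_mul_factorial, Nat.choose_symm_add]
    have h1 : (i.factorial : ℂ) ≠ 0 := Nat.cast_ne_zero.2 i.factorial_ne_zero
    have h2 : (j.factorial : ℂ) ≠ 0 := Nat.cast_ne_zero.2 j.factorial_ne_zero
    have h3 : ((i + j).choose j : ℂ) ≠ 0 :=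
      Nat.cast_ne_zero.2 (Nat.choose_pos (Nat.le_add_left j i)).ne'
    push_cast
    field_simp

theorem lift {A : Type} [CommRing A] [Algebra ℂ A] (δ : Derivation ℂ A A) (ev : A →ₐ[ℂ] ℂ) :
    ∃ (K : Type) (_ : Field K) (_ : Algebra ℂ K) (D : Derivation ℂ K K) (π : A →ₐ[ℂ] K),
      (∀ a, D (π a) = π (δ a)) ∧ (∀ a, π a = 0 ↔ ∀ n : ℕ, ev ((⇑δ)^[n] a) = 0) ∧
      ∀ x : K, ∃ a b, π b ≠ 0 ∧ x = π a / π b := by
  have hm : ∀ a, a ∈ RingHom.ker (taylor_Lift δ ev) ↔ ∀ n : ℕ, ev ((⇑δ)^[n] a) = 0 := fun a => by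
    rw [RingHom.mem_ker, PowerSeries.ext_iff]
    refine forall_congr' fun n => ?_
    change PowerSeries.coeff n (PowerSeries.mk fun n => ev ((⇑δ)^[n] a) / n.factorial) = _ ↔ _
    rw [PowerSeries.coeff_mk, map_zero, div_eq_zero_iff,
      or_iff_left (Nat.cast_ne_zero.2 n.factorial_ne_zero)]
  have hp := RingHom.ker_isPrime (taylor_Lift δ ev)
  generalize RingHom.ker (taylor_Lift δ ev) = p at hm hp
  have hd : ∀ x, Ideal.Quotient.mkₐ ℂ p x = 0 → Ideal.Quotient.mkₐ ℂ p (δ x) = 0 := fun x hx =>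
    Ideal.Quotient.eq_zero_iff_mem.2 ((hm _).2 fun n =>
      (hm x).1 (Ideal.Quotient.eq_zero_iff_mem.1 hx) (n + 1))
  have hs := Ideal.Quotient.mkₐ_surjective ℂ p
  obtain ⟨D, hD⟩ := exists_deriv_frac (K := FractionRing (A ⧸ p))
    (Derivation.liftOfSurjective hs hd)
  have hi := IsFractionRing.injective (A ⧸ p) (FractionRing (A ⧸ p))
  refine ⟨FractionRing (A ⧸ p), inferInstance, inferInstance, D,
    (IsScalarTower.toAlgHom ℂ (A ⧸ p) _).comp (Ideal.Quotient.mkₐ ℂ p), fun a => ?_, fun a => ?_,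
    fun x => ?_⟩
  · exact (hD _).trans (congrArg _ (Derivation.liftOfSurjective_apply hs hd a))
  · rw [← hm, ← Ideal.Quotient.eq_zero_iff_mem]
    exact map_eq_zero_iff _ hi
  · obtain ⟨a, b, hb, rfl⟩ := IsFractionRing.div_surjective (A := A ⧸ p) x
    obtain ⟨a, rfl⟩ := hs a
    obtain ⟨b, rfl⟩ := hs b
    exact ⟨a, b, (map_ne_zero_iff _ hi).2 (nonZeroDivisors.ne_zero hb), rfl⟩

end BiH
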