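import Pool.Agent.P.MP_ecb6bc_gt.Core
import Pool.Agent.P.MP_ecb6bc_gt.Lift

/-! From a differential ring with a point to the differential field. -/

set_option autoImplicit false
set_option linter.unusedSectionVars false
set_option linter.unusedVariables false

noncomputable section

namespace BiH

theorem stable_Mid1 {A' : Type} [CommRing A'] [Algebra ℂ A'] (δ : Derivation ℂ A' A')
    (ev : A' →ₐ[ℂ] ℂ) (s : Set A') (h0 : ∀ e ∈ s, ev e = 0)
    (h1 : ∀ e ∈ s, 2 * δ e ∈ Ideal.span s) (n : ℕ) :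
    ∀ a ∈ Ideal.span s, ev ((⇑δ)^[n] a) = 0 := by
  have st : ∀ a ∈ Ideal.span s, δ a ∈ Ideal.span s := by
    intro a ha
    induction ha using Submodule.span_induction with
    | mem x hx =>
      have e : δ x = algebraMap ℂ A' 2⁻¹ * (2 * δ x) := by
        rw [← mul_assoc, ← map_ofNat (algebraMap ℂ A') 2, ← map_mul, inv_mul_cancel₀ two_ne_zero,
          map_one, one_mul]
      rw [e]
      exact Ideal.mul_mem_left _ _ (h1 x hx)
    | zero => rw [map_zero]; exact zero_mem _
    | add x y _ _ hx hy => rw [map_add]; exact add_mem hx hy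
    | smul c x hx' hx =>
      rw [smul_eq_mul, Derivation.leibniz, smul_eq_mul, smul_eq_mul]
      exact add_mem (Ideal.mul_mem_left _ _ hx) (Ideal.mul_mem_right _ _ hx')
  induction n with
  | zero => exact fun a ha => (Ideal.span_le (I := RingHom.ker ev)).2 h0 ha
  | succ n ih => exact fun a ha => ih _ (st a ha)

theorem d_qf_Mid1 {A' : Type} [CommRing A'] [Algebra ℂ A'] (δ : Derivation ℂ A' A')
    (A B C : ℂ) (z w : A') : δ (qf A B C z w) =
      (algebraMap ℂ A' A * w + algebraMap ℂ A' B) * δ z +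
        (algebraMap ℂ A' A * z + algebraMap ℂ A' B) * δ w := by
  simp only [qf, map_add, Derivation.leibniz, Derivation.map_algebraMap, smul_eq_mul]
  ring

theorem rel_Mid1 {A' : Type} [CommRing A'] [Algebra ℂ A'] (δ : Derivation ℂ A' A')
    (ev : A' →ₐ[ℂ] ℂ) (ω lam κ z w ζ ζ' : A') (A B C : ℂ)
    (dω : δ ω = -ω ^ 2 - κ * lam - 1) (dl : δ lam = (κ - lam) * ω)
    (dz : 2 * δ z = ζ * (z - w)) (dw : 2 * δ w = ζ' * (z - w))
    (dζ : 2 * δ ζ = 2 * iu A' * κ * ζ + (ζ ^ 2 + 1))
    (dζ' : 2 * δ ζ' = -(2 * iu A' * κ * ζ') - (1 + ζ' ^ 2))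
    (h0 : ev (ζ * ζ' - 1) = 0)
    (h1 : ev ((ω + iu A' * lam) * qf A B C z w + ζ * qf A B C w w) = 0)
    (h2 : ev (ζ * (ω - iu A' * lam) * qf A B C z w - qf A B C z z) = 0) (n : ℕ) :
    ev ((⇑δ)^[n] ((ω + iu A' * lam) * qf A B C z w + ζ * qf A B C w w)) = 0 ∧
      ev ((⇑δ)^[n] (ζ * (ω - iu A' * lam) * qf A B C z w - qf A B C z z)) = 0 := by
  have hi : δ (iu A') = 0 := Derivation.map_algebraMap δ _
  have hq : 2 * δ (qf A B C z w) = ζ * (qf A B C z w - qf A B C w w) +
      ζ' * (qf A B C z z - qf A B C z w) := by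
    rw [d_qf_Mid1]
    simp only [qf]
    linear_combination (algebraMap ℂ A' A * w + algebraMap ℂ A' B) * dz +
      (algebraMap ℂ A' A * z + algebraMap ℂ A' B) * dw
  have hqw : δ (qf A B C w w) = ζ' * (qf A B C z w - qf A B C w w) := by
    rw [d_qf_Mid1]
    simp only [qf]
    linear_combination (algebraMap ℂ A' A * w + algebraMap ℂ A' B) * dw
  have hqz : δ (qf A B C z z) = ζ * (qf A B C z z - qf A B C z w) := by
    rw [d_qf_Mid1]
    simp only [qf]
    linear_combination (algebraMap ℂ A' A * z + algebraMap ℂ A' B) * dz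
  have hp : 2 * δ (ω + iu A' * lam) = -((ω + iu A' * lam) + (ω - iu A' * lam)) *
      (ω + iu A' * lam) - 2 + 2 * iu A' * κ * (ω + iu A' * lam) := by
    simp only [map_add, Derivation.leibniz, hi, dω, dl, smul_eq_mul]
    linear_combination (-2 * κ * lam) * iu_sq A'
  have hp' : 2 * δ (ω - iu A' * lam) = -((ω + iu A' * lam) + (ω - iu A' * lam)) *
      (ω - iu A' * lam) - 2 - 2 * iu A' * κ * (ω - iu A' * lam) := by
    simp only [map_sub, Derivation.leibniz, hi, dω, dl, smul_eq_mul]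
    linear_combination (-2 * κ * lam) * iu_sq A'
  generalize ω + iu A' * lam = p at *
  generalize ω - iu A' * lam = p' at *
  generalize qf A B C z w = q at *
  generalize qf A B C w w = qw at *
  generalize qf A B C z z = qz at *
  set s : Set A' := {ζ * ζ' - 1, p * q + ζ * qw, ζ * p' * q - qz} with hs
  have m0 : ζ * ζ' - 1 ∈ Ideal.span s := Ideal.subset_span (by simp [hs])
  have m1 : p * q + ζ * qw ∈ Ideal.span s := Ideal.subset_span (by simp [hs])
  have m2 : ζ * p' * q - qz ∈ Ideal.span s := Ideal.subset_span (by simp [hs])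
  have key := stable_Mid1 δ ev s (by rintro e (rfl | rfl | rfl) <;> assumption) (by
    rintro e (rfl | rfl | rfl)
    · have e : 2 * δ (ζ * ζ' - 1) = (ζ - ζ') * (ζ * ζ' - 1) := by
        simp only [map_sub, Derivation.leibniz, Derivation.map_one_eq_zero, smul_eq_mul]
        linear_combination ζ' * dζ + ζ * dζ'
      rw [e]
      exact Ideal.mul_mem_left _ _ m0
    · have e : 2 * δ (p * q + ζ * qw) = (2 * iu A' * κ + ζ - p - ζ') * (p * q + ζ * qw) -
          p * ζ' * (ζ * p' * q - qz) + (2 * q - qw + p * p' * q) * (ζ * ζ' - 1) := by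
        simp only [map_add, Derivation.leibniz, smul_eq_mul]
        linear_combination q * hp + p * hq + qw * dζ + 2 * ζ * hqw
      rw [e]
      exact add_mem (sub_mem (Ideal.mul_mem_left _ _ m1) (Ideal.mul_mem_left _ _ m2))
        (Ideal.mul_mem_left _ _ m0)
    · have e : 2 * δ (ζ * p' * q - qz) = (2 * ζ - p') * (ζ * p' * q - qz) -
          ζ * p' * (p * q + ζ * qw) + p' * (qz - q) * (ζ * ζ' - 1) := by
        simp only [map_sub, Derivation.leibniz, smul_eq_mul]
        linear_combination ζ * q * hp' + ζ * p' * hq + p' * q * dζ - 2 * hqz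
      rw [e]
      exact add_mem (sub_mem (Ideal.mul_mem_left _ _ m2) (Ideal.mul_mem_left _ _ m1))
        (Ideal.mul_mem_left _ _ m0)) n
  exact ⟨key _ m1, key _ m2⟩

theorem mid1 {A' : Type} [CommRing A'] [Algebra ℂ A'] (δ : Derivation ℂ A' A')
    (ev : A' →ₐ[ℂ] ℂ) {J : Type} [Fintype J] (μ : J → ℕ) (hμ : ∀ j, 0 < μ j)
    (ω lam : J → A') (κ z w ζ ζ' : A') (ω₀ lam₀ : J → ℝ)
    (hgen : Algebra.adjoin ℂ (Set.range ω ∪ Set.range lam ∪ {z, w, ζ, ζ'}) = ⊤)
    (hκ : ∑ j, (μ j : A') * lam j = -3 * κ)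
    (dω : ∀ j, δ (ω j) = -ω j ^ 2 - κ * lam j - 1)
    (dl : ∀ j, δ (lam j) = (κ - lam j) * ω j)
    (dz : 2 * δ z = ζ * (z - w)) (dw : 2 * δ w = ζ' * (z - w))
    (dζ : 2 * δ ζ = 2 * iu A' * κ * ζ + (ζ ^ 2 + 1))
    (dζ' : 2 * δ ζ' = -(2 * iu A' * κ * ζ') - (1 + ζ' ^ 2))
    (eω : ∀ j, ev (ω j) = ω₀ j) (el : ∀ j, ev (lam j) = lam₀ j)
    (ez : ev z = 0) (ew : ev w = 1) (eζ : ev ζ = 1) (eζ' : ev ζ' = 1)
    (hF : ∀ n : ℕ, ev ((⇑δ)^[n] (δ (δ κ) + (∑ j, (μ j : A') * ω j) * δ κ -
      κ * (κ ^ 2 + ∑ j, (μ j : A') * lam j ^ 2 - (∑ j, (μ j : A') + 1)))) = 0) :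
    ev (δ κ) = 0 := by
  obtain ⟨K, _, _, D, π, hD, hπ, hK⟩ := lift δ ev
  have : CharZero K := charZero_of_injective_algebraMap (algebraMap ℂ K).injective
  set C : J → ℂ := fun j => ω₀ j - Complex.I * lam₀ j with hC
  set B : J → ℂ := fun j => 1 - C j with hB
  set A : J → ℂ := fun j => -(ω₀ j + Complex.I * lam₀ j) - 2 * B j - C j with hA
  have hne : ∀ a, ev a ≠ 0 → π a ≠ 0 := fun a ha h => ha ((hπ a).1 h 0)
  have hi : π (iu A') = iu K := π.commutes _
  have hi' : ev (iu A') = Complex.I := ev.commutes _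
  have h0 : ev (ζ * ζ' - 1) = 0 := by simp [eζ, eζ']
  have e0 : π ζ * π ζ' = 1 := by
    have m0 : ζ * ζ' - 1 ∈ Ideal.span {ζ * ζ' - 1} := Ideal.subset_span rfl
    have h := (hπ (ζ * ζ' - 1)).2 fun n => stable_Mid1 δ ev {ζ * ζ' - 1}
      (by rintro e rfl; exact h0) (by
        rintro e rfl
        have e : 2 * δ (ζ * ζ' - 1) = (ζ - ζ') * (ζ * ζ' - 1) := by
          simp only [map_sub, Derivation.leibniz, Derivation.map_one_eq_zero, smul_eq_mul]
          linear_combination ζ' * dζ + ζ * dζ'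
        rw [e]
        exact Ideal.mul_mem_left _ _ m0) n _ m0
    rwa [map_sub, map_mul, map_one, sub_eq_zero] at h
  have hrel := fun j => rel_Mid1 δ ev (ω j) (lam j) κ z w ζ ζ' (A j) (B j) (C j) (dω j) (dl j)
    dz dw dζ dζ' h0
    (by
      simp only [map_add, map_mul, map_qf, hi', eω, el, ez, ew, eζ]
      simp only [qf, hA, hB, hC, Algebra.algebraMap_self, RingHom.id_apply]
      ring)
    (by
      simp only [map_sub, map_mul, map_qf, hi', eω, el, ez, ew, eζ]
      simp only [qf, hA, hB, hC, Algebra.algebraMap_self, RingHom.id_apply]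
      ring)
  have hS : Sys D μ (fun j => π (ω j)) (fun j => π (lam j)) (π κ) := by
    refine ⟨hμ, fun j => ?_, fun j => ?_, ?_, ?_⟩
    · rw [hD, dω]; simp
    · rw [hD, dl]; simp
    · simpa [map_ofNat] using congrArg π hκ
    · have h := (hπ _).2 hF
      rw [map_sub, sub_eq_zero] at h
      simpa [hD] using h
  have hFr : Frame D (fun j => π (ω j)) (fun j => π (lam j)) (π κ) (π z) (π w) (π ζ) A B C := by
    refine ⟨?_, ?_, ?_, ?_, hne _ (by simp [eζ]), fun j => ?_, fun j => ?_, fun j => ?_,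
      fun j => ?_⟩
    · have h := congrArg π dz
      simp only [map_mul, map_sub, map_ofNat, ← hD] at h
      linear_combination h / 2
    · have h := congrArg π dw
      simp only [map_mul, map_sub, map_ofNat, ← hD] at h
      linear_combination π ζ * h / 2 + (π z - π w) * e0 / 2
    · have h := congrArg π dζ
      simp only [map_mul, map_add, map_pow, map_one, map_ofNat, ← hD, hi] at h
      linear_combination h / 2
    · rw [← sub_ne_zero, ← map_sub]
      exact hne _ (by simp [ez, ew])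
    · rw [← map_qf]
      refine hne _ ?_
      rw [map_qf, ez, ew]
      simp [qf, hB]
    · have e : B j ^ 2 - A j * C j = ((1 + ω₀ j ^ 2 + lam₀ j ^ 2 : ℝ) : ℂ) := by
        simp only [hA, hB, hC]
        push_cast
        linear_combination (-(lam₀ j : ℂ) ^ 2) * Complex.I_sq
      rw [e, Complex.ofReal_ne_zero]
      positivity
    · have h := (hπ _).2 fun n => (hrel j n).1
      simp only [map_add, map_mul, map_qf, hi] at h
      linear_combination h
    · have h := (hπ _).2 fun n => (hrel j n).2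
      simp only [map_sub, map_mul, map_qf, hi] at h
      linear_combination h
  have hg : IntermediateField.adjoin ℂ (Set.range (fun j => π (ω j)) ∪
      Set.range (fun j => π (lam j)) ∪ {π z, π w, π ζ}) = ⊤ := by
    set F := IntermediateField.adjoin ℂ (Set.range (fun j => π (ω j)) ∪
      Set.range (fun j => π (lam j)) ∪ {π z, π w, π ζ}) with hF
    have hsub := IntermediateField.subset_adjoin ℂ (Set.range (fun j => π (ω j)) ∪
      Set.range (fun j => π (lam j)) ∪ {π z, π w, π ζ})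
    have hall : ∀ a, π a ∈ F := fun a => by
      have h : Algebra.adjoin ℂ (Set.range ω ∪ Set.range lam ∪ {z, w, ζ, ζ'}) ≤
          F.toSubalgebra.comap π := by
        refine Algebra.adjoin_le ?_
        rintro x ((⟨j, rfl⟩ | ⟨j, rfl⟩) | rfl | rfl | rfl | rfl)
        · exact hsub (Or.inl (Or.inl ⟨j, rfl⟩))
        · exact hsub (Or.inl (Or.inr ⟨j, rfl⟩))
        · exact hsub (Or.inr (by simp))
        · exact hsub (Or.inr (by simp))
        · exact hsub (Or.inr (by simp))
        · change π x ∈ F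
          rw [eq_inv_of_mul_eq_one_right e0]
          exact F.inv_mem (hsub (Or.inr (by simp)))
      exact h (hgen ▸ Algebra.mem_top)
    refine eq_top_iff.2 fun x _ => ?_
    obtain ⟨a, b, -, rfl⟩ := hK x
    exact F.div_mem (hall a) (hall b)
  have h := core hS hFr hg
  rw [hD] at h
  exact (hπ _).1 h 0

end BiH
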