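import Mathlib

/-! Orders of vanishing in a field with a discrete valuation ring. -/

set_option autoImplicit false

noncomputable section

namespace BiH

/-- A discrete valuation ring of `L` containing the complex numbers, with a uniformizer. -/
structure Ord (L : Type) [Field L] [Algebra ℂ L] where
  O : Subring L
  τ : L
  τ_mem : τ ∈ O
  τ_ne : τ ≠ 0
  τ_inv : τ⁻¹ ∉ O
  const : ∀ c : ℂ, algebraMap ℂ L c ∈ O
  dec : ∀ f : L, f ≠ 0 → ∃ (n : ℤ) (u : L), u ∈ O ∧ u⁻¹ ∈ O ∧ u ≠ 0 ∧ f = τ ^ n * u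

namespace Ord

variable {L : Type} [Field L] [Algebra ℂ L] (P : Ord L)

/-- The order of `f` is at least `n`. -/
def G (n : ℤ) (f : L) : Prop := P.τ ^ (-n) * f ∈ P.O

/-- The order of `f` is exactly `n`. -/
def Ex (n : ℤ) (f : L) : Prop := P.G n f ∧ ¬ P.G (n + 1) f

variable {P}

theorem G0_iff {f : L} : P.G 0 f ↔ f ∈ P.O := by simp [G]

theorem G.zero (n : ℤ) : P.G n 0 := by simp [G]

theorem G.add {n : ℤ} {f g : L} (hf : P.G n f) (hg : P.G n g) : P.G n (f + g) := by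
  unfold G at *
  rw [mul_add]
  exact P.O.add_mem hf hg

theorem G.neg {n : ℤ} {f : L} (hf : P.G n f) : P.G n (-f) := by
  unfold G at *
  rw [mul_neg]
  exact P.O.neg_mem hf

theorem G.sub {n : ℤ} {f g : L} (hf : P.G n f) (hg : P.G n g) : P.G n (f - g) := by
  rw [sub_eq_add_neg]
  exact hf.add hg.neg

theorem G.mul {n k : ℤ} {f g : L} (hf : P.G n f) (hg : P.G k g) : P.G (n + k) (f * g) := by
  unfold G at *
  have e : P.τ ^ (-(n + k)) * (f * g) = (P.τ ^ (-n) * f) * (P.τ ^ (-k) * g) := by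
    rw [neg_add, zpow_add₀ P.τ_ne]
    ring
  rw [e]
  exact P.O.mul_mem hf hg

theorem G.mono {n k : ℤ} {f : L} (hf : P.G n f) (h : k ≤ n) : P.G k f := by
  unfold G at *
  obtain ⟨d, rfl⟩ := Int.le.dest h
  have e : P.τ ^ (-k) * f = P.τ ^ d * (P.τ ^ (-(k + d)) * f) := by
    rw [← mul_assoc, ← zpow_natCast, ← zpow_add₀ P.τ_ne]
    congr 2
    ring
  rw [e]
  exact P.O.mul_mem (P.O.pow_mem P.τ_mem d) hf

/-- Product rule with the order weakened to any `l ≤ n + k`. -/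
theorem G.mul' {n k l : ℤ} {f g : L} (hf : P.G n f) (hg : P.G k g) (h : l ≤ n + k) :
    P.G l (f * g) := (hf.mul hg).mono h

theorem G.congr {n : ℤ} {f g : L} (hf : P.G n f) (h : g = f) : P.G n g := h ▸ hf

theorem G.sum {ι : Type} {n : ℤ} (s : Finset ι) {f : ι → L} (h : ∀ i ∈ s, P.G n (f i)) :
    P.G n (∑ i ∈ s, f i) := by
  unfold G at *
  rw [Finset.mul_sum]
  exact P.O.sum_mem h

theorem G.const (c : ℂ) : P.G 0 (algebraMap ℂ L c) := G0_iff.2 (P.const c)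

theorem G.one : P.G 0 1 := G0_iff.2 P.O.one_mem

theorem G.nat (k : ℕ) : P.G 0 (k : L) := G0_iff.2 (natCast_mem _ k)

theorem G.int (k : ℤ) : P.G 0 (k : L) := G0_iff.2 (intCast_mem _ k)

theorem G.inv_nat (k : ℕ) : P.G 0 ((k : L)⁻¹) := by
  have h := G.const (P := P) ((k : ℂ)⁻¹)
  rwa [map_inv₀, map_natCast] at h

theorem G.pow {n : ℤ} {f : L} (hf : P.G n f) (k : ℕ) : P.G (k * n) (f ^ k) := by
  induction k with
  | zero => simpa using G.one
  | succ k ih =>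
    rw [pow_succ]
    exact ih.mul' hf (by push_cast; linarith)

/-- Multiplication by an element of the ring keeps the order. -/
theorem G.lmul {n : ℤ} {c f : L} (hc : P.G 0 c) (hf : P.G n f) : P.G n (c * f) :=
  hc.mul' hf (by simp)

theorem G.rmul {n : ℤ} {c f : L} (hf : P.G n f) (hc : P.G 0 c) : P.G n (f * c) :=
  hf.mul' hc (by simp)

theorem ex_unit {n : ℤ} {u : L} (h : u ∈ P.O) (h' : u⁻¹ ∈ P.O) (h0 : u ≠ 0) :
    P.Ex n (P.τ ^ n * u) := by
  have hτ := P.τ_ne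
  constructor
  · unfold G
    rw [← mul_assoc, ← zpow_add₀ hτ]
    simpa using h
  · intro hG
    unfold G at hG
    rw [← mul_assoc, ← zpow_add₀ hτ] at hG
    have e : P.τ⁻¹ = P.τ ^ (-(n + 1) + n) * u * u⁻¹ := by
      rw [mul_assoc, mul_inv_cancel₀ h0, mul_one]
      simp
    exact P.τ_inv (e ▸ P.O.mul_mem hG h')

theorem exists_ex {f : L} (h : f ≠ 0) : ∃ n, P.Ex n f := by
  obtain ⟨n, u, h1, h2, h3, rfl⟩ := P.dec f h
  exact ⟨n, ex_unit h1 h2 h3⟩

theorem Ex.ne {n : ℤ} {f : L} (h : P.Ex n f) : f ≠ 0 := by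
  rintro rfl
  exact h.2 (G.zero _)

theorem Ex.le {n k : ℤ} {f : L} (h : P.Ex n f) (h' : P.G k f) : k ≤ n := by
  by_contra hc
  exact h.2 (h'.mono (by omega))

theorem Ex.unique {n k : ℤ} {f : L} (h : P.Ex n f) (h' : P.Ex k f) : n = k :=
  le_antisymm (h'.le h.1) (h.le h'.1)

theorem Ex.dec {n : ℤ} {f : L} (h : P.Ex n f) :
    ∃ u : L, u ∈ P.O ∧ u⁻¹ ∈ P.O ∧ u ≠ 0 ∧ f = P.τ ^ n * u := by
  obtain ⟨k, u, h1, h2, h3, e⟩ := P.dec f h.ne
  have hk : P.Ex k f := e ▸ ex_unit h1 h2 h3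
  rw [h.unique hk]
  exact ⟨u, h1, h2, h3, e⟩

theorem Ex.mul {n k : ℤ} {f g : L} (hf : P.Ex n f) (hg : P.Ex k g) : P.Ex (n + k) (f * g) := by
  obtain ⟨u, h1, h2, h3, rfl⟩ := hf.dec
  obtain ⟨v, k1, k2, k3, rfl⟩ := hg.dec
  have e : P.τ ^ n * u * (P.τ ^ k * v) = P.τ ^ (n + k) * (u * v) := by
    rw [zpow_add₀ P.τ_ne]
    ring
  rw [e]
  exact ex_unit (P.O.mul_mem h1 k1) (by rw [mul_inv]; exact P.O.mul_mem h2 k2)
    (mul_ne_zero h3 k3)

theorem Ex.inv {n : ℤ} {f : L} (hf : P.Ex n f) : P.Ex (-n) f⁻¹ := by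
  obtain ⟨u, h1, h2, h3, rfl⟩ := hf.dec
  rw [mul_inv, ← zpow_neg]
  exact ex_unit h2 (by rwa [inv_inv]) (inv_ne_zero h3)

theorem Ex.congr {n : ℤ} {f g : L} (hf : P.Ex n f) (h : g = f) : P.Ex n g := h ▸ hf

theorem Ex.cast {n k : ℤ} {f : L} (hf : P.Ex n f) (h : k = n) : P.Ex k f := h ▸ hf

theorem Ex.mul' {n k l : ℤ} {f g : L} (hf : P.Ex n f) (hg : P.Ex k g) (h : l = n + k) :
    P.Ex l (f * g) := (hf.mul hg).cast h

theorem Ex.neg {n : ℤ} {f : L} (hf : P.Ex n f) : P.Ex n (-f) :=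
  ⟨hf.1.neg, fun h => hf.2 (h.neg.congr (neg_neg f).symm)⟩

/-- Adding a term of higher order keeps the exact order. -/
theorem Ex.of_sub {n : ℤ} {f g : L} (hf : P.Ex n f) (h : P.G (n + 1) (g - f)) : P.Ex n g :=
  ⟨((h.mono (by omega)).add hf.1).congr (by ring),
    fun h' => hf.2 ((h'.sub h).congr (by ring))⟩

/-- Division by an element of known order. -/
theorem G.of_mul {n k : ℤ} {f g : L} (hf : P.Ex n f) (h : P.G (n + k) (f * g)) : P.G k g := by
  have h1 := hf.inv.1.mul h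
  rw [← mul_assoc, inv_mul_cancel₀ hf.ne, one_mul] at h1
  exact h1.mono (by omega)

theorem Ex.const {c : ℂ} (hc : c ≠ 0) : P.Ex 0 (algebraMap ℂ L c) := by
  have h := ex_unit (P := P) (n := 0) (P.const c) (by rw [← map_inv₀]; exact P.const _)
    ((map_ne_zero _).2 hc)
  simpa using h

theorem Ex.int {k : ℤ} (hk : k ≠ 0) : P.Ex 0 (k : L) := by
  have h := Ex.const (P := P) (c := (k : ℂ)) (by exact_mod_cast hk)
  rwa [map_intCast] at h

theorem Ex.nat {k : ℕ} (hk : k ≠ 0) : P.Ex 0 (k : L) := by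
  have h := Ex.const (P := P) (c := (k : ℂ)) (by exact_mod_cast hk)
  rwa [map_natCast] at h

theorem Ex.one : P.Ex 0 1 := by simpa using Ex.nat (P := P) (k := 1) one_ne_zero

theorem Ex.tau : P.Ex 1 P.τ := by
  simpa using ex_unit (P := P) (n := 1) P.O.one_mem (by simpa using P.O.one_mem) one_ne_zero

theorem Ex.pow {n : ℤ} {f : L} (hf : P.Ex n f) (k : ℕ) : P.Ex (k * n) (f ^ k) := by
  induction k with
  | zero => simpa using Ex.one
  | succ k ih =>
    rw [pow_succ]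
    exact ih.mul' hf (by push_cast; ring)

/-- An element that is not of order `≥ n` has an exact order below `n`. -/
theorem exists_ex_lt {n : ℤ} {f : L} (h : ¬ P.G n f) : ∃ k, k < n ∧ P.Ex k f := by
  have h0 : f ≠ 0 := by
    rintro rfl
    exact h (G.zero _)
  obtain ⟨k, hk⟩ := exists_ex (P := P) h0
  refine ⟨k, ?_, hk⟩
  by_contra hc
  exact h (hk.1.mono (by omega))

/-- The residue ring is a domain. -/
theorem G.of_mul_one {f g : L} (hf : P.G 0 f) (hg : P.G 0 g) (h : P.G 1 (f * g)) :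
    P.G 1 f ∨ P.G 1 g := by
  by_contra hc
  rw [not_or] at hc
  have h1 : P.Ex 0 f := ⟨hf, by simpa using hc.1⟩
  have h2 : P.Ex 0 g := ⟨hg, by simpa using hc.2⟩
  exact (h1.mul h2).2 (by simpa using h)

/-- The logarithmic derivative rule for a derivation that preserves the ring. -/
theorem Ex.deriv (d : Derivation ℂ L L) (c : L) (s : ℤ) (hd : ∀ u, P.G 0 u → P.G s (c * d u))
    {n : ℤ} {f : L} (hf : P.Ex n f) :
    P.G (n + s) (c * (d f - n * (d P.τ / P.τ) * f)) := by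
  obtain ⟨u, h1, h2, h3, rfl⟩ := hf.dec
  have hτ := P.τ_ne
  have e : c * (d (P.τ ^ n * u) - n * (d P.τ / P.τ) * (P.τ ^ n * u)) = P.τ ^ n * (c * d u) := by
    rw [Derivation.leibniz, Derivation.leibniz_zpow]
    simp only [smul_eq_mul, zsmul_eq_mul]
    rw [zpow_sub_one₀ hτ]
    field_simp
    ring
  rw [e]
  have ht : P.G n (P.τ ^ n) := by simpa using (ex_unit (P := P) (n := n) P.O.one_mem
    (by simpa using P.O.one_mem) one_ne_zero).1
  exact ht.mul (hd u (G0_iff.2 h1))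

end Ord

end BiH
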