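import Pool.Agent.P.MP_ecb6bc_gt.SDefs
import Pool.Agent.P.MP_ecb6bc_gt.Frac

/-! Rational functions of two variables: derivatives, prime polynomials. -/

set_option autoImplicit false
set_option linter.unusedSectionVars false
set_option linter.unusedVariables false

noncomputable section

namespace BiH

open Polynomial

theorem exists_part : ∃ dz dw : Derivation ℂ kk kk, Part dz dw := by
  let d : Derivation ℂ RR RR := (derivative' (R := ℂ[X])).restrictScalars ℂ
  let s : RR ≃ₐ[ℂ] RR := Bivariate.swap
  let d' : Derivation ℂ RR RR := Derivation.mk'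
    (s.toLinearMap ∘ₗ d.toLinearMap ∘ₗ s.toLinearMap) fun a b => by
      show s (d (s (a * b))) = a * s (d (s b)) + b * s (d (s a))
      rw [map_mul, d.leibniz, smul_eq_mul, smul_eq_mul, map_add, map_mul, map_mul,
        Bivariate.swap_swap_apply, Bivariate.swap_swap_apply]
  obtain ⟨dz, hz⟩ := exists_deriv_frac (K := kk) d
  obtain ⟨dw, hw⟩ := exists_deriv_frac (K := kk) d'
  exact ⟨dz, dw, hz, hw⟩

theorem Part.zz {dz dw : Derivation ℂ kk kk} (h : Part dz dw) :
    dz zk = 1 ∧ dz wk = 0 ∧ dw zk = 0 ∧ dw wk = 1 := by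
  refine ⟨?_, ?_, ?_, ?_⟩
  · rw [zk, h.z, derivative_X, map_one]
  · rw [wk, h.z, derivative_C, map_zero]
  · rw [zk, h.w, Bivariate.swap_Y, derivative_C, map_zero, map_zero]
  · rw [wk, h.w, Bivariate.swap_X, derivative_X, map_one, map_one]

theorem prime_qR {A B C : ℂ} (h : B ^ 2 - A * C ≠ 0) : Prime (qR A B C) := by
  have e : qR A B C = Polynomial.C (Polynomial.C A * X + Polynomial.C B) * X +
      Polynomial.C (Polynomial.C B * X + Polynomial.C C) := by
    simp only [qR, qf, Polynomial.algebraMap_apply, Algebra.algebraMap_self, RingHom.id_apply,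
      map_add, map_mul]
    ring
  have hc : IsCoprime (Polynomial.C A * X + Polynomial.C B : ℂ[X])
      (Polynomial.C B * X + Polynomial.C C) := by
    refine ⟨Polynomial.C (B / (B ^ 2 - A * C)), Polynomial.C (-A / (B ^ 2 - A * C)), ?_⟩
    have h1 : B / (B ^ 2 - A * C) * A + -A / (B ^ 2 - A * C) * B = 0 := by ring
    have h2 : B / (B ^ 2 - A * C) * B + -A / (B ^ 2 - A * C) * C = 1 := by
      field_simp
      ring
    have h1' := congrArg (Polynomial.C : ℂ → ℂ[X]) h1
    have h2' := congrArg (Polynomial.C : ℂ → ℂ[X]) h2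
    simp only [map_add, map_mul, map_zero, map_one] at h1' h2'
    linear_combination X * h1' + h2'
  have h0 : (Polynomial.C A * X + Polynomial.C B : ℂ[X]) ≠ 0 := fun h0 => by
    have h1 := congrArg (coeff · 1) h0
    have h2 := congrArg (coeff · 0) h0
    simp at h1 h2
    exact h (by rw [h1, h2]; ring)
  rw [e]
  exact (irreducible_C_mul_X_add_C h0 hc.isRelPrime).prime

theorem prime_diag : Prime (X - Polynomial.C X : RR) := prime_X_sub_C _

theorem qR_map (A B C : ℂ) : algebraMap RR kk (qR A B C) = qf A B C zk wk := map_qf (IsScalarTower.toAlgHom ℂ RR kk) A B C _ _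

theorem zk_ne_wk : zk ≠ wk := fun h =>
  prime_diag.ne_zero (sub_eq_zero.2 (IsFractionRing.injective RR kk h))

/-- The chain rule. -/
theorem Part.chain {dz dw : Derivation ℂ kk kk} (h : Part dz dw) {K : Type} [Field K]
    [Algebra ℂ K] (φ : kk →ₐ[ℂ] K) (D : Derivation ℂ K K) (f : kk) :
    D (φ f) = φ (dz f) * D (φ zk) + φ (dw f) * D (φ wk) := by
  have key : ∀ r : RR, D (φ (algebraMap RR kk r)) =
      φ (dz (algebraMap RR kk r)) * D (φ zk) + φ (dw (algebraMap RR kk r)) * D (φ wk) := by
    let S : Subalgebra ℂ kk :=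
      { carrier := {f | D (φ f) = φ (dz f) * D (φ zk) + φ (dw f) * D (φ wk)}
        mul_mem' := fun {a b} ha hb => by
          have ha' : D (φ a) = φ (dz a) * D (φ zk) + φ (dw a) * D (φ wk) := ha
          have hb' : D (φ b) = φ (dz b) * D (φ zk) + φ (dw b) * D (φ wk) := hb
          show D (φ (a * b)) = φ (dz (a * b)) * D (φ zk) + φ (dw (a * b)) * D (φ wk)
          simp only [map_mul, Derivation.leibniz, smul_eq_mul, map_add, ha', hb']
          ring
        add_mem' := fun {a b} ha hb => by
          have ha' : D (φ a) = φ (dz a) * D (φ zk) + φ (dw a) * D (φ wk) := ha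
          have hb' : D (φ b) = φ (dz b) * D (φ zk) + φ (dw b) * D (φ wk) := hb
          show D (φ (a + b)) = φ (dz (a + b)) * D (φ zk) + φ (dw (a + b)) * D (φ wk)
          simp only [map_add, ha', hb']
          ring
        algebraMap_mem' := fun c => by
          show D (φ (algebraMap ℂ kk c)) =
            φ (dz (algebraMap ℂ kk c)) * D (φ zk) + φ (dw (algebraMap ℂ kk c)) * D (φ wk)
          simp only [AlgHom.commutes, Derivation.map_algebraMap, map_zero, zero_mul, add_zero] }
    have hz : zk ∈ S := by
      show D (φ zk) = φ (dz zk) * D (φ zk) + φ (dw zk) * D (φ wk)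
      rw [h.zz.1, h.zz.2.2.1, map_one, map_zero, one_mul, zero_mul, add_zero]
    have hw : wk ∈ S := by
      show D (φ wk) = φ (dz wk) * D (φ zk) + φ (dw wk) * D (φ wk)
      rw [h.zz.2.1, h.zz.2.2.2, map_one, map_zero, one_mul, zero_mul, zero_add]
    have hC : ∀ p : ℂ[X], algebraMap RR kk (Polynomial.C p) ∈ S := fun p => by
      induction p using Polynomial.induction_on' with
      | add p q hp hq =>
        rw [map_add, map_add]
        exact S.add_mem hp hq
      | monomial n a =>
        rw [← C_mul_X_pow_eq_monomial, map_mul, map_mul, map_pow, map_pow]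
        exact S.mul_mem (S.algebraMap_mem a) (S.pow_mem hw n)
    intro r
    show algebraMap RR kk r ∈ S
    induction r using Polynomial.induction_on' with
    | add p q hp hq =>
      rw [map_add]
      exact S.add_mem hp hq
    | monomial n a =>
      rw [← C_mul_X_pow_eq_monomial, map_mul, map_pow]
      exact S.mul_mem (hC a) (S.pow_mem hz n)
  obtain ⟨a, b, hb, rfl⟩ := IsFractionRing.div_surjective (A := RR) f
  have hb0 : algebraMap RR kk b ≠ 0 :=
    IsFractionRing.to_map_ne_zero_of_mem_nonZeroDivisors hb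
  have hb1 : φ (algebraMap RR kk b) ≠ 0 := (map_ne_zero φ).2 hb0
  simp only [map_div₀, Derivation.leibniz_div, smul_eq_mul, map_mul, map_sub, map_pow, map_inv₀,
    key]
  ring

end BiH
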