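import Pool.Agent.P.MP_ecb6bc_gt.SDefs

/-! The order along a prime polynomial. -/

set_option autoImplicit false
set_option linter.unusedSectionVars false
set_option linter.unusedVariables false

noncomputable section

namespace BiH

open Polynomial

/-- Quotients whose denominator is prime to `q`. -/
def loc_Plane1 {q : RR} (hq : Prime q) : Subring kk where
  carrier := {x | ∃ a b : RR, ¬ q ∣ b ∧ x * algebraMap RR kk b = algebraMap RR kk a}
  mul_mem' := by
    rintro x y ⟨a, b, hb, e⟩ ⟨c, d, hd, e'⟩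
    refine ⟨a * c, b * d, fun h => (hq.dvd_or_dvd h).elim hb hd, ?_⟩
    rw [map_mul, map_mul, ← e, ← e']
    ring
  one_mem' := ⟨1, 1, hq.not_dvd_one, by simp⟩
  add_mem' := by
    rintro x y ⟨a, b, hb, e⟩ ⟨c, d, hd, e'⟩
    refine ⟨a * d + c * b, b * d, fun h => (hq.dvd_or_dvd h).elim hb hd, ?_⟩
    rw [map_add, map_mul, map_mul, map_mul, ← e, ← e']
    ring
  zero_mem' := ⟨0, 1, hq.not_dvd_one, by simp⟩
  neg_mem' := by
    rintro x ⟨a, b, hb, e⟩
    refine ⟨-a, b, hb, ?_⟩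
    rw [map_neg, ← e]
    ring

theorem mem_Plane1 {q : RR} (hq : Prime q) (x : kk) :
    x ∈ loc_Plane1 hq ↔ ∃ a b : RR, ¬ q ∣ b ∧ x * algebraMap RR kk b = algebraMap RR kk a :=
  Iff.rfl

theorem poly_Plane1 {q : RR} (hq : Prime q) (r : RR) : algebraMap RR kk r ∈ loc_Plane1 hq :=
  ⟨r, 1, hq.not_dvd_one, by simp⟩

theorem ne_Plane1 {r : RR} (h : r ≠ 0) : algebraMap RR kk r ≠ 0 :=
  (map_ne_zero_iff _ (IsFractionRing.injective RR kk)).2 h

theorem dvd_Plane1 {q : RR} (hq : Prime q) (r : RR) :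
    (algebraMap RR kk q)⁻¹ * algebraMap RR kk r ∈ loc_Plane1 hq ↔ q ∣ r := by
  have hq0 := ne_Plane1 hq.ne_zero
  constructor
  · rintro ⟨a, b, hb, e⟩
    have e2 : algebraMap RR kk (r * b) = algebraMap RR kk (q * a) := by
      rw [map_mul, map_mul, ← e]
      field_simp
    have e3 : r * b = q * a := IsFractionRing.injective RR kk e2
    exact (hq.dvd_or_dvd ⟨a, e3⟩).resolve_right hb
  · rintro ⟨c, rfl⟩
    rw [map_mul, ← mul_assoc, inv_mul_cancel₀ hq0, one_mul]
    exact poly_Plane1 hq c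

theorem quot_Plane1 {q : RR} (hq : Prime q) {a b : RR} (hb : ¬ q ∣ b) :
    algebraMap RR kk a / algebraMap RR kk b ∈ loc_Plane1 hq := by
  have hb0 : b ≠ 0 := by
    rintro rfl
    exact hb (dvd_zero q)
  exact ⟨a, b, hb, div_mul_cancel₀ _ (ne_Plane1 hb0)⟩

/-- The order along `q`. -/
def ord_Plane1 {q : RR} (hq : Prime q) : Ord kk where
  O := loc_Plane1 hq
  τ := algebraMap RR kk q
  τ_mem := poly_Plane1 hq q
  τ_ne := ne_Plane1 hq.ne_zero
  τ_inv := by
    intro h
    have h2 := (dvd_Plane1 hq 1).1 (by simpa using h)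
    exact hq.not_dvd_one h2
  const := fun c => by
    rw [IsScalarTower.algebraMap_apply ℂ RR kk]
    exact poly_Plane1 hq _
  dec := by
    intro f hf
    obtain ⟨a, b, hb, rfl⟩ := IsFractionRing.div_surjective (A := RR) f
    have hb0 : b ≠ 0 := nonZeroDivisors.ne_zero hb
    have ha0 : a ≠ 0 := by
      rintro rfl
      simp at hf
    obtain ⟨i, a', ha', rfl⟩ := WfDvdMonoid.max_power_factor ha0 hq.irreducible
    obtain ⟨j, b', hb', rfl⟩ := WfDvdMonoid.max_power_factor hb0 hq.irreducible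
    have ha1 : a' ≠ 0 := right_ne_zero_of_mul ha0
    have hb1 : b' ≠ 0 := right_ne_zero_of_mul hb0
    have hq0 := ne_Plane1 hq.ne_zero
    refine ⟨(i : ℤ) - j, algebraMap RR kk a' / algebraMap RR kk b', quot_Plane1 hq hb', ?_,
      div_ne_zero (ne_Plane1 ha1) (ne_Plane1 hb1), ?_⟩
    · rw [inv_div]
      exact quot_Plane1 hq ha'
    · rw [map_mul, map_mul, map_pow, map_pow, zpow_sub₀ hq0, zpow_natCast, zpow_natCast,
        div_mul_div_comm]

theorem exists_along {q : RR} (hq : Prime q) : ∃ P : Ord kk, Along P q := by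
  refine ⟨ord_Plane1 hq, rfl, fun r => Ord.G0_iff.2 (poly_Plane1 hq r), fun r => ?_, ?_⟩
  · rw [← dvd_Plane1 hq r]
    change (algebraMap RR kk q) ^ (-(1 : ℤ)) * _ ∈ loc_Plane1 hq ↔ _
    rw [zpow_neg, zpow_one]
  · intro d hd u hu
    rw [Ord.G0_iff] at hu ⊢
    obtain ⟨a, b, hb, e⟩ := hu
    obtain ⟨a', ha'⟩ := hd a
    obtain ⟨b', hb'⟩ := hd b
    have e2 := congrArg d e
    rw [Derivation.leibniz, ha', hb', smul_eq_mul, smul_eq_mul] at e2
    refine ⟨a' * b - a * b', b * b, fun h => (hq.dvd_or_dvd h).elim hb hb, ?_⟩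
    rw [map_sub, map_mul, map_mul, map_mul, ← e, ← e2]
    ring

end BiH
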