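import Pool.Agent.P.MP_ecb6bc_gt.Plane
import Pool.Agent.P.MP_ecb6bc_gt.Plane1

/-! Orders along the lines. -/

set_option autoImplicit false
set_option linter.unusedSectionVars false
set_option linter.unusedVariables false

noncomputable section

namespace BiH

open Polynomial

theorem Along.pres {P : Ord kk} {q : RR} (hP : Along P q) {dz dw : Derivation ℂ kk kk}
    (hd : Part dz dw) : (∀ u, P.G 0 u → P.G 0 (dz u)) ∧ ∀ u, P.G 0 u → P.G 0 (dw u) :=
  ⟨hP.der dz fun r => ⟨_, hd.z r⟩, hP.der dw fun r => ⟨_, hd.w r⟩⟩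

/-- A polynomial that is not divisible by `q` is a unit. -/
theorem Along.ex0 {P : Ord kk} {q : RR} (hP : Along P q) {r : RR} (h : ¬ q ∣ r) :
    P.Ex 0 (algebraMap RR kk r) :=
  ⟨hP.poly r, fun h' => h ((hP.dvd r).1 (by simpa using h'))⟩

theorem qf_c_Plane2 (A B C z w : ℂ) : qf A B C z w = A * z * w + B * (z + w) + C := by
  simp [qf]

theorem exists_w_Plane2 {A B C : ℂ} (h : B ^ 2 - A * C ≠ 0) :
    ∃ w : ℂ, A * w + B ≠ 0 ∧ A * w * w + B * (w + w) + C ≠ 0 := by
  by_cases hA : A = 0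
  · subst hA
    have hB : B ≠ 0 := by
      rintro rfl
      simp at h
    refine ⟨(1 - C) / (2 * B), by simpa using hB, ?_⟩
    have : 0 * ((1 - C) / (2 * B)) * ((1 - C) / (2 * B)) +
        B * ((1 - C) / (2 * B) + (1 - C) / (2 * B)) + C = 1 := by
      field_simp
      ring
    rw [this]
    exact one_ne_zero
  · have key : ∀ t : ℂ, t ≠ 0 → t ^ 2 ≠ B ^ 2 - A * C →
        ∃ w : ℂ, A * w + B ≠ 0 ∧ A * w * w + B * (w + w) + C ≠ 0 := by
      intro t ht ht2
      have e : A * ((t - B) / A) + B = t := by field_simp; ring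
      refine ⟨(t - B) / A, by rwa [e], fun h0 => ht2 ?_⟩
      generalize (t - B) / A = w at e h0
      linear_combination A * h0 - (A * w + B + t) * e
    by_cases h1 : (1 : ℂ) ^ 2 = B ^ 2 - A * C
    · exact key 2 two_ne_zero (by rw [← h1]; norm_num)
    · exact key 1 one_ne_zero h1

theorem exists_pt_Plane2 {A B C : ℂ} (h : B ^ 2 - A * C ≠ 0) :
    ∃ z w : ℂ, qf A B C z w = 0 ∧ A * w + B ≠ 0 ∧ A * z + B ≠ 0 ∧ z - w ≠ 0 ∧
      qf A B C z z ≠ 0 ∧ qf A B C w w ≠ 0 := by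
  obtain ⟨w, h1, h2⟩ := exists_w_Plane2 h
  obtain ⟨z, hz⟩ : ∃ z : ℂ, A * z * w + B * (z + w) + C = 0 :=
    ⟨-(B * w + C) / (A * w + B), by
      have e : (A * w + B) * (-(B * w + C) / (A * w + B)) = -(B * w + C) := by field_simp
      linear_combination e⟩
  have h3 : A * z + B ≠ 0 := fun h0 => h (by linear_combination (A * w + B) * h0 - A * hz)
  have h4 : z - w ≠ 0 := fun h0 => h2 (by linear_combination hz - (A * w + B) * h0)
  refine ⟨z, w, by rwa [qf_c_Plane2], h1, h3, h4, ?_, by rwa [qf_c_Plane2]⟩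
  rw [qf_c_Plane2]
  intro h0
  exact mul_ne_zero h4 h3 (by linear_combination h0 - hz)

theorem ev_qR_Plane2 {K : Type} [CommRing K] [Algebra ℂ K] (A B C : ℂ) (z w : K) :
    aevalAeval w z (qR A B C) = qf A B C z w := by
  rw [qR, map_qf, aevalAeval_X, aevalAeval_Y]

/-- Units along a line. -/
theorem Along.units {A B C : ℂ} (h : B ^ 2 - A * C ≠ 0) {P : Ord kk} (hP : Along P (qR A B C))
    {dz dw : Derivation ℂ kk kk} (hd : Part dz dw) :
    P.Ex 0 (dz P.τ) ∧ P.Ex 0 (dw P.τ) ∧ P.Ex 0 (zk - wk) ∧ P.Ex 0 (qf A B C zk zk) ∧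
      P.Ex 0 (qf A B C wk wk) ∧ qf A B C wk wk = P.τ - (zk - wk) * dz P.τ ∧
      qf A B C zk zk = P.τ + (zk - wk) * dw P.τ := by
  obtain ⟨z, w, p0, p1, p2, p3, p4, p5⟩ := exists_pt_Plane2 h
  obtain ⟨d1, d2, d3, d4⟩ := hd.zz
  have hτ : P.τ = qf A B C zk wk := by rw [hP.tau, qR_map]
  have e1 : dz P.τ = algebraMap ℂ kk A * wk + algebraMap ℂ kk B := by
    rw [hτ, qf]
    simp only [map_add, Derivation.leibniz, Derivation.map_algebraMap, d1, d2, smul_eq_mul]
    ring
  have e2 : dw P.τ = algebraMap ℂ kk A * zk + algebraMap ℂ kk B := by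
    rw [hτ, qf]
    simp only [map_add, Derivation.leibniz, Derivation.map_algebraMap, d3, d4, smul_eq_mul]
    ring
  have nd : ∀ r : RR, aevalAeval w z r ≠ 0 → P.Ex 0 (algebraMap RR kk r) := by
    intro r hr
    refine hP.ex0 ?_
    rintro ⟨s, rfl⟩
    rw [map_mul, ev_qR_Plane2, p0, zero_mul] at hr
    exact hr rfl
  let φ : RR →ₐ[ℂ] kk := IsScalarTower.toAlgHom ℂ RR kk
  have hφ : ∀ r, algebraMap RR kk r = φ r := fun r => rfl
  have hz : φ X = zk := rfl
  have hw : φ (Polynomial.C X) = wk := rfl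
  refine ⟨?_, ?_, ?_, ?_, ?_, ?_, ?_⟩
  · have := nd (algebraMap ℂ RR A * Polynomial.C X + algebraMap ℂ RR B) (by
      rw [map_add, map_mul, AlgHom.commutes, AlgHom.commutes, aevalAeval_X]
      simpa using p1)
    rw [hφ, map_add, map_mul, AlgHom.commutes, AlgHom.commutes, hw] at this
    rwa [e1]
  · have := nd (algebraMap ℂ RR A * X + algebraMap ℂ RR B) (by
      rw [map_add, map_mul, AlgHom.commutes, AlgHom.commutes, aevalAeval_Y]
      simpa using p2)
    rw [hφ, map_add, map_mul, AlgHom.commutes, AlgHom.commutes, hz] at this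
    rwa [e2]
  · have := nd (X - Polynomial.C X) (by
      rw [map_sub, aevalAeval_X, aevalAeval_Y]
      exact p3)
    rwa [hφ, map_sub, hz, hw] at this
  · have := nd (qf A B C X X) (by
      rw [map_qf, aevalAeval_Y]
      exact p4)
    rwa [hφ, map_qf, hz] at this
  · have := nd (qf A B C (Polynomial.C X) (Polynomial.C X)) (by
      rw [map_qf, aevalAeval_X]
      exact p5)
    rwa [hφ, map_qf, hw] at this
  · rw [e1, hτ, qf, qf]
    ring
  · rw [e2, hτ, qf, qf]
    ring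

theorem scal_Plane2 {A B C A' B' C' : ℂ} (h : B ^ 2 - A * C ≠ 0) (h' : B' ^ 2 - A' * C' ≠ 0)
    (hd : qR A B C ∣ qR A' B' C') :
    ∃ c : kk, c ≠ 0 ∧ ∀ z w : kk, qf A' B' C' z w = qf A B C z w * c := by
  obtain ⟨u, hu⟩ := hd
  have hu1 : IsUnit u :=
    ((prime_qR h').irreducible.isUnit_or_isUnit hu).resolve_left (prime_qR h).not_isUnit
  obtain ⟨r, hr, rfl⟩ := Polynomial.isUnit_iff.1 hu1
  obtain ⟨c, hc, rfl⟩ := Polynomial.isUnit_iff.1 hr
  refine ⟨algebraMap ℂ kk c, (_root_.map_ne_zero _).2 hc.ne_zero, fun z w => ?_⟩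
  have := congrArg (aevalAeval w z) hu
  rw [map_mul, ev_qR_Plane2, ev_qR_Plane2] at this
  rw [this]
  congr 1
  exact (aevalAeval w z).commutes c

/-- Polar parts of the moments along the line with index `j`. -/
theorem Along.mom_polar {J : Type} [Fintype J] (μ : J → ℕ) (hμ : ∀ j, 0 < μ j) (A B C : J → ℂ)
    (h : ∀ j, B j ^ 2 - A j * C j ≠ 0) (j : J) {P : Ord kk}
    (hP : Along P (qR (A j) (B j) (C j))) :
    ∃ ν : ℕ, 0 < ν ∧ ∀ r s : ℕ, P.G 0 (mom μ A B C zk wk r s -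
      ν * (qf (A j) (B j) (C j) wk wk / P.τ) ^ r * (qf (A j) (B j) (C j) zk zk / P.τ) ^ s) := by
  classical
  have hτ : P.τ = qf (A j) (B j) (C j) zk wk := by rw [hP.tau, qR_map]
  let φ : RR →ₐ[ℂ] kk := IsScalarTower.toAlgHom ℂ RR kk
  have hφ : ∀ r, algebraMap RR kk r = φ r := fun r => rfl
  have hz : φ X = zk := rfl
  have hw : φ (Polynomial.C X) = wk := rfl
  refine ⟨∑ k, if qR (A j) (B j) (C j) ∣ qR (A k) (B k) (C k) then μ k else 0, ?_, fun r s => ?_⟩
  · refine lt_of_lt_of_le ?_ (Finset.single_le_sum (f := fun k =>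
      if qR (A j) (B j) (C j) ∣ qR (A k) (B k) (C k) then μ k else 0)
      (fun _ _ => Nat.zero_le _) (Finset.mem_univ j))
    simp only [dvd_refl, if_true]
    exact hμ j
  · rw [mom, Nat.cast_sum, Finset.sum_mul, Finset.sum_mul, ← Finset.sum_sub_distrib]
    refine Ord.G.sum _ fun k _ => ?_
    split_ifs with hk
    · obtain ⟨c, hc, e⟩ := scal_Plane2 (h j) (h k) hk
      rw [e, e, e, mul_div_mul_right _ _ hc, mul_div_mul_right _ _ hc, hτ, sub_self]
      exact Ord.G.zero _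
    · have h1 : P.G 0 (qf (A k) (B k) (C k) zk wk)⁻¹ := by
        have := (hP.ex0 hk).inv.1
        rwa [qR_map, neg_zero] at this
      have h2 : P.G 0 (qf (A k) (B k) (C k) zk zk) := by
        have := hP.poly (qf (A k) (B k) (C k) X X)
        rwa [hφ, map_qf, hz] at this
      have h3 : P.G 0 (qf (A k) (B k) (C k) wk wk) := by
        have := hP.poly (qf (A k) (B k) (C k) (Polynomial.C X) (Polynomial.C X))
        rwa [hφ, map_qf, hw] at this
      rw [Nat.cast_zero, zero_mul, zero_mul, sub_zero, div_eq_mul_inv, div_eq_mul_inv]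
      have h4 := (h3.lmul h1).pow r
      have h5 := (h2.lmul h1).pow s
      rw [mul_zero] at h4 h5
      exact ((Ord.G.nat _).lmul h4).lmul h5

end BiH
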