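import Pool.Agent.P.MP_ecb6bc_gt.Ord

/-! The differential system along a gradient line, and the moving frame. -/

set_option autoImplicit false
set_option linter.unusedSectionVars false
set_option linter.unusedVariables false

noncomputable section

namespace BiH

open Polynomial

section

variable {L : Type} [Field L] [Algebra ℂ L] {J : Type} [Fintype J]

/-- The Riccati, Codazzi, trace and normal equations. -/
structure Sys (D : Derivation ℂ L L) (μ : J → ℕ) (ω lam : J → L) (κ : L) : Prop where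
  pos : ∀ j, 0 < μ j
  dω : ∀ j, D (ω j) = -ω j ^ 2 - κ * lam j - 1
  dl : ∀ j, D (lam j) = (κ - lam j) * ω j
  tr : ∑ j, (μ j : L) * lam j = -3 * κ
  nor : D (D κ) + (∑ j, (μ j : L) * ω j) * D κ =
    κ * (κ ^ 2 + ∑ j, (μ j : L) * lam j ^ 2 - (∑ j, (μ j : L) + 1))

end

/-- A symmetric form that is affine in each variable. -/
def qf {K : Type} [CommRing K] [Algebra ℂ K] (A B C : ℂ) (z w : K) : K :=
  algebraMap ℂ K A * z * w + algebraMap ℂ K B * (z + w) + algebraMap ℂ K C

/-- The imaginary unit of a complex algebra. -/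
def iu (K : Type) [CommRing K] [Algebra ℂ K] : K := algebraMap ℂ K Complex.I

theorem iu_sq (K : Type) [CommRing K] [Algebra ℂ K] : iu K ^ 2 = -1 := by
  rw [iu, ← map_pow, Complex.I_sq, map_neg, map_one]

theorem map_qf {K K' : Type} [CommRing K] [Algebra ℂ K] [CommRing K'] [Algebra ℂ K']
    (φ : K →ₐ[ℂ] K') (A B C : ℂ) (z w : K) : φ (qf A B C z w) = qf A B C (φ z) (φ w) := by
  simp [qf]

section

variable {L : Type} [Field L] [Algebra ℂ L] {J : Type} [Fintype J]

/-- Isotropic coordinates `z, w` on the two-sphere and the direction `ζ`. -/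
structure Frame (D : Derivation ℂ L L) (ω lam : J → L) (κ z w ζ : L) (A B C : J → ℂ) :
    Prop where
  dz : D z = ζ * (z - w) / 2
  dw : ζ * D w = (z - w) / 2
  dζ : D ζ = iu L * κ * ζ + (ζ ^ 2 + 1) / 2
  zw : z ≠ w
  ζ0 : ζ ≠ 0
  q0 : ∀ j, qf (A j) (B j) (C j) z w ≠ 0
  disc : ∀ j, B j ^ 2 - A j * C j ≠ 0
  hp : ∀ j, (ω j + iu L * lam j) * qf (A j) (B j) (C j) z w = -ζ * qf (A j) (B j) (C j) w w
  hq : ∀ j, ζ * (ω j - iu L * lam j) * qf (A j) (B j) (C j) z w = qf (A j) (B j) (C j) z z

/-- The moments of the quotients `q(w,w)/q(z,w)` and `q(z,z)/q(z,w)`. -/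
def mom (μ : J → ℕ) (A B C : J → ℂ) (z w : L) (r s : ℕ) : L :=
  ∑ j, (μ j : L) * (qf (A j) (B j) (C j) w w / qf (A j) (B j) (C j) z w) ^ r *
    (qf (A j) (B j) (C j) z z / qf (A j) (B j) (C j) z w) ^ s

end

/-- Polynomials in `z` (outer variable) and `w` (inner variable). -/
abbrev RR : Type := Polynomial (Polynomial ℂ)

/-- The form `qf` as a polynomial. -/
def qR (A B C : ℂ) : RR := qf A B C (X : RR) (Polynomial.C X)

/-- The field of rational functions of `z` and `w`. -/
abbrev kk : Type := FractionRing RR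

/-- The first coordinate. -/
def zk : kk := algebraMap RR kk X

/-- The second coordinate. -/
def wk : kk := algebraMap RR kk (Polynomial.C X)

/-- The order along the prime polynomial `q`. -/
structure Along (P : Ord kk) (q : RR) : Prop where
  tau : P.τ = algebraMap RR kk q
  poly : ∀ r : RR, P.G 0 (algebraMap RR kk r)
  dvd : ∀ r : RR, P.G 1 (algebraMap RR kk r) ↔ q ∣ r
  der : ∀ (d : Derivation ℂ kk kk), (∀ r : RR, ∃ r' : RR, d (algebraMap RR kk r) =
    algebraMap RR kk r') → ∀ u, P.G 0 u → P.G 0 (d u)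

/-- The two partial derivatives. -/
structure Part (dz dw : Derivation ℂ kk kk) : Prop where
  z : ∀ r : RR, dz (algebraMap RR kk r) = algebraMap RR kk (derivative r)
  w : ∀ r : RR, dw (algebraMap RR kk r) =
    algebraMap RR kk (Bivariate.swap (derivative (Bivariate.swap r)))

end BiH
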