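import Pool.Agent.P.MP_ecb6bc_gt.SGlob2

/-! A rational invariant direction field consists of great circles. -/

set_option autoImplicit false
set_option linter.unusedSectionVars false
set_option linter.unusedVariables false

noncomputable section

namespace BiH

open Polynomial

theorem qR_SGlob (A B C : ℂ) : qR A B C =
    Polynomial.C (Polynomial.C A * X + Polynomial.C B) * X +
      Polynomial.C (Polynomial.C B * X + Polynomial.C C) := by
  have e : ∀ a : ℂ, algebraMap ℂ RR a = Polynomial.C (Polynomial.C a) := fun _ => rfl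
  simp only [qR, qf, e, map_add, map_mul]
  ring

theorem coeff_SGlob {A B C : ℂ} (h : B ^ 2 - A * C ≠ 0) {f : ℂ[X]} {n : ℕ}
    (hn : f.natDegree = n + 2) {r : RR}
    (hr : qR A B C * r = f.map Polynomial.C * Polynomial.C (Polynomial.C A * X + Polynomial.C B) +
      Polynomial.C f * (Polynomial.C (Polynomial.C A) * X + Polynomial.C (Polynomial.C B))) :
    r.coeff (n + 2) = 0 ∧ r.coeff (n + 1) = Polynomial.C (f.coeff (n + 2)) := by
  obtain ⟨u, hu⟩ : ∃ u : ℂ[X], u = Polynomial.C A * X + Polynomial.C B := ⟨_, rfl⟩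
  have hu0 : u ≠ 0 := by
    intro h0
    have h1 := congrArg (fun p : ℂ[X] => p.coeff 1) (hu.symm.trans h0)
    have h2 := congrArg (fun p : ℂ[X] => p.coeff 0) (hu.symm.trans h0)
    simp at h1 h2
    exact h (by rw [h1, h2]; ring)
  rw [qR_SGlob, ← hu] at hr
  have h1 : r.natDegree ≤ n + 1 := by
    by_cases h0 : r = 0
    · simp [h0]
    have h2 := congrArg natDegree hr
    rw [natDegree_mul (fun h3 => by
      have := congrArg natDegree h3
      rw [natDegree_linear hu0] at this
      simp at this) h0, natDegree_linear hu0] at h2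
    have h3 : (f.map Polynomial.C * Polynomial.C u + Polynomial.C f *
        (Polynomial.C (Polynomial.C A) * X + Polynomial.C (Polynomial.C B)) : RR).natDegree ≤
        n + 2 := by
      refine (natDegree_add_le _ _).trans (max_le ?_ ?_)
      · exact (natDegree_mul_C_le _ _).trans (natDegree_map_le.trans hn.le)
      · exact (natDegree_C_mul_le _ _).trans (natDegree_linear_le.trans (by omega))
    omega
  have h2 : r.coeff (n + 2) = 0 := coeff_eq_zero_of_natDegree_lt (by omega)
  refine ⟨h2, mul_left_cancel₀ hu0 ?_⟩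
  have h3 := congrArg (fun p : RR => p.coeff (n + 2)) hr
  simp only [add_mul, mul_assoc, coeff_add, coeff_C_mul, coeff_X_mul, coeff_mul_C, coeff_map, h2,
    coeff_C_succ, coeff_X, mul_zero, add_zero] at h3
  rw [if_neg (by omega), mul_zero, mul_zero, add_zero] at h3
  rw [h3, mul_comm]

theorem deg_SGlob {J : Type} [Fintype J] (μ : J → ℕ) (A B C : J → ℂ)
    (h : ∀ j, B j ^ 2 - A j * C j ≠ 0) {f : ℂ[X]} (r : J → RR)
    (hr : ∀ j, qR (A j) (B j) (C j) * r j =
      f.map Polynomial.C * Polynomial.C (Polynomial.C (A j) * X + Polynomial.C (B j)) +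
      Polynomial.C f *
        (Polynomial.C (Polynomial.C (A j)) * X + Polynomial.C (Polynomial.C (B j))))
    (hid : 3 * ((X - Polynomial.C X) * ((derivative f).map Polynomial.C +
        Polynomial.C (derivative f))) + 2 * ((X - Polynomial.C X) * ∑ j, (μ j : RR) * r j) =
      2 * ((∑ j, (μ j : RR) + 3) * (f.map Polynomial.C - Polynomial.C f))) :
    f.natDegree ≤ 2 := by
  by_contra hc
  obtain ⟨n, hn⟩ : ∃ n, f.natDegree = n + 1 + 2 := ⟨f.natDegree - 3, by omega⟩
  have h1 := fun j => coeff_SGlob (h j) hn (hr j)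
  have h0 : f.coeff (n + 1 + 2) ≠ 0 := by
    rw [← hn]
    exact mt leadingCoeff_eq_zero.1 (by
      rintro rfl
      simp at hn)
  have h2 : f.coeff (n + 1 + 2 + 1) = 0 := coeff_eq_zero_of_natDegree_lt (by omega)
  have e2 : (2 : RR) = Polynomial.C 2 := rfl
  have e3 : (3 : RR) = Polynomial.C 3 := rfl
  have e4 : ∀ j, (μ j : RR) = Polynomial.C (μ j : ℂ[X]) := fun j => (map_natCast _ _).symm
  have h3 := congrArg (fun p : RR => p.coeff (n + 1 + 2)) hid
  simp only [e2, e3, e4, sub_mul, add_mul, Finset.sum_mul, coeff_add, coeff_sub, coeff_C_mul,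
    coeff_X_mul, coeff_map, finsetSum_coeff, coeff_C_succ, coeff_derivative, (h1 _).1, (h1 _).2,
    h2] at h3
  have h4 := congrArg (fun p : ℂ[X] => p.coeff 0) h3
  simp at h4
  change 3 * (f.coeff (n + 1 + 2) * _) + _ = _ at h4
  have h5 : ((n : ℂ) + 1) * f.coeff (n + 1 + 2) = 0 := by linear_combination h4 / 3
  exact h0 ((mul_eq_zero.1 h5).resolve_left (Nat.cast_add_one_ne_zero n))

theorem az_SGlob (g : ℂ[X]) : aeval zk g = algebraMap RR kk (g.map Polynomial.C) := by
  rw [zk, aeval_algebraMap_apply, aeval_X_left_eq_map]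
  rfl

theorem aw_SGlob (g : ℂ[X]) : aeval wk g = algebraMap RR kk (Polynomial.C g) := by
  rw [wk, aeval_algebraMap_apply]
  congr 1
  have := aeval_algebraMap_apply RR (X : ℂ[X]) g
  rw [aeval_X_left_apply] at this
  exact this

theorem sglob {dz dw : Derivation ℂ kk kk} (hd : Part dz dw) {J : Type} [Fintype J] (μ : J → ℕ)
    (hμ : ∀ j, 0 < μ j) (A B C : J → ℂ) (h : ∀ j, B j ^ 2 - A j * C j ≠ 0) (s : kk) (hs : s ≠ 0)
    (hpde : s * dz s + dw s = 2 / 3 * (mom μ A B C zk wk 0 1 + 3) / (zk - wk) * s +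
      2 / 3 * (mom μ A B C zk wk 1 0 + 3) / (zk - wk) * s ^ 2)
    (hloc : ∀ j, ∃ P : Ord kk, Along P (qR (A j) (B j) (C j)) ∧ P.Ex 0 s ∧
      P.G 1 (s * dz P.τ - dw P.τ)) :
    s * mom μ A B C zk wk 1 0 + mom μ A B C zk wk 0 1 = 0 := by
  have hinj : Function.Injective (algebraMap RR kk) := IsFractionRing.injective RR kk
  obtain ⟨f, hf, e⟩ := sglob_form hd μ A B C h s hs hpde fun j => by
    obtain ⟨P, h1, h2, -⟩ := hloc j
    exact ⟨P, h1, h2⟩
  have hδ : zk - wk ≠ 0 := sub_ne_zero.2 zk_ne_wk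
  have hy : aeval wk f ≠ 0 := by
    rw [aw_SGlob]
    exact (map_ne_zero_iff _ hinj).2 (C_ne_zero.2 hf)
  have e1 : s * aeval wk f = -aeval zk f := by rw [e, div_mul_cancel₀ _ hy]
  obtain ⟨z1, z2, z3, z4⟩ := hd.zz
  have ez := congrArg dz e1
  have ew := congrArg dw e1
  rw [Derivation.leibniz, map_neg, Derivation.map_aeval, Derivation.map_aeval] at ez ew
  simp only [z1, z2, z3, z4, smul_eq_mul, mul_one, mul_zero, zero_add, neg_zero] at ez ew
  have key : 3 * ((zk - wk) * (aeval zk (derivative f) + aeval wk (derivative f))) +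
      2 * (aeval wk f * mom μ A B C zk wk 0 1 - aeval zk f * mom μ A B C zk wk 1 0) =
      6 * (aeval zk f - aeval wk f) := by
    have h3 : 3 * ((zk - wk) * (s * dz s + dw s)) = 2 * (mom μ A B C zk wk 0 1 + 3) * s +
        2 * (mom μ A B C zk wk 1 0 + 3) * s ^ 2 := by
      rw [hpde]
      field_simp
    refine mul_left_cancel₀ hs ?_
    linear_combination -aeval wk f * h3 + 3 * (zk - wk) * s * ez + 3 * (zk - wk) * ew -
      2 * s * (mom μ A B C zk wk 1 0 + 3) * e1
  have ec : ∀ a : ℂ, algebraMap RR kk (Polynomial.C (Polynomial.C a)) = algebraMap ℂ kk a :=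
    fun a => (IsScalarTower.algebraMap_apply ℂ RR kk a).symm
  have hr : ∀ j, ∃ r : RR, qR (A j) (B j) (C j) * r =
      f.map Polynomial.C * Polynomial.C (Polynomial.C (A j) * X + Polynomial.C (B j)) +
      Polynomial.C f *
        (Polynomial.C (Polynomial.C (A j)) * X + Polynomial.C (Polynomial.C (B j))) := by
    intro j
    obtain ⟨P, hP, -, h3⟩ := hloc j
    obtain ⟨-, -, -, -, -, u1, u2⟩ := hP.units (h j) hd
    rw [hP.tau, qR_map] at u1 u2 h3
    have v1 : dz (qf (A j) (B j) (C j) zk wk) =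
        algebraMap ℂ kk (A j) * wk + algebraMap ℂ kk (B j) := by
      refine mul_left_cancel₀ hδ ?_
      rw [eq_sub_iff_add_eq, ← eq_sub_iff_add_eq'] at u1
      rw [u1, qf, qf]
      ring
    have v2 : dw (qf (A j) (B j) (C j) zk wk) =
        algebraMap ℂ kk (A j) * zk + algebraMap ℂ kk (B j) := by
      refine mul_left_cancel₀ hδ ?_
      rw [← sub_eq_iff_eq_add'] at u2
      rw [← u2, qf, qf]
      ring
    rw [v1, v2] at h3
    obtain ⟨r, hr⟩ := (hP.dvd _).1 (((hP.poly (Polynomial.C f)).lmul h3).neg.congr (g :=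
      algebraMap RR kk
        (f.map Polynomial.C * Polynomial.C (Polynomial.C (A j) * X + Polynomial.C (B j)) +
        Polynomial.C f *
          (Polynomial.C (Polynomial.C (A j)) * X + Polynomial.C (Polynomial.C (B j))))) (by
      simp only [map_add, map_mul, ec, ← az_SGlob, ← aw_SGlob f]
      change _ * (_ * wk + _) + _ * (_ * zk + _) = _
      linear_combination (algebraMap ℂ kk (A j) * wk + algebraMap ℂ kk (B j)) * e1))
    exact ⟨r, hr.symm⟩
  choose r hr using hr
  have hm : aeval wk f * mom μ A B C zk wk 0 1 - aeval zk f * mom μ A B C zk wk 1 0 =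
      (zk - wk) * ∑ j, (μ j : kk) * algebraMap RR kk (r j) -
        (∑ j, (μ j : kk)) * (aeval zk f - aeval wk f) := by
    simp only [mom, Finset.mul_sum, Finset.sum_mul, ← Finset.sum_sub_distrib]
    refine Finset.sum_congr rfl fun j _ => ?_
    have h0 : qf (A j) (B j) (C j) zk wk ≠ 0 := by
      rw [← qR_map]
      exact (map_ne_zero_iff _ hinj).2 (prime_qR (h j)).ne_zero
    have h1 := congrArg (algebraMap RR kk) (hr j)
    simp only [map_add, map_mul, ec, ← az_SGlob, ← aw_SGlob f, qR_map] at h1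
    change _ = _ * (_ * wk + _) + _ * (_ * zk + _) at h1
    have h2 : algebraMap RR kk (r j) = (aeval zk f *
        (algebraMap ℂ kk (A j) * wk + algebraMap ℂ kk (B j)) + aeval wk f *
        (algebraMap ℂ kk (A j) * zk + algebraMap ℂ kk (B j))) / qf (A j) (B j) (C j) zk wk := by
      rw [eq_div_iff h0, mul_comm, h1]
    rw [h2]
    field_simp
    simp only [qf]
    ring
  have hdeg : f.natDegree ≤ 2 := by
    refine deg_SGlob μ A B C h r hr (hinj ?_)
    simp only [map_add, map_mul, map_sub, map_sum, map_natCast, map_ofNat, ← az_SGlob,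
      ← aw_SGlob f, ← aw_SGlob (derivative f)]
    change 3 * ((zk - wk) * _) + 2 * ((zk - wk) * _) = _
    linear_combination key - 2 * hm
  have h5 : (zk - wk) * (aeval zk (derivative f) + aeval wk (derivative f)) =
      2 * (aeval zk f - aeval wk f) := by
    rw [eq_quadratic_of_degree_le_two (degree_le_of_natDegree_le hdeg)]
    simp only [map_add, map_mul, map_pow, aeval_C, aeval_X, derivative_mul, derivative_C,
      derivative_X, derivative_X_pow, map_natCast, zero_mul, zero_add, add_zero, mul_one]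
    ring
  refine mul_left_cancel₀ hy (mul_left_cancel₀ (two_ne_zero' kk) ?_)
  linear_combination key - 3 * h5 + 2 * mom μ A B C zk wk 1 0 * e1

end BiH
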