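import Pool.Agent.P.MP_ecb6bc_gt.Plane2

/-! The direction field along the diagonal. -/

set_option autoImplicit false
set_option linter.unusedSectionVars false
set_option linter.unusedVariables false

noncomputable section

namespace BiH

open Polynomial

theorem not_dvd_SGlob1 {A B C : ℂ} (h : B ^ 2 - A * C ≠ 0) :
    ¬ (X - Polynomial.C X : RR) ∣ qR A B C := fun hd => by
  have h0 := dvd_iff_isRoot.1 hd
  simp only [qR, qf, IsRoot, Polynomial.algebraMap_apply, Algebra.algebraMap_self,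
    RingHom.id_apply, eval_add, eval_mul, eval_C, eval_X] at h0
  have h1 := congrArg (coeff · 2) h0
  have h2 := congrArg (coeff · 1) h0
  simp [coeff_X, coeff_C, mul_assoc] at h1 h2
  exact h (by rw [h1, h2]; ring)

theorem sglob_diag {dz dw : Derivation ℂ kk kk} (hd : Part dz dw) {J : Type} [Fintype J] (μ : J → ℕ)
    (A B C : J → ℂ) (h : ∀ j, B j ^ 2 - A j * C j ≠ 0) (s : kk) (hs : s ≠ 0)
    (hpde : s * dz s + dw s = 2 / 3 * (mom μ A B C zk wk 0 1 + 3) / (zk - wk) * s +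
      2 / 3 * (mom μ A B C zk wk 1 0 + 3) / (zk - wk) * s ^ 2)
    {P : Ord kk} (hP : Along P (X - Polynomial.C X)) : P.Ex 0 s ∧ P.G 1 (s + 1) := by
  have hτ : P.τ = zk - wk := by rw [hP.tau, map_sub, zk, wk]
  have t1 : P.G 1 (zk - wk) := hτ ▸ Ord.Ex.tau.1
  have t0 : zk - wk ≠ 0 := sub_ne_zero.2 zk_ne_wk
  have hq : ∀ j, P.Ex 0 (qf (A j) (B j) (C j) zk wk) := fun j =>
    qR_map (A j) (B j) (C j) ▸ hP.ex0 (not_dvd_SGlob1 (h j))
  have hl : ∀ j x, P.G 0 x → P.G 1 ((μ j : kk) * ((zk - wk) * (algebraMap ℂ kk (A j) * x +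
      algebraMap ℂ kk (B j)) * (qf (A j) (B j) (C j) zk wk)⁻¹)) := fun j x hx =>
    (Ord.G.nat _).lmul ((t1.rmul (((Ord.G.const _).lmul hx).add (Ord.G.const _))).rmul
      ((hq j).inv.cast neg_zero.symm).1)
  obtain ⟨M, hM⟩ : ∃ M : ℕ, M = ∑ j, μ j := ⟨_, rfl⟩
  have m1 : P.G 1 (mom μ A B C zk wk 0 1 - M) := by
    refine (Ord.G.sum Finset.univ fun j _ => hl j zk (hP.poly _)).congr ?_
    rw [hM, mom, Nat.cast_sum, ← Finset.sum_sub_distrib]
    refine Finset.sum_congr rfl fun j _ => ?_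
    have := (hq j).ne
    field_simp
    simp only [qf]
    ring
  have m2 : P.G 1 (mom μ A B C zk wk 1 0 - M) := by
    refine (Ord.G.sum Finset.univ fun j _ => (hl j wk (hP.poly _)).neg).congr ?_
    rw [hM, mom, Nat.cast_sum, ← Finset.sum_sub_distrib]
    refine Finset.sum_congr rfl fun j _ => ?_
    have := (hq j).ne
    field_simp
    simp only [qf]
    ring
  obtain ⟨n, hn⟩ := Ord.exists_ex (P := P) hs
  have u := hn.deriv dz 1 0 fun u hu => ((hP.pres hd).1 u hu).congr (one_mul _)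
  have v := hn.deriv dw 1 0 fun u hu => ((hP.pres hd).2 u hu).congr (one_mul _)
  rw [hτ, map_sub, hd.zz.1, hd.zz.2.1] at u
  rw [hτ, map_sub, hd.zz.2.2.1, hd.zz.2.2.2] at v
  have c3 : (3 : kk) ≠ 0 := by simpa using (Ord.Ex.nat (P := P) three_ne_zero).ne
  have key : ∀ k, k ≤ 1 → k ≤ n + 1 → P.G k
      (((3 * n - 2 * (M + 3) : ℤ) : kk) * s - ((3 * n + 2 * (M + 3) : ℤ) : kk)) := fun k k1 k2 => by
    refine Ord.G.of_mul hn ((((Ord.G.nat 2).lmul ((m1.mul' hn.1 (by omega)).add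
      (m2.mul' (hn.1.mul hn.1) (by omega)))).sub ((Ord.G.nat 3).lmul
        (((t1.mul hn.1).mul' u (by omega)).add (t1.mul' v (by omega))))).congr ?_)
    field_simp at hpde
    push_cast
    field_simp
    linear_combination hpde
  rcases lt_trichotomy n 0 with h0 | rfl | h0
  · refine absurd (((key (n + 1) (by omega) le_rfl).add ((Ord.G.int _).mono (by omega))).congr
      (sub_add_cancel _ _).symm) (((Ord.Ex.int (by omega)).mul' hn (zero_add n).symm).2)
  · refine ⟨hn, Ord.G.of_mul (Ord.Ex.int (P := P) (k := -(2 * (M + 3))) (by omega))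
      ((key _ le_rfl le_rfl).congr (by push_cast; ring))⟩
  · refine absurd ((((Ord.G.int _).mul' hn.1 (by omega)).sub (key (0 + 1) le_rfl (by omega))).congr
      (sub_sub_cancel _ _).symm) (Ord.Ex.int (by omega)).2

end BiH
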