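import Pool.Agent.P.MP_ecb6bc_gt.SGlob1

/-! The direction field is a quotient `-f(z)/f(w)`. -/

set_option autoImplicit false
set_option linter.unusedSectionVars false
set_option linter.unusedVariables false

noncomputable section

namespace BiH

open Polynomial

theorem ndvd_SGlob2 {P : Ord kk} {q a b : RR} {s : kk} (hq : Prime q) (hP : Along P q)
    (hs : P.Ex 0 s) (hab : IsRelPrime a b) (e : s * algebraMap RR kk b = algebraMap RR kk a) :
    IsRelPrime a q ∧ IsRelPrime b q := by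
  have h1 : q ∣ a ↔ q ∣ b := by
    rw [← hP.dvd, ← hP.dvd, ← e]
    exact ⟨fun h => Ord.G.of_mul hs (by simpa using h), fun h => hs.1.lmul h⟩
  have h2 : ¬ q ∣ a := fun h => hq.not_isUnit (hab h (h1.1 h))
  exact ⟨(hq.irreducible.isRelPrime_iff_not_dvd.2 h2).symm,
    (hq.irreducible.isRelPrime_iff_not_dvd.2 (fun h => h2 (h1.2 h))).symm⟩

theorem qf_map_SGlob2 (A B C : ℂ) (x y : RR) :
    qf A B C (algebraMap RR kk x) (algebraMap RR kk y) = algebraMap RR kk (qf A B C x y) :=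
  (map_qf (IsScalarTower.toAlgHom ℂ RR kk) A B C x y).symm

theorem pol_SGlob2 {J : Type} [Fintype J] (μ : J → ℕ) (A B C : J → ℂ)
    (h : ∀ j, B j ^ 2 - A j * C j ≠ 0) :
    ∃ G1 G2 : RR,
      algebraMap RR kk (∏ j, qR (A j) (B j) (C j)) * (2 / 3 * (mom μ A B C zk wk 0 1 + 3)) =
        algebraMap RR kk G1 ∧
      algebraMap RR kk (∏ j, qR (A j) (B j) (C j)) * (2 / 3 * (mom μ A B C zk wk 1 0 + 3)) =
        algebraMap RR kk G2 := by
  classical
  have hinj : Function.Injective (algebraMap RR kk) := IsFractionRing.injective RR kk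
  have key : ∀ (j : J) (r : RR), algebraMap RR kk (∏ j, qR (A j) (B j) (C j)) *
      (algebraMap RR kk r / qf (A j) (B j) (C j) zk wk) =
      algebraMap RR kk (r * ∏ k ∈ Finset.univ.erase j, qR (A k) (B k) (C k)) := by
    intro j r
    have h0 : algebraMap RR kk (qR (A j) (B j) (C j)) ≠ 0 :=
      (map_ne_zero_iff _ hinj).2 (prime_qR (h j)).ne_zero
    rw [← qR_map, ← Finset.mul_prod_erase Finset.univ _ (Finset.mem_univ j), map_mul, map_mul]
    field_simp
  have hc : (2 / 3 : kk) = algebraMap RR kk (algebraMap ℂ RR (2 / 3)) := by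
    rw [← IsScalarTower.algebraMap_apply, map_div₀, map_ofNat, map_ofNat]
  have h3 : (3 : kk) = algebraMap RR kk 3 := by rw [map_ofNat]
  refine ⟨algebraMap ℂ RR (2 / 3) * (∑ j, (μ j : RR) * (qf (A j) (B j) (C j) (X : RR) X *
      ∏ k ∈ Finset.univ.erase j, qR (A k) (B k) (C k)) + (∏ j, qR (A j) (B j) (C j)) * 3),
    algebraMap ℂ RR (2 / 3) * (∑ j, (μ j : RR) *
      (qf (A j) (B j) (C j) (Polynomial.C X : RR) (Polynomial.C X) *
      ∏ k ∈ Finset.univ.erase j, qR (A k) (B k) (C k)) + (∏ j, qR (A j) (B j) (C j)) * 3), ?_, ?_⟩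
  · rw [map_mul, ← hc, map_add, map_mul, ← h3, map_sum, mul_left_comm, mul_add, mom,
      Finset.mul_sum]
    congr 2
    refine Finset.sum_congr rfl (fun j _ => ?_)
    rw [map_mul, map_natCast, ← key, ← qf_map_SGlob2, pow_zero, pow_one, mul_one, mul_left_comm]
    rfl
  · rw [map_mul, ← hc, map_add, map_mul, ← h3, map_sum, mul_left_comm, mul_add, mom,
      Finset.mul_sum]
    congr 2
    refine Finset.sum_congr rfl (fun j _ => ?_)
    rw [map_mul, map_natCast, ← key, ← qf_map_SGlob2, pow_zero, pow_one, mul_one, mul_left_comm]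
    rfl

theorem alg_SGlob2 {K : Type} [Field K] {s a b az bz aw bw sz sw δ V m1 m2 G1 G2 : K}
    (e : s * b = a) (ez : s * bz + b * sz = az) (ew : s * bw + b * sw = aw) (hδ : δ ≠ 0)
    (h1 : V * m1 = G1) (h2 : V * m2 = G2)
    (hpde : s * sz + sw = m1 / δ * s + m2 / δ * s ^ 2) :
    δ * V * (a * (az * b - a * bz) + b * (aw * b - a * bw)) = G1 * a * b ^ 2 + G2 * a ^ 2 * b := by
  have h3 : δ * (s * sz + sw) = m1 * s + m2 * s ^ 2 := by
    rw [hpde]
    field_simp
  subst e ez ew h1 h2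
  linear_combination V * b ^ 3 * h3

theorem sglob_form {dz dw : Derivation ℂ kk kk} (hd : Part dz dw) {J : Type} [Fintype J] (μ : J → ℕ)
    (A B C : J → ℂ) (h : ∀ j, B j ^ 2 - A j * C j ≠ 0) (s : kk) (hs : s ≠ 0)
    (hpde : s * dz s + dw s = 2 / 3 * (mom μ A B C zk wk 0 1 + 3) / (zk - wk) * s +
      2 / 3 * (mom μ A B C zk wk 1 0 + 3) / (zk - wk) * s ^ 2)
    (hloc : ∀ j, ∃ P : Ord kk, Along P (qR (A j) (B j) (C j)) ∧ P.Ex 0 s) :
    ∃ f : ℂ[X], f ≠ 0 ∧ s = -aeval zk f / aeval wk f := by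
  have hinj : Function.Injective (algebraMap RR kk) := IsFractionRing.injective RR kk
  obtain ⟨a, ⟨b, hb⟩, hab, e0⟩ := IsFractionRing.exists_reduced_fraction RR s
  have e : s * algebraMap RR kk b = algebraMap RR kk a := by
    rw [← e0]
    exact IsLocalization.mk'_spec kk a ⟨b, hb⟩
  replace hab : IsRelPrime a b := hab
  have hb0 : b ≠ 0 := nonZeroDivisors.ne_zero hb
  have hb1 : algebraMap RR kk b ≠ 0 := (map_ne_zero_iff _ hinj).2 hb0
  obtain ⟨P0, hP0⟩ := exists_along prime_diag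
  obtain ⟨hd0, hd1⟩ := sglob_diag hd μ A B C h s hs hpde hP0
  have r0 := ndvd_SGlob2 prime_diag hP0 hd0 hab e
  have r1 : ∀ j, IsRelPrime a (qR (A j) (B j) (C j)) ∧ IsRelPrime b (qR (A j) (B j) (C j)) := by
    intro j
    obtain ⟨P, hP, hP'⟩ := hloc j
    exact ndvd_SGlob2 (prime_qR (h j)) hP hP' hab e
  obtain ⟨G1, G2, hG1, hG2⟩ := pol_SGlob2 μ A B C h
  obtain ⟨V, hV⟩ : ∃ V : RR, V = ∏ j, qR (A j) (B j) (C j) := ⟨_, rfl⟩
  have ra : IsRelPrime a V := by
    rw [hV]
    exact IsRelPrime.prod_right (fun j _ => (r1 j).1)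
  have rb : IsRelPrime b V := by
    rw [hV]
    exact IsRelPrime.prod_right (fun j _ => (r1 j).2)
  rw [← hV] at hG1 hG2
  obtain ⟨aw, haw⟩ : ∃ aw : RR, aw = Bivariate.swap (derivative (Bivariate.swap a)) := ⟨_, rfl⟩
  obtain ⟨bw, hbw⟩ : ∃ bw : RR, bw = Bivariate.swap (derivative (Bivariate.swap b)) := ⟨_, rfl⟩
  have ez : s * algebraMap RR kk (derivative b) + algebraMap RR kk b * dz s =
      algebraMap RR kk (derivative a) := by
    rw [← hd.z a, ← e, Derivation.leibniz, hd.z b, smul_eq_mul, smul_eq_mul]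
  have ew : s * algebraMap RR kk bw + algebraMap RR kk b * dw s = algebraMap RR kk aw := by
    rw [haw, hbw, ← hd.w a, ← e, Derivation.leibniz, hd.w b, smul_eq_mul, smul_eq_mul]
  have main := alg_SGlob2 e ez ew (sub_ne_zero.2 zk_ne_wk) hG1 hG2 hpde
  have main' : (X - Polynomial.C X) * V * (a * (derivative a * b - a * derivative b) +
      b * (aw * b - a * bw)) = G1 * a * b ^ 2 + G2 * a ^ 2 * b := by
    apply hinj
    simp only [map_mul, map_add, map_sub, map_pow]
    exact main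
  obtain ⟨δ, hδ⟩ : ∃ δ : RR, δ = X - Polynomial.C X := ⟨_, rfl⟩
  rw [← hδ] at main' r0
  have d1 : a ∣ δ * (V * (b * (b * aw))) :=
    ⟨G1 * b ^ 2 + G2 * a * b - δ * V * ((derivative a * b - a * derivative b) - b * bw), by
      linear_combination main'⟩
  have d2 : b ∣ δ * (V * (a * (a * derivative b))) :=
    ⟨δ * V * (a * derivative a + (aw * b - a * bw)) - G1 * a * b - G2 * a ^ 2, by
      linear_combination -main'⟩
  have d3 : a ∣ aw := hab.dvd_of_dvd_mul_left (hab.dvd_of_dvd_mul_left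
    (ra.dvd_of_dvd_mul_left (r0.1.dvd_of_dvd_mul_left d1)))
  have d4 : b ∣ derivative b := hab.symm.dvd_of_dvd_mul_left (hab.symm.dvd_of_dvd_mul_left
    (rb.dvd_of_dvd_mul_left (r0.2.dvd_of_dvd_mul_left d2)))
  have d5 : Bivariate.swap a ∣ derivative (Bivariate.swap a) := by
    have := map_dvd (Bivariate.swap (R := ℂ)) d3
    rwa [haw, Bivariate.swap_swap_apply] at this
  obtain ⟨f, hf⟩ : ∃ f : ℂ[X], a = f.map Polynomial.C := by
    refine ⟨(Bivariate.swap a).coeff 0, ?_⟩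
    rw [← Bivariate.swap_C, ← eq_C_of_derivative_eq_zero (dvd_derivative_iff.1 d5),
      Bivariate.swap_swap_apply]
  obtain ⟨g, hg⟩ : ∃ g : ℂ[X], b = Polynomial.C g :=
    ⟨b.coeff 0, eq_C_of_derivative_eq_zero (dvd_derivative_iff.1 d4)⟩
  have d6 : (X - Polynomial.C X : RR) ∣ a + b := by
    rw [← hP0.dvd, map_add, ← e]
    exact (hd1.rmul (hP0.poly b)).congr (by ring)
  have d7 : f + g = 0 := by
    have := dvd_iff_isRoot.1 d6
    rw [IsRoot.def, eval_add, hf, hg, eval_C, eval_map, eval₂_C_X] at this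
    exact this
  have hg' : g = -f := by linear_combination d7
  have e1 : aeval zk f = algebraMap RR kk a := by
    rw [zk, aeval_algebraMap_apply, aeval_X_left_eq_map, hf]
    rfl
  have e2 : aeval wk f = -algebraMap RR kk b := by
    rw [wk, aeval_algebraMap_apply, hg, hg', map_neg, map_neg, neg_neg]
    congr 1
    have := aeval_algebraMap_apply RR (X : ℂ[X]) f
    rw [aeval_X_left_apply] at this
    exact this
  refine ⟨f, ?_, ?_⟩
  · rintro rfl
    exact hb0 (by rw [hg, hg', neg_zero, map_zero])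
  · rw [e1, e2, eq_div_iff (neg_ne_zero.2 hb1), ← e, mul_neg]

end BiH
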