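import Pool.Agent.P.MP_ecb6bc_gt.Ord

/-! An invariant cubic polynomial is a cube. -/

set_option autoImplicit false
set_option linter.unusedSectionVars false
set_option linter.unusedVariables false

noncomputable section

namespace BiH

theorem ex_SLoc3 {k : Type} [Field k] [Algebra ℂ k] {P : Ord k} {n m : ℤ} {f U F : k}
    (hf : P.Ex n f) (hU : P.Ex (-1) U) (hm : m ≠ 0) (h : P.G n (F - m * U * f)) :
    P.Ex (n - 1) F :=
  ((((Ord.Ex.int hm).mul hU).mul hf).cast (by ring)).of_sub (h.mono (by omega))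

theorem der_SLoc3 {k : Type} [Field k] [Algebra ℂ k] {P : Ord k} (d : Derivation ℂ k k)
    (hd : ∀ u, P.G 0 u → P.G 0 (d u)) {n : ℤ} {f : k} (hf : P.Ex n f) :
    P.G n (d f - n * (d P.τ / P.τ) * f) :=
  ((hf.deriv d 1 0 fun u hu => (hd u hu).congr (one_mul _)).mono (by omega)).congr (one_mul _).symm

theorem key_SLoc3 {k : Type} [Field k] [Algebra ℂ k]
    (P : Ord k) (dz dw : Derivation ℂ k k) (hdz : ∀ u, P.G 0 u → P.G 0 (dz u))
    (hdw : ∀ u, P.G 0 u → P.G 0 (dw u)) (hτz : P.Ex 0 (dz P.τ)) (hτw : P.Ex 0 (dw P.τ))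
    (ν : ℕ) (hν : 0 < ν) (g₁ g₂ : k) (hg₁ : P.G 0 (3 * g₁ - 2 * ν * (dw P.τ / P.τ)))
    (hg₂ : P.G 0 (3 * g₂ + 2 * ν * (dz P.τ / P.τ))) (t a b : k) (ht : P.G 0 t) (ha : P.G 0 a)
    (hb : P.G 0 b) (hA : P.G 0 (g₁ + g₂ * t))
    (E2 : 2 * g₂ * a = dz a - 3 * dw t - 3 * (t * dz t) + 3 * (t * (g₁ + g₂ * t)))
    (E1 : t * dz a + dw a - 2 * (g₁ + 2 * g₂ * t - dz t) * a = 3 * g₂ * b - dz b)
    (E0 : 3 * (t * dz b + dw b - 3 * (g₁ + 2 * g₂ * t - dz t) * b) = -(a * (2 * g₂ * a - dz a))) :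
    a = 0 ∧ b = 0 := by
  have hZ : P.Ex (-1) (dz P.τ / P.τ) := (hτz.mul' Ord.Ex.tau.inv (by norm_num)).congr
    (div_eq_mul_inv _ _)
  have hW : P.Ex (-1) (dw P.τ / P.τ) := (hτw.mul' Ord.Ex.tau.inv (by norm_num)).congr
    (div_eq_mul_inv _ _)
  have dZ := fun (n : ℤ) (f : k) (hf : P.Ex n f) => der_SLoc3 dz hdz hf
  have dW := fun (n : ℤ) (f : k) (hf : P.Ex n f) => der_SLoc3 dw hdw hf
  generalize dz P.τ / P.τ = Z at *
  generalize dw P.τ / P.τ = W at *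
  have n2 : P.G 0 (2 : k) := by simpa using Ord.G.nat (P := P) 2
  have n3 : P.G 0 (3 : k) := by simpa using Ord.G.nat (P := P) 3
  have x3 : P.Ex 0 (3 : k) := by simpa using Ord.Ex.nat (P := P) (k := 3) (by norm_num)
  have xν : P.Ex 0 (2 * (ν : k)) := by
    simpa using Ord.Ex.nat (P := P) (k := 2 * ν) (by omega)
  have hZW : P.G 0 (Z * t - W) := Ord.G.of_mul xν
    (((((hg₂.rmul ht).add hg₁).sub (n3.lmul hA)).mono (by omega)).congr (by ring))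
  have hh : P.G 0 (3 * (g₁ + 2 * g₂ * t - dz t) + 2 * ν * W) :=
    (((n2.lmul (n3.lmul hA)).sub hg₁).sub (n3.lmul (hdz t ht))).congr (by ring)
  have hga : P.G 0 (2 * g₂ * a) := ((((hdz a ha).sub (n3.lmul (hdw t ht))).sub
    (n3.lmul (ht.lmul (hdz t ht)))).add (n3.lmul (ht.lmul hA))).congr E2
  have x2 : P.Ex 0 (2 : k) := by simpa using Ord.Ex.nat (P := P) (k := 2) (by norm_num)
  have ha1 : P.G 1 a := Ord.G.of_mul (x2.mul (xν.mul hZ))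
    ((((n2.lmul (hg₂.rmul ha)).sub (n3.lmul hga)).mono (by omega)).congr (by ring))
  have hg : P.G (-1) g₂ := Ord.G.of_mul x3
    ((((hg₂.mono (by omega)).sub (xν.1.lmul hZ.1)).mono (by omega)).congr (by ring))
  have hY : ∀ (m : ℕ) (n : ℤ) (f : k), 0 < m → 0 ≤ n → P.Ex n f →
      P.Ex (n - 1) (3 * (t * dz f + dw f - m * (g₁ + 2 * g₂ * t - dz t) * f)) := by
    intro m n f hm hn hf
    have h1 : 0 < m * ν := Nat.mul_pos hm hν
    refine ex_SLoc3 (m := 6 * n + 2 * (m * ν : ℕ)) hf hW (by omega) ?_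
    exact ((((n3.lmul (ht.lmul (dZ n f hf))).add (n3.lmul (dW n f hf))).add
      (n3.lmul ((Ord.G.int n).lmul (hZW.lmul hf.1)))).sub
        ((Ord.G.nat m).lmul (hh.lmul hf.1))).congr (by push_cast; ring)
  have hX : ∀ (n : ℤ) (f : k), 0 ≤ n → P.Ex n f → P.Ex (n - 1) (3 * (3 * g₂ * f - dz f)) := by
    intro n f hn hf
    refine x3.mul' (ex_SLoc3 (m := -(2 * ν + n)) hf hZ (by omega) ?_) (zero_add _).symm
    exact ((hg₂.lmul hf.1).sub (dZ n f hf)).congr (by push_cast; ring)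
  by_cases hb0 : b = 0
  · refine ⟨by_contra fun ha0 => ?_, hb0⟩
    obtain ⟨p, hp⟩ := Ord.exists_ex (P := P) ha0
    refine (hY 2 p a two_pos (hp.le ha) hp).ne ?_
    rw [Nat.cast_ofNat, E1, hb0, map_zero]
    ring
  obtain ⟨n, hn⟩ := Ord.exists_ex (P := P) hb0
  have h1 := hX n b (hn.le hb) hn
  exfalso
  by_cases ha0 : a = 0
  · refine h1.ne ?_
    rw [← E1, ha0, map_zero, map_zero]
    ring
  obtain ⟨p, hp⟩ := Ord.exists_ex (P := P) ha0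
  have h2 := hY 2 p a two_pos (hp.le ha) hp
  rw [Nat.cast_ofNat, E1] at h2
  have h3 := h1.unique h2
  have h4 := hY 3 n b three_pos (hn.le hb) hn
  rw [Nat.cast_ofNat, E0] at h4
  have h5 : P.G (p - 1) (dz a) := (((dZ p a hp).mono (by omega)).add
    ((Ord.G.int p).lmul (hZ.1.mul' hp.1 (by omega)))).congr (by ring)
  have h6 := h4.le ((hp.1.mul (((n2.lmul hg).mul' hp.1 (by omega)).sub h5)).neg)
  have h7 := hp.le ha1
  omega

theorem sloc3 {k : Type} [Field k] [Algebra ℂ k]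
    (P : Ord k) (dz dw : Derivation ℂ k k) (hdz : ∀ u, P.G 0 u → P.G 0 (dz u))
    (hdw : ∀ u, P.G 0 u → P.G 0 (dw u)) (hτz : P.Ex 0 (dz P.τ)) (hτw : P.Ex 0 (dw P.τ))
    (ν : ℕ) (hν : 0 < ν) (g₁ g₂ : k)
    (hg₁ : P.G 0 (g₁ - 2 * ν / 3 * (dw P.τ / P.τ)))
    (hg₂ : P.G 0 (g₂ + 2 * ν / 3 * (dz P.τ / P.τ)))
    (c₀ c₁ c₂ K₀ : k) (h₀ : P.Ex 0 c₀) (h₁ : P.G 0 c₁) (h₂ : P.G 0 c₂)
    (hK : K₀ = 3 * g₁ - g₂ * c₂ + dz c₂)
    (e₂ : dw c₂ + dz c₁ + 2 * c₂ * g₁ + c₁ * g₂ = K₀ * c₂ + 3 * g₂ * c₁)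
    (e₁ : dw c₁ + dz c₀ + c₁ * g₁ = K₀ * c₁ + 3 * g₂ * c₀) (e₀ : dw c₀ = K₀ * c₀) :
    3 * c₁ = c₂ ^ 2 ∧ 27 * c₀ = c₂ ^ 3 := by
  have : CharZero k := charZero_of_injective_algebraMap (algebraMap ℂ k).injective
  have n2 : P.G 0 (2 : k) := by simpa using Ord.G.nat (P := P) 2
  have n3 : P.G 0 (3 : k) := by simpa using Ord.G.nat (P := P) 3
  have x3 : P.Ex 0 (3 : k) := by simpa using Ord.Ex.nat (P := P) (k := 3) (by norm_num)
  have hK0 : P.G 0 K₀ := Ord.G.of_mul h₀ (((hdw c₀ h₀.1).mono (by omega)).congr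
    (by rw [e₀, mul_comm]))
  obtain ⟨t, rfl⟩ : ∃ t, c₂ = -(3 * t) := ⟨-(c₂ / 3), by ring⟩
  obtain ⟨a, rfl⟩ : ∃ a, c₁ = a + 3 * (t * t) := ⟨c₁ - 3 * (t * t), by ring⟩
  obtain ⟨b, rfl⟩ : ∃ b, c₀ = b - a * t - t * t * t := ⟨c₀ + a * t + t * t * t, by ring⟩
  have ht : P.G 0 t := Ord.G.of_mul x3 ((h₂.neg.mono (by omega)).congr (by ring))
  have ha : P.G 0 a := (h₁.sub (n3.lmul (ht.lmul ht))).congr (by ring)
  have hb : P.G 0 b := ((h₀.1.add (ha.lmul ht)).add ((ht.lmul ht).lmul ht)).congr (by ring)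
  have z3 : dz 3 = 0 := by simpa using dz.map_natCast 3
  have w3 : dw 3 = 0 := by simpa using dw.map_natCast 3
  simp only [map_neg, map_add, map_sub, Derivation.leibniz, smul_eq_mul, z3, w3] at hK e₂ e₁ e₀
  have hA : P.G 0 (g₁ + g₂ * t) := Ord.G.of_mul x3
    (((hK0.add (n3.lmul (hdz t ht))).mono (by omega)).congr (by rw [hK]; ring))
  subst hK
  obtain ⟨rfl, rfl⟩ := key_SLoc3 P dz dw hdz hdw hτz hτw ν hν g₁ g₂
    ((n3.lmul hg₁).congr (by ring)) ((n3.lmul hg₂).congr (by ring)) t a b ht ha hb hA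
    (by linear_combination -e₂) (by linear_combination 2 * t * e₂ + e₁)
    (by linear_combination (3 * t ^ 2 - a) * e₂ + 3 * t * e₁ + 3 * e₀)
  constructor <;> ring

end BiH
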