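import Pool.Agent.P.MP_ecb6bc_gt.SLoc2
import Pool.Agent.P.MP_ecb6bc_gt.SLoc3

/-! An invariant direction field is rational: the local argument along a line. -/

set_option autoImplicit false
set_option linter.unusedSectionVars false
set_option linter.unusedVariables false

noncomputable section

namespace BiH

theorem root_SLoc {k : Type} [Field k] [Algebra ℂ k] {P : Ord k} {c₀ c₁ c₂ s : k}
    (h₀ : P.Ex 0 c₀) (h₁ : P.G 0 c₁) (h₂ : P.G 0 c₂)
    (h : s ^ 3 + c₂ * s ^ 2 + c₁ * s + c₀ = 0) : P.Ex 0 s := by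
  have hs : s ≠ 0 := by
    rintro rfl
    exact h₀.ne (by simpa using h)
  obtain ⟨n, hn⟩ := Ord.exists_ex (P := P) hs
  rcases lt_trichotomy n 0 with hlt | rfl | hlt
  · exfalso
    have e3 := hn.pow 3
    have e2 := hn.1.pow 2
    push_cast at e3 e2
    have a2 : P.G (3 * n + 1) (c₂ * s ^ 2) := h₂.mul' e2 (by omega)
    have a1 : P.G (3 * n + 1) (c₁ * s) := h₁.mul' hn.1 (by omega)
    have a0 : P.G (3 * n + 1) c₀ := h₀.1.mono (by omega)
    exact e3.2 (((a2.add a1).add a0).neg.congr (by linear_combination h))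
  · exact hn
  · exfalso
    have e3 := hn.1.pow 3
    have e2 := hn.1.pow 2
    push_cast at e3 e2
    have a3 : P.G (0 + 1) (s ^ 3) := e3.mono (by omega)
    have a2 : P.G (0 + 1) (c₂ * s ^ 2) := h₂.mul' e2 (by omega)
    have a1 : P.G (0 + 1) (c₁ * s) := h₁.mul' hn.1 (by omega)
    exact h₀.2 (((a3.add a2).add a1).neg.congr (by linear_combination h))

theorem sloc {k K : Type} [Field k] [Algebra ℂ k] [Field K] [Algebra ℂ K] (φ : k →ₐ[ℂ] K)
    (P : Ord k) (dz dw : Derivation ℂ k k) (hdz : ∀ u, P.G 0 u → P.G 0 (dz u))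
    (hdw : ∀ u, P.G 0 u → P.G 0 (dw u)) (hτz : P.Ex 0 (dz P.τ)) (hτw : P.Ex 0 (dw P.τ))
    (ν : ℕ) (hν : 0 < ν) (g₁ g₂ c₀ c₁ c₂ : k)
    (hg₁ : P.G 0 (g₁ - 2 * ν / 3 * (dw P.τ / P.τ)))
    (hg₂ : P.G 0 (g₂ + 2 * ν / 3 * (dz P.τ / P.τ)))
    (h₀ : P.Ex 0 c₀) (h₁ : P.G 0 c₁) (h₂ : P.G 0 c₂)
    (Y : Derivation ℂ K K) (t : K) (hY : ∀ f, Y (φ f) = t * φ (dz f) + φ (dw f))
    (ht : Y t = φ g₁ * t + φ g₂ * t ^ 2)
    (hc : t ^ 3 + φ c₂ * t ^ 2 + φ c₁ * t + φ c₀ = 0) :
    ∃ s : k, t = φ s ∧ P.Ex 0 s ∧ P.G 1 (s * dz P.τ - dw P.τ) := by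
  have hinj : Function.Injective φ := (φ : k →+* K).injective
  by_cases hr : ∃ s : k, t = φ s
  · obtain ⟨s, rfl⟩ := hr
    have hs : P.Ex 0 s := root_SLoc h₀ h₁ h₂ (hinj (by simpa using hc))
    refine ⟨s, rfl, hs, ?_⟩
    have e : s * dz s + dw s = g₁ * s + g₂ * s ^ 2 := hinj (by simpa [hY] using ht)
    have hγ : P.Ex 0 (2 * ν / 3 : k) := by
      have a := (Ord.Ex.nat (P := P) (k := 2 * ν) (by omega)).mul
        (Ord.Ex.nat (P := P) (k := 3) (by omega)).inv
      simpa [div_eq_mul_inv] using a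
    have hf : P.Ex (-1) (2 * ν / 3 * s * P.τ⁻¹) :=
      (hγ.mul hs).mul' Ord.Ex.tau.inv (by simp)
    refine Ord.G.of_mul hf ?_
    have a1 := hg₁.rmul hs.1
    have a2 := (hg₂.rmul hs.1).rmul hs.1
    have a3 := (hs.1.rmul (hdz s hs.1)).add (hdw s hs.1)
    refine (((a1.add a2).sub a3).congr ?_).mono (by simp)
    rw [e]
    ring
  · exfalso
    have lin : ∀ x y : k, φ x * t + φ y = 0 → x = 0 ∧ y = 0 := fun x y h => by
      have hx : x = 0 := by
        by_contra hx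
        have hx' : φ x ≠ 0 := fun e => hx (hinj (by simpa using e))
        refine hr ⟨-y / x, ?_⟩
        rw [map_div₀, map_neg, eq_div_iff hx']
        linear_combination h
      refine ⟨hx, hinj ?_⟩
      simpa [hx] using h
    have n2 : (2 : k) ≠ 0 := by simpa using (Ord.Ex.nat (P := P) (k := 2) (by omega)).ne
    have n3 : (3 : k) ≠ 0 := by simpa using (Ord.Ex.nat (P := P) (k := 3) (by omega)).ne
    by_cases hq : ∃ d₁ d₀ : k, t ^ 2 + φ d₁ * t + φ d₀ = 0
    · obtain ⟨d₁, d₀, hq⟩ := hq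
      obtain ⟨u1, u0⟩ := lin (c₁ - d₀ - (c₂ - d₁) * d₁) (c₀ - (c₂ - d₁) * d₀) (by
        simp only [map_sub, map_mul]
        linear_combination hc - (t + (φ c₂ - φ d₁)) * hq)
      have hcu : P.Ex 0 (d₁ - c₂) := root_SLoc h₀ h₁ h₂ (by
        linear_combination (d₁ - c₂) * u1 + u0)
      have hd₁ : P.G 0 d₁ := (hcu.1.add h₂).congr (by ring)
      have hd₀ : P.Ex 0 d₀ := by
        refine (h₀.mul' hcu.neg.inv (by simp)).congr ?_
        rw [eq_mul_inv_iff_mul_eq₀ hcu.neg.ne]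
        linear_combination -u0
      have hD := congrArg Y hq
      simp only [map_add, Derivation.leibniz, Derivation.leibniz_pow, hY, ht, map_zero,
        smul_eq_mul, nsmul_eq_mul] at hD
      obtain ⟨v1, v0⟩ := lin
        (d₁ * g₁ + dz d₀ + dw d₁ - ((2 * g₁ - g₂ * d₁ + dz d₁) * d₁ + 2 * g₂ * d₀))
        (dw d₀ - (2 * g₁ - g₂ * d₁ + dz d₁) * d₀) (by
          simp only [map_sub, map_mul, map_add, map_ofNat]
          push_cast at hD
          linear_combination hD -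
            (2 * φ g₂ * t + (2 * φ g₁ - φ g₂ * φ d₁ + φ (dz d₁))) * hq)
      have key := sloc2 P dz dw hdz hdw hτz hτw ν hν g₁ g₂ hg₁ hg₂ d₀ d₁ _ hd₀ hd₁ rfl
        (sub_eq_zero.1 v1) (sub_eq_zero.1 v0)
      have key' := congrArg φ key
      simp only [map_mul, map_pow, map_ofNat] at key'
      have hz : (φ 2 * t + φ d₁) ^ 2 = 0 := by
        rw [map_ofNat]
        linear_combination 4 * hq - key'
      exact n2 (lin _ _ (pow_eq_zero_iff (by omega) |>.1 hz)).1
    · have quad : ∀ x y z : k, φ x * t ^ 2 + φ y * t + φ z = 0 → x = 0 ∧ y = 0 ∧ z = 0 :=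
        fun x y z h => by
          have hx : x = 0 := by
            by_contra hx
            have hx' : φ x ≠ 0 := fun e => hx (hinj (by simpa using e))
            refine hq ⟨y / x, z / x, ?_⟩
            rw [map_div₀, map_div₀]
            field_simp
            linear_combination h
          refine ⟨hx, lin y z ?_⟩
          simpa [hx] using h
      have hD := congrArg Y hc
      simp only [map_add, Derivation.leibniz, Derivation.leibniz_pow, hY, ht, map_zero,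
        smul_eq_mul, nsmul_eq_mul] at hD
      obtain ⟨v2, v1, v0⟩ := quad
        (dw c₂ + dz c₁ + 2 * c₂ * g₁ + c₁ * g₂ -
          ((3 * g₁ - g₂ * c₂ + dz c₂) * c₂ + 3 * g₂ * c₁))
        (dw c₁ + dz c₀ + c₁ * g₁ - ((3 * g₁ - g₂ * c₂ + dz c₂) * c₁ + 3 * g₂ * c₀))
        (dw c₀ - (3 * g₁ - g₂ * c₂ + dz c₂) * c₀) (by
          simp only [map_sub, map_mul, map_add, map_ofNat]
          push_cast at hD
          linear_combination hD -
            (3 * φ g₂ * t + (3 * φ g₁ - φ g₂ * φ c₂ + φ (dz c₂))) * hc)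
      obtain ⟨k1, k0⟩ := sloc3 P dz dw hdz hdw hτz hτw ν hν g₁ g₂ hg₁ hg₂ c₀ c₁ c₂ _ h₀ h₁ h₂ rfl
        (sub_eq_zero.1 v2) (sub_eq_zero.1 v1) (sub_eq_zero.1 v0)
      have k1' := congrArg φ k1
      have k0' := congrArg φ k0
      simp only [map_mul, map_pow, map_ofNat] at k1' k0'
      have hz : (φ 3 * t + φ c₂) ^ 3 = 0 := by
        rw [map_ofNat]
        linear_combination 27 * hc - 9 * t * k1' - k0'
      exact n3 (lin _ _ (pow_eq_zero_iff (by omega) |>.1 hz)).1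

end BiH
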