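import Pool.Agent.P.MP_ecb6bc_gt.Ord

/-! An invariant quadratic polynomial is a square. -/

set_option autoImplicit false
set_option linter.unusedSectionVars false
set_option linter.unusedVariables false

noncomputable section

namespace BiH

theorem sloc2 {k : Type} [Field k] [Algebra ℂ k]
    (P : Ord k) (dz dw : Derivation ℂ k k) (hdz : ∀ u, P.G 0 u → P.G 0 (dz u))
    (hdw : ∀ u, P.G 0 u → P.G 0 (dw u)) (hτz : P.Ex 0 (dz P.τ)) (hτw : P.Ex 0 (dw P.τ))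
    (ν : ℕ) (hν : 0 < ν) (g₁ g₂ : k)
    (hg₁ : P.G 0 (g₁ - 2 * ν / 3 * (dw P.τ / P.τ)))
    (hg₂ : P.G 0 (g₂ + 2 * ν / 3 * (dz P.τ / P.τ)))
    (c₀ c₁ K₀ : k) (h₀ : P.Ex 0 c₀) (h₁ : P.G 0 c₁) (hK : K₀ = 2 * g₁ - g₂ * c₁ + dz c₁)
    (e₁ : c₁ * g₁ + dz c₀ + dw c₁ = K₀ * c₁ + 2 * g₂ * c₀) (e₀ : dw c₀ = K₀ * c₀) :
    4 * c₀ = c₁ ^ 2 := by
  have : CharZero k := charZero_of_injective_algebraMap (algebraMap ℂ k).injective
  by_contra hne
  obtain ⟨n, hn⟩ := Ord.exists_ex (P := P) (sub_ne_zero.2 hne)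
  have two : P.G 0 (2 : k) := by simpa using Ord.G.nat (P := P) 2
  have three : P.G 0 (3 : k) := by simpa using Ord.G.nat (P := P) 3
  have four : P.G 0 (4 : k) := by simpa using Ord.G.nat (P := P) 4
  have n0 : 0 ≤ n := hn.le ((four.lmul h₀.1).sub ((h₁.lmul h₁).congr (sq c₁)))
  have hx : P.Ex (-1) (dw P.τ / P.τ) :=
    (hτw.mul' Ord.Ex.tau.inv (by norm_num)).congr (div_eq_mul_inv _ _)
  have hγ : P.Ex 0 (2 * ν / 3 : k) := by
    have := Ord.Ex.const (P := P) (c := 2 * ν / 3) (by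
      have : (ν : ℂ) ≠ 0 := by exact_mod_cast hν.ne'
      exact div_ne_zero (mul_ne_zero two_ne_zero this) three_ne_zero)
    simpa only [map_div₀, map_mul, map_ofNat, map_natCast] using this
  have hK0 : P.G 0 K₀ := ((hdw _ h₀.1).mul' h₀.inv.1 (by norm_num)).congr (by
    rw [e₀, mul_inv_cancel_right₀ h₀.ne])
  have hS : P.G 0 (2 * (dw P.τ / P.τ) + c₁ * (dz P.τ / P.τ)) := by
    refine Ord.G.of_mul hγ ?_
    rw [add_zero]
    exact (((hK0.sub (hdz _ h₁)).sub (two.lmul hg₁)).add (hg₂.lmul h₁)).congr (by rw [hK]; ring)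
  have d1 := hn.deriv dz 1 0 fun u hu => (hdz u hu).congr (one_mul _)
  have d2 := hn.deriv dw 1 0 fun u hu => (hdw u hu).congr (one_mul _)
  rw [add_zero, one_mul] at d1 d2
  have l : ∀ d : Derivation ℂ k k, d (4 * c₀ - c₁ ^ 2) = 4 * d c₀ - 2 * c₁ * d c₁ := by
    intro d
    have h4 : d 4 = 0 := by simpa using d.map_natCast 4
    rw [map_sub, sq, d.leibniz, d.leibniz, h4]
    simp only [smul_eq_mul]
    ring
  rw [l] at d1 d2
  have fin := three.lmul ((((((two.lmul (hK0.lmul hn.1)).sub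
    (two.lmul (hg₂.lmul (h₁.lmul hn.1)))).add (two.lmul (hγ.1.lmul (hS.lmul hn.1)))).add
      (h₁.lmul d1)).sub (two.lmul d2)).add ((Ord.G.int n).lmul (hS.lmul hn.1)))
  have ex := (Ord.Ex.int (P := P) (k := 12 * n + 8 * ν) (by omega)).mul (hx.mul hn)
  refine ex.2 ((fin.mono (by omega)).congr ?_)
  push_cast
  linear_combination (-12 * c₁) * e₁ + 24 * e₀ + (-6 * c₁ ^ 2) * hK

end BiH
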