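import Pool.Agent.P.MP_ecb6bc_gt.SGlob
import Pool.Agent.P.MP_ecb6bc_gt.SLoc
import Pool.Agent.P.MP_ecb6bc_gt.Cubic

/-! The case of algebraically independent coordinates. -/

set_option autoImplicit false
set_option linter.unusedSectionVars false
set_option linter.unusedVariables false

noncomputable section

namespace BiH

open Polynomial

variable {K : Type} [Field K] [Algebra ℂ K] {J : Type} [Fintype J] {D : Derivation ℂ K K}
  {μ : J → ℕ} {ω lam : J → K} {κ z w ζ : K} {A B C : J → ℂ}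

theorem map_mom_surf {L L' : Type} [Field L] [Algebra ℂ L] [Field L'] [Algebra ℂ L']
    (φ : L →ₐ[ℂ] L') (μ : J → ℕ) (A B C : J → ℂ) (z w : L) (r s : ℕ) :
    φ (mom μ A B C z w r s) = mom μ A B C (φ z) (φ w) r s := by
  simp only [mom, map_sum, map_mul, map_pow, map_div₀, map_natCast, map_qf]

/-- The extreme coefficients of the cubic have a pole of exact order three. -/
theorem lead_surf {L : Type} [Field L] [Algebra ℂ L] {P : Ord L} {ν : ℕ} (hν : 0 < ν)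
    {a m₁ m₂ m₃ : L} (ha : P.Ex (-1) a) (h₁ : P.G 0 (m₁ - ν * a)) (h₂ : P.G 0 (m₂ - ν * a ^ 2))
    (h₃ : P.G 0 (m₃ - ν * a ^ 3)) : P.Ex (-3) (6 * m₁ * m₂ + 9 * m₃) := by
  have n6 : P.G 0 (6 : L) := by simpa using Ord.G.nat (P := P) 6
  have n9 : P.G 0 (9 : L) := by simpa using Ord.G.nat (P := P) 9
  have nν : P.G 0 (ν : L) := Ord.G.nat ν
  have a2 : P.G (-2) (a ^ 2) := by simpa using ha.1.pow 2
  have a3 : P.Ex (-3) (a ^ 3) := by simpa using ha.pow 3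
  have e : P.Ex (-3) (((6 * ν ^ 2 + 9 * ν : ℕ) : L) * a ^ 3) :=
    (Ord.Ex.nat (by positivity)).mul' a3 (by norm_num)
  refine e.of_sub ?_
  have t1 : P.G (-2) (ν * a * (m₂ - ν * a ^ 2)) := (nν.lmul ha.1).mul' h₂ (by norm_num)
  have t2 : P.G (-2) ((m₁ - ν * a) * (ν * a ^ 2)) := h₁.lmul (nν.lmul a2)
  have t3 : P.G (-2) ((m₁ - ν * a) * (m₂ - ν * a ^ 2)) := h₁.mul' h₂ (by norm_num)
  have t4 : P.G (-2) (m₃ - ν * a ^ 3) := h₃.mono (by norm_num)
  exact ((n6.lmul ((t1.add t2).add t3)).add (n9.lmul t4)).congr (by push_cast; ring)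

/-- The middle coefficients of the cubic have a pole of order at most three. -/
theorem mid_surf {L : Type} [Field L] [Algebra ℂ L] {P : Ord L} {m₀ x y x₂ u v : L}
    (h₀ : P.G 0 m₀) (hx : P.G (-1) x) (hy : P.G (-1) y) (hx₂ : P.G (-2) x₂) (hu : P.G (-2) u)
    (hv : P.G (-3) v) :
    P.G (-3) (4 * x ^ 2 * y + 12 * y * x₂ + 6 * x * u - 9 * v + 12 * x * (2 * m₀ + 3)) := by
  have n : ∀ k : ℕ, P.G 0 (k : L) := Ord.G.nat
  have t1 : P.G (-3) (x * x * y) := (hx.mul hx).mul' hy (by norm_num)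
  have t2 : P.G (-3) (y * x₂) := hy.mul' hx₂ (by norm_num)
  have t3 : P.G (-3) (x * u) := hx.mul' hu (by norm_num)
  have t4 : P.G (-3) (x * (((2 : ℕ) : L) * m₀ + ((3 : ℕ) : L))) :=
    hx.mul' (((n 2).lmul h₀).add (n 3)) (by norm_num)
  exact ((((((n 4).lmul t1).add ((n 12).lmul t2)).add ((n 6).lmul t3)).sub
    ((n 9).lmul hv)).add ((n 12).lmul t4)).congr (by push_cast; ring)

/-- The local argument along the line with index `j`. -/
theorem loc_surf {dz dw : Derivation ℂ kk kk} (hd : Part dz dw) (hμ : ∀ j, 0 < μ j)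
    (h : ∀ j, B j ^ 2 - A j * C j ≠ 0) (φ : kk →ₐ[ℂ] K) (Y : Derivation ℂ K K) (t : K)
    (M : ℕ → ℕ → kk) (hM : M = mom μ A B C zk wk)
    (hY : ∀ f, Y (φ f) = t * φ (dz f) + φ (dw f))
    (ht : Y t = φ (2 / 3 * (M 0 1 + 3) / (zk - wk)) * t +
      φ (2 / 3 * (M 1 0 + 3) / (zk - wk)) * t ^ 2)
    (hc : φ (6 * M 1 0 * M 2 0 + 9 * M 3 0) * t ^ 3 +
      φ (4 * M 1 0 ^ 2 * M 0 1 + 12 * M 0 1 * M 2 0 + 6 * M 1 0 * M 1 1 - 9 * M 2 1 +
        12 * M 1 0 * (2 * M 0 0 + 3)) * t ^ 2 +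
      φ (4 * M 0 1 ^ 2 * M 1 0 + 12 * M 1 0 * M 0 2 + 6 * M 0 1 * M 1 1 - 9 * M 1 2 +
        12 * M 0 1 * (2 * M 0 0 + 3)) * t + φ (6 * M 0 1 * M 0 2 + 9 * M 0 3) = 0) (j : J) :
    ∃ (P : Ord kk) (s : kk), Along P (qR (A j) (B j) (C j)) ∧ t = φ s ∧ P.Ex 0 s ∧
      P.G 1 (s * dz P.τ - dw P.τ) := by
  have : CharZero kk := charZero_of_injective_algebraMap (algebraMap ℂ kk).injective
  obtain ⟨P, hP⟩ := exists_along (prime_qR (h j))
  obtain ⟨hdz, hdw⟩ := hP.pres hd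
  obtain ⟨uz, uw, uδ, uzz, uww, eww, ezz⟩ := hP.units (h j) hd
  obtain ⟨ν, hν, hpol⟩ := hP.mom_polar μ hμ A B C h j
  rw [← hM] at hpol
  have hτ := P.τ_ne
  have hδ := uδ.ne
  have iτ : P.Ex (-1) P.τ⁻¹ := Ord.Ex.tau.inv
  have iδ : P.G 0 (zk - wk)⁻¹ := by simpa using uδ.inv.1
  obtain ⟨a, ha⟩ : ∃ a, a = qf (A j) (B j) (C j) wk wk / P.τ := ⟨_, rfl⟩
  obtain ⟨b, hb⟩ : ∃ b, b = qf (A j) (B j) (C j) zk zk / P.τ := ⟨_, rfl⟩
  rw [← ha, ← hb] at hpol
  have xa : P.Ex (-1) a := (uww.mul' iτ (by norm_num)).congr (by rw [ha, div_eq_mul_inv])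
  have xb : P.Ex (-1) b := (uzz.mul' iτ (by norm_num)).congr (by rw [hb, div_eq_mul_inv])
  have n : ∀ k : ℕ, P.G 0 (k : kk) := Ord.G.nat
  have hG : ∀ (r s : ℕ) (k : ℤ), k ≤ -((r : ℤ) + s) → P.G k (M r s) := fun r s k hk =>
    (((hpol r s).mono (by omega)).add ((((n ν).lmul (xa.1.pow r)).mul' (xb.1.pow s)
      (by omega)))).congr (by ring)
  have c23 : P.G 0 (2 / 3 : kk) :=
    ((n 2).lmul (Ord.G.inv_nat 3)).congr (by push_cast; ring)
  have hg₁ : P.G 0 (2 / 3 * (M 0 1 + 3) / (zk - wk) - 2 * ν / 3 * (dw P.τ / P.τ)) := by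
    refine ((c23.lmul (((hpol 0 1).add (n ν)).add (n 3))).lmul iδ).congr ?_
    rw [hb, ezz]
    push_cast
    field_simp
    ring
  have hg₂ : P.G 0 (2 / 3 * (M 1 0 + 3) / (zk - wk) + 2 * ν / 3 * (dz P.τ / P.τ)) := by
    refine ((c23.lmul (((hpol 1 0).add (n ν)).add (n 3))).lmul iδ).congr ?_
    rw [ha, eww]
    push_cast
    field_simp
    ring
  have x3 : P.Ex (-3) (6 * M 1 0 * M 2 0 + 9 * M 3 0) :=
    lead_surf hν xa (by simpa using hpol 1 0) (by simpa using hpol 2 0) (by simpa using hpol 3 0)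
  have x0 : P.Ex (-3) (6 * M 0 1 * M 0 2 + 9 * M 0 3) :=
    lead_surf hν xb (by simpa using hpol 0 1) (by simpa using hpol 0 2) (by simpa using hpol 0 3)
  have x2 := mid_surf (hG 0 0 0 (by norm_num)) (hG 1 0 (-1) (by norm_num))
    (hG 0 1 (-1) (by norm_num)) (hG 2 0 (-2) (by norm_num)) (hG 1 1 (-2) (by norm_num))
    (hG 2 1 (-3) (by norm_num))
  have x1 := mid_surf (hG 0 0 0 (by norm_num)) (hG 0 1 (-1) (by norm_num))
    (hG 1 0 (-1) (by norm_num)) (hG 0 2 (-2) (by norm_num)) (hG 1 1 (-2) (by norm_num))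
    (hG 1 2 (-3) (by norm_num))
  have h3 : φ (6 * M 1 0 * M 2 0 + 9 * M 3 0) ≠ 0 := (map_ne_zero φ).2 x3.ne
  obtain ⟨s, hs⟩ := sloc φ P dz dw hdz hdw uz uw ν hν _ _ _ _ _ hg₁ hg₂
    (x0.mul' x3.inv (by norm_num)) (x1.mul' x3.inv.1 (by norm_num))
    (x2.mul' x3.inv.1 (by norm_num)) Y t hY ht (by
      rw [map_mul φ _ _⁻¹, map_mul φ _ _⁻¹, map_mul φ _ _⁻¹, map_inv₀]
      refine mul_left_cancel₀ h3 ?_
      rw [mul_zero, ← hc]
      field_simp)
  exact ⟨P, s, hP, hs⟩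

theorem surf (hS : Sys D μ ω lam κ) (hF : Frame D ω lam κ z w ζ A B C)
    (hind : ∀ r : RR, aevalAeval w z r = 0 → r = 0) : κ = 0 := by
  have : CharZero K := charZero_of_injective_algebraMap (algebraMap ℂ K).injective
  rcases isEmpty_or_nonempty J with hJ | ⟨⟨j₀⟩⟩
  · have h := hS.tr
    rw [Finset.univ_eq_empty, Finset.sum_empty] at h
    linear_combination (1 / 3 : K) * h
  have hinj : Function.Injective (aevalAeval w z : RR →ₐ[ℂ] K) :=
    (injective_iff_map_eq_zero _).2 hind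
  obtain ⟨φ, φz, φw⟩ : ∃ φ : kk →ₐ[ℂ] K, φ zk = z ∧ φ wk = w :=
    ⟨IsFractionRing.liftAlgHom hinj,
      (IsFractionRing.lift_algebraMap hinj _).trans (aevalAeval_Y w z),
      (IsFractionRing.lift_algebraMap hinj _).trans (aevalAeval_X w z)⟩
  obtain ⟨dz, dw, hd⟩ := exists_part
  have hδ : z - w ≠ 0 := sub_ne_zero.2 hF.zw
  have hm : ∀ r s, φ (mom μ A B C zk wk r s) = mom μ A B C z w r s := fun r s => by
    rw [map_mom_surf, φz, φw]
  have hκ := kappa_eq hS hF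
  have hY : ∀ f, ((2 * ζ / (z - w)) • D) (φ f) = ζ ^ 2 * φ (dz f) + φ (dw f) := fun f => by
    rw [Derivation.smul_apply, hd.chain φ D f, φz, φw, hF.dz, smul_eq_mul]
    have e := hF.dw
    field_simp
    linear_combination (2 * φ (dw f)) * e
  have ht : ((2 * ζ / (z - w)) • D) (ζ ^ 2) =
      φ (2 / 3 * (mom μ A B C zk wk 0 1 + 3) / (zk - wk)) * ζ ^ 2 +
      φ (2 / 3 * (mom μ A B C zk wk 1 0 + 3) / (zk - wk)) * (ζ ^ 2) ^ 2 := by
    rw [Derivation.smul_apply, Derivation.leibniz_pow, hF.dζ]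
    simp only [map_div₀, map_mul, map_add, map_sub, map_ofNat, hm, φz, φw, smul_eq_mul,
      nsmul_eq_mul, Nat.cast_ofNat, Nat.add_one_sub_one, pow_one]
    field_simp
    linear_combination ζ ^ 2 * hκ
  have hloc := loc_surf hd hS.pos hF.disc φ _ (ζ ^ 2) _ rfl hY ht (by
    simp only [map_mul, map_add, map_sub, map_pow, map_ofNat, hm]
    linear_combination cubic hS hF _ rfl)
  obtain ⟨P₀, s, -, hs, hs0, -⟩ := hloc j₀
  have hg := sglob hd μ hS.pos A B C hF.disc s hs0.ne (φ.injective (by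
      have e := hY s
      rw [← hs, ht] at e
      change φ _ = φ _
      rw [map_add, map_mul, map_add, map_mul, map_mul φ _ (s ^ 2), map_pow, ← hs, e]))
    fun j => by
      obtain ⟨P, s', hP, hs', h1, h2⟩ := hloc j
      obtain rfl : s' = s := φ.injective (hs'.symm.trans hs)
      exact ⟨P, hP, h1, h2⟩
  have hg' := congrArg φ hg
  rw [map_add, map_mul, hm, hm, ← hs, map_zero, ← hκ] at hg'
  have hi : iu K ≠ 0 := fun h0 => by
    have h2 := iu_sq K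
    rw [h0] at h2
    norm_num at h2
  exact (mul_eq_zero.1 hg').resolve_left (mul_ne_zero (mul_ne_zero (by norm_num) hi) hF.ζ0)

end BiH
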