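import Pool.Agent.P.MP_ecb6bc_gt.SDefs

/-! Pole of the curvature: the case of maximal pole order. -/

set_option autoImplicit false
set_option linter.unusedSectionVars false
set_option linter.unusedVariables false

noncomputable section

namespace BiH

theorem val_a {L : Type} [Field L] [Algebra ℂ L] (P : Ord L) (D : Derivation ℂ L L) (ε : L) (σ : ℤ)
    (hε : P.Ex (-σ) ε)
    (hP : ∀ (n : ℤ) (f : L), P.G n f → P.G (n - σ + 1) (D f - n * ε * f))
    {J : Type} [Fintype J] {μ : J → ℕ} {ω lam : J → L} {κ : L} (hS : Sys D μ ω lam κ)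
    (a : ℤ) (ha : 0 < a) (hσ : σ ≤ a) (hω : ∀ j, P.G (-a) (ω j)) (hl : ∀ j, P.G (-a) (lam j))
    (hκ : P.Ex (-a) κ) : False := by
  obtain ⟨e, he⟩ : ∃ e, e = (a : L) * ε := ⟨_, rfl⟩
  have e0 : P.G (-σ) e := he ▸ (Ord.G.int a).lmul hε.1
  have e1 : P.G (-a) e := e0.mono (by omega)
  have h0 : ∀ f, P.G (-a) f → P.G (-a - σ + 1) (D f + e * f) := fun f hf =>
    (hP _ f hf).congr (by rw [he]; push_cast; ring)
  have h1 : ∀ f, P.G (-a) f → P.G (-2 * a + 1) (D f + e * f) := fun f hf =>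
    (h0 f hf).mono (by omega)
  have hA : ∀ j, P.G (-2 * a + 1) (e * ω j - ω j ^ 2 - κ * lam j) := fun j =>
    ((h1 _ (hω j)).add (Ord.G.one.mono (by omega))).congr (by rw [hS.dω]; ring)
  have hB : ∀ j, P.G (-2 * a + 1) ((κ - lam j) * ω j + e * lam j) := fun j =>
    (h1 _ (hl j)).congr (by rw [hS.dl])
  have hC : ∀ j, P.G (-2 * a + 1) (lam j ^ 2 + ω j ^ 2) := fun j =>
    Ord.G.of_mul hκ ((((hω j).mul (hB j)).sub ((hl j).mul (hA j))).congr (by ring))
  have hE : ∀ j, P.G (-2 * a + 1) (e * ω j - κ * lam j + lam j ^ 2) := fun j =>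
    ((hA j).add (hC j)).congr (by ring)
  have u1 := h0 κ hκ.1
  have u0 : P.G (-a - σ) (D κ) :=
    ((u1.mono (by omega)).sub (e0.mul' hκ.1 (by omega))).congr (by ring)
  have u2 : P.G (-3 * a + 1) (D (D κ) - (a + σ) * ε * e * κ) :=
    (((hP _ _ u0).mono (by omega)).sub
      (((Ord.G.int (a + σ)).lmul hε.1).mul' u1 (by omega))).congr (by push_cast; ring)
  have u3 : P.G (-3 * a + 1) ((a - σ) * ε * e * κ) := by
    rcases hσ.eq_or_lt with h | h
    · rw [h, sub_self, zero_mul, zero_mul, zero_mul]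
      exact Ord.G.zero _
    · exact ((((Ord.G.int (a - σ)).lmul hε.1).mul e0).mul' hκ.1 (by omega)).congr
        (by push_cast; ring)
  have s1 : P.G (-a) (∑ j, (μ j : L) * ω j) := Ord.G.sum _ fun j _ => (Ord.G.nat _).lmul (hω j)
  have s0 : P.G 0 (∑ j, (μ j : L) + 1) := (Ord.G.sum _ fun j _ => Ord.G.nat _).add Ord.G.one
  have n1 : P.G (-2 * a + 1)
      (2 * e ^ 2 - e * ∑ j, (μ j : L) * ω j - κ ^ 2 - ∑ j, (μ j : L) * lam j ^ 2) := by
    refine Ord.G.of_mul hκ (Ord.G.mono (n := -3 * a + 1) ?_ (by omega))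
    refine (((u3.sub u2).sub (s1.mul' (h1 κ hκ.1) (by omega))).sub
      (hκ.1.mul' s0 (by omega))).congr ?_
    linear_combination hS.nor + 2 * e * κ * he
  have s2 : P.G (-2 * a + 1) (∑ j, (μ j : L) * (e * ω j - κ * lam j + lam j ^ 2)) :=
    Ord.G.sum _ fun j _ => (Ord.G.nat _).lmul (hE j)
  have s3 : ∑ j, (μ j : L) * (e * ω j - κ * lam j + lam j ^ 2) =
      e * ∑ j, (μ j : L) * ω j - κ * ∑ j, (μ j : L) * lam j + ∑ j, (μ j : L) * lam j ^ 2 := by
    rw [Finset.mul_sum, Finset.mul_sum, ← Finset.sum_sub_distrib, ← Finset.sum_add_distrib]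
    exact Finset.sum_congr rfl fun j _ => by ring
  have n2 : P.G (-2 * a + 1) (e ^ 2 + κ ^ 2) :=
    Ord.G.of_mul (Ord.Ex.nat (P := P) two_ne_zero) (((n1.add s2).mono (by omega)).congr (by
      rw [s3, hS.tr]
      push_cast
      ring))
  have hc : ∀ j, ∃ c : ℕ, P.G (-a + 1) (lam j - c * κ) := fun j => by
    by_contra hn
    rw [not_exists] at hn
    have x1 : P.Ex (-a) (lam j) := ⟨hl j, by simpa using hn 0⟩
    have x2 : P.Ex (-a) (lam j - (2 : ℕ) * κ) := ⟨(hl j).sub ((Ord.G.nat 2).lmul hκ.1), hn 2⟩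
    refine ((x1.mul x1).mul x2).2 (Ord.G.mono (n := -a + (-2 * a + 1)) ?_ (by omega))
    exact (((e1.mul (hB j)).sub ((hκ.1.sub (hl j)).mul (hE j))).sub ((hl j).mul n2)).congr
      (by push_cast; ring)
  choose c hc using hc
  have s4 : P.G (-a + 1) (∑ j, (μ j : L) * (lam j - c j * κ)) :=
    Ord.G.sum _ fun j _ => (Ord.G.nat _).lmul (hc j)
  refine ((Ord.Ex.nat (P := P) (k := ∑ j, μ j * c j + 3) (by omega)).mul hκ).2
    ((s4.neg.mono (by omega)).congr ?_)
  simp only [mul_sub, Finset.sum_sub_distrib, hS.tr, ← mul_assoc, ← Finset.sum_mul]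
  push_cast
  ring

end BiH
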